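import Pool.Agent.DHN.F1

/-!
# [DHN-F5] trace of an element with a fixed point; upper triangular action
-/

set_option autoImplicit false

open Topology Matrix ComplexConjugate Filter

namespace DHN

/-- an element fixing `(0,1)` -/
theorem fixed_unitary (a b c d : ℂ) (hdet : a * d - b * c = 1)
    (h1 : Complex.normSq d + Complex.normSq c = 1) (h2 : b * conj d + a * conj c = 0) :
    a = conj d ∧ b = -conj c := by
  have h1c : d * conj d + c * conj c = 1 := by
    rw [Complex.mul_conj, Complex.mul_conj]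
    exact_mod_cast h1
  constructor
  · linear_combination (-a) * h1c + conj d * hdet + c * h2
  · linear_combination (-b) * h1c + (-conj c) * hdet + d * h2

/-- the trace of an element fixing `(0,1)` -/
theorem fixed_trace_base (g : SL2C) (h : g • (⟨(0, 1), one_pos⟩ : H3) = ⟨(0, 1), one_pos⟩) :
    ∃ r : ℝ, Matrix.trace g.1 = (r : ℂ) ∧ |r| ≤ 2 ∧ (|r| = 2 → (g : SL2C).1 = 1 ∨ (g : SL2C).1 = -1) := by
  have hdet : g 0 0 * g 1 1 - g 0 1 * g 1 0 = 1 := by
    have := g.det_coe
    rwa [Matrix.det_fin_two] at this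
  have hz := congrArg (fun y : H3 => y.1.1) h
  have ht := congrArg (fun y : H3 => y.1.2) h
  simp only [smul_z, smul_t] at hz ht
  have hd := den_pos g (⟨(0, 1), one_pos⟩ : H3)
  have hden : den g (⟨(0, 1), one_pos⟩ : H3) = 1 := by
    rw [div_eq_iff hd.ne'] at ht
    linarith
  rw [hden] at hz
  have h1 : Complex.normSq (g 1 1) + Complex.normSq (g 1 0) = 1 := by
    rw [← hden]
    unfold den
    simp
  have h2 : g 0 1 * conj (g 1 1) + g 0 0 * conj (g 1 0) = 0 := by
    simpa using hz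
  obtain ⟨ha, hb⟩ := fixed_unitary _ _ _ _ hdet h1 h2
  have htr : Matrix.trace g.1 = ((2 * (g 1 1).re : ℝ) : ℂ) := by
    rw [Matrix.trace_fin_two]
    have : g.1 0 0 + g.1 1 1 = conj (g 1 1) + g 1 1 := by
      rw [← ha]
    rw [this, add_comm, Complex.add_conj]
  have hre : (g 1 1).re ^ 2 + (g 1 1).im ^ 2 + Complex.normSq (g 1 0) = 1 := by
    rw [← h1, Complex.normSq_apply (g 1 1)]
    ring
  have hc := Complex.normSq_nonneg (g 1 0)
  refine ⟨2 * (g 1 1).re, htr, ?_, ?_⟩
  · rw [abs_le]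
    constructor <;> nlinarith [sq_nonneg (g 1 1).im]
  · intro h3
    have h4 : (2 * (g 1 1).re) ^ 2 = 4 := by
      rw [← sq_abs, h3]
      norm_num
    have h5 : (g 1 1).im ^ 2 + Complex.normSq (g 1 0) = 0 := by nlinarith
    have him : (g 1 1).im = 0 := by
      have : (g 1 1).im ^ 2 = 0 := by nlinarith [sq_nonneg (g 1 1).im]
      exact pow_eq_zero_iff (two_ne_zero) |>.1 this
    have hc0 : g 1 0 = 0 := by
      have : Complex.normSq (g 1 0) = 0 := by nlinarith [sq_nonneg (g 1 1).im]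
      exact Complex.normSq_eq_zero.1 this
    have hb0 : g 0 1 = 0 := by rw [hb, hc0]; simp
    have hre2 : ((g 1 1).re - 1) * ((g 1 1).re + 1) = 0 := by nlinarith
    rcases mul_eq_zero.1 hre2 with h6 | h6
    · left
      have hd1 : g 1 1 = 1 := Complex.ext (by simp; linarith) (by simp [him])
      have ha1 : g 0 0 = 1 := by rw [ha, hd1]; simp
      ext i j
      fin_cases i <;> fin_cases j
      · exact ha1
      · exact hb0
      · exact hc0
      · exact hd1
    · right
      have hd1 : g 1 1 = -1 := Complex.ext (by simp; linarith) (by simp [him])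
      have ha1 : g 0 0 = -1 := by rw [ha, hd1]; simp
      ext i j
      fin_cases i <;> fin_cases j
      · simpa using ha1
      · simpa using hb0
      · simpa using hc0
      · simpa using hd1

/-- [F5] the action of upper triangular matrices -/
theorem smul_upper (g : SL2C) (y : H3) (h : g 1 0 = 0) :
    (g • y).1.1 = (g 0 0) ^ 2 * y.1.1 + g 0 0 * g 0 1 ∧ (g • y).1.2 = Complex.normSq (g 0 0) * y.1.2 := by
  have hdet : g 0 0 * g 1 1 - g 0 1 * g 1 0 = 1 := by
    have := g.det_coe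
    rwa [Matrix.det_fin_two] at this
  rw [h, mul_zero, sub_zero] at hdet
  have h11 : g 1 1 ≠ 0 := right_ne_zero_of_mul_eq_one hdet
  have hden : den g y = Complex.normSq (g 1 1) := by
    unfold den
    rw [h]
    simp
  have hn : Complex.normSq (g 0 0) * Complex.normSq (g 1 1) = 1 := by
    rw [← map_mul, hdet, map_one]
  have hn0 : Complex.normSq (g 1 1) ≠ 0 := right_ne_zero_of_mul_eq_one hn
  constructor
  · rw [smul_z, hden, h]
    have hc : (Complex.normSq (g 1 1) : ℂ) ≠ 0 := by exact_mod_cast hn0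
    rw [div_eq_iff hc, ← Complex.mul_conj]
    simp only [zero_mul, zero_add, map_zero, mul_zero, add_zero]
    linear_combination (-conj (g 1 1)) * (g 0 0 * y.1.1 + g 0 1) * hdet
  · rw [smul_t, hden, div_eq_iff hn0]
    linear_combination (-y.1.2) * hn

/-- the element moving `(0,1)` to `y` -/
theorem exists_mover (y : H3) : ∃ h : SL2C, h • (⟨(0, 1), one_pos⟩ : H3) = y := by
  have hy := y.2
  have hs : 0 < Real.sqrt y.1.2 := Real.sqrt_pos.2 hy
  have hsq : Real.sqrt y.1.2 * Real.sqrt y.1.2 = y.1.2 := Real.mul_self_sqrt hy.le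
  have hsc : ((Real.sqrt y.1.2 : ℝ) : ℂ) ≠ 0 := by exact_mod_cast hs.ne'
  refine ⟨⟨!![((Real.sqrt y.1.2 : ℝ) : ℂ), y.1.1 / ((Real.sqrt y.1.2 : ℝ) : ℂ); 0,
    1 / ((Real.sqrt y.1.2 : ℝ) : ℂ)], ?_⟩, ?_⟩
  · rw [Matrix.det_fin_two_of]
    field_simp
    ring
  · refine Subtype.ext (Prod.ext ?_ ?_)
    · refine (smul_upper _ _ rfl).1.trans ?_
      show ((Real.sqrt y.1.2 : ℝ) : ℂ) ^ 2 * 0 +
        ((Real.sqrt y.1.2 : ℝ) : ℂ) * (y.1.1 / ((Real.sqrt y.1.2 : ℝ) : ℂ)) = y.1.1
      field_simp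
      ring
    · refine (smul_upper _ _ rfl).2.trans ?_
      show Complex.normSq ((Real.sqrt y.1.2 : ℝ) : ℂ) * 1 = y.1.2
      rw [Complex.normSq_ofReal, hsq, mul_one]

/-- [F5] PROOF: conjugate by `h = !![√t, z/√t; 0, 1/√t]` (`h • (0,1) = y`): `g' = h⁻¹ g h` fixes `(0,1)`, has the same
trace. `g' = (a b; c d)` fixes `(0,1)`: `|c|^2 + |d|^2 = 1` and `b conj d + a conj c = 0`, with `ad - bc = 1`: `a = conj d`,
`b = - conj c`. So the trace is `2 Re a`, `|a|^2 + |b|^2 = 1`, and trace `= ± 2` forces `a = ± 1`, `b = c = 0`, `g' = ± 1`, `g = ± 1`. -/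
theorem fixed_trace (g : SL2C) (y : H3) (h : g • y = y) :
    ∃ r : ℝ, Matrix.trace g.1 = (r : ℂ) ∧ |r| ≤ 2 ∧ (|r| = 2 → (g : SL2C).1 = 1 ∨ (g : SL2C).1 = -1) := by
  obtain ⟨k, hk⟩ := exists_mover y
  have h1 : (k⁻¹ * g * k) • (⟨(0, 1), one_pos⟩ : H3) = ⟨(0, 1), one_pos⟩ := by
    rw [mul_smul, mul_smul, hk, h, ← hk, inv_smul_smul]
  obtain ⟨r, hr, hr2, hr3⟩ := fixed_trace_base _ h1
  refine ⟨r, ?_, hr2, ?_⟩
  · rw [← hr, Matrix.SpecialLinearGroup.coe_mul, Matrix.SpecialLinearGroup.coe_mul,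
      Matrix.trace_mul_comm, ← mul_assoc, ← Matrix.SpecialLinearGroup.coe_mul, mul_inv_cancel,
      Matrix.SpecialLinearGroup.coe_one, one_mul]
  · intro h4
    have hkk : g = k * (k⁻¹ * g * k) * k⁻¹ := by group
    rcases hr3 h4 with h5 | h5
    · left
      have h6 : k⁻¹ * g * k = 1 := Subtype.ext h5
      rw [hkk, h6, mul_one, mul_inv_cancel]
      rfl
    · right
      have h6 : k⁻¹ * g * k = -1 := by
        apply Subtype.ext
        rw [h5]
        rfl
      rw [hkk, h6, mul_neg, mul_one, neg_mul, mul_inv_cancel]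
      rfl

end DHN
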