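import Pool.Agent.DHN.R2

/-!
# [DHN-R3] explicit matrices at u = 0
-/

set_option autoImplicit false

open Topology Matrix ComplexConjugate Filter

namespace DHN

theorem om_sq0 : om ^ 2 + om + 1 = 0 := by
  have h3 : ((Real.sqrt 3 : ℝ) : ℂ) ^ 2 = 3 := by
    rw [← Complex.ofReal_pow, Real.sq_sqrt (by norm_num)]
    norm_num
  have hI : Complex.I ^ 2 = -1 := Complex.I_sq
  unfold om
  linear_combination (Complex.I ^ 2 / 4) * h3 + (3 / 4) * hI

theorem I_sqrt3 : Complex.I * (Real.sqrt 3 : ℂ) = 2 * om + 1 := by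
  unfold om
  ring

theorem MX0_coe : (MX 0).1 = !![1, 1; 0, 1] := by
  show !![Complex.exp (0 / 2), 1; 0, Complex.exp (-(0 / 2))] = !![1, 1; 0, 1]
  simp

theorem MY0_coe : (MY 0).1 = !![1, 0; -om, 1] := by
  show !![Complex.exp (0 / 2), 0; -(kk 0), Complex.exp (-(0 / 2))] = !![1, 0; -om, 1]
  rw [kk_zero]
  simp

theorem MX0_inv_coe : ((MX 0)⁻¹).1 = !![1, -1; 0, 1] := by
  rw [Matrix.SpecialLinearGroup.coe_inv, MX0_coe, Matrix.adjugate_fin_two_of]
  simp

theorem MY0_inv_coe : ((MY 0)⁻¹).1 = !![1, 0; om, 1] := by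
  rw [Matrix.SpecialLinearGroup.coe_inv, MY0_coe, Matrix.adjugate_fin_two_of]
  simp

theorem rho_el_word (u : ℂ) : rho u el = lamW (MX u) (MY u) := by
  unfold el lamW
  simp only [map_mul, map_inv, rho_ex, rho_ey]

/-- [R3] PROOF: multiply out (`MX 0`, `MY 0` have entries `1, 1, 0, 1` and `1, 0, -om, 1`; `om^2 = -om - 1`); `1 + 2 om = I √3`. -/
theorem rho0_el : (rho 0 el).1 = !![-1, -(2 * (Complex.I * (Real.sqrt 3 : ℂ))); 0, -1] := by
  rw [rho_el_word]
  unfold lamW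
  simp only [Matrix.SpecialLinearGroup.coe_mul]
  rw [MX0_coe, MY0_coe, MX0_inv_coe, MY0_inv_coe, I_sqrt3]
  have h := om_sq0
  simp only [Matrix.mul_fin_two]
  ext i j
  fin_cases i <;> fin_cases j
  · show _ = (-1 : ℂ)
    simp
    linear_combination (2 - 2 * om) * h
  · show _ = -(2 * (2 * om + 1))
    simp
    linear_combination 2 * h
  · show _ = (0 : ℂ)
    simp
    linear_combination (2 * om ^ 2) * h
  · show _ = (-1 : ℂ)
    simp
    linear_combination (2 - 2 * om) * h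

/-- integer powers of `!![s, t; 0, s]`, `s ^ 2 = 1` -/
theorem zpow_coe (g : SL2C) (s t : ℂ) (hs : s * s = 1) (hg : g.1 = !![s, t; 0, s]) (k : ℤ) :
    (g ^ k).1 = s ^ k • !![1, (k : ℂ) * (s * t); 0, 1] := by
  have hs0 : s ≠ 0 := left_ne_zero_of_mul_eq_one hs
  have hsi : s⁻¹ = s := inv_eq_of_mul_eq_one_right hs
  have hgi : (g⁻¹).1 = !![s, -t; 0, s] := by
    rw [Matrix.SpecialLinearGroup.coe_inv, hg, Matrix.adjugate_fin_two_of]
    simp
  induction k using Int.induction_on with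
  | zero =>
    rw [zpow_zero, Matrix.SpecialLinearGroup.coe_one]
    ext i j
    fin_cases i <;> fin_cases j <;> simp
  | succ k ih =>
    rw [_root_.zpow_add_one, Matrix.SpecialLinearGroup.coe_mul, ih, hg, zpow_add_one₀ hs0]
    simp only [Matrix.smul_mul, Matrix.mul_fin_two]
    ext i j
    fin_cases i <;> fin_cases j
    · simp
    · simp
      linear_combination (-(s ^ k * t)) * hs
    · simp
    · simp
  | pred k ih =>
    rw [_root_.zpow_sub_one, Matrix.SpecialLinearGroup.coe_mul, ih, hgi, zpow_sub_one₀ hs0, hsi]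
    simp only [Matrix.smul_mul, Matrix.mul_fin_two]
    ext i j
    fin_cases i <;> fin_cases j
    · simp
    · simp
      linear_combination ((s ^ k)⁻¹ * t) * hs
    · simp
    · simp

/-- [R3] -/
theorem rho0_pel (i j : ℤ) : (rho 0 (pel i j)).1 =
    (-1 : ℂ) ^ j • !![1, (i : ℂ) + 2 * j * (Complex.I * (Real.sqrt 3 : ℂ)); 0, 1] := by
  unfold pel
  rw [map_mul, map_zpow, map_zpow, rho_ex, Matrix.SpecialLinearGroup.coe_mul,
    zpow_coe (MX 0) 1 1 (by norm_num) MX0_coe i,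
    zpow_coe (rho 0 el) (-1) _ (by norm_num) rho0_el j, _root_.one_zpow, one_smul, Matrix.mul_smul]
  congr 1
  simp only [Matrix.mul_fin_two]
  ext s t
  fin_cases s <;> fin_cases t
  · simp
  · simp
    ring
  · simp
  · simp

/-- [R3] -/
theorem rho0_ga0 : (rho 0 (ga 0)).1 = !![0, om; 1 + om, 1 - om] := by
  have hw : rho 0 (ga 0) = (MX 0)⁻¹ * MY 0 * MX 0 * (MY 0)⁻¹ := by
    show rho 0 (ex⁻¹ * ey * ex * ey⁻¹) = _
    simp only [map_mul, map_inv, rho_ex, rho_ey]
  rw [hw]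
  simp only [Matrix.SpecialLinearGroup.coe_mul]
  rw [MX0_coe, MY0_coe, MX0_inv_coe, MY0_inv_coe]
  have h := om_sq0
  simp only [Matrix.mul_fin_two]
  ext i j
  fin_cases i <;> fin_cases j
  · show _ = (0 : ℂ)
    simp
    linear_combination h
  · show _ = om
    simp
  · show _ = 1 + om
    simp
    linear_combination -h
  · show _ = 1 - om
    simp
    try ring

/-- [R3] -/
theorem rho0_ga1 : (rho 0 (ga 1)).1 = !![1 + om, -1; -om, 1] := by
  have hw : rho 0 (ga 1) = (MX 0)⁻¹ * MY 0 := by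
    show rho 0 (ex⁻¹ * ey) = _
    simp only [map_mul, map_inv, rho_ex, rho_ey]
  rw [hw]
  simp only [Matrix.SpecialLinearGroup.coe_mul]
  rw [MY0_coe, MX0_inv_coe]
  simp only [Matrix.mul_fin_two]
  ext i j
  fin_cases i <;> fin_cases j <;> simp

/-- [R3] -/
theorem rho0_ga2 : (rho 0 (ga 2)).1 = !![2, -2 - om; -1 - om, 1 + om] := by
  have hw : rho 0 (ga 2) = (MX 0)⁻¹ * MY 0 * (MX 0)⁻¹ * (MY 0)⁻¹ := by
    show rho 0 (ex⁻¹ * ey * ex⁻¹ * ey⁻¹) = _
    simp only [map_mul, map_inv, rho_ex, rho_ey]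
  rw [hw]
  simp only [Matrix.SpecialLinearGroup.coe_mul]
  rw [MY0_coe, MX0_inv_coe, MY0_inv_coe]
  have h := om_sq0
  simp only [Matrix.mul_fin_two]
  ext i j
  fin_cases i <;> fin_cases j
  · show _ = (2 : ℂ)
    simp
    linear_combination -h
  · show _ = -2 - om
    simp
    ring
  · show _ = -1 - om
    simp
    linear_combination h
  · show _ = 1 + om
    simp
    try ring

/-- [R3] -/
theorem rho0_ga3 : (rho 0 (ga 3)).1 = !![1 + om, 1; om, 1] := by
  have hw : rho 0 (ga 3) = MX 0 * (MY 0)⁻¹ := by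
    show rho 0 (ex * ey⁻¹) = _
    simp only [map_mul, map_inv, rho_ex, rho_ey]
  rw [hw]
  simp only [Matrix.SpecialLinearGroup.coe_mul]
  rw [MX0_coe, MY0_inv_coe]
  simp only [Matrix.mul_fin_two]
  ext i j
  fin_cases i <;> fin_cases j <;> simp

end DHN
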