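import Pool.Agent.DHN.T1
import Pool.Agent.DHN.R3
import Pool.Agent.DHN.F5

/-!
# [DHN-C1] the complete structure: hypotheses of Theorem T for `u = 0`, `N = ⊥`
-/

set_option autoImplicit false

open Topology Matrix ComplexConjugate Filter

namespace DHN

theorem c1_entries (i j : ℤ) : (rho 0 (pel i j)) 0 0 = (-1 : ℂ) ^ j ∧
    (rho 0 (pel i j)) 0 1 = (-1 : ℂ) ^ j * ((i : ℂ) + 2 * j * (Complex.I * (Real.sqrt 3 : ℂ))) ∧
    (rho 0 (pel i j)) 1 0 = 0 ∧ (rho 0 (pel i j)) 1 1 = (-1 : ℂ) ^ j := by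
  have h := rho0_pel i j
  refine ⟨?_, ?_, ?_, ?_⟩
  · have := congrFun (congrFun h 0) 0
    simpa using this
  · have := congrFun (congrFun h 0) 1
    simpa using this
  · have := congrFun (congrFun h 1) 0
    simpa using this
  · have := congrFun (congrFun h 1) 1
    simpa using this

theorem c1_sign (j : ℤ) : (-1 : ℂ) ^ j * (-1 : ℂ) ^ j = 1 := by
  rw [← mul_zpow]
  norm_num

theorem c1_act (i j : ℤ) (y : H3) :
    (rho 0 (pel i j) • y).1.1 = y.1.1 + ((i : ℂ) + 2 * j * (Complex.I * (Real.sqrt 3 : ℂ))) ∧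
    (rho 0 (pel i j) • y).1.2 = y.1.2 := by
  obtain ⟨h1, h2, h3, h4⟩ := c1_entries i j
  obtain ⟨h5, h6⟩ := smul_upper (rho 0 (pel i j)) y h3
  constructor
  · rw [h5, h1, h2, sq, c1_sign, ← mul_assoc, c1_sign]
    ring
  · rw [h6, h1]
    have h7 : Complex.normSq ((-1 : ℂ) ^ j) = 1 := by
      rw [map_zpow₀]
      simp
    rw [h7, one_mul]

theorem c1_FF (y : H3) : FF 0 y = 1 / y.1.2 ^ 2 := by
  rw [FF_formula]
  simp [aa]

/-- moving a point by peripheral elements into a box -/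
theorem c1_box (z : ℂ) : ∃ i j : ℤ, ‖z + ((i : ℂ) + 2 * j * (Complex.I * (Real.sqrt 3 : ℂ)))‖ ≤ 3 := by
  have h3 : Real.sqrt 3 ≤ 1.74 := by
    rw [Real.sqrt_le_left (by norm_num)]
    norm_num
  have h3' : 0 < Real.sqrt 3 := by positivity
  refine ⟨-round z.re, -round (z.im / (2 * Real.sqrt 3)), ?_⟩
  set w := z + (((-round z.re : ℤ) : ℂ) + 2 * ((-round (z.im / (2 * Real.sqrt 3)) : ℤ) : ℂ) *
    (Complex.I * (Real.sqrt 3 : ℂ))) with hw
  have h1 : w.re = z.re - round z.re := by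
    rw [hw]
    simp
    ring
  have h2 : w.im = (z.im / (2 * Real.sqrt 3) - round (z.im / (2 * Real.sqrt 3))) * (2 * Real.sqrt 3) := by
    rw [hw]
    simp
    field_simp
    ring
  have h4 : |w.re| ≤ 1 / 2 := by
    rw [h1]
    exact abs_sub_round _
  have h5 : |w.im| ≤ 1 / 2 * (2 * Real.sqrt 3) := by
    rw [h2, abs_mul, abs_of_pos (show 0 < 2 * Real.sqrt 3 by positivity)]
    exact mul_le_mul_of_nonneg_right (abs_sub_round _) (by positivity)
  have h6 := Complex.norm_le_abs_re_add_abs_im w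
  linarith

/-- PROOF. `tend`, `normal`, `triv` are trivial. `h5`: `rho0_pel`: the `(0,1)` entry has norm `|i + 2 √3 I j| ≥ max |i|, |j|` (real part `i`, imaginary part `2√3 j`); `Q` = all `(i, j)` with `|i|, |j| ≤ C`, `k = 1`.
`h6`: `FF 0 y = 1/t^2` (`FF_formula`, `aa 0 = 0`), so `0.7 ≤ t ≤ 0.8` if `1.6 ≤ FF 0 y < 2`; `pel i j` acts by `z ↦ z + i + 2 √3 I j` (`smul_upper` or directly `smul_z`), `t ↦ t`: choose `j = -round (Im z/(2√3))`, `i = - round (Re z)`; `R = 3`. -/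
theorem hyp_zero : Hyp (ι := Unit) ⊤ (fun _ => 0) (fun _ => ⊥) := by
  refine ⟨tendsto_const_nhds, fun _ => inferInstance, ?_, ?_, ?_⟩
  · refine Filter.Eventually.of_forall fun _ k hk => ?_
    rw [Subgroup.mem_bot.1 hk, map_one]
  · intro C
    refine ⟨Finset.Icc (-⌈C⌉) ⌈C⌉ ×ˢ Finset.Icc (-⌈C⌉) ⌈C⌉, Filter.Eventually.of_forall fun _ i j h => ?_⟩
    have h1 := h 0 1
    rw [(c1_entries i j).2.1, norm_mul, norm_zpow, norm_neg, norm_one, _root_.one_zpow, one_mul] at h1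
    set w : ℂ := (i : ℂ) + 2 * j * (Complex.I * (Real.sqrt 3 : ℂ)) with hw
    have h2 : w.re = i := by rw [hw]; simp
    have h3 : w.im = 2 * j * Real.sqrt 3 := by rw [hw]; simp
    have h4 := Complex.abs_re_le_norm w
    have h5 := Complex.abs_im_le_norm w
    rw [h2] at h4
    rw [h3, abs_mul, abs_mul, abs_of_pos (show (0 : ℝ) < 2 by norm_num),
      abs_of_pos (show (0 : ℝ) < Real.sqrt 3 by positivity)] at h5
    have h6 : 1 ≤ Real.sqrt 3 := Real.le_sqrt_of_sq_le (by norm_num)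
    have h7 : |(j : ℝ)| ≤ C := by nlinarith [abs_nonneg (j : ℝ)]
    have h8 : |(i : ℝ)| ≤ C := h4.trans h1
    have key : ∀ n : ℤ, |(n : ℝ)| ≤ C → n ∈ Finset.Icc (-⌈C⌉) ⌈C⌉ := by
      intro n hn
      have h9 : |(n : ℝ)| ≤ (⌈C⌉ : ℝ) := hn.trans (Int.le_ceil C)
      have h10 : |n| ≤ ⌈C⌉ := by exact_mod_cast h9
      exact Finset.mem_Icc.2 (abs_le.1 h10)
    exact ⟨(i, j), Finset.mem_product.2 ⟨key i h8, key j h7⟩, 1, Subgroup.one_mem _, (mul_one _).symm⟩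
  · refine ⟨3, Filter.Eventually.of_forall fun _ y h1 h2 => ?_⟩
    rw [c1_FF] at h1 h2
    have hy := y.2
    obtain ⟨i, j, hij⟩ := c1_box y.1.1
    refine ⟨i, j, ?_⟩
    obtain ⟨h3, h4⟩ := c1_act i j y
    have h5 : 0 < y.1.2 ^ 2 := by positivity
    rw [le_div_iff₀ h5] at h1
    rw [div_lt_iff₀ h5] at h2
    refine ⟨by rw [h3]; exact hij, ?_, ?_⟩
    · rw [h4]
      nlinarith
    · rw [h4]
      nlinarith

end DHN
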