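import Pool.Agent.DHN.R3

/-!
# [DHN-R4] Eisenstein integrality
-/

set_option autoImplicit false

open Topology Matrix ComplexConjugate Filter

namespace DHN

theorem om_sq_R4 : om ^ 2 + om + 1 = 0 := by
  have h3 : ((Real.sqrt 3 : ℝ) : ℂ) ^ 2 = 3 := by
    rw [← Complex.ofReal_pow, Real.sq_sqrt (by norm_num)]
    norm_num
  have hI : Complex.I ^ 2 = -1 := Complex.I_sq
  unfold om
  linear_combination (Complex.I ^ 2 / 4) * h3 + (3 / 4) * hI

/-- [R4] -/
theorem InO_ops (z w : ℂ) (hz : InO z) (hw : InO w) :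
    InO (z + w) ∧ InO (z - w) ∧ InO (z * w) ∧ InO (-z) := by
  obtain ⟨m, n, rfl⟩ := hz
  obtain ⟨m', n', rfl⟩ := hw
  refine ⟨⟨m + m', n + n', ?_⟩, ⟨m - m', n - n', ?_⟩,
    ⟨m * m' - n * n', m * n' + n * m' - n * n', ?_⟩, ⟨-m, -n, ?_⟩⟩
  · push_cast
    ring
  · push_cast
    ring
  · push_cast
    linear_combination ((n : ℂ) * n') * om_sq_R4
  · push_cast
    ring

/-- [R4] PROOF: `om = -1/2 + i √3/2`. -/
theorem normSq_InO (m n : ℤ) : Complex.normSq ((m : ℂ) + n * om) = ((m ^ 2 - m * n + n ^ 2 : ℤ) : ℝ) := by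
  have h3 : Real.sqrt 3 * Real.sqrt 3 = 3 := Real.mul_self_sqrt (by norm_num)
  have hre : ((m : ℂ) + n * om).re = m - n / 2 := by
    unfold om
    simp
    ring
  have him : ((m : ℂ) + n * om).im = n * (Real.sqrt 3 / 2) := by
    unfold om
    simp
  rw [Complex.normSq_apply, hre, him]
  push_cast
  linear_combination ((n : ℝ) ^ 2 / 4) * h3

/-- The elements of `E` with Eisenstein integral entries. -/
def InOSub : Subgroup E where
  carrier := {g | ∀ s t : Fin 2, InO ((rho 0 g) s t)}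
  one_mem' := by
    intro s t
    have h0 : InO 0 := ⟨0, 0, by simp⟩
    have h1 : InO 1 := ⟨1, 0, by simp⟩
    rw [map_one]
    fin_cases s <;> fin_cases t
    · simpa using h1
    · simpa using h0
    · simpa using h0
    · simpa using h1
  mul_mem' := by
    intro a b ha hb s t
    have h : (rho 0 (a * b)) s t =
        (rho 0 a) s 0 * (rho 0 b) 0 t + (rho 0 a) s 1 * (rho 0 b) 1 t := by
      rw [map_mul]
      simp only [Matrix.SpecialLinearGroup.coe_mul, Matrix.mul_apply, Fin.sum_univ_two]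
    rw [h]
    exact (InO_ops _ _ (InO_ops _ _ (ha s 0) (hb 0 t)).2.2.1
      (InO_ops _ _ (ha s 1) (hb 1 t)).2.2.1).1
  inv_mem' := by
    intro a ha s t
    have h : (rho 0 a⁻¹).1 =
        !![(rho 0 a) 1 1, -(rho 0 a) 0 1; -(rho 0 a) 1 0, (rho 0 a) 0 0] := by
      rw [map_inv]
      simp only [Matrix.SpecialLinearGroup.coe_inv, Matrix.adjugate_fin_two]
    have h' : (rho 0 a⁻¹) s t =
        !![(rho 0 a) 1 1, -(rho 0 a) 0 1; -(rho 0 a) 1 0, (rho 0 a) 0 0] s t := by rw [h]
    rw [h']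
    fin_cases s <;> fin_cases t
    · exact ha 1 1
    · exact (InO_ops _ _ (ha 0 1) (ha 0 1)).2.2.2
    · exact (InO_ops _ _ (ha 1 0) (ha 1 0)).2.2.2
    · exact ha 0 0

/-- [R4] PROOF: subgroup generated by `ex`, `ey` (`closure_E`). -/
theorem rho0_InO (g : E) (s t : Fin 2) : InO ((rho 0 g) s t) := by
  have h0 : InO 0 := ⟨0, 0, by simp⟩
  have h1 : InO 1 := ⟨1, 0, by simp⟩
  have h2 : InO (-om) := ⟨0, -1, by simp⟩
  have e0 : Complex.exp (0 / 2) = 1 := by simp
  have e1 : Complex.exp (-(0 / 2)) = 1 := by simp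
  have hex : ex ∈ InOSub := by
    intro s t
    rw [rho_ex]
    fin_cases s <;> fin_cases t
    · show InO (Complex.exp (0 / 2))
      rw [e0]
      exact h1
    · exact h1
    · exact h0
    · show InO (Complex.exp (-(0 / 2)))
      rw [e1]
      exact h1
  have hey : ey ∈ InOSub := by
    intro s t
    rw [rho_ey]
    fin_cases s <;> fin_cases t
    · show InO (Complex.exp (0 / 2))
      rw [e0]
      exact h1
    · exact h0
    · show InO (-(kk 0))
      rw [kk_zero]
      exact h2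
    · show InO (Complex.exp (-(0 / 2)))
      rw [e1]
      exact h1
  have htop : (⊤ : Subgroup E) ≤ InOSub := by
    rw [← closure_E]
    refine (Subgroup.closure_le _).2 ?_
    intro x hx
    rcases hx with rfl | hx
    · exact hex
    · rw [Set.mem_singleton_iff] at hx
      subst hx
      exact hey
  exact htop (Subgroup.mem_top g) s t

end DHN
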