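import Pool.Agent.DHN.RD

/-!
# [DHN-R2] shape of peripheral matrices
-/

set_option autoImplicit false

open Topology Matrix ComplexConjugate Filter

namespace DHN

theorem SL_mul_entry (g h : SL2C) (i j : Fin 2) :
    (g * h) i j = g i 0 * h 0 j + g i 1 * h 1 j := by
  simp only [Matrix.SpecialLinearGroup.coe_mul, Matrix.mul_apply, Fin.sum_univ_two]

theorem SL_inv_entries (g : SL2C) : g⁻¹ 0 0 = g 1 1 ∧ g⁻¹ 0 1 = -g 0 1 ∧ g⁻¹ 1 0 = -g 1 0 ∧
    g⁻¹ 1 1 = g 0 0 := by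
  have h : (g⁻¹).1 = !![g 1 1, -g 0 1; -g 1 0, g 0 0] := by
    rw [Matrix.SpecialLinearGroup.coe_inv, Matrix.adjugate_fin_two]
  refine ⟨?_, ?_, ?_, ?_⟩
  · simpa using congrFun (congrFun h 0) 0
  · simpa using congrFun (congrFun h 0) 1
  · simpa using congrFun (congrFun h 1) 0
  · simpa using congrFun (congrFun h 1) 1

theorem SL_det (g : SL2C) : g 0 0 * g 1 1 - g 0 1 * g 1 0 = 1 := by
  have := g.det_coe
  rwa [Matrix.det_fin_two] at this

theorem SL_upper_inv (g : SL2C) (hg : g 1 0 = 0) : g⁻¹ 1 0 = 0 ∧ g⁻¹ 0 0 = (g 0 0)⁻¹ := by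
  have h := SL_inv_entries g
  have hd := SL_det g
  rw [hg, mul_zero, sub_zero] at hd
  refine ⟨by rw [h.2.2.1, hg, neg_zero], ?_⟩
  rw [h.1]
  exact eq_inv_of_mul_eq_one_right hd

theorem SL_upper_mul (g h : SL2C) (hg : g 1 0 = 0) (hh : h 1 0 = 0) :
    (g * h) 1 0 = 0 ∧ (g * h) 0 0 = g 0 0 * h 0 0 := by
  rw [SL_mul_entry, SL_mul_entry, hg, hh]
  simp

theorem SL_upper_zpow (g : SL2C) (hg : g 1 0 = 0) (k : ℤ) :
    (g ^ k) 1 0 = 0 ∧ (g ^ k) 0 0 = (g 0 0) ^ k := by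
  have hd := SL_det g
  rw [hg, mul_zero, sub_zero] at hd
  have h0 : g 0 0 ≠ 0 := left_ne_zero_of_mul_eq_one hd
  induction k using Int.induction_on with
  | zero => simp
  | succ k ih =>
    have h := SL_upper_mul (g ^ (k : ℤ)) g ih.1 hg
    rw [_root_.zpow_add_one]
    exact ⟨h.1, by rw [h.2, ih.2, zpow_add_one₀ h0]⟩
  | pred k ih =>
    have hi := SL_upper_inv g hg
    have h := SL_upper_mul (g ^ (-(k : ℤ))) g⁻¹ ih.1 hi.1
    rw [_root_.zpow_sub_one]
    exact ⟨h.1, by rw [h.2, ih.2, hi.2, zpow_sub_one₀ h0]⟩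

/-- [R2] PROOF: `rho u el` commutes with `MX u` (`comm_ex_el`), whose `(0,1)` entry is `1` and `(1,0)` entry is `0`: compare the
`(1,1)`... entries of `X Λ = Λ X`: `(0,0)`: `m Λ00 + Λ10 = Λ00 m`. -/
theorem el_10 (u : ℂ) : (rho u el) 1 0 = 0 := by
  have h : MX u * rho u el = rho u el * MX u := by
    rw [← rho_ex, ← map_mul, ← map_mul, comm_ex_el.eq]
  have h1 : (MX u * rho u el) 0 0 = (rho u el * MX u) 0 0 := by rw [h]
  rw [SL_mul_entry, SL_mul_entry] at h1
  have a1 : (MX u) 0 0 = Complex.exp (u / 2) := rfl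
  have a2 : (MX u) 0 1 = 1 := rfl
  have a3 : (MX u) 1 0 = 0 := rfl
  rw [a1, a2, a3] at h1
  linear_combination h1

/-- [R2] every peripheral element is upper triangular, the two diagonal entries are inverse, and (commuting with `MX u`)
`d00 - d11 = 2 a b`. `aa u = (m - 1/m)/2`. -/
theorem pel_upper (u : ℂ) (i j : ℤ) : (rho u (pel i j)) 1 0 = 0 ∧
    (rho u (pel i j)) 0 0 * (rho u (pel i j)) 1 1 = 1 ∧
    (rho u (pel i j)) 0 0 - (rho u (pel i j)) 1 1 = 2 * aa u * (rho u (pel i j)) 0 1 ∧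
    (rho u (pel i j)) 0 0 = Complex.exp (i * (u / 2)) * LL u ^ j := by
  have hX : (MX u) 1 0 = 0 := rfl
  have hXi := SL_upper_zpow (MX u) hX i
  have hLj := SL_upper_zpow (rho u el) (el_10 u) j
  have hp : rho u (pel i j) = MX u ^ i * rho u el ^ j := by
    unfold pel
    rw [map_mul, map_zpow, map_zpow, rho_ex]
  have hm := SL_upper_mul (MX u ^ i) (rho u el ^ j) hXi.1 hLj.1
  have h10 : (rho u (pel i j)) 1 0 = 0 := by
    rw [hp]
    exact hm.1
  refine ⟨h10, ?_, ?_, ?_⟩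
  · have hd := SL_det (rho u (pel i j))
    rw [h10, mul_zero, sub_zero] at hd
    exact hd
  · have h : MX u * rho u (pel i j) = rho u (pel i j) * MX u := by
      rw [← rho_ex, ← map_mul, ← map_mul]
      congr 1
      unfold pel
      rw [← mul_assoc, ((Commute.refl ex).zpow_right i).eq, mul_assoc,
        (comm_ex_el.zpow_right j).eq, mul_assoc]
    have h1 : (MX u * rho u (pel i j)) 0 1 = (rho u (pel i j) * MX u) 0 1 := by rw [h]
    rw [SL_mul_entry, SL_mul_entry] at h1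
    have a1 : (MX u) 0 0 = Complex.exp (u / 2) := rfl
    have a2 : (MX u) 0 1 = 1 := rfl
    have a4 : (MX u) 1 1 = Complex.exp (-(u / 2)) := rfl
    rw [a1, a2, a4] at h1
    unfold aa Complex.sinh
    linear_combination -h1
  · rw [hp, hm.2, hXi.2, hLj.2]
    have a1 : (MX u) 0 0 = Complex.exp (u / 2) := rfl
    rw [a1, ← Complex.exp_int_mul]
    rfl

/-- [R2] -/
theorem pel_e1 (u : ℂ) (i j : ℤ) :
    (rho u (pel i j)).1.mulVec e1 = (rho u (pel i j)) 0 0 • e1 := by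
  have h := pel_upper u i j
  funext s
  fin_cases s
  · simp [Matrix.mulVec, dotProduct, Fin.sum_univ_two, e1]
  · simp [Matrix.mulVec, dotProduct, Fin.sum_univ_two, e1, h.1]

/-- [R2] -/
theorem pel_ep (u : ℂ) (i j : ℤ) :
    (rho u (pel i j)).1.mulVec (ep u) = (rho u (pel i j)) 1 1 • ep u := by
  have h := pel_upper u i j
  have h3 := h.2.2.1
  funext s
  fin_cases s
  · simp [Matrix.mulVec, dotProduct, Fin.sum_univ_two, ep]
    linear_combination h3
  · simp [Matrix.mulVec, dotProduct, Fin.sum_univ_two, ep, h.1]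

end DHN
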