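import Pool.Agent.DHN.TD
import Pool.Agent.DHN.R2

/-!
# [DHN-T1] simple facts about the tube function `FF`
-/

set_option autoImplicit false

open Topology Matrix ComplexConjugate Filter

namespace DHN

/-- PROOF: `q (g • y) e1 = q y (g⁻¹ e1)` (`q_smul_inv`), `g⁻¹ = rho u (pel (-i) (-j))` (`pel_inv`), `pel_e1`, `pel_ep`, `q_smul_vec`; the product of the
two diagonal entries is one (`pel_upper`). -/
theorem FF_pel (u : ℂ) (i j : ℤ) (y : H3) : FF u (rho u (pel i j) • y) = FF u y := by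
  have h1 := q_smul (rho u (pel i j)) y e1
  have h2 := q_smul (rho u (pel i j)) y (ep u)
  rw [pel_e1, q_smul_vec] at h1
  rw [pel_ep, q_smul_vec] at h2
  have h3 := (pel_upper u i j).2.1
  have h4 : Complex.normSq ((rho u (pel i j)) 0 0) * Complex.normSq ((rho u (pel i j)) 1 1) = 1 := by
    rw [← map_mul, h3, map_one]
  unfold FF
  rw [← h1, ← h2]
  linear_combination (-(q (rho u (pel i j) • y) e1 * q (rho u (pel i j) • y) (ep u))) * h4

/-- PROOF: `q y e1 = 1/t`, `q y (ep u) = (|1 + 2 a z|^2 + 4 |a|^2 t^2)/t`. -/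
theorem FF_formula (u : ℂ) (y : H3) :
    FF u y = Complex.normSq (1 + 2 * aa u * y.1.1) / y.1.2 ^ 2 + 4 * Complex.normSq (aa u) := by
  have hy := y.2
  have h1 : q y e1 = 1 / y.1.2 := q_e1 y
  have h2 : q y (ep u) = (Complex.normSq (1 + 2 * aa u * y.1.1) +
      y.1.2 ^ 2 * (4 * Complex.normSq (aa u))) / y.1.2 := by
    unfold q ep
    simp only [Matrix.cons_val_zero, Matrix.cons_val_one]
    have h3 : (1 : ℂ) - y.1.1 * (-2 * aa u) = 1 + 2 * aa u * y.1.1 := by ring
    have h4 : Complex.normSq (-2 * aa u) = 4 * Complex.normSq (aa u) := by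
      rw [map_mul]
      congr 1
      rw [Complex.normSq_neg]
      norm_num
    rw [h3, h4]
  unfold FF
  rw [h1, h2]
  field_simp

theorem FF_TV (u : ℂ) (c : ℝ) (hc : 0 ≤ c) (y y' : H3) (h : y' ∈ TV c y) :
    FF u y' ≤ c ^ 2 * FF u y := by
  have h1 := (h e1).1
  have h2 := (h (ep u)).1
  have h3 : q y' e1 * q y' (ep u) ≤ (c * q y e1) * (c * q y (ep u)) :=
    mul_le_mul h1 h2 (q_nonneg _ _) (mul_nonneg hc (q_nonneg _ _))
  unfold FF
  calc q y' e1 * q y' (ep u) ≤ (c * q y e1) * (c * q y (ep u)) := h3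
    _ = c ^ 2 * (q y e1 * q y (ep u)) := by ring

/-- PROOF: `q (g⁻¹ • y) w = q y (g w)` (`q_inv_smul`) and `q_mul_ge` twice. -/
theorem FF_mul_ge (u : ℂ) (g : SL2C) (y : H3) :
    Complex.normSq (det2 e1 (g.1.mulVec e1)) * Complex.normSq (det2 (ep u) (g.1.mulVec (ep u))) ≤
      FF u y * FF u (g⁻¹ • y) := by
  have h1 := q_mul_ge y e1 (g.1.mulVec e1)
  have h2 := q_mul_ge y (ep u) (g.1.mulVec (ep u))
  rw [← q_inv_smul] at h1 h2
  unfold FF
  calc Complex.normSq (det2 e1 (g.1.mulVec e1)) * Complex.normSq (det2 (ep u) (g.1.mulVec (ep u)))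
      ≤ (q y e1 * q (g⁻¹ • y) e1) * (q y (ep u) * q (g⁻¹ • y) (ep u)) :=
        mul_le_mul h1 h2 (Complex.normSq_nonneg _) (mul_nonneg (q_nonneg _ _) (q_nonneg _ _))
    _ = q y e1 * q y (ep u) * (q (g⁻¹ • y) e1 * q (g⁻¹ • y) (ep u)) := by ring

theorem aa_tendsto : Tendsto aa (𝓝 0) (𝓝 0) := by
  have h1 : Continuous aa := by
    unfold aa
    exact Complex.continuous_sinh.comp (continuous_id.div_const 2)
  have h2 : aa 0 = 0 := by
    unfold aa
    rw [zero_div, Complex.sinh_zero]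
  have h3 := h1.tendsto 0
  rw [h2] at h3
  exact h3

theorem FF_pos (u : ℂ) (y : H3) : 0 < FF u y := by
  unfold FF
  refine mul_pos (q_pos y _ ?_) (q_pos y _ ?_)
  · intro h
    have h1 := congrFun h 0
    simp [e1] at h1
  · intro h
    have h1 := congrFun h 0
    simp [ep] at h1

end DHN
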