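import Pool.Agent.DHN.TD
import Pool.Agent.DHN.T1
import Pool.Agent.DHN.R3
import Pool.Agent.DHN.R4
import Pool.Agent.DHN.F5

/-!
# [DHN-C2a] consequences of Good 0 ⊥: faithfulness, freeness, cusp region
-/

set_option autoImplicit false

open Topology Matrix ComplexConjugate Filter

namespace DHN

theorem c2_entries (i j : ℤ) : (rho 0 (pel i j)) 0 0 = (-1 : ℂ) ^ j ∧
    (rho 0 (pel i j)) 0 1 = (-1 : ℂ) ^ j * ((i : ℂ) + 2 * j * (Complex.I * (Real.sqrt 3 : ℂ))) ∧
    (rho 0 (pel i j)) 1 0 = 0 ∧ (rho 0 (pel i j)) 1 1 = (-1 : ℂ) ^ j := by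
  have h := rho0_pel i j
  refine ⟨?_, ?_, ?_, ?_⟩
  · have := congrFun (congrFun h 0) 0
    simpa using this
  · have := congrFun (congrFun h 0) 1
    simpa using this
  · have := congrFun (congrFun h 1) 0
    simpa using this
  · have := congrFun (congrFun h 1) 1
    simpa using this

theorem c2_sign (j : ℤ) : (-1 : ℂ) ^ j * (-1 : ℂ) ^ j = 1 := by
  rw [← mul_zpow]
  norm_num

theorem c2_act (i j : ℤ) (y : H3) :
    (rho 0 (pel i j) • y).1.1 = y.1.1 + ((i : ℂ) + 2 * j * (Complex.I * (Real.sqrt 3 : ℂ))) ∧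
    (rho 0 (pel i j) • y).1.2 = y.1.2 := by
  obtain ⟨h1, h2, h3, h4⟩ := c2_entries i j
  obtain ⟨h5, h6⟩ := smul_upper (rho 0 (pel i j)) y h3
  constructor
  · rw [h5, h1, h2, sq, c2_sign, ← mul_assoc, c2_sign]
    ring
  · rw [h6, h1]
    have h7 : Complex.normSq ((-1 : ℂ) ^ j) = 1 := by
      rw [map_zpow₀]
      simp
    rw [h7, one_mul]

theorem c2_FF (y : H3) : FF 0 y = 1 / y.1.2 ^ 2 := by
  rw [FF_formula]
  simp [aa]

/-- moving a point by peripheral elements into a box -/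
theorem c2_box (z : ℂ) : ∃ i j : ℤ, ‖z + ((i : ℂ) + 2 * j * (Complex.I * (Real.sqrt 3 : ℂ)))‖ ≤ 3 := by
  have h3 : Real.sqrt 3 ≤ 1.74 := by
    rw [Real.sqrt_le_left (by norm_num)]
    norm_num
  have h3' : 0 < Real.sqrt 3 := by positivity
  refine ⟨-round z.re, -round (z.im / (2 * Real.sqrt 3)), ?_⟩
  set w := z + (((-round z.re : ℤ) : ℂ) + 2 * ((-round (z.im / (2 * Real.sqrt 3)) : ℤ) : ℂ) *
    (Complex.I * (Real.sqrt 3 : ℂ))) with hw
  have h1 : w.re = z.re - round z.re := by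
    rw [hw]
    simp
    ring
  have h2 : w.im = (z.im / (2 * Real.sqrt 3) - round (z.im / (2 * Real.sqrt 3))) * (2 * Real.sqrt 3) := by
    rw [hw]
    simp
    field_simp
    ring
  have h4 : |w.re| ≤ 1 / 2 := by
    rw [h1]
    exact abs_sub_round _
  have h5 : |w.im| ≤ 1 / 2 * (2 * Real.sqrt 3) := by
    rw [h2, abs_mul, abs_of_pos (show 0 < 2 * Real.sqrt 3 by positivity)]
    exact mul_le_mul_of_nonneg_right (abs_sub_round _) (by positivity)
  have h6 := Complex.norm_le_abs_re_add_abs_im w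
  linarith

theorem c2_trivial (i j : ℤ) (h : (i : ℂ) + 2 * j * (Complex.I * (Real.sqrt 3 : ℂ)) = 0) : i = 0 ∧ j = 0 := by
  have h1 := congrArg Complex.re h
  have h2 := congrArg Complex.im h
  simp at h1 h2
  exact ⟨h1, h2⟩

theorem c2_om_im : om.im = Real.sqrt 3 / 2 := by
  unfold om
  simp

theorem c2_om_ne : om ≠ 0 ∧ 1 + om ≠ 0 := by
  have h3 : (0 : ℝ) < Real.sqrt 3 := by positivity
  constructor
  · intro h
    have := congrArg Complex.im h
    rw [c2_om_im] at this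
    simp at this
  · intro h
    have := congrArg Complex.im h
    rw [Complex.add_im, c2_om_im] at this
    simp at this

theorem c2_ga (a : Fin 4) : (rho 0 (ga a)) 1 0 ≠ 0 := by
  obtain ⟨h1, h2⟩ := c2_om_ne
  fin_cases a
  · have h := congrFun (congrFun rho0_ga0 1) 0
    intro h3
    apply h2
    have h4 : (1 : ℂ) + om = 0 := by
      simpa using h.symm.trans h3
    exact h4
  · have h := congrFun (congrFun rho0_ga1 1) 0
    intro h3
    apply h1
    have h4 : -om = 0 := by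
      simpa using h.symm.trans h3
    simpa using h4
  · have h := congrFun (congrFun rho0_ga2 1) 0
    intro h3
    apply h2
    have h4 : -1 - om = 0 := by
      simpa using h.symm.trans h3
    linear_combination -h4
  · have h := congrFun (congrFun rho0_ga3 1) 0
    intro h3
    apply h1
    have h4 : om = 0 := by
      simpa using h.symm.trans h3
    exact h4

/-- PROOF. `y = (0,1)` has `FF 0 y = 1 < 2`, `rho 0 g • y = y`, so `Adj ⊥ g`: `g = pel i j`: `rho0_pel = 1` gives `i = j = 0`; `g = p1 * ga a * p2`: the `(1,0)` entry of `rho 0 g` is `± c_a ≠ 0` (`pel_upper`, `rho0_ga*`). -/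
theorem rho0_injective (hG : Good 0 ⊥) : Function.Injective (rho 0) := by
  rw [injective_iff_map_eq_one]
  intro g hg
  let y : H3 := ⟨(0, 1), one_pos⟩
  have hy : FF 0 y < 2 := by
    rw [c2_FF]
    norm_num [y]
  obtain ⟨k, hk, h | h⟩ := hG.adj g y hy (by rw [hg, one_smul]; exact hy)
  · obtain ⟨i, j, hij⟩ := h
    rw [Subgroup.mem_bot.1 hk, mul_one] at hij
    have h1 := (c2_act i j y).1
    rw [← hij, hg, one_smul] at h1
    have h2 : (i : ℂ) + 2 * j * (Complex.I * (Real.sqrt 3 : ℂ)) = 0 := by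
      linear_combination -h1
    obtain ⟨rfl, rfl⟩ := c2_trivial i j h2
    rw [hij, pel_zero]
  · exfalso
    obtain ⟨a, i, j, i', j', hij⟩ := h
    rw [Subgroup.mem_bot.1 hk, mul_one] at hij
    rw [hij, map_mul, map_mul] at hg
    have h1 := congrFun (congrFun (congrArg Subtype.val hg) 1) 0
    obtain ⟨p1, p2, p3, p4⟩ := c2_entries i j
    obtain ⟨q1, q2, q3, q4⟩ := c2_entries i' j'
    have h2 : (rho 0 (pel i j)) 1 1 * (rho 0 (ga a)) 1 0 * (rho 0 (pel i' j')) 0 0 = 0 := by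
      rw [Matrix.SpecialLinearGroup.coe_mul, Matrix.SpecialLinearGroup.coe_mul, Matrix.mul_apply,
        Fin.sum_univ_two, Matrix.mul_apply, Matrix.mul_apply, Fin.sum_univ_two, Fin.sum_univ_two] at h1
      have h3 : (1 : SL2C).1 1 0 = 0 := by simp
      change ((rho 0 (pel i j)) 1 0 * (rho 0 (ga a)) 0 0 + (rho 0 (pel i j)) 1 1 * (rho 0 (ga a)) 1 0) *
        (rho 0 (pel i' j')) 0 0 + ((rho 0 (pel i j)) 1 0 * (rho 0 (ga a)) 0 1 +
        (rho 0 (pel i j)) 1 1 * (rho 0 (ga a)) 1 1) * (rho 0 (pel i' j')) 1 0 = (1 : SL2C).1 1 0 at h1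
      rw [h3, p3, q3] at h1
      linear_combination h1
    rw [p4, q1] at h2
    have h4 : (-1 : ℂ) ^ j ≠ 0 := zpow_ne_zero _ (by norm_num)
    have h5 : (-1 : ℂ) ^ j' ≠ 0 := zpow_ne_zero _ (by norm_num)
    exact mul_ne_zero (mul_ne_zero h4 (c2_ga a)) h5 h2

/-- PROOF. `Good.fixed`: `g = h * pel i j * h⁻¹` and `rho 0 (pel i j) • y' = y'`: translation by `i + 2 √3 I j` (`smul_upper`), so `i = j = 0`, `g = 1`. -/
theorem rho0_free (hG : Good 0 ⊥) (g : E) (y : H3) (h : rho 0 g • y = y) : g = 1 := by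
  obtain ⟨h', k, i, j, hk, hg, y', hy'⟩ := hG.fixed g y h
  have h1 := (c2_act i j y').1
  rw [hy'] at h1
  have h2 : (i : ℂ) + 2 * j * (Complex.I * (Real.sqrt 3 : ℂ)) = 0 := by
    linear_combination -h1
  obtain ⟨rfl, rfl⟩ := c2_trivial i j h2
  rw [hg, Subgroup.mem_bot.1 hk, pel_zero, mul_one, mul_one, mul_inv_cancel]

/-- PROOF. `Good.cover`, then translate by `pel i j` (`rho0_pel`, `smul_upper`, `FF_pel`): `|Re z| ≤ 1/2`, `|Im z| ≤ √3`; `FF 0 y = 1/t^2 < 2` gives `t > 0.7`. -/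
theorem rho0_cusp_cover (hG : Good 0 ⊥) : ∀ y : H3, ∃ g : E,
    ‖(rho 0 g • y).1.1‖ ≤ 3 ∧ 0.7 ≤ (rho 0 g • y).1.2 := by
  intro y
  obtain ⟨g, hg⟩ := hG.cover y
  rw [c2_FF] at hg
  obtain ⟨i, j, hij⟩ := c2_box (rho 0 g • y).1.1
  refine ⟨pel i j * g, ?_⟩
  rw [map_mul, mul_smul]
  obtain ⟨h3, h4⟩ := c2_act i j (rho 0 g • y)
  rw [h3, h4]
  refine ⟨hij, ?_⟩
  have hy := (rho 0 g • y).2
  have h5 : 0 < (rho 0 g • y).1.2 ^ 2 := by positivity
  rw [div_lt_iff₀ h5] at hg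
  nlinarith

end DHN
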