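import Pool.Agent.DHN.C2a

/-!
# [DHN-C2b] parabolic elements are conjugate to peripheral ones
-/

set_option autoImplicit false

open Topology Matrix ComplexConjugate Filter

namespace DHN

theorem c2b_ep0 : ep 0 = e1 := by
  unfold ep aa e1
  simp

theorem c2b_FF0 (y : H3) : FF 0 y = q y e1 ^ 2 := by
  unfold FF
  rw [c2b_ep0, sq]

theorem c2b_point (w : Fin 2 → ℂ) (hw : w ≠ 0) : ∃ y : H3, q y w < 1 / 2 := by
  by_cases h1 : w 1 = 0
  · have h0 : w 0 ≠ 0 := by
      intro h0
      apply hw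
      funext i
      fin_cases i
      · exact h0
      · exact h1
    have hp : 0 < Complex.normSq (w 0) := Complex.normSq_pos.2 h0
    refine ⟨⟨(0, 4 * Complex.normSq (w 0)), by simpa using h0⟩, ?_⟩
    unfold q
    simp only [h1, mul_zero, sub_zero, map_zero, add_zero]
    rw [div_lt_iff₀ (by positivity)]
    linarith
  · have hp : 0 < Complex.normSq (w 1) := Complex.normSq_pos.2 h1
    refine ⟨⟨(w 0 / w 1, 1 / (4 * Complex.normSq (w 1))), by simpa using h1⟩, ?_⟩
    unfold q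
    simp only
    rw [div_mul_cancel₀ _ h1, sub_self, map_zero, zero_add]
    have e : (1 / (4 * Complex.normSq (w 1))) ^ 2 * Complex.normSq (w 1) / (1 / (4 * Complex.normSq (w 1))) = 1 / 4 := by
      field_simp
    rw [e]
    norm_num

theorem c2b_det (v w : Fin 2 → ℂ) (hv : ∀ i, InO (v i)) (hw : ∀ i, InO (w i))
    (h : Complex.normSq (det2 v w) < 1) : det2 v w = 0 := by
  have h1 : InO (det2 v w) := by
    unfold det2
    exact (InO_ops _ _ (InO_ops _ _ (hv 0) (hw 1)).2.2.1 (InO_ops _ _ (hv 1) (hw 0)).2.2.1).2.1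
  obtain ⟨m, n, hmn⟩ := h1
  rw [hmn] at h ⊢
  have h0 := Complex.normSq_nonneg ((m : ℂ) + n * om)
  have h2 := normSq_InO m n
  rw [h2] at h h0
  have h3 : m ^ 2 - m * n + n ^ 2 < 1 := by exact_mod_cast h
  have h4 : 0 ≤ m ^ 2 - m * n + n ^ 2 := by exact_mod_cast h0
  have h5 : m ^ 2 - m * n + n ^ 2 = 0 := by omega
  rw [← Complex.normSq_eq_zero, h2, h5, Int.cast_zero]

theorem c2b_prop (v w : Fin 2 → ℂ) (hv : v ≠ 0) (hd : det2 v w = 0) : ∃ s : ℂ, w = s • v := by
  unfold det2 at hd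
  by_cases h0 : v 0 = 0
  · have h1 : v 1 ≠ 0 := by
      intro h1
      apply hv
      funext i
      fin_cases i
      · exact h0
      · exact h1
    rw [h0, zero_mul, zero_sub, neg_eq_zero] at hd
    have h2 := (mul_eq_zero.1 hd).resolve_left h1
    refine ⟨w 1 / v 1, ?_⟩
    funext i
    fin_cases i
    · show w 0 = w 1 / v 1 * v 0
      rw [h0, h2, mul_zero]
    · show w 1 = w 1 / v 1 * v 1
      rw [div_mul_cancel₀ _ h1]
  · refine ⟨w 0 / v 0, ?_⟩
    funext i
    fin_cases i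
    · show w 0 = w 0 / v 0 * v 0
      rw [div_mul_cancel₀ _ h0]
    · show w 1 = w 0 / v 0 * v 1
      field_simp
      linear_combination hd

theorem c2b_CH (M : Matrix (Fin 2) (Fin 2) ℂ) (e : ℂ) (he : e ^ 2 = 1) (hdet : M.det = 1) (htr : M.trace = 2 * e)
    (s : Fin 2) : M.mulVec (fun r => (M - e • (1 : Matrix (Fin 2) (Fin 2) ℂ)) r s) =
      e • (fun r => (M - e • (1 : Matrix (Fin 2) (Fin 2) ℂ)) r s) := by
  rw [Matrix.det_fin_two] at hdet
  rw [Matrix.trace_fin_two] at htr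
  funext r
  fin_cases s <;> fin_cases r
  · simp [Matrix.mulVec, dotProduct, Fin.sum_univ_two]
    linear_combination (M 0 0) * htr - hdet + he
  · simp [Matrix.mulVec, dotProduct, Fin.sum_univ_two]
    linear_combination (M 1 0) * htr
  · simp [Matrix.mulVec, dotProduct, Fin.sum_univ_two]
    linear_combination (M 0 1) * htr
  · simp [Matrix.mulVec, dotProduct, Fin.sum_univ_two]
    linear_combination (M 1 1) * htr - hdet + he

theorem c2b_InO_sign (e : ℂ) (he : e ^ 2 = 1) : InO e := by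
  rcases mul_self_eq_one_iff.1 ((sq e).symm.trans he) with h | h
  · exact ⟨1, 0, by rw [h]; norm_num⟩
  · exact ⟨-1, 0, by rw [h]; norm_num⟩

theorem c2b_ga (a : Fin 4) : (rho 0 (ga a)) 1 0 ≠ 0 := by
  have him : om.im = Real.sqrt 3 / 2 := by
    unfold om
    simp
  have h3 : Real.sqrt 3 ≠ 0 := by positivity
  have hne : om.im ≠ 0 := by
    rw [him]
    positivity
  intro h
  have h2 : (rho 0 (ga a)).1 1 0 = 0 := h
  fin_cases a
  · have h4 := rho0_ga0
    have h5 : (rho 0 (ga 0)).1 1 0 = 1 + om := by rw [h4]; rfl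
    have h6 : 1 + om = 0 := h5.symm.trans h2
    have h7 := congrArg Complex.im h6
    apply hne
    simpa using h7
  · have h4 := rho0_ga1
    have h5 : (rho 0 (ga 1)).1 1 0 = -om := by rw [h4]; rfl
    have h6 : -om = 0 := h5.symm.trans h2
    have h7 := congrArg Complex.im h6
    apply hne
    simpa using h7
  · have h4 := rho0_ga2
    have h5 : (rho 0 (ga 2)).1 1 0 = -1 - om := by rw [h4]; rfl
    have h6 : -1 - om = 0 := h5.symm.trans h2
    have h7 := congrArg Complex.im h6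
    apply hne
    simpa using h7
  · have h4 := rho0_ga3
    have h5 : (rho 0 (ga 3)).1 1 0 = om := by rw [h4]; rfl
    have h6 : om = 0 := h5.symm.trans h2
    have h7 := congrArg Complex.im h6
    apply hne
    simpa using h7

/-- an element whose image fixes the line of `e1` is peripheral -/
theorem c2b_fix (hG : Good 0 ⊥) (g' : E) (e : ℂ) (he : e ^ 2 = 1) (h : (rho 0 g').1.mulVec e1 = e • e1) :
    ∃ i j : ℤ, g' = pel i j := by
  have hn : Complex.normSq e = 1 := by
    rcases mul_self_eq_one_iff.1 ((sq e).symm.trans he) with h | h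
    · rw [h, map_one]
    · rw [h, Complex.normSq_neg, map_one]
  let y0 : H3 := ⟨(0, 2), by norm_num⟩
  have hq0 : q y0 e1 = 1 / 2 := q_e1 y0
  have hq1 : q (rho 0 g' • y0) e1 = 1 / 2 := by
    have h1 := q_smul (rho 0 g') y0 e1
    rw [h, q_smul_vec, hn, one_mul, hq0] at h1
    exact h1
  obtain ⟨k, hk, h2⟩ := hG.adj g' y0 (by rw [c2b_FF0, hq0]; norm_num) (by rw [c2b_FF0, hq1]; norm_num)
  rw [Subgroup.mem_bot] at hk
  rw [hk, mul_one] at h2
  rcases h2 with ⟨i, j, hij⟩ | ⟨a, i, j, i', j', hij⟩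
  · exact ⟨i, j, hij⟩
  · exfalso
    have h10 : (rho 0 g').1 1 0 = 0 := by
      have h3 := congrFun h 1
      simpa [Matrix.mulVec, dotProduct, Fin.sum_univ_two, e1] using h3
    rw [hij, map_mul, map_mul, Matrix.SpecialLinearGroup.coe_mul, Matrix.SpecialLinearGroup.coe_mul] at h10
    obtain ⟨p1, p2, -, -⟩ := pel_upper 0 i j
    obtain ⟨q1, q2, -, -⟩ := pel_upper 0 i' j'
    have p3 : (rho 0 (pel i j)).1 1 1 ≠ 0 := right_ne_zero_of_mul_eq_one p2
    have q3 : (rho 0 (pel i' j')).1 0 0 ≠ 0 := left_ne_zero_of_mul_eq_one q2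
    have p4 : (rho 0 (pel i j)).1 1 0 = 0 := p1
    have q4 : (rho 0 (pel i' j')).1 1 0 = 0 := q1
    have r4 : (rho 0 (ga a)).1 1 0 ≠ 0 := c2b_ga a
    rw [Matrix.mul_apply, Fin.sum_univ_two, Matrix.mul_apply, Fin.sum_univ_two, Matrix.mul_apply, Fin.sum_univ_two,
      p4, q4] at h10
    simp only [zero_mul, zero_add, mul_zero, add_zero] at h10
    exact (mul_ne_zero (mul_ne_zero p3 r4) q3) h10

/-- PROOF. Let `M = rho 0 g`, `tr M = 2 e`, `e = ± 1` (square root of 4). If `M = e • 1` then `M` acts trivially, so `g = 1` (`rho0_free`) `= pel 0 0`. Otherwise some column `w` of `M - e` is nonzero; `(M - e)^2 = 0` (Cayley-Hamilton), so `M w = e w`; `w` has entries in `O`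
(`rho0_InO`, `InO_ops`). There is `y` with `q y w < 1/2` (`w 1 ≠ 0`: `y = (w 0 / w 1, t)`, `q = t |w 1|^2`, `t` small; `w 1 = 0`: `y = (0, t)`, `q = |w 0|^2/t`, `t` large). `Good.cover`: `FF 0 (rho 0 k • y) < 2`, `FF 0 y' = (q y' e1)^2`, so `q y (rho 0 k⁻¹ e1) < √2 < 1.5`.
`v = rho 0 k⁻¹ e1` has entries in `O`; `normSq (det2 v w) ≤ q y v * q y w < 0.75` (`q_mul_ge`), and `det2 v w ∈ O`, so `det2 v w = 0` (`normSq_InO` is an integer): `w = s v`, `s ≠ 0`. Let `h = k`, `g' = k g k⁻¹`: `rho 0 g' e1 = e e1`. So with `y0 = (0, 2)`: `FF 0 y0 < 2`,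
`FF 0 (rho 0 g' • y0) = FF 0 y0` (`q (g' y0) e1 = q y0 (g'⁻¹ e1) = q y0 e1`), `Good.adj`: `Adj ⊥ g'`: `g' = pel i j`, or `g' = p1 ga p2` whose `(1,0)` entry is nonzero: impossible. -/
theorem rho0_parabolic (hG : Good 0 ⊥) (g : E) (h : (Matrix.trace (rho 0 g).1) ^ 2 = 4) :
    ∃ (k : E) (i j : ℤ), k * g * k⁻¹ = pel i j := by
  have hdet : (rho 0 g).1.det = 1 := (rho 0 g).2
  set M : Matrix (Fin 2) (Fin 2) ℂ := (rho 0 g).1 with hM
  set e : ℂ := Matrix.trace M / 2 with he
  have he2 : e ^ 2 = 1 := by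
    rw [he, div_pow, h]
    norm_num
  have htr : Matrix.trace M = 2 * e := by
    rw [he]
    ring
  have hn : Complex.normSq e = 1 := by
    rcases mul_self_eq_one_iff.1 ((sq e).symm.trans he2) with h | h
    · rw [h, map_one]
    · rw [h, Complex.normSq_neg, map_one]
  by_cases hM1 : M = e • (1 : Matrix (Fin 2) (Fin 2) ℂ)
  · -- the element acts trivially
    have hfix : rho 0 g • (⟨(0, 1), by norm_num⟩ : H3) = ⟨(0, 1), by norm_num⟩ := by
      apply q_injective
      intro w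
      have h1 := q_smul (rho 0 g) (⟨(0, 1), by norm_num⟩ : H3) w
      have h2 : (rho 0 g).1.mulVec w = e • w := by
        rw [← hM, hM1, Matrix.smul_mulVec, Matrix.one_mulVec]
      rw [h2, q_smul_vec, hn, one_mul] at h1
      exact h1
    have hg : g = 1 := rho0_free hG g _ hfix
    exact ⟨1, 0, 0, by rw [hg, pel_zero]; group⟩
  · obtain ⟨s, hs⟩ : ∃ s : Fin 2, (fun r => (M - e • (1 : Matrix (Fin 2) (Fin 2) ℂ)) r s) ≠ 0 := by
      by_contra hcon
      push Not at hcon
      apply hM1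
      rw [← sub_eq_zero]
      ext r t
      exact congrFun (hcon t) r
    set w : Fin 2 → ℂ := fun r => (M - e • (1 : Matrix (Fin 2) (Fin 2) ℂ)) r s with hw
    have hMw : M.mulVec w = e • w := c2b_CH M e he2 hdet htr s
    have hwO : ∀ i, InO (w i) := by
      intro i
      have h1 : InO (M i s) := rho0_InO g i s
      have h2 : InO ((e • (1 : Matrix (Fin 2) (Fin 2) ℂ)) i s) := by
        rw [Matrix.smul_apply, Matrix.one_apply]
        split_ifs
        · rw [smul_eq_mul, mul_one]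
          exact c2b_InO_sign e he2
        · exact ⟨0, 0, by simp⟩
      exact (InO_ops _ _ h1 h2).2.1
    obtain ⟨y, hy⟩ := c2b_point w hs
    obtain ⟨k, hk⟩ := hG.cover y
    rw [c2b_FF0] at hk
    have hq : q (rho 0 k • y) e1 < 3 / 2 := by
      by_contra hcon
      push Not at hcon
      nlinarith
    rw [q_smul_inv] at hq
    set v : Fin 2 → ℂ := (rho 0 k)⁻¹.1.mulVec e1 with hv
    have hkv : (rho 0 k).1.mulVec v = e1 := by
      rw [hv, Matrix.mulVec_mulVec, ← Matrix.SpecialLinearGroup.coe_mul, mul_inv_cancel,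
        Matrix.SpecialLinearGroup.coe_one, Matrix.one_mulVec]
    have hv0 : v ≠ 0 := by
      intro h0
      rw [h0, Matrix.mulVec_zero] at hkv
      have := congrFun hkv 0
      simp [e1] at this
    have hvO : ∀ i, InO (v i) := by
      intro i
      have h1 : v i = (rho 0 k⁻¹) i 0 := by
        rw [hv, ← map_inv]
        simp [Matrix.mulVec, dotProduct, Fin.sum_univ_two, e1]
      rw [h1]
      exact rho0_InO k⁻¹ i 0
    have hdet2 : det2 v w = 0 := by
      apply c2b_det v w hvO hwO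
      have h1 := q_mul_ge y v w
      have h2 := q_nonneg y v
      have h3 := q_nonneg y w
      nlinarith
    obtain ⟨c, hc⟩ := c2b_prop v w hv0 hdet2
    have hc0 : c ≠ 0 := by
      intro h0
      apply hs
      rw [hc, h0, zero_smul]
    have hMv : M.mulVec v = e • v := by
      rw [hc, Matrix.mulVec_smul, smul_comm e c v] at hMw
      have h1 := congrArg (fun z => c⁻¹ • z) hMw
      simpa [smul_smul, hc0] using h1
    have hfin : (rho 0 (k * g * k⁻¹)).1.mulVec e1 = e • e1 := by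
      rw [map_mul, map_mul, map_inv, Matrix.SpecialLinearGroup.coe_mul, Matrix.SpecialLinearGroup.coe_mul,
        ← Matrix.mulVec_mulVec, ← Matrix.mulVec_mulVec]
      show (rho 0 k).1.mulVec (M.mulVec v) = e • e1
      rw [hMv, Matrix.mulVec_smul, hkv]
    obtain ⟨i, j, hij⟩ := c2b_fix hG (k * g * k⁻¹) e he2 hfin
    exact ⟨k, i, j, hij⟩

end DHN
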