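import Mathlib

/-!
# Hyperbolic 3-space, the action of SL(2,C), closed and one-cusped hyperbolic manifold groups
-/

set_option autoImplicit false

open MeasureTheory Matrix ComplexConjugate

namespace DHN

/-- Hyperbolic 3-space, upper half-space model: pairs (z, t) with z complex and t positive. -/
abbrev H3 : Type := {p : ℂ × ℝ // 0 < p.2}

/-- The group SL(2, ℂ). -/
abbrev SL2C : Type := Matrix.SpecialLinearGroup (Fin 2) ℂ

/-- The denominator `|c z + d|^2 + |c|^2 t^2`. -/
noncomputable def den (g : SL2C) (y : H3) : ℝ :=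
  Complex.normSq (g 1 0 * y.1.1 + g 1 1) + Complex.normSq (g 1 0) * y.1.2 ^ 2

theorem den_pos (g : SL2C) (y : H3) : 0 < den g y := by
  have hy := y.2
  unfold den
  by_cases h : g 1 0 = 0
  · have hd : g 1 1 ≠ 0 := by
      intro h1
      have := g.det_coe
      rw [Matrix.det_fin_two] at this
      rw [h, h1] at this
      simp at this
    rw [h]
    simp only [zero_mul, zero_add, map_zero, add_zero]
    exact Complex.normSq_pos.2 hd
  · have h1 : 0 < Complex.normSq (g 1 0) := Complex.normSq_pos.2 h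
    have h2 : 0 ≤ Complex.normSq (g 1 0 * y.1.1 + g 1 1) := Complex.normSq_nonneg _
    positivity

/-- The Poincare extension of the Moebius action of SL(2, ℂ) to hyperbolic 3-space. -/
noncomputable instance : SMul SL2C H3 where
  smul g y := ⟨(((g 0 0 * y.1.1 + g 0 1) * conj (g 1 0 * y.1.1 + g 1 1) +
    g 0 0 * conj (g 1 0) * (y.1.2 : ℂ) ^ 2) / (den g y : ℂ), y.1.2 / den g y),
    div_pos y.2 (den_pos g y)⟩

theorem smul_z (g : SL2C) (y : H3) : (g • y).1.1 =
    ((g 0 0 * y.1.1 + g 0 1) * conj (g 1 0 * y.1.1 + g 1 1) +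
    g 0 0 * conj (g 1 0) * (y.1.2 : ℂ) ^ 2) / (den g y : ℂ) := rfl

theorem smul_t (g : SL2C) (y : H3) : (g • y).1.2 = y.1.2 / den g y := rfl

/-- The positive definite Hermitian form of determinant one attached to a point of hyperbolic space. -/
noncomputable def q (y : H3) (w : Fin 2 → ℂ) : ℝ :=
  (Complex.normSq (w 0 - y.1.1 * w 1) + y.1.2 ^ 2 * Complex.normSq (w 1)) / y.1.2

/-- Equivariance of the form. -/
theorem q_smul (g : SL2C) (y : H3) (w : Fin 2 → ℂ) : q (g • y) (g.1.mulVec w) = q y w := by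
  have hd := den_pos g y
  have hy := y.2
  have hdet : g 0 0 * g 1 1 - g 0 1 * g 1 0 = 1 := by
    have := g.det_coe
    rwa [Matrix.det_fin_two] at this
  have hdr : (den g y : ℝ) ≠ 0 := hd.ne'
  have hyr : y.1.2 ≠ 0 := hy.ne'
  have hDc : (den g y : ℂ) ≠ 0 := by exact_mod_cast hdr
  have h0 : (g.1.mulVec w) 0 = g 0 0 * w 0 + g 0 1 * w 1 := by
    simp [Matrix.mulVec, dotProduct, Fin.sum_univ_two]
  have h1 : (g.1.mulVec w) 1 = g 1 0 * w 0 + g 1 1 * w 1 := by
    simp [Matrix.mulVec, dotProduct, Fin.sum_univ_two]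
  have key : (g 0 0 * w 0 + g 0 1 * w 1) - (g • y).1.1 * (g 1 0 * w 0 + g 1 1 * w 1) =
      (conj (g 1 0 * y.1.1 + g 1 1) * (w 0 - y.1.1 * w 1) - conj (g 1 0) * (y.1.2 : ℂ) ^ 2 * w 1) /
        (den g y : ℂ) := by
    rw [smul_z, eq_div_iff hDc, sub_mul, mul_right_comm, div_mul_cancel₀ _ hDc]
    have hD : (den g y : ℂ) = (g 1 0 * y.1.1 + g 1 1) * conj (g 1 0 * y.1.1 + g 1 1) +
        g 1 0 * conj (g 1 0) * (y.1.2 : ℂ) ^ 2 := by
      unfold den
      push_cast
      rw [Complex.mul_conj, Complex.mul_conj]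
    rw [hD]
    linear_combination (conj (g 1 0 * y.1.1 + g 1 1) * (w 0 - y.1.1 * w 1) -
      conj (g 1 0) * (y.1.2 : ℂ) ^ 2 * w 1) * hdet
  have hn : Complex.normSq (den g y : ℂ) = den g y ^ 2 := by
    rw [Complex.normSq_ofReal, sq]
  unfold q
  rw [h0, h1, key, smul_t, map_div₀, hn]
  have main : Complex.normSq (conj (g 1 0 * y.1.1 + g 1 1) * (w 0 - y.1.1 * w 1) -
      conj (g 1 0) * (y.1.2 : ℂ) ^ 2 * w 1) + y.1.2 ^ 2 * Complex.normSq (g 1 0 * w 0 + g 1 1 * w 1) =
      den g y * (Complex.normSq (w 0 - y.1.1 * w 1) + y.1.2 ^ 2 * Complex.normSq (w 1)) := by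
    unfold den
    apply Complex.ofReal_injective
    push_cast
    simp only [← Complex.mul_conj, map_sub, map_add, map_mul, map_pow, Complex.conj_conj,
      Complex.conj_ofReal]
    ring
  rw [div_div_eq_mul_div]
  field_simp
  field_simp at main
  linear_combination main

theorem q_pos (y : H3) (w : Fin 2 → ℂ) (hw : w ≠ 0) : 0 < q y w := by
  have hy := y.2
  unfold q
  apply div_pos _ hy
  by_cases h : w 1 = 0
  · have h0 : w 0 ≠ 0 := by
      intro h0
      apply hw
      funext i
      fin_cases i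
      · exact h0
      · exact h
    rw [h]
    simp only [mul_zero, sub_zero, map_zero, add_zero]
    exact Complex.normSq_pos.2 h0
  · have h1 : 0 < Complex.normSq (w 1) := Complex.normSq_pos.2 h
    have h2 : 0 ≤ Complex.normSq (w 0 - y.1.1 * w 1) := Complex.normSq_nonneg _
    positivity

theorem q_e1 (y : H3) : q y ![1, 0] = 1 / y.1.2 := by
  unfold q
  simp

theorem q_injective (y y' : H3) (h : ∀ w, q y w = q y' w) : y = y' := by
  have ht : y.1.2 = y'.1.2 := by
    have := h ![1, 0]
    rw [q_e1, q_e1] at this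
    have hy := y.2
    have hy' := y'.2
    field_simp at this
    linarith
  have hz : y.1.1 = y'.1.1 := by
    have h1 := h ![y.1.1, 1]
    have hy' := y'.2
    unfold q at h1
    simp only [Matrix.cons_val_zero, Matrix.cons_val_one, mul_one, sub_self, map_zero, zero_add,
      map_one] at h1
    rw [ht] at h1
    field_simp at h1
    have h2 : Complex.normSq (y.1.1 - y'.1.1) = 0 := by linarith
    rw [Complex.normSq_eq_zero] at h2
    exact sub_eq_zero.1 h2
  exact Subtype.ext (Prod.ext hz ht)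

noncomputable instance : MulAction SL2C H3 where
  one_smul y := by
    apply q_injective
    intro w
    have := q_smul 1 y w
    simpa using this
  mul_smul g h y := by
    apply q_injective
    intro w
    have h1 := q_smul (g * h) y ((g * h)⁻¹.1.mulVec w)
    have h2 := q_smul h y ((g * h)⁻¹.1.mulVec w)
    have h3 := q_smul g (h • y) (h.1.mulVec ((g * h)⁻¹.1.mulVec w))
    rw [Matrix.mulVec_mulVec, ← Matrix.SpecialLinearGroup.coe_mul, mul_inv_cancel,
      Matrix.SpecialLinearGroup.coe_one, Matrix.one_mulVec] at h1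
    rw [Matrix.mulVec_mulVec, ← Matrix.SpecialLinearGroup.coe_mul,
      Matrix.mulVec_mulVec, ← Matrix.SpecialLinearGroup.coe_mul, mul_inv_cancel,
      Matrix.SpecialLinearGroup.coe_one, Matrix.one_mulVec] at h3
    rw [h1, h3, h2]

/-- The hyperbolic volume `dx dy dt / t^3` on hyperbolic 3-space. -/
noncomputable def hypVol : Measure H3 :=
  (Measure.comap Subtype.val (volume : Measure (ℂ × ℝ))).withDensity
    (fun y => ENNReal.ofReal (1 / y.1.2 ^ 3))

/-- `Γ` is discrete and acts freely on hyperbolic 3-space: it is the fundamental group of the complete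
orientable hyperbolic 3-manifold `H3 / Γ`. -/
structure IsHypManifoldGroup (Γ : Subgroup SL2C) : Prop where
  discrete : DiscreteTopology Γ
  free : ∀ g ∈ Γ, ∀ y : H3, g • y = y → g = 1

/-- The hyperbolic volume of `H3 / Γ` is `v`. -/
def HasVolume (Γ : Subgroup SL2C) (v : ℝ) : Prop :=
  ∃ F : Set H3, IsFundamentalDomain Γ F hypVol ∧ hypVol F = ENNReal.ofReal v

/-- `Δ` is the fundamental group of the closed orientable hyperbolic 3-manifold `H3 / Δ`. -/
structure IsClosedHypGroup (Δ : Subgroup SL2C) : Prop extends IsHypManifoldGroup Δ where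
  cocompact : ∃ K : Set H3, IsCompact K ∧ ∀ y : H3, ∃ g ∈ Δ, g • y ∈ K

/-- `Γ` is the fundamental group of the complete orientable hyperbolic 3-manifold `M = H3 / Γ` of finite volume
with exactly one cusp, and `μ`, `lam` is a basis of the fundamental group of the cusp torus. -/
structure IsOneCusped (Γ : Subgroup SL2C) (μ lam : Γ) : Prop extends IsHypManifoldGroup Γ where
  volume : ∃ v : ℝ, HasVolume Γ v
  comm : μ * lam = lam * μ
  basis : ∀ i j : ℤ, μ ^ i * lam ^ j = 1 → i = 0 ∧ j = 0
  parabolic : ∀ i j : ℤ, (Matrix.trace (μ ^ i * lam ^ j).1.1) ^ 2 = 4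
  one_cusp : ∀ g : Γ, (Matrix.trace g.1.1) ^ 2 = 4 → ∃ h : Γ, ∃ i j : ℤ, h * g * h⁻¹ = μ ^ i * lam ^ j

/-- The Dehn filling of `H3 / Γ` along `p μ + q lam` is hyperbolic with volume `v`: its fundamental group
`Γ / <<μ^p lam^q>>` is isomorphic to the group of a closed hyperbolic 3-manifold of volume `v`. -/
def FillingHasVolume (Γ : Subgroup SL2C) (μ lam : Γ) (p q : ℤ) (v : ℝ) : Prop :=
  ∃ Δ : Subgroup SL2C, IsClosedHypGroup Δ ∧ HasVolume Δ v ∧
    Nonempty ((Γ ⧸ Subgroup.normalClosure {μ ^ p * lam ^ q}) ≃* Δ)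

end DHN
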