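import Pool.Agent.DHN.FD

/-!
# [DHN-F1] algebra of the forms
-/

set_option autoImplicit false

open Topology Matrix ComplexConjugate Filter

namespace DHN

/-- [F1] PROOF: with `A = v0 - z v1`, `C = t v1`, `B = w0 - z w1`, `D = t w1`:
`(|A|^2 + |C|^2)(|B|^2 + |D|^2) ≥ |A D - B C|^2` (Lagrange: the difference is `|A conj B + C conj D|^2`) and
`A D - B C = t (v0 w1 - v1 w0)`; divide by `t^2`. -/
theorem q_mul_ge (y : H3) (v w : Fin 2 → ℂ) :
    Complex.normSq (det2 v w) ≤ q y v * q y w := by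
  have hy := y.2
  have key : Complex.normSq ((v 0 - y.1.1 * v 1) * ((y.1.2 : ℂ) * w 1) - ((y.1.2 : ℂ) * v 1) * (w 0 - y.1.1 * w 1)) ≤
      (Complex.normSq (v 0 - y.1.1 * v 1) + Complex.normSq ((y.1.2 : ℂ) * v 1)) *
      (Complex.normSq (w 0 - y.1.1 * w 1) + Complex.normSq ((y.1.2 : ℂ) * w 1)) := by
    generalize v 0 - y.1.1 * v 1 = A
    generalize (y.1.2 : ℂ) * v 1 = C
    generalize w 0 - y.1.1 * w 1 = B
    generalize (y.1.2 : ℂ) * w 1 = D
    have h := Complex.normSq_nonneg (A * conj B + C * conj D)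
    simp only [Complex.normSq_apply, Complex.add_re, Complex.add_im, Complex.sub_re, Complex.sub_im,
      Complex.mul_re, Complex.mul_im, Complex.conj_re, Complex.conj_im] at h ⊢
    nlinarith [h]
  have e1 : (v 0 - y.1.1 * v 1) * ((y.1.2 : ℂ) * w 1) - ((y.1.2 : ℂ) * v 1) * (w 0 - y.1.1 * w 1) =
      (y.1.2 : ℂ) * det2 v w := by
    unfold det2; ring
  rw [e1] at key
  simp only [Complex.normSq_mul, Complex.normSq_ofReal] at key
  unfold q
  rw [div_mul_div_comm, le_div_iff₀ (mul_pos hy hy)]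
  nlinarith [key]

/-- [F1] determinants are preserved by `SL(2, ℂ)` -/
theorem det2_smul (g : SL2C) (v w : Fin 2 → ℂ) : det2 (g.1.mulVec v) (g.1.mulVec w) = det2 v w := by
  have hdet : g.1 0 0 * g.1 1 1 - g.1 0 1 * g.1 1 0 = 1 := by
    have := g.2
    rwa [Matrix.det_fin_two] at this
  unfold det2
  simp only [Matrix.mulVec, dotProduct, Fin.sum_univ_two]
  linear_combination (v 0 * w 1 - v 1 * w 0) * hdet

/-- [F1] -/
theorem det2_smul_vec (a b : ℂ) (v w : Fin 2 → ℂ) : det2 (a • v) (b • w) = a * b * det2 v w := by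
  unfold det2
  simp only [Pi.smul_apply, smul_eq_mul]
  ring

/-- [F1] PROOF: `q_smul` with `w = g⁻¹ w'`. -/
theorem q_smul_inv (g : SL2C) (y : H3) (w : Fin 2 → ℂ) : q (g • y) w = q y (g⁻¹.1.mulVec w) := by
  have h := q_smul g y (g⁻¹.1.mulVec w)
  rw [Matrix.mulVec_mulVec, ← Matrix.SpecialLinearGroup.coe_mul, mul_inv_cancel,
    Matrix.SpecialLinearGroup.coe_one, Matrix.one_mulVec] at h
  exact h

/-- [F1] -/
theorem q_inv_smul (g : SL2C) (y : H3) (w : Fin 2 → ℂ) : q (g⁻¹ • y) w = q y (g.1.mulVec w) := by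
  rw [q_smul_inv, inv_inv]

/-- [F1] -/
theorem q_smul_vec (y : H3) (m : ℂ) (w : Fin 2 → ℂ) : q y (m • w) = Complex.normSq m * q y w := by
  unfold q
  simp only [Pi.smul_apply, smul_eq_mul]
  have e : m * w 0 - y.1.1 * (m * w 1) = m * (w 0 - y.1.1 * w 1) := by ring
  rw [e, Complex.normSq_mul, Complex.normSq_mul]
  ring

/-- [F1] -/
theorem q_nonneg (y : H3) (w : Fin 2 → ℂ) : 0 ≤ q y w := by
  have hy := y.2
  unfold q
  have h1 := Complex.normSq_nonneg (w 0 - y.1.1 * w 1)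
  have h2 := Complex.normSq_nonneg (w 1)
  positivity

end DHN
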