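import Pool.Agent.DHN.F1

/-!
# [DHN-F2] Thompson neighbourhoods
-/

set_option autoImplicit false

open Topology Matrix ComplexConjugate Filter

namespace DHN

/-- one-sided comparison of forms -/
theorem q_compare (c η : ℝ) (hη : 0 < η) (z z' : ℂ) (t t' : ℝ) (ht : 0 < t) (ht' : 0 < t')
    (h1 : (1 + η) * t ≤ c * t')
    (h2 : (1 + 1 / η) * ‖z - z'‖ ^ 2 + t' ^ 2 ≤ c * t * t') (w : Fin 2 → ℂ) :
    (Complex.normSq (w 0 - z' * w 1) + t' ^ 2 * Complex.normSq (w 1)) / t' ≤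
      c * ((Complex.normSq (w 0 - z * w 1) + t ^ 2 * Complex.normSq (w 1)) / t) := by
  have hA : Complex.normSq (w 0 - z' * w 1) ≤ (1 + η) * Complex.normSq (w 0 - z * w 1) +
      (1 + 1 / η) * (‖z - z'‖ ^ 2 * Complex.normSq (w 1)) := by
    have e : w 0 - z' * w 1 = (w 0 - z * w 1) + (z - z') * w 1 := by ring
    have e2 : ‖z - z'‖ ^ 2 * Complex.normSq (w 1) = Complex.normSq ((z - z') * w 1) := by
      rw [Complex.normSq_mul, Complex.normSq_eq_norm_sq (z - z')]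
    rw [e, e2]
    generalize w 0 - z * w 1 = A
    generalize (z - z') * w 1 = B
    have h3 : ‖A + B‖ ≤ ‖A‖ + ‖B‖ := norm_add_le A B
    rw [Complex.normSq_eq_norm_sq, Complex.normSq_eq_norm_sq, Complex.normSq_eq_norm_sq]
    have h4 : ‖A + B‖ ^ 2 ≤ (‖A‖ + ‖B‖) ^ 2 := pow_le_pow_left₀ (norm_nonneg _) h3 2
    have h5 : 2 * ‖A‖ * ‖B‖ ≤ η * ‖A‖ ^ 2 + 1 / η * ‖B‖ ^ 2 := by
      have h6 : 0 ≤ (η * ‖A‖ - ‖B‖) ^ 2 / η := by positivity
      have h7 : (η * ‖A‖ - ‖B‖) ^ 2 / η = η * ‖A‖ ^ 2 + 1 / η * ‖B‖ ^ 2 - 2 * ‖A‖ * ‖B‖ := by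
        field_simp
        ring
      linarith
    nlinarith
  have hN0 := Complex.normSq_nonneg (w 0 - z * w 1)
  have hN1 := Complex.normSq_nonneg (w 1)
  rw [← mul_div_assoc, div_le_div_iff₀ ht' ht]
  have h8 : (Complex.normSq (w 0 - z' * w 1) + t' ^ 2 * Complex.normSq (w 1)) ≤
      (1 + η) * Complex.normSq (w 0 - z * w 1) +
      ((1 + 1 / η) * ‖z - z'‖ ^ 2 + t' ^ 2) * Complex.normSq (w 1) := by linarith
  calc (Complex.normSq (w 0 - z' * w 1) + t' ^ 2 * Complex.normSq (w 1)) * t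
      ≤ ((1 + η) * Complex.normSq (w 0 - z * w 1) +
        ((1 + 1 / η) * ‖z - z'‖ ^ 2 + t' ^ 2) * Complex.normSq (w 1)) * t :=
        mul_le_mul_of_nonneg_right h8 ht.le
    _ = ((1 + η) * t) * Complex.normSq (w 0 - z * w 1) +
        ((1 + 1 / η) * ‖z - z'‖ ^ 2 + t' ^ 2) * (Complex.normSq (w 1) * t) := by ring
    _ ≤ (c * t') * Complex.normSq (w 0 - z * w 1) + (c * t * t') * (Complex.normSq (w 1) * t) :=
        add_le_add (mul_le_mul_of_nonneg_right h1 hN0)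
          (mul_le_mul_of_nonneg_right h2 (mul_nonneg hN1 ht.le))
    _ = c * (Complex.normSq (w 0 - z * w 1) + t ^ 2 * Complex.normSq (w 1)) * t' := by ring

/-- [F2] PROOF: put `η = min ((c-1)/2) 1 > 0`. `|w0 - z' w1|^2 ≤ (1+η)|w0 - z w1|^2 + (1+1/η)|z-z'|^2 |w1|^2`. So `q y' w ≤ c q y w`
for all `w` as soon as `(1+η)/t' ≤ c/t` and `(1+1/η)|z-z'|^2/t' + t' ≤ c t`; both are open conditions on `(z',t')` which
hold at `(z,t)`; the same with `y`, `y'` exchanged. -/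
theorem TV_mem_nhds (c : ℝ) (hc : 1 < c) (y : H3) : TV c y ∈ 𝓝 y := by
  obtain ⟨η, hη, hηc⟩ : ∃ η : ℝ, 0 < η ∧ 1 + η < c := ⟨(c - 1) / 2, by linarith, by linarith⟩
  have hy := y.2
  have hz : Continuous (fun y' : H3 => y'.1.1) := continuous_fst.comp continuous_subtype_val
  have ht : Continuous (fun y' : H3 => y'.1.2) := continuous_snd.comp continuous_subtype_val
  -- four open conditions
  have c1 : ∀ᶠ y' in 𝓝 y, (1 + η) * y.1.2 < c * y'.1.2 := by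
    have h1 : ContinuousAt (fun y' : H3 => c * y'.1.2) y := (continuous_const.mul ht).continuousAt
    exact h1.eventually (lt_mem_nhds (by show (1 + η) * y.1.2 < c * y.1.2; nlinarith))
  have c2 : ∀ᶠ y' in 𝓝 y, (1 + η) * y'.1.2 < c * y.1.2 := by
    have h1 : ContinuousAt (fun y' : H3 => (1 + η) * y'.1.2) y := (continuous_const.mul ht).continuousAt
    exact h1.eventually (gt_mem_nhds (by show (1 + η) * y.1.2 < c * y.1.2; nlinarith))
  have c3 : ∀ᶠ y' in 𝓝 y, (1 + 1 / η) * ‖y.1.1 - y'.1.1‖ ^ 2 + y'.1.2 ^ 2 - c * y.1.2 * y'.1.2 < 0 := by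
    have h1 : Continuous (fun y' : H3 => (1 + 1 / η) * ‖y.1.1 - y'.1.1‖ ^ 2 + y'.1.2 ^ 2 -
        c * y.1.2 * y'.1.2) := by fun_prop
    refine h1.continuousAt.eventually (gt_mem_nhds ?_)
    show (1 + 1 / η) * ‖y.1.1 - y.1.1‖ ^ 2 + y.1.2 ^ 2 - c * y.1.2 * y.1.2 < 0
    rw [sub_self, norm_zero]
    have h2 : y.1.2 * y.1.2 < c * (y.1.2 * y.1.2) := by nlinarith [mul_pos hy hy]
    nlinarith
  have c4 : ∀ᶠ y' in 𝓝 y, (1 + 1 / η) * ‖y'.1.1 - y.1.1‖ ^ 2 + y.1.2 ^ 2 - c * y'.1.2 * y.1.2 < 0 := by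
    have h1 : Continuous (fun y' : H3 => (1 + 1 / η) * ‖y'.1.1 - y.1.1‖ ^ 2 + y.1.2 ^ 2 -
        c * y'.1.2 * y.1.2) := by fun_prop
    refine h1.continuousAt.eventually (gt_mem_nhds ?_)
    show (1 + 1 / η) * ‖y.1.1 - y.1.1‖ ^ 2 + y.1.2 ^ 2 - c * y.1.2 * y.1.2 < 0
    rw [sub_self, norm_zero]
    have h2 : y.1.2 * y.1.2 < c * (y.1.2 * y.1.2) := by nlinarith [mul_pos hy hy]
    nlinarith
  filter_upwards [c1, c2, c3, c4] with y' h1 h2 h3 h4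
  intro w
  constructor
  · exact q_compare c η hη y.1.1 y'.1.1 y.1.2 y'.1.2 hy y'.2 h1.le (by linarith) w
  · exact q_compare c η hη y'.1.1 y.1.1 y'.1.2 y.1.2 y'.2 hy h2.le (by linarith) w

/-- [F2] -/
theorem TV_smul (c : ℝ) (g : SL2C) (y y' : H3) (h : y' ∈ TV c y) : g • y' ∈ TV c (g • y) := by
  intro w
  rw [q_smul_inv, q_smul_inv]
  exact h _

end DHN
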