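import Pool.Agent.DHN.F1

/-!
# [DHN-F3] compact boxes and bounds
-/

set_option autoImplicit false

open Topology Matrix ComplexConjugate Filter

namespace DHN

/-- [F3] PROOF: image in `ℂ × ℝ` is `closedBall 0 R ×ˢ Icc s t`, compact, contained in `{t > 0}`
(`Topology.IsEmbedding.isCompact_iff` / `Subtype.isCompact_iff`). -/
theorem isCompact_KK (R s t : ℝ) (hs : 0 < s) : IsCompact (KK R s t) := by
  have h1 : IsCompact (Metric.closedBall (0 : ℂ) R ×ˢ Set.Icc s t) :=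
    (isCompact_closedBall _ _).prod isCompact_Icc
  rw [Subtype.isCompact_iff]
  have h2 : (Subtype.val '' KK R s t : Set (ℂ × ℝ)) = Metric.closedBall (0 : ℂ) R ×ˢ Set.Icc s t := by
    ext ⟨z, τ⟩
    constructor
    · rintro ⟨y, hy, hyp⟩
      have hy1 : ‖y.1.1‖ ≤ R ∧ s ≤ y.1.2 ∧ y.1.2 ≤ t := hy
      rw [hyp] at hy1
      refine ⟨?_, hy1.2⟩
      rw [Metric.mem_closedBall, dist_zero_right]
      exact hy1.1
    · rintro ⟨hz, hτ⟩
      rw [Metric.mem_closedBall, dist_zero_right] at hz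
      exact ⟨⟨(z, τ), lt_of_lt_of_le hs hτ.1⟩, ⟨hz, hτ.1, hτ.2⟩, rfl⟩
  rw [h2]
  exact h1

/-- [F3] every compact set lies in a box -/
theorem exists_KK (K : Set H3) (hK : IsCompact K) : ∃ R s t : ℝ, 0 < s ∧ K ⊆ KK R s t := by
  rcases K.eq_empty_or_nonempty with hne | hne
  · exact ⟨0, 1, 0, one_pos, by rw [hne]; exact Set.empty_subset _⟩
  have hc1 : Continuous (fun y : H3 => ‖y.1.1‖) :=
    continuous_norm.comp (continuous_fst.comp continuous_subtype_val)
  have hc2 : Continuous (fun y : H3 => y.1.2) := continuous_snd.comp continuous_subtype_val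
  obtain ⟨y1, -, h1⟩ := hK.exists_isMaxOn hne hc1.continuousOn
  obtain ⟨y2, -, h2⟩ := hK.exists_isMinOn hne hc2.continuousOn
  obtain ⟨y3, -, h3⟩ := hK.exists_isMaxOn hne hc2.continuousOn
  refine ⟨‖y1.1.1‖, y2.1.2, y3.1.2, y2.2, ?_⟩
  intro y hy
  exact ⟨h1 hy, h2 hy, h3 hy⟩

/-- [F3] PROOF: `q y w ≤ (q y e1 + q y e2) (|w0|^2 + |w1|^2)` for a positive semidefinite form (Cauchy-Schwarz), or directly; and
`q y e1 + q y e2 = (1 + |z|^2 + t^2)/t`. -/
theorem q_upper (R s t : ℝ) (hs : 0 < s) (y : H3) (hy : y ∈ KK R s t) (w : Fin 2 → ℂ) :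
    q y w ≤ (1 + R ^ 2 + t ^ 2) / s * (Complex.normSq (w 0) + Complex.normSq (w 1)) := by
  obtain ⟨hz, hs1, ht1⟩ := hy
  have hy2 := y.2
  have hW : 0 ≤ Complex.normSq (w 0) + Complex.normSq (w 1) :=
    add_nonneg (Complex.normSq_nonneg _) (Complex.normSq_nonneg _)
  have h1 : Complex.normSq (w 0 - y.1.1 * w 1) ≤
      (1 + ‖y.1.1‖ ^ 2) * (Complex.normSq (w 0) + Complex.normSq (w 1)) := by
    have hn : ‖y.1.1‖ ^ 2 = Complex.normSq y.1.1 := (Complex.normSq_eq_norm_sq _).symm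
    rw [hn]
    have h := Complex.normSq_nonneg (conj (y.1.1) * w 0 + w 1)
    simp only [Complex.normSq_apply, Complex.add_re, Complex.add_im, Complex.sub_re, Complex.sub_im,
      Complex.mul_re, Complex.mul_im, Complex.conj_re, Complex.conj_im] at h ⊢
    nlinarith [h]
  have h2 : Complex.normSq (w 0 - y.1.1 * w 1) + y.1.2 ^ 2 * Complex.normSq (w 1) ≤
      (1 + R ^ 2 + t ^ 2) * (Complex.normSq (w 0) + Complex.normSq (w 1)) := by
    have h3 : ‖y.1.1‖ ^ 2 ≤ R ^ 2 := pow_le_pow_left₀ (norm_nonneg _) hz 2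
    have h4 : y.1.2 ^ 2 ≤ t ^ 2 := pow_le_pow_left₀ hy2.le ht1 2
    have h5 := Complex.normSq_nonneg (w 0)
    have h6 := Complex.normSq_nonneg (w 1)
    nlinarith [mul_le_mul_of_nonneg_right h3 hW, mul_le_mul_of_nonneg_right h4 hW,
      mul_nonneg (sq_nonneg y.1.2) h5]
  have hnum : 0 ≤ (1 + R ^ 2 + t ^ 2) * (Complex.normSq (w 0) + Complex.normSq (w 1)) := by positivity
  unfold q
  calc (Complex.normSq (w 0 - y.1.1 * w 1) + y.1.2 ^ 2 * Complex.normSq (w 1)) / y.1.2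
      ≤ ((1 + R ^ 2 + t ^ 2) * (Complex.normSq (w 0) + Complex.normSq (w 1))) / y.1.2 :=
        div_le_div_of_nonneg_right h2 hy2.le
    _ ≤ ((1 + R ^ 2 + t ^ 2) * (Complex.normSq (w 0) + Complex.normSq (w 1))) / s :=
        div_le_div_of_nonneg_left hnum hs hs1
    _ = (1 + R ^ 2 + t ^ 2) / s * (Complex.normSq (w 0) + Complex.normSq (w 1)) := by ring

/-- [F3] PROOF: `q_mul_ge` with `v = (-conj w1, conj w0)`, `|det2 v w| = |w|^2`, and `q_upper` for `v`. -/
theorem q_lower (R s t : ℝ) (hs : 0 < s) (y : H3) (hy : y ∈ KK R s t) (w : Fin 2 → ℂ) :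
    Complex.normSq (w 0) + Complex.normSq (w 1) ≤ (1 + R ^ 2 + t ^ 2) / s * q y w := by
  obtain ⟨v, hv⟩ : ∃ v : Fin 2 → ℂ, v = ![-conj (w 1), conj (w 0)] := ⟨_, rfl⟩
  have hW : 0 ≤ Complex.normSq (w 0) + Complex.normSq (w 1) :=
    add_nonneg (Complex.normSq_nonneg _) (Complex.normSq_nonneg _)
  have h1 := q_mul_ge y v w
  have h2 := q_upper R s t hs y hy v
  have hvn : Complex.normSq (v 0) + Complex.normSq (v 1) =
      Complex.normSq (w 0) + Complex.normSq (w 1) := by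
    rw [hv]
    simp only [Matrix.cons_val_zero, Matrix.cons_val_one, Complex.normSq_neg,
      Complex.normSq_conj]
    ring
  have hd : det2 v w = -((Complex.normSq (w 0) + Complex.normSq (w 1) : ℝ) : ℂ) := by
    rw [hv]
    unfold det2
    simp only [Matrix.cons_val_zero, Matrix.cons_val_one]
    push_cast
    rw [← Complex.mul_conj, ← Complex.mul_conj]
    ring
  rw [hd, Complex.normSq_neg, Complex.normSq_ofReal] at h1
  rw [hvn] at h2
  have hq := q_nonneg y w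
  by_cases h0 : Complex.normSq (w 0) + Complex.normSq (w 1) = 0
  · rw [h0]
    have : 0 ≤ (1 + R ^ 2 + t ^ 2) / s := by positivity
    positivity
  · have hpos : 0 < Complex.normSq (w 0) + Complex.normSq (w 1) := lt_of_le_of_ne hW (Ne.symm h0)
    have h3 : (Complex.normSq (w 0) + Complex.normSq (w 1)) *
        (Complex.normSq (w 0) + Complex.normSq (w 1)) ≤
        (Complex.normSq (w 0) + Complex.normSq (w 1)) * ((1 + R ^ 2 + t ^ 2) / s * q y w) := by
      calc _ ≤ q y v * q y w := h1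
        _ ≤ ((1 + R ^ 2 + t ^ 2) / s * (Complex.normSq (w 0) + Complex.normSq (w 1))) * q y w :=
          mul_le_mul_of_nonneg_right h2 hq
        _ = _ := by ring
    exact le_of_mul_le_mul_left h3 hpos

/-- [F3] PROOF: `|g w|^2 ≤ C q (g y) (g w) = C q y w ≤ C^2 |w|^2` with `C = (1 + R^2 + t^2)/s`; take `w = e1, e2`. -/
theorem entry_bound (R s t : ℝ) (hs : 0 < s) (g : SL2C) (y : H3) (hy : y ∈ KK R s t)
    (hgy : g • y ∈ KK R s t) (i j : Fin 2) : ‖g i j‖ ≤ (1 + R ^ 2 + t ^ 2) / s := by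
  have hC : 0 ≤ (1 + R ^ 2 + t ^ 2) / s := by positivity
  have key : ∀ w : Fin 2 → ℂ, Complex.normSq (w 0) + Complex.normSq (w 1) = 1 →
      Complex.normSq ((g.1.mulVec w) 0) + Complex.normSq ((g.1.mulVec w) 1) ≤
        ((1 + R ^ 2 + t ^ 2) / s) ^ 2 := by
    intro w hw
    have h1 := q_lower R s t hs (g • y) hgy (g.1.mulVec w)
    rw [q_smul] at h1
    have h2 := q_upper R s t hs y hy w
    rw [hw, mul_one] at h2
    calc _ ≤ (1 + R ^ 2 + t ^ 2) / s * q y w := h1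
      _ ≤ (1 + R ^ 2 + t ^ 2) / s * ((1 + R ^ 2 + t ^ 2) / s) := mul_le_mul_of_nonneg_left h2 hC
      _ = _ := by ring
  have h0 := key ![1, 0] (by simp)
  have h1 := key ![0, 1] (by simp)
  simp only [Matrix.mulVec, dotProduct, Fin.sum_univ_two, Matrix.cons_val_zero,
    Matrix.cons_val_one, mul_one, mul_zero, add_zero, zero_add] at h0 h1
  have hb : ∀ c : ℂ, Complex.normSq c ≤ ((1 + R ^ 2 + t ^ 2) / s) ^ 2 → ‖c‖ ≤ (1 + R ^ 2 + t ^ 2) / s := by
    intro c hc
    rw [Complex.normSq_eq_norm_sq] at hc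
    exact (pow_le_pow_iff_left₀ (norm_nonneg _) hC two_ne_zero).1 hc
  have n00 := Complex.normSq_nonneg (g.1 0 0)
  have n01 := Complex.normSq_nonneg (g.1 0 1)
  have n10 := Complex.normSq_nonneg (g.1 1 0)
  have n11 := Complex.normSq_nonneg (g.1 1 1)
  fin_cases i <;> fin_cases j
  · exact hb (g.1 0 0) (by linarith)
  · exact hb (g.1 0 1) (by linarith)
  · exact hb (g.1 1 0) (by linarith)
  · exact hb (g.1 1 1) (by linarith)

end DHN
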