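import Pool.Agent.DHN.F1

/-!
# [DHN-F4] continuity of forms and action, fixed points on compact sets
-/

set_option autoImplicit false

open Topology Matrix ComplexConjugate Filter

namespace DHN

/-- [F4] -/
theorem continuous_q : Continuous (fun p : H3 × (Fin 2 → ℂ) => q p.1 p.2) := by
  unfold q
  have hz : Continuous (fun p : H3 × (Fin 2 → ℂ) => p.1.1.1) :=
    continuous_fst.comp (continuous_subtype_val.comp continuous_fst)
  have ht : Continuous (fun p : H3 × (Fin 2 → ℂ) => p.1.1.2) :=
    continuous_snd.comp (continuous_subtype_val.comp continuous_fst)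
  have h0 : Continuous (fun p : H3 × (Fin 2 → ℂ) => p.2 0) := (continuous_apply 0).comp continuous_snd
  have h1 : Continuous (fun p : H3 × (Fin 2 → ℂ) => p.2 1) := (continuous_apply 1).comp continuous_snd
  refine Continuous.div ?_ ht (fun p => p.1.2.ne')
  exact (Complex.continuous_normSq.comp (h0.sub (hz.mul h1))).add
    ((ht.pow 2).mul (Complex.continuous_normSq.comp h1))

/-- [F4] -/
theorem continuous_smul_H3 : Continuous (fun p : SL2C × H3 => p.1 • p.2) := by
  have hz : Continuous (fun p : SL2C × H3 => p.2.1.1) :=
    continuous_fst.comp (continuous_subtype_val.comp continuous_snd)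
  have ht : Continuous (fun p : SL2C × H3 => p.2.1.2) :=
    continuous_snd.comp (continuous_subtype_val.comp continuous_snd)
  have hg : ∀ i j : Fin 2, Continuous (fun p : SL2C × H3 => p.1 i j) := by
    intro i j
    have h1 : Continuous (fun p : SL2C × H3 => (p.1.1 : Matrix (Fin 2) (Fin 2) ℂ)) :=
      continuous_subtype_val.comp continuous_fst
    exact (continuous_apply j).comp ((continuous_apply i).comp h1)
  have hden : Continuous (fun p : SL2C × H3 => den p.1 p.2) := by
    unfold den
    exact (Complex.continuous_normSq.comp (((hg 1 0).mul hz).add (hg 1 1))).add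
      ((Complex.continuous_normSq.comp (hg 1 0)).mul (ht.pow 2))
  refine Continuous.subtype_mk ?_ _
  refine Continuous.prodMk ?_ ?_
  · refine Continuous.div ?_ (Complex.continuous_ofReal.comp hden) ?_
    · exact ((((hg 0 0).mul hz).add (hg 0 1)).mul
        (Complex.continuous_conj.comp (((hg 1 0).mul hz).add (hg 1 1)))).add
        (((hg 0 0).mul (Complex.continuous_conj.comp (hg 1 0))).mul
        ((Complex.continuous_ofReal.comp ht).pow 2))
    · intro p
      have := den_pos p.1 p.2
      exact_mod_cast this.ne'
  · exact Continuous.div ht hden (fun p => (den_pos p.1 p.2).ne')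

/-- [F4] -/
instance : ContinuousConstSMul SL2C H3 where
  continuous_const_smul g := by
    have h := continuous_smul_H3.comp (Continuous.prodMk_right g)
    exact h

/-- [F4] PROOF: the set is the image under the projection `SL2C × K → SL2C` (closed map, `K` compact:
`isClosedMap_fst_of_compactSpace` or `IsCompact.isClosed_image...`) of the closed set `{(g, y) | g • y = y}`. -/
theorem isClosed_fix (K : Set H3) (hK : IsCompact K) : IsClosed {g : SL2C | ∃ y ∈ K, g • y = y} := by
  have : CompactSpace K := isCompact_iff_compactSpace.1 hK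
  have h2 : Continuous (fun p : SL2C × K => ((p.1, (p.2 : H3)) : SL2C × H3)) :=
    continuous_fst.prodMk (continuous_subtype_val.comp continuous_snd)
  have h1 := continuous_smul_H3.comp h2
  change Continuous (fun p : SL2C × K => p.1 • (p.2 : H3)) at h1
  have h3 : Continuous (fun p : SL2C × K => (p.2 : H3)) := continuous_subtype_val.comp continuous_snd
  have hcl : IsClosed {p : SL2C × K | p.1 • (p.2 : H3) = (p.2 : H3)} := isClosed_eq h1 h3
  have him := isClosedMap_fst_of_compactSpace (X := SL2C) (Y := K) _ hcl
  convert him using 1
  ext g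
  constructor
  · rintro ⟨y, hy, h⟩
    exact ⟨(g, ⟨y, hy⟩), h, rfl⟩
  · rintro ⟨p, hp, rfl⟩
    exact ⟨p.2.1, p.2.2, hp⟩

end DHN
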