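import Pool.Agent.DHN.FD

/-!
# [DHN-F6] simple connectedness of hyperbolic space
-/

set_option autoImplicit false

open Topology Matrix ComplexConjugate Filter

namespace DHN

theorem convex_H3 : Convex ℝ {p : ℂ × ℝ | 0 < p.2} := by
  intro a ha b hb x y hx hy hxy
  show 0 < (x • a + y • b).2
  have h1 : (x • a + y • b).2 = x * a.2 + y * b.2 := by simp
  rw [h1]
  have ha' : 0 < a.2 := ha
  have hb' : 0 < b.2 := hb
  rcases hx.lt_or_eq with hx' | hx'
  · have := mul_pos hx' ha'
    have := mul_nonneg hy hb'.le
    linarith
  · have hy' : y = 1 := by linarith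
    rw [← hx', hy']
    linarith

theorem nonempty_H3 : ({p : ℂ × ℝ | 0 < p.2}).Nonempty := ⟨(0, 1), by show (0:ℝ) < 1; norm_num⟩

/-- [F6] hyperbolic 3-space is simply connected and locally path connected: `{p : ℂ × ℝ | 0 < p.2}` is open, convex, nonempty
(`Convex.contractibleSpace`, `SimplyConnectedSpace.ofContractible`, `IsOpen.locallyPathConnectedSpace` or similar). -/
instance simplyConnected_H3 : SimplyConnectedSpace H3 := by
  have h : ContractibleSpace ({p : ℂ × ℝ | 0 < p.2} : Set (ℂ × ℝ)) := convex_H3.contractibleSpace nonempty_H3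
  have h2 : ContractibleSpace H3 := h
  infer_instance

/-- [F6] -/
instance locPathConnected_H3 : LocallyPathConnectedSpace H3 :=
  convex_H3.locallyPathConnectedSpace

/-- [F6] a subset of `H3` that is convex and nonempty in the coordinates `(z, t)` is path connected -/
theorem isPathConnected_of_convex (S : Set H3) (hne : S.Nonempty)
    (hconv : Convex ℝ (Subtype.val '' S)) : IsPathConnected S := by
  have h1 := hconv.isPathConnected (hne.image _)
  exact (Topology.IsInducing.subtypeVal.isPathConnected_iff (F := S)).2 h1

end DHN
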