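import Pool.Agent.DHN.Core

/-!
# [DHN] definitions for forms
-/

set_option autoImplicit false

open Topology Matrix ComplexConjugate Filter

namespace DHN

/-- the determinant of two vectors -/
def det2 (v w : Fin 2 → ℂ) : ℂ := v 0 * w 1 - v 1 * w 0

/-- Thompson neighbourhoods -/
def TV (c : ℝ) (y : H3) : Set H3 := {y' | ∀ w, q y' w ≤ c * q y w ∧ q y w ≤ c * q y' w}

/-- a compact box -/
def KK (R s t : ℝ) : Set H3 := {y | ‖y.1.1‖ ≤ R ∧ s ≤ y.1.2 ∧ y.1.2 ≤ t}

end DHN
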