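import Pool.Agent.DHN.Words

/-!
# The figure-eight knot group `E`, its peripheral subgroup, its automorphism `phi`, its action on 7 points
-/

set_option autoImplicit false
set_option linter.unusedSimpArgs false
set_option linter.unusedTactic false
set_option linter.unreachableTactic false

namespace DHN

/-- The relator. -/
def rel8 : FreeGroup Bool :=
  (FreeGroup.of false)⁻¹ * FreeGroup.of true * FreeGroup.of false * (FreeGroup.of true)⁻¹ *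
    FreeGroup.of false * (FreeGroup.of true * (FreeGroup.of false)⁻¹ * FreeGroup.of true *
    FreeGroup.of false * (FreeGroup.of true)⁻¹)⁻¹

/-- The figure-eight knot group. -/
abbrev E : Type := PresentedGroup ({rel8} : Set (FreeGroup Bool))

/-- the meridian -/
def ex : E := PresentedGroup.of false

/-- the second generator -/
def ey : E := PresentedGroup.of true

theorem rel_E : Rel8 ex ey := by
  have h : PresentedGroup.mk ({rel8} : Set (FreeGroup Bool)) rel8 = 1 :=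
    PresentedGroup.one_of_mem (Set.mem_singleton _)
  unfold rel8 at h
  simp only [map_mul, map_inv] at h
  rw [mul_inv_eq_one] at h
  exact h

/-- The homomorphism given by two elements satisfying the relation. -/
def homE {G : Type} [Group G] (X Y : G) (h : Rel8 X Y) : E →* G :=
  PresentedGroup.toGroup (f := fun b => cond b Y X) (by
    intro r hr
    rw [Set.mem_singleton_iff] at hr
    subst hr
    unfold rel8
    simp only [map_mul, map_inv, FreeGroup.lift_apply_of, cond_true, cond_false]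
    rw [mul_inv_eq_one]
    exact h)

theorem homE_ex {G : Type} [Group G] (X Y : G) (h : Rel8 X Y) : homE X Y h ex = X := by
  unfold homE ex
  rw [PresentedGroup.toGroup.of]
  rfl

theorem homE_ey {G : Type} [Group G] (X Y : G) (h : Rel8 X Y) : homE X Y h ey = Y := by
  unfold homE ey
  rw [PresentedGroup.toGroup.of]
  rfl

theorem closure_E : Subgroup.closure ({ex, ey} : Set E) = ⊤ := by
  have h := PresentedGroup.closure_range_of ({rel8} : Set (FreeGroup Bool))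
  rw [← h]
  congr 1
  ext g
  constructor
  · rintro (h | h)
    · exact ⟨false, h.symm⟩
    · rw [Set.mem_singleton_iff] at h
      exact ⟨true, h.symm⟩
  · rintro ⟨b, rfl⟩
    cases b
    · left; rfl
    · right; rfl

/-- Two homomorphisms from `E` agree if they agree on the generators. -/
theorem hom_ext {G : Type} [Group G] {f g : E →* G} (h1 : f ex = g ex) (h2 : f ey = g ey) : f = g := by
  apply MonoidHom.eq_of_eqOn_dense closure_E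
  rintro s (rfl | hs)
  · exact h1
  · rw [Set.mem_singleton_iff] at hs
    rw [hs]; exact h2

/-- the longitude -/
def el : E := lamW ex ey

/-- the elements `g_a` -/
def ga : Fin 4 → E := gW ex ey

/-- peripheral elements `x^i l^j` -/
def pel (i j : ℤ) : E := ex ^ i * el ^ j

theorem comm_ex_el : Commute ex el := comm_lamW rel_E

theorem pel_mul (i j i' j' : ℤ) : pel i j * pel i' j' = pel (i + i') (j + j') := by
  unfold pel
  rw [zpow_add, zpow_add, mul_assoc, mul_assoc, ← mul_assoc (el ^ j), ← mul_assoc (ex ^ i') (el ^ j),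
    ((comm_ex_el.zpow_zpow i' j).eq)]

theorem pel_zero : pel 0 0 = 1 := by simp [pel]

theorem pel_inv (i j : ℤ) : (pel i j)⁻¹ = pel (-i) (-j) := by
  rw [inv_eq_iff_mul_eq_one, pel_mul]
  simp [pel_zero]

theorem pel_zpow (i j k : ℤ) : pel i j ^ k = pel (k * i) (k * j) := by
  unfold pel
  rw [(comm_ex_el.zpow_zpow i j).mul_zpow, ← zpow_mul, ← zpow_mul, mul_comm i, mul_comm j]

/-- Membership in `P N`, or in `P g_a P N` for some `a`: the adjacency relation of horoballs. -/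
def Adj (N : Subgroup E) (g : E) : Prop :=
  ∃ k ∈ N, (∃ i j : ℤ, g * k = pel i j) ∨
    (∃ (a : Fin 4) (i j i' j' : ℤ), g * k = pel i j * ga a * pel i' j')

section general

variable {G : Type} [Group G]

theorem phi_rel_gen {x y : G} (h : Rel8 x y) : Rel8 x⁻¹ (x⁻¹ * y * x⁻¹ * y⁻¹ * x) := by
  have h1 := rel8_one h
  have key : (x⁻¹)⁻¹ * (x⁻¹ * y * x⁻¹ * y⁻¹ * x) * x⁻¹ * (x⁻¹ * y * x⁻¹ * y⁻¹ * x)⁻¹ * x⁻¹ *
      ((x⁻¹ * y * x⁻¹ * y⁻¹ * x) * (x⁻¹)⁻¹ * (x⁻¹ * y * x⁻¹ * y⁻¹ * x) * x⁻¹ *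
        (x⁻¹ * y * x⁻¹ * y⁻¹ * x)⁻¹)⁻¹ =
      ((y*x⁻¹*y⁻¹*y⁻¹) * (x⁻¹*y*x*y⁻¹*x*(y*x⁻¹*y*x*y⁻¹)⁻¹)⁻¹ * (y*x⁻¹*y⁻¹*y⁻¹)⁻¹) *
      ((x⁻¹*y*x⁻¹*y⁻¹*x) * (x⁻¹*y*x*y⁻¹*x*(y*x⁻¹*y*x*y⁻¹)⁻¹) * (x⁻¹*y*x⁻¹*y⁻¹*x)⁻¹) := by
    group
  rw [h1] at key
  unfold Rel8
  rw [← mul_inv_eq_one, key]
  group

theorem psi_rel_gen {x y : G} (h : Rel8 x y) : Rel8 x⁻¹ (y⁻¹ * x⁻¹ * y) := by
  have h1 := rel8_one h
  have key : (x⁻¹)⁻¹ * (y⁻¹ * x⁻¹ * y) * x⁻¹ * (y⁻¹ * x⁻¹ * y)⁻¹ * x⁻¹ *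
      ((y⁻¹ * x⁻¹ * y) * (x⁻¹)⁻¹ * (y⁻¹ * x⁻¹ * y) * x⁻¹ * (y⁻¹ * x⁻¹ * y)⁻¹)⁻¹ =
      ((x*y⁻¹*x⁻¹*y*x⁻¹*y⁻¹*x*y*x⁻¹*x⁻¹*y*x*y⁻¹*x⁻¹*y*x⁻¹*y⁻¹*x) *
        (x⁻¹*y*x*y⁻¹*x*(y*x⁻¹*y*x*y⁻¹)⁻¹) *
        (x*y⁻¹*x⁻¹*y*x⁻¹*y⁻¹*x*y*x⁻¹*x⁻¹*y*x*y⁻¹*x⁻¹*y*x⁻¹*y⁻¹*x)⁻¹) *
      ((y⁻¹*x*y⁻¹) * (x⁻¹*y*x*y⁻¹*x*(y*x⁻¹*y*x*y⁻¹)⁻¹)⁻¹ * (y⁻¹*x*y⁻¹)⁻¹) := by
    group
  rw [h1] at key
  unfold Rel8
  rw [← mul_inv_eq_one, key]
  group

theorem phi_psi_gen {x y : G} (h : Rel8 x y) :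
    (x⁻¹ * y * x⁻¹ * y⁻¹ * x)⁻¹ * (x⁻¹)⁻¹ * (x⁻¹ * y * x⁻¹ * y⁻¹ * x) = y := by
  have h1 := rel8_one h
  have key : (x⁻¹ * y * x⁻¹ * y⁻¹ * x)⁻¹ * (x⁻¹)⁻¹ * (x⁻¹ * y * x⁻¹ * y⁻¹ * x) * y⁻¹ =
      x⁻¹*y*x*y⁻¹*x*(y*x⁻¹*y*x*y⁻¹)⁻¹ := by
    group
  rw [h1] at key
  rw [← mul_inv_eq_one, key]

theorem psi_phi_gen {x y : G} (h : Rel8 x y) :
    (x⁻¹)⁻¹ * (y⁻¹ * x⁻¹ * y) * (x⁻¹)⁻¹ * (y⁻¹ * x⁻¹ * y)⁻¹ * x⁻¹ = y := by
  have h1 := rel8_one h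
  have key : (x⁻¹)⁻¹ * (y⁻¹ * x⁻¹ * y) * (x⁻¹)⁻¹ * (y⁻¹ * x⁻¹ * y)⁻¹ * x⁻¹ * y⁻¹ =
      (y*x*y⁻¹*x⁻¹*y*x⁻¹*y⁻¹*x) * (x⁻¹*y*x*y⁻¹*x*(y*x⁻¹*y*x*y⁻¹)⁻¹) *
        (y*x*y⁻¹*x⁻¹*y*x⁻¹*y⁻¹*x)⁻¹ := by
    group
  rw [h1] at key
  rw [← mul_inv_eq_one, key]
  group

theorem phi_el_gen {x y : G} (h : Rel8 x y) :
    lamW x⁻¹ (x⁻¹ * y * x⁻¹ * y⁻¹ * x) = lamW x y := by
  have h1 := rel8_one h
  have key : lamW x⁻¹ (x⁻¹ * y * x⁻¹ * y⁻¹ * x) * (lamW x y)⁻¹ =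
      ((x⁻¹*y*x⁻¹*y⁻¹*x*y*x*y⁻¹*x⁻¹) * (x⁻¹*y*x*y⁻¹*x*(y*x⁻¹*y*x*y⁻¹)⁻¹) *
        (x⁻¹*y*x⁻¹*y⁻¹*x*y*x*y⁻¹*x⁻¹)⁻¹) *
      ((y*x⁻¹*y⁻¹*x*y⁻¹) * (x⁻¹*y*x*y⁻¹*x*(y*x⁻¹*y*x*y⁻¹)⁻¹)⁻¹ * (y*x⁻¹*y⁻¹*x*y⁻¹)⁻¹) := by
    unfold lamW
    group
  rw [h1] at key
  rw [← mul_inv_eq_one, key]
  group

end general

/-- The automorphism `phi` (induced by the orientation-reversing isometry of the figure-eight knot complement). -/
theorem phi_rel : Rel8 ex⁻¹ (ex⁻¹ * ey * ex⁻¹ * ey⁻¹ * ex) := by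
  exact phi_rel_gen rel_E

theorem psi_rel : Rel8 ex⁻¹ (ey⁻¹ * ex⁻¹ * ey) := by
  exact psi_rel_gen rel_E

/-- `phi` -/
def phiHom : E →* E := homE _ _ phi_rel

/-- `psi`, the inverse of `phi` -/
def psiHom : E →* E := homE _ _ psi_rel

theorem phi_psi (g : E) : phiHom (psiHom g) = g := by
  have h : phiHom.comp psiHom = MonoidHom.id E := by
    apply hom_ext
    · simp only [MonoidHom.comp_apply, MonoidHom.id_apply]
      unfold psiHom phiHom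
      rw [homE_ex, map_inv, homE_ex, inv_inv]
    · simp only [MonoidHom.comp_apply, MonoidHom.id_apply]
      unfold psiHom phiHom
      rw [homE_ey, map_mul, map_mul, map_inv, map_inv, homE_ex, homE_ey]
      exact phi_psi_gen rel_E
  exact DFunLike.congr_fun h g

theorem psi_phi (g : E) : psiHom (phiHom g) = g := by
  have h : psiHom.comp phiHom = MonoidHom.id E := by
    apply hom_ext
    · simp only [MonoidHom.comp_apply, MonoidHom.id_apply]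
      unfold psiHom phiHom
      rw [homE_ex, map_inv, homE_ex, inv_inv]
    · simp only [MonoidHom.comp_apply, MonoidHom.id_apply]
      unfold psiHom phiHom
      rw [homE_ey, map_mul, map_mul, map_mul, map_mul, map_inv, map_inv, homE_ex, homE_ey]
      exact psi_phi_gen rel_E
  exact DFunLike.congr_fun h g

theorem phi_el : phiHom el = el := by
  have h : phiHom el = lamW (phiHom ex) (phiHom ey) := by
    unfold el lamW
    simp only [map_mul, map_inv]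
  rw [h]
  unfold phiHom
  rw [homE_ex, homE_ey]
  exact phi_el_gen rel_E

theorem psi_el : psiHom el = el := by
  rw [← phi_el, psi_phi, phi_el]

theorem phi_pel (i j : ℤ) : phiHom (pel i j) = pel (-i) j := by
  unfold pel
  rw [map_mul, map_zpow, map_zpow, phi_el]
  unfold phiHom
  rw [homE_ex]
  simp

theorem psi_pel (i j : ℤ) : psiHom (pel i j) = pel (-i) j := by
  unfold pel
  rw [map_mul, map_zpow, map_zpow, psi_el]
  unfold psiHom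
  rw [homE_ex]
  simp

end DHN
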