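import Mathlib

/-!
# [DHN-LG] The local-to-global theorem

Let `Y` be simply connected and locally path connected, `U i` open path-connected subsets, `R` a reflexive symmetric
relation on the index set with the triple condition (a), the completeness condition (b) and the connectedness
condition (c). Then the `U i` cover `Y`, and `U i ∩ U j ≠ ∅` implies `R i j`.

PROOF. Let `X` be the quotient of `Σ i, U i` by `(i, y) ~ (j, y')  :⇔  y = y' ∧ R i j` (an equivalence relation by (a),
`hrefl`, `hsymm`), with the quotient topology, and `f : X → Y` the projection.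
(1) each chart `c i : U i → X` is continuous, injective, and open: the preimage in `U j` of `c i '' W` is `W ∩ U j` if `R i j` and
empty otherwise (if some point `y` lies in both and `R i j`; note `R i j` does not depend on `y`).
(2) `f` is a covering map: for `y : Y` take `V` of (b). The fibre type is `J := Quotient {j // V ⊆ U j}` by `R` (an equivalence
relation: transitivity by (a) at the point `y`), discrete. `f ⁻¹' V ≃ₜ V × J`: a point `[(i, y')]` with `y' ∈ V` goes to `(y', [j])`
with `j` of (b) (well defined by (a) at `y'`), the inverse is `(y', [j]) ↦ [(j, y')]`. If `J` is empty, `f ⁻¹' V` is empty.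
Use `IsEvenlyCovered` (its definition: `DiscreteTopology I ∧ ∃ U, x ∈ U ∧ IsOpen U ∧ IsOpen (f ⁻¹' U) ∧ ∃ H : f ⁻¹' U ≃ₜ U × I,
∀ x, (H x).1.1 = f x`) and `IsCoveringMap`, `IsEvenlyCovered.to_isEvenlyCovered_preimage`.
(3) `X` is preconnected: union of the `range (c i)` (images of path-connected sets), `IsPreconnected.iUnion_of_reflTransGen` with (c).
(4) Pick `x0 : X` (I nonempty, `U i` nonempty). By `IsCoveringMap.existsUnique_continuousMap_lifts` there is a continuous
`s : Y → X` with `f ∘ s = id`, `s (f x0) = x0`. By `IsCoveringMap.eq_of_comp_eq`, `s ∘ f = id`. So `f` is injective and surjective.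
(5) Surjectivity gives the first claim; if `y ∈ U i ∩ U j` then `[(i, y)] = [(j, y)]`, so `R i j`.
-/

set_option autoImplicit false

open Topology

namespace DHN

section gluing

variable {Y I : Type} [TopologicalSpace Y]

/-- the data of a gluing -/
structure GlueData (U : I → Set Y) (R : I → I → Prop) : Prop where
  hopen : ∀ i, IsOpen (U i)
  hrefl : ∀ i, R i i
  hsymm : ∀ i j, R i j → R j i
  ha : ∀ i j k y, y ∈ U i → y ∈ U j → y ∈ U k → R i j → R j k → R i k

variable {U : I → Set Y} {R : I → I → Prop}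

/-- the gluing equivalence relation -/
def glueSetoid (D : GlueData U R) : Setoid (Σ i, U i) where
  r a b := a.2.1 = b.2.1 ∧ R a.1 b.1
  iseqv :=
    { refl := fun a => ⟨rfl, D.hrefl _⟩
      symm := fun {a b} h => ⟨h.1.symm, D.hsymm _ _ h.2⟩
      trans := by
        intro a b c h1 h2
        refine ⟨h1.1.trans h2.1, D.ha a.1 b.1 c.1 a.2.1 a.2.2 ?_ ?_ h1.2 h2.2⟩
        · rw [h1.1]; exact b.2.2
        · rw [h1.1, h2.1]; exact c.2.2 }

/-- the glued space -/
def Glue (D : GlueData U R) : Type := Quotient (glueSetoid D)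

instance (D : GlueData U R) : TopologicalSpace (Glue D) :=
  inferInstanceAs (TopologicalSpace (Quotient (glueSetoid D)))

/-- the class of a point -/
def gmk (D : GlueData U R) (i : I) (y : U i) : Glue D := Quotient.mk (glueSetoid D) ⟨i, y⟩

theorem gmk_eq (D : GlueData U R) (i j : I) (y : U i) (z : U j) :
    gmk D i y = gmk D j z ↔ y.1 = z.1 ∧ R i j := by
  constructor
  · intro h
    exact Quotient.exact h
  · intro h
    exact Quotient.sound (s := glueSetoid D) h

/-- the developing map -/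
def gdev (D : GlueData U R) : Glue D → Y :=
  Quotient.lift (fun a : Σ i, U i => a.2.1) (fun _ _ h => h.1)

theorem gdev_gmk (D : GlueData U R) (i : I) (y : U i) : gdev D (gmk D i y) = y.1 := rfl

theorem exists_gmk (D : GlueData U R) (x : Glue D) : ∃ (i : I) (y : U i), x = gmk D i y := by
  induction x using Quotient.inductionOn with
  | h a => exact ⟨a.1, a.2, rfl⟩

theorem continuous_gmk (D : GlueData U R) (i : I) : Continuous (gmk D i) :=
  continuous_quotient_mk'.comp continuous_sigmaMk

theorem continuous_gdev (D : GlueData U R) : Continuous (gdev D) := by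
  apply Continuous.quotient_lift
  exact continuous_sigma (fun i => continuous_subtype_val)

/-- charts over an open set are open -/
theorem isOpen_chart (D : GlueData U R) (i : I) (V : Set Y) (hV : IsOpen V) :
    IsOpen {x : Glue D | ∃ y : U i, y.1 ∈ V ∧ x = gmk D i y} := by
  have h : IsOpen (Quotient.mk (glueSetoid D) ⁻¹' {x : Glue D | ∃ y : U i, y.1 ∈ V ∧ x = gmk D i y}) := by
    rw [isOpen_sigma_iff]
    intro j
    by_cases hR : R j i
    · have : (Sigma.mk j ⁻¹' (Quotient.mk (glueSetoid D) ⁻¹'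
          {x : Glue D | ∃ y : U i, y.1 ∈ V ∧ x = gmk D i y})) =
          Subtype.val ⁻¹' (V ∩ U i) := by
        ext z
        constructor
        · rintro ⟨y, hyV, hy⟩
          have h1 := (gmk_eq D j i z y).1 hy
          refine ⟨?_, ?_⟩
          · rw [h1.1]; exact hyV
          · rw [h1.1]; exact y.2
        · rintro ⟨h1, h2⟩
          exact ⟨⟨z.1, h2⟩, h1, (gmk_eq D j i z ⟨z.1, h2⟩).2 ⟨rfl, hR⟩⟩
      rw [this]
      exact (hV.inter (D.hopen i)).preimage continuous_subtype_val
    · have : (Sigma.mk j ⁻¹' (Quotient.mk (glueSetoid D) ⁻¹'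
          {x : Glue D | ∃ y : U i, y.1 ∈ V ∧ x = gmk D i y})) = ∅ := by
        ext z
        constructor
        · rintro ⟨y, hyV, hy⟩
          exact absurd ((gmk_eq D j i z y).1 hy).2 hR
        · intro h; exact h.elim
      rw [this]
      exact isOpen_empty
  exact isQuotientMap_quotient_mk'.isOpen_preimage.1 h

/-- the fibre over a good open set -/
def fibSetoid (D : GlueData U R) (V : Set Y) (y : Y) (hy : y ∈ V) : Setoid {j : I // V ⊆ U j} where
  r a b := R a.1 b.1
  iseqv :=
    { refl := fun _ => D.hrefl _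
      symm := fun h => D.hsymm _ _ h
      trans := fun {a b c} h1 h2 => D.ha a.1 b.1 c.1 y (a.2 hy) (b.2 hy) (c.2 hy) h1 h2 }

/-- the fibre type -/
def Fib (D : GlueData U R) (V : Set Y) (y : Y) (hy : y ∈ V) : Type := Quotient (fibSetoid D V y hy)

instance (D : GlueData U R) (V : Set Y) (y : Y) (hy : y ∈ V) : TopologicalSpace (Fib D V y hy) := ⊥

instance (D : GlueData U R) (V : Set Y) (y : Y) (hy : y ∈ V) : DiscreteTopology (Fib D V y hy) := ⟨rfl⟩

theorem fib_exists (D : GlueData U R) (V : Set Y) (hVo : ∀ i, ∀ y' ∈ V, y' ∈ U i → ∃ j, R i j ∧ V ⊆ U j)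
    (x : gdev D ⁻¹' V) : ∃ (j : {j : I // V ⊆ U j}), x.1 = gmk D j.1 ⟨gdev D x.1, j.2 x.2⟩ := by
  obtain ⟨i, z, hx⟩ := exists_gmk D x.1
  have hzV : z.1 ∈ V := by
    have h1 := x.2
    rw [Set.mem_preimage, hx, gdev_gmk] at h1
    exact h1
  obtain ⟨j, hj1, hj2⟩ := hVo i z.1 hzV z.2
  have hz : z.1 = gdev D x.1 := by
    rw [hx, gdev_gmk]
  exact ⟨⟨j, hj2⟩, hx.trans ((gmk_eq D _ _ _ _).2 ⟨hz, hj1⟩)⟩

/-- the fibre coordinate -/
noncomputable def fibCoord (D : GlueData U R) (V : Set Y) (y : Y) (hy : y ∈ V)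
    (hVo : ∀ i, ∀ y' ∈ V, y' ∈ U i → ∃ j, R i j ∧ V ⊆ U j) (x : gdev D ⁻¹' V) : Fib D V y hy :=
  Quotient.mk (fibSetoid D V y hy) (fib_exists D V hVo x).choose

theorem fibCoord_eq (D : GlueData U R) (V : Set Y) (y : Y) (hy : y ∈ V)
    (hVo : ∀ i, ∀ y' ∈ V, y' ∈ U i → ∃ j, R i j ∧ V ⊆ U j) (x : gdev D ⁻¹' V)
    (j : {j : I // V ⊆ U j}) (z : U j.1) (hx : x.1 = gmk D j.1 z) :
    fibCoord D V y hy hVo x = Quotient.mk (fibSetoid D V y hy) j := by
  have h1 := (fib_exists D V hVo x).choose_spec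
  have h2 := h1.symm.trans hx
  exact Quotient.sound (s := fibSetoid D V y hy) ((gmk_eq D _ _ _ _).1 h2).2

/-- the inverse of the trivialization -/
def fibInv (D : GlueData U R) (V : Set Y) (y : Y) (hy : y ∈ V) (p : V × Fib D V y hy) : gdev D ⁻¹' V :=
  Quotient.lift (fun j : {j : I // V ⊆ U j} =>
    (⟨gmk D j.1 ⟨p.1.1, j.2 p.1.2⟩, by
      rw [Set.mem_preimage, gdev_gmk]; exact p.1.2⟩ : gdev D ⁻¹' V)) (by
    intro j k hjk
    apply Subtype.ext
    exact (gmk_eq D _ _ _ _).2 ⟨rfl, hjk⟩) p.2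

theorem fibInv_mk (D : GlueData U R) (V : Set Y) (y : Y) (hy : y ∈ V) (v : V) (j : {j : I // V ⊆ U j}) :
    (fibInv D V y hy (v, Quotient.mk (fibSetoid D V y hy) j)).1 = gmk D j.1 ⟨v.1, j.2 v.2⟩ := rfl

theorem evenly (D : GlueData U R) (V : Set Y) (hVopen : IsOpen V) (y : Y) (hy : y ∈ V)
    (hVo : ∀ i, ∀ y' ∈ V, y' ∈ U i → ∃ j, R i j ∧ V ⊆ U j) :
    IsEvenlyCovered (gdev D) y (Fib D V y hy) := by
  refine ⟨inferInstance, V, hy, hVopen, hVopen.preimage (continuous_gdev D), ?_⟩
  let H : gdev D ⁻¹' V ≃ₜ V × Fib D V y hy :=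
    { toFun := fun x => (⟨gdev D x.1, x.2⟩, fibCoord D V y hy hVo x)
      invFun := fibInv D V y hy
      left_inv := by
        intro x
        obtain ⟨j, hj⟩ := fib_exists D V hVo x
        apply Subtype.ext
        show (fibInv D V y hy (⟨gdev D x.1, x.2⟩, fibCoord D V y hy hVo x)).1 = x.1
        rw [fibCoord_eq D V y hy hVo x j _ hj, fibInv_mk]
        exact hj.symm
      right_inv := by
        rintro ⟨v, c⟩
        induction c using Quotient.inductionOn with
        | h j =>
          have h1 := fibInv_mk D V y hy v j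
          apply Prod.ext
          · apply Subtype.ext
            show gdev D (fibInv D V y hy (v, Quotient.mk (fibSetoid D V y hy) j)).1 = v.1
            rw [h1, gdev_gmk]
          · exact fibCoord_eq D V y hy hVo _ j _ h1
      continuous_toFun := by
        apply Continuous.prodMk
        · exact ((continuous_gdev D).comp continuous_subtype_val).subtype_mk _
        · rw [continuous_iff_continuousAt]
          intro x
          obtain ⟨j, hj⟩ := fib_exists D V hVo x
          have ho : IsOpen {x' : gdev D ⁻¹' V | x'.1 ∈ {x : Glue D | ∃ z : U j.1, z.1 ∈ V ∧ x = gmk D j.1 z}} :=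
            (isOpen_chart D j.1 V hVopen).preimage continuous_subtype_val
          have hm : {x' : gdev D ⁻¹' V | x'.1 ∈ {x : Glue D | ∃ z : U j.1, z.1 ∈ V ∧ x = gmk D j.1 z}} ∈ 𝓝 x :=
            ho.mem_nhds ⟨⟨gdev D x.1, j.2 x.2⟩, x.2, hj⟩
          apply ContinuousAt.congr (f := fun _ => fibCoord D V y hy hVo x) continuousAt_const
          filter_upwards [hm] with x' hx'
          obtain ⟨z, hz, hxz⟩ := hx'
          rw [fibCoord_eq D V y hy hVo x' j z hxz, fibCoord_eq D V y hy hVo x j _ hj]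
      continuous_invFun := by
        rw [continuous_prod_of_discrete_right]
        intro c
        induction c using Quotient.inductionOn with
        | h j =>
          apply Continuous.subtype_mk
            (f := fun v : V => gmk D j.1 ⟨v.1, j.2 v.2⟩) (h := _)
          exact (continuous_gmk D j.1).comp (continuous_subtype_val.subtype_mk _) }
  exact ⟨H, fun x => rfl⟩

end gluing

theorem local_to_global {Y I : Type} [TopologicalSpace Y] [SimplyConnectedSpace Y]
    [LocallyPathConnectedSpace Y] [Nonempty I] (U : I → Set Y) (R : I → I → Prop)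
    (hopen : ∀ i, IsOpen (U i)) (hpc : ∀ i, IsPathConnected (U i))
    (hrefl : ∀ i, R i i) (hsymm : ∀ i j, R i j → R j i)
    (ha : ∀ i j k y, y ∈ U i → y ∈ U j → y ∈ U k → R i j → R j k → R i k)
    (hb : ∀ y, ∃ V ∈ 𝓝 y, ∀ i, ∀ y' ∈ V, y' ∈ U i → ∃ j, R i j ∧ V ⊆ U j)
    (hc : ∀ i j, Relation.ReflTransGen (fun i j => R i j ∧ (U i ∩ U j).Nonempty) i j) :
    (∀ y, ∃ i, y ∈ U i) ∧ (∀ i j, (U i ∩ U j).Nonempty → R i j) := by
  have D : GlueData U R := ⟨hopen, hrefl, hsymm, ha⟩
  have hcov : IsCoveringMap (gdev D) := by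
    intro y
    obtain ⟨V0, hV0, hV⟩ := hb y
    have hy : y ∈ interior V0 := mem_interior_iff_mem_nhds.2 hV0
    have hVo : ∀ i, ∀ y' ∈ interior V0, y' ∈ U i → ∃ j, R i j ∧ interior V0 ⊆ U j := by
      intro i y' hy' hi
      obtain ⟨j, hj1, hj2⟩ := hV i y' (interior_subset hy') hi
      exact ⟨j, hj1, interior_subset.trans hj2⟩
    exact (evenly D (interior V0) isOpen_interior y hy hVo).to_isEvenlyCovered_preimage
  have hpre : PreconnectedSpace (Glue D) := by
    constructor
    have h1 : (Set.univ : Set (Glue D)) = ⋃ i, Set.range (gmk D i) := by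
      ext x
      simp only [Set.mem_univ, Set.mem_iUnion, Set.mem_range, true_iff]
      obtain ⟨i, z, hx⟩ := exists_gmk D x
      exact ⟨i, z, hx.symm⟩
    rw [h1]
    apply IsPreconnected.iUnion_of_reflTransGen
    · intro i
      have : IsPreconnected (U i) := (hpc i).isConnected.isPreconnected
      have h2 : PreconnectedSpace (U i) := Subtype.preconnectedSpace this
      exact isPreconnected_range (continuous_gmk D i)
    · intro i j
      refine Relation.ReflTransGen.mono (p := fun i j => (Set.range (gmk D i) ∩ Set.range (gmk D j)).Nonempty) ?_ i j (hc i j)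
      rintro a b ⟨hab, y, hya, hyb⟩
      exact ⟨gmk D a ⟨y, hya⟩, ⟨_, rfl⟩, ⟨⟨y, hyb⟩, (gmk_eq D _ _ _ _).2 ⟨rfl, hsymm _ _ hab⟩⟩⟩
  obtain ⟨i0⟩ := ‹Nonempty I›
  obtain ⟨y0, hy0⟩ := (hpc i0).nonempty
  obtain ⟨s, ⟨hs0, hs1⟩, -⟩ := hcov.existsUnique_continuousMap_lifts (ContinuousMap.id Y) y0
    (gmk D i0 ⟨y0, hy0⟩) rfl
  have hsf : (s : Y → Glue D) ∘ gdev D = id := by
    apply hcov.eq_of_comp_eq (s.continuous.comp (continuous_gdev D)) continuous_id ?_
      (gmk D i0 ⟨y0, hy0⟩)
    · show s (gdev D (gmk D i0 ⟨y0, hy0⟩)) = gmk D i0 ⟨y0, hy0⟩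
      rw [gdev_gmk]
      exact hs0
    · rw [← Function.comp_assoc, hs1]
      rfl
  constructor
  · intro y
    obtain ⟨i, z, hx⟩ := exists_gmk D (s y)
    have h1 : gdev D (s y) = y := congrFun hs1 y
    rw [hx, gdev_gmk] at h1
    exact ⟨i, h1 ▸ z.2⟩
  · rintro i j ⟨y, hi, hj⟩
    have h1 : gmk D i ⟨y, hi⟩ = gmk D j ⟨y, hj⟩ := by
      have h2 := congrFun hsf (gmk D i ⟨y, hi⟩)
      have h3 := congrFun hsf (gmk D j ⟨y, hj⟩)
      simp only [Function.comp_apply, id_eq, gdev_gmk] at h2 h3
      rw [← h2, h3]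
    exact ((gmk_eq D _ _ _ _).1 h1).2

end DHN
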