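import Pool.Agent.DHN.Group

/-!
# The action on seven points and the two index 7 subgroups
-/

set_option autoImplicit false

namespace DHN

/-- the 7-cycle `i ↦ i + 1` -/
def px : Equiv.Perm (Fin 7) where
  toFun := ![1, 2, 3, 4, 5, 6, 0]
  invFun := ![6, 0, 1, 2, 3, 4, 5]
  left_inv := by decide
  right_inv := by decide

/-- the image of `y` -/
def py : Equiv.Perm (Fin 7) where
  toFun := ![4, 0, 5, 2, 3, 6, 1]
  invFun := ![1, 6, 3, 4, 0, 2, 5]
  left_inv := by decide
  right_inv := by decide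

theorem pxy_rel : Rel8 px py := by
  unfold Rel8
  decide

/-- the action of `E` on seven points -/
def piE : E →* Equiv.Perm (Fin 7) := homE px py pxy_rel

theorem piE_el : piE el = px ^ 3 := by
  have h : piE el = lamW (piE ex) (piE ey) := by
    unfold el lamW
    simp only [map_mul, map_inv]
  rw [h]
  unfold piE
  rw [homE_ex, homE_ey]
  decide

theorem piE_pel (i j : ℤ) : piE (pel i j) = px ^ (i + 3 * j) := by
  unfold pel
  rw [map_mul, map_zpow, map_zpow, piE_el]
  have h : piE ex = px := by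
    unfold piE
    rw [homE_ex]
  rw [h, zpow_add, zpow_mul]
  norm_cast

theorem px_zpow_zero (n : ℤ) : (px ^ n) 0 = 0 ↔ (7 : ℤ) ∣ n := by
  have h7 : px ^ (7 : ℤ) = 1 := by
    have : px ^ 7 = 1 := by decide
    exact_mod_cast this
  have hr : px ^ n = px ^ (n % 7) := by
    conv_lhs => rw [← Int.mul_ediv_add_emod n 7, zpow_add, zpow_mul, h7, one_zpow, one_mul]
  rw [hr, Int.dvd_iff_emod_eq_zero]
  have h0 := Int.emod_nonneg n (show (7 : ℤ) ≠ 0 by norm_num)
  have h1 := Int.emod_lt_of_pos n (show (0 : ℤ) < 7 by norm_num)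
  interval_cases (n % 7)
  all_goals norm_cast

/-- the group of the 7-fold cover -/
def GM : Subgroup E where
  carrier := {g | piE g 0 = 0}
  mul_mem' := by
    intro a b ha hb
    simp only [Set.mem_ofPred_eq, map_mul, Equiv.Perm.coe_mul, Function.comp_apply] at *
    rw [hb, ha]
  one_mem' := by simp
  inv_mem' := by
    intro a ha
    simp only [Set.mem_ofPred_eq, map_inv] at *
    rw [Equiv.Perm.inv_eq_iff_eq]
    exact ha.symm

theorem mem_GM (g : E) : g ∈ GM ↔ piE g 0 = 0 := Iff.rfl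

/-- the image of `GM` under the inverse of `phi` -/
def GM' : Subgroup E := GM.comap phiHom

theorem mem_GM' (g : E) : g ∈ GM' ↔ phiHom g ∈ GM := Iff.rfl

theorem pel_mem_GM (i j : ℤ) : pel i j ∈ GM ↔ (7 : ℤ) ∣ i + 3 * j := by
  rw [mem_GM, piE_pel, px_zpow_zero]

theorem pel_mem_GM' (i j : ℤ) : pel i j ∈ GM' ↔ (7 : ℤ) ∣ -i + 3 * j := by
  rw [mem_GM', phi_pel, pel_mem_GM]

theorem px_trans (k : Fin 7) : ∃ n : ℤ, (px ^ n) k = 0 := by
  fin_cases k
  · exact ⟨0, by decide⟩
  · exact ⟨6, by decide⟩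
  · exact ⟨5, by decide⟩
  · exact ⟨4, by decide⟩
  · exact ⟨3, by decide⟩
  · exact ⟨2, by decide⟩
  · exact ⟨1, by decide⟩

theorem GM_trans (g : E) : ∃ γ ∈ GM, ∃ i : ℤ, g = γ * pel i 0 := by
  obtain ⟨n, hn⟩ := px_trans ((piE g)⁻¹ 0)
  refine ⟨g * pel (-n) 0, ?_, n, ?_⟩
  · rw [mem_GM, map_mul, piE_pel]
    have h1 : (px ^ (-n + 3 * 0)) 0 = (piE g)⁻¹ 0 := by
      rw [mul_zero, add_zero, zpow_neg, Equiv.Perm.inv_eq_iff_eq]
      exact hn.symm
    rw [Equiv.Perm.coe_mul, Function.comp_apply, h1]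
    exact Equiv.apply_symm_apply (piE g) 0
  · rw [mul_assoc, pel_mul]
    simp [pel_zero]

theorem GM'_trans (g : E) : ∃ γ ∈ GM', ∃ i : ℤ, g = γ * pel i 0 := by
  obtain ⟨γ, hγ, i, hg⟩ := GM_trans (phiHom g)
  refine ⟨psiHom γ, ?_, -i, ?_⟩
  · rw [mem_GM', phi_psi]
    exact hγ
  · have : g = psiHom (phiHom g) := (psi_phi g).symm
    rw [this, hg, map_mul, psi_pel]

theorem index_GM : GM.index = 7 := by
  have hw : ∀ g h : E, QuotientGroup.leftRel GM g h → piE g 0 = piE h 0 := by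
    intro g h hgh
    rw [QuotientGroup.leftRel_apply, mem_GM, map_mul, map_inv, Equiv.Perm.coe_mul,
      Function.comp_apply, Equiv.Perm.inv_eq_iff_eq] at hgh
    exact hgh.symm
  have e : (E ⧸ GM) ≃ Fin 7 := by
    refine Equiv.ofBijective (fun c => Quotient.liftOn' c (fun g => piE g 0) hw) ⟨?_, ?_⟩
    · intro c d
      induction c using Quotient.inductionOn'
      induction d using Quotient.inductionOn'
      rename_i g h
      intro hgh
      have h1 : piE g 0 = piE h 0 := hgh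
      apply Quotient.sound'
      rw [QuotientGroup.leftRel_apply, mem_GM, map_mul, map_inv, Equiv.Perm.coe_mul,
        Function.comp_apply, Equiv.Perm.inv_eq_iff_eq]
      exact h1.symm
    · intro k
      obtain ⟨n, hn⟩ := px_trans k
      refine ⟨Quotient.mk'' (pel (-n) 0), ?_⟩
      show piE (pel (-n) 0) 0 = k
      rw [piE_pel, mul_zero, add_zero, zpow_neg, Equiv.Perm.inv_eq_iff_eq]
      exact hn.symm
  unfold Subgroup.index
  rw [Nat.card_congr e]
  simp

theorem index_GM' : GM'.index = 7 := by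
  have hs : Function.Surjective phiHom := fun g => ⟨psiHom g, phi_psi g⟩
  unfold GM'
  rw [Subgroup.index_comap_of_surjective _ hs, index_GM]

/-- The normal closure of a peripheral element of a subgroup transitive under `x` lies in the subgroup. -/
theorem normalClosure_le (H : Subgroup E) (hH : ∀ g : E, ∃ γ ∈ H, ∃ i : ℤ, g = γ * pel i 0)
    (p r : ℤ) (h : pel p r ∈ H) : Subgroup.normalClosure {pel p r} ≤ H := by
  have h1 : ∀ g : E, g * pel p r * g⁻¹ ∈ H := by
    intro g
    obtain ⟨γ, hγ, i, hg⟩ := hH g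
    have h2 : g * pel p r * g⁻¹ = γ * pel p r * γ⁻¹ := by
      rw [hg, mul_inv_rev, pel_inv]
      have h3 : pel i 0 * pel p r * pel (-i) (-0) = pel p r := by
        rw [pel_mul, pel_mul]
        congr 1 <;> ring
      calc γ * pel i 0 * pel p r * (pel (-i) (-0) * γ⁻¹)
          = γ * (pel i 0 * pel p r * pel (-i) (-0)) * γ⁻¹ := by group
        _ = γ * pel p r * γ⁻¹ := by rw [h3]
    rw [h2]
    exact H.mul_mem (H.mul_mem hγ h) (H.inv_mem hγ)
  unfold Subgroup.normalClosure
  rw [Subgroup.closure_le]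
  intro c hc
  obtain ⟨a, ha, hac⟩ := Group.mem_conjugatesOfSet_iff.1 hc
  rw [Set.mem_singleton_iff] at ha
  subst ha
  obtain ⟨g, hg⟩ := isConj_iff.1 hac
  rw [← hg]
  exact h1 g

end DHN
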