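import Pool.Agent.DHN.RD

/-!
# [DHN-R1] continuity of the representations at 0
-/

set_option autoImplicit false

open Topology Matrix ComplexConjugate Filter

namespace DHN

theorem kk_cont0 : ContinuousAt kk 0 := by
  have ht : ContinuousAt tau 0 := by
    have : Continuous tau := by
      unfold tau
      exact continuous_const.sub (continuous_const.mul Complex.continuous_cosh)
    exact this.continuousAt
  have h1 : ContinuousAt (fun u => (4 * tau u - tau u ^ 2) / 3) 0 :=
    ((continuousAt_const.mul ht).sub (ht.pow 2)).div_const 3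
  have h2 : ContinuousAt (fun u => ((4 * tau u - tau u ^ 2) / 3) ^ (1 / 2 : ℂ)) 0 := by
    refine h1.cpow continuousAt_const ?_
    have : (4 * tau 0 - tau 0 ^ 2) / 3 = 1 := by
      unfold tau
      rw [Complex.cosh_zero]
      norm_num
    rw [this]
    exact Complex.one_mem_slitPlane
  exact ((ht.neg).add (continuousAt_const.mul h2)).div_const 2

/-- Entrywise convergence in `SL2C`. -/
theorem tendsto_SL2C {f : ℂ → SL2C} {g : SL2C}
    (h : ∀ i j : Fin 2, Tendsto (fun u => (f u) i j) (𝓝 0) (𝓝 (g i j))) :
    Tendsto f (𝓝 0) (𝓝 g) := by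
  refine tendsto_subtype_rng.2 ?_
  refine tendsto_pi_nhds.2 fun i => ?_
  refine tendsto_pi_nhds.2 fun j => ?_
  exact h i j

theorem MX_tendsto : Tendsto MX (𝓝 0) (𝓝 (MX 0)) := by
  apply tendsto_SL2C
  have hexp : Tendsto (fun u : ℂ => Complex.exp (u / 2)) (𝓝 0) (𝓝 (Complex.exp (0 / 2))) := by
    have : Continuous (fun u : ℂ => Complex.exp (u / 2)) := by fun_prop
    exact this.tendsto 0
  have hexp' : Tendsto (fun u : ℂ => Complex.exp (-(u / 2))) (𝓝 0)
      (𝓝 (Complex.exp (-(0 / 2)))) := by
    have : Continuous (fun u : ℂ => Complex.exp (-(u / 2))) := by fun_prop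
    exact this.tendsto 0
  intro i j
  fin_cases i <;> fin_cases j
  · exact hexp
  · exact tendsto_const_nhds
  · exact tendsto_const_nhds
  · exact hexp'

theorem MY_tendsto : Tendsto MY (𝓝 0) (𝓝 (MY 0)) := by
  apply tendsto_SL2C
  have hexp : Tendsto (fun u : ℂ => Complex.exp (u / 2)) (𝓝 0) (𝓝 (Complex.exp (0 / 2))) := by
    have : Continuous (fun u : ℂ => Complex.exp (u / 2)) := by fun_prop
    exact this.tendsto 0
  have hexp' : Tendsto (fun u : ℂ => Complex.exp (-(u / 2))) (𝓝 0)
      (𝓝 (Complex.exp (-(0 / 2)))) := by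
    have : Continuous (fun u : ℂ => Complex.exp (-(u / 2))) := by fun_prop
    exact this.tendsto 0
  intro i j
  fin_cases i <;> fin_cases j
  · exact hexp
  · exact tendsto_const_nhds
  · exact kk_cont0.neg.tendsto
  · exact hexp'

/-- [R1] PROOF: the set of `g` with this property is a subgroup (inverses: `coe_inv`, adjugate entries) containing `ex`, `ey`
(`closure_E`, `Subgroup.closure_induction`); `kk` is continuous at `0` because `(4 tau - tau^2)/3 = 1` at `u = 0`, in `slitPlane`. -/
theorem rho_tendsto (g : E) : Tendsto (fun u => rho u g) (𝓝 0) (𝓝 (rho 0 g)) := by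
  have hg : g ∈ Subgroup.closure ({ex, ey} : Set E) := by
    rw [closure_E]
    exact Subgroup.mem_top g
  induction hg using Subgroup.closure_induction with
  | mem x hx =>
    rcases hx with rfl | hx
    · simp only [rho_ex]
      exact MX_tendsto
    · rw [Set.mem_singleton_iff] at hx
      subst hx
      simp only [rho_ey]
      exact MY_tendsto
  | one =>
    simp only [map_one]
    exact tendsto_const_nhds
  | mul x y _ _ hx hy =>
    simp only [map_mul]
    exact hx.mul hy
  | inv x _ hx =>
    simp only [map_inv]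
    exact hx.inv

end DHN
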