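import Pool.Agent.DHN.R1
import Pool.Agent.DHN.R3

/-!
# [DHN-R5] the logarithm GG is Lipschitz
-/

set_option autoImplicit false

open Topology Matrix ComplexConjugate Filter

namespace DHN

theorem tau_analyticAt : AnalyticAt ℂ tau 0 := by
  have h : AnalyticAt ℂ (fun u : ℂ => 3 - 2 * Complex.cosh u) 0 :=
    analyticAt_const.sub (analyticAt_const.mul
      (Complex.differentiable_cosh.analyticAt 0))
  exact h

theorem kk_analyticAt : AnalyticAt ℂ kk 0 := by
  have ht := tau_analyticAt
  have h1 : AnalyticAt ℂ (fun u => (4 * tau u - tau u ^ 2) / 3) 0 :=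
    ((analyticAt_const.mul ht).sub (ht.pow 2)).div_const
  have h2 : AnalyticAt ℂ (fun u => ((4 * tau u - tau u ^ 2) / 3) ^ (1 / 2 : ℂ)) 0 := by
    refine h1.cpow analyticAt_const ?_
    have : (4 * tau 0 - tau 0 ^ 2) / 3 = 1 := by
      unfold tau
      rw [Complex.cosh_zero]
      norm_num
    rw [this]
    exact Complex.one_mem_slitPlane
  exact ((ht.neg).add (analyticAt_const.mul h2)).div_const

/-- The set of elements whose matrix entries are analytic at `0`. -/
def anaSub : Subgroup E where
  carrier := {g | ∀ i j : Fin 2, AnalyticAt ℂ (fun u => (rho u g) i j) 0}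
  one_mem' := by
    intro i j
    have : (fun u : ℂ => (rho u 1) i j) = fun _ => (1 : SL2C) i j := by
      funext u
      rw [map_one]
    rw [this]
    exact analyticAt_const
  mul_mem' := by
    intro a b ha hb i j
    have : (fun u : ℂ => (rho u (a * b)) i j) = fun u =>
        (rho u a) i 0 * (rho u b) 0 j + (rho u a) i 1 * (rho u b) 1 j := by
      funext u
      rw [map_mul]
      simp only [Matrix.SpecialLinearGroup.coe_mul, Matrix.mul_apply, Fin.sum_univ_two]
    rw [this]
    exact ((ha i 0).mul (hb 0 j)).add ((ha i 1).mul (hb 1 j))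
  inv_mem' := by
    intro a ha i j
    have h : ∀ u : ℂ, ((rho u a⁻¹).1 : Matrix (Fin 2) (Fin 2) ℂ) =
        !![(rho u a) 1 1, -(rho u a) 0 1; -(rho u a) 1 0, (rho u a) 0 0] := by
      intro u
      rw [map_inv]
      simp only [Matrix.SpecialLinearGroup.coe_inv, Matrix.adjugate_fin_two]
    fin_cases i <;> fin_cases j
    · have : (fun u : ℂ => (rho u a⁻¹) 0 0) = fun u => (rho u a) 1 1 := by
        funext u
        have := congrFun (congrFun (h u) 0) 0
        simpa using this
      exact this ▸ (ha 1 1)
    · have : (fun u : ℂ => (rho u a⁻¹) 0 1) = fun u => -(rho u a) 0 1 := by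
        funext u
        have := congrFun (congrFun (h u) 0) 1
        simpa using this
      exact this ▸ (ha 0 1).neg
    · have : (fun u : ℂ => (rho u a⁻¹) 1 0) = fun u => -(rho u a) 1 0 := by
        funext u
        have := congrFun (congrFun (h u) 1) 0
        simpa using this
      exact this ▸ (ha 1 0).neg
    · have : (fun u : ℂ => (rho u a⁻¹) 1 1) = fun u => (rho u a) 0 0 := by
        funext u
        have := congrFun (congrFun (h u) 1) 1
        simpa using this
      exact this ▸ (ha 0 0)

theorem entries_analyticAt (g : E) (i j : Fin 2) : AnalyticAt ℂ (fun u => (rho u g) i j) 0 := by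
  have hex : ex ∈ anaSub := by
    intro i j
    have hexp : AnalyticAt ℂ (fun u : ℂ => Complex.exp (u / 2)) 0 :=
      (analyticAt_id.div_const).cexp
    have hexp' : AnalyticAt ℂ (fun u : ℂ => Complex.exp (-(u / 2))) 0 :=
      (analyticAt_id.div_const).neg.cexp
    fin_cases i <;> fin_cases j
    · have : (fun u : ℂ => (rho u ex) 0 0) = fun u => Complex.exp (u / 2) := by
        funext u
        rw [rho_ex]
        rfl
      exact this ▸ hexp
    · have : (fun u : ℂ => (rho u ex) 0 1) = fun _ => 1 := by
        funext u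
        rw [rho_ex]
        rfl
      exact this ▸ analyticAt_const
    · have : (fun u : ℂ => (rho u ex) 1 0) = fun _ => 0 := by
        funext u
        rw [rho_ex]
        rfl
      exact this ▸ analyticAt_const
    · have : (fun u : ℂ => (rho u ex) 1 1) = fun u => Complex.exp (-(u / 2)) := by
        funext u
        rw [rho_ex]
        rfl
      exact this ▸ hexp'
  have hey : ey ∈ anaSub := by
    intro i j
    have hexp : AnalyticAt ℂ (fun u : ℂ => Complex.exp (u / 2)) 0 :=
      (analyticAt_id.div_const).cexp
    have hexp' : AnalyticAt ℂ (fun u : ℂ => Complex.exp (-(u / 2))) 0 :=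
      (analyticAt_id.div_const).neg.cexp
    fin_cases i <;> fin_cases j
    · have : (fun u : ℂ => (rho u ey) 0 0) = fun u => Complex.exp (u / 2) := by
        funext u
        rw [rho_ey]
        rfl
      exact this ▸ hexp
    · have : (fun u : ℂ => (rho u ey) 0 1) = fun _ => 0 := by
        funext u
        rw [rho_ey]
        rfl
      exact this ▸ analyticAt_const
    · have : (fun u : ℂ => (rho u ey) 1 0) = fun u => -(kk u) := by
        funext u
        rw [rho_ey]
        rfl
      exact this ▸ kk_analyticAt.neg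
    · have : (fun u : ℂ => (rho u ey) 1 1) = fun u => Complex.exp (-(u / 2)) := by
        funext u
        rw [rho_ey]
        rfl
      exact this ▸ hexp'
  have htop : (⊤ : Subgroup E) ≤ anaSub := by
    rw [← closure_E]
    refine (Subgroup.closure_le _).2 ?_
    intro x hx
    rcases hx with rfl | hx
    · exact hex
    · rw [Set.mem_singleton_iff] at hx
      subst hx
      exact hey
  exact htop (Subgroup.mem_top g) i j

theorem LL_analyticAt : AnalyticAt ℂ LL 0 := entries_analyticAt el 0 0

theorem LL_zero : LL 0 = -1 := by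
  have h := congrFun (congrFun rho0_el 0) 0
  unfold LL
  simpa using h

/-- [R5] PROOF: `LL 0 = -1` by `rho0_el`, `LL` is continuous at `0` (`rho_tendsto`), so `-LL u` is near `1`, nonzero. -/
theorem exp_GG : ∀ᶠ u in 𝓝 (0 : ℂ), Complex.exp (GG u) = -(LL u) := by
  have h : ∀ᶠ u in 𝓝 (0 : ℂ), LL u ≠ 0 := by
    refine LL_analyticAt.continuousAt.eventually_ne ?_
    rw [LL_zero]
    norm_num
  filter_upwards [h] with u hu
  unfold GG
  exact Complex.exp_log (neg_ne_zero.2 hu)

theorem GG_analyticAt : AnalyticAt ℂ GG 0 := by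
  refine (LL_analyticAt.neg).clog ?_
  have : (-LL) 0 = 1 := by
    rw [Pi.neg_apply, LL_zero, neg_neg]
  rw [this]
  exact Complex.one_mem_slitPlane

/-- [R5] PROOF: every entry of `rho u g` is differentiable near `0`: products of the matrices `MX u`, `MY u` and inverses, with `kk` analytic near
`0`. It is enough to treat `el` (a word of length 8): `LL` is `AnalyticAt` / `ContDiffAt`, and `Complex.log` is analytic at `1`. A `C^1` function is
Lipschitz near the point (`ContDiffAt.exists_lipschitzOnWith` or `HasStrictFDerivAt.exists_lipschitzOnWith`). -/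
theorem GG_lipschitz : ∃ K r : ℝ, 0 < r ∧ 0 < K ∧ ∀ u v : ℂ, ‖u‖ ≤ r → ‖v‖ ≤ r →
    ‖GG u - GG v‖ ≤ K * ‖u - v‖ := by
  have h1 : ContDiffAt ℂ 1 GG 0 := GG_analyticAt.contDiffAt
  obtain ⟨K, t, ht, hK⟩ := h1.exists_lipschitzOnWith
  obtain ⟨r, hr, hrt⟩ := Metric.nhds_basis_closedBall.mem_iff.1 ht
  refine ⟨K + 1, r, hr, by positivity, ?_⟩
  intro u v hu hv
  have hu' : u ∈ t := hrt (by simpa using hu)
  have hv' : v ∈ t := hrt (by simpa using hv)
  have h2 := hK.norm_sub_le hu' hv'
  refine h2.trans ?_
  have := norm_nonneg (u - v)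
  nlinarith

end DHN
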