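import Pool.Agent.DHN.R5
import Pool.Agent.DHN.R2

/-!
# [DHN-R6] asymptotics of GG, explicit peripheral matrices
-/

set_option autoImplicit false

open Topology Matrix ComplexConjugate Filter

namespace DHN

theorem LL_zero_R6 : LL 0 = -1 := by
  have h := congrFun (congrFun rho0_el 0) 0
  unfold LL
  simpa using h

theorem GG_zero_R6 : GG 0 = 0 := by
  unfold GG
  rw [LL_zero_R6, neg_neg, Complex.log_one]

theorem GG_tendsto_R6 : Tendsto GG (𝓝 0) (𝓝 0) := by
  obtain ⟨K, r, hr, hK, h⟩ := GG_lipschitz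
  rw [Metric.tendsto_nhds]
  intro ε hε
  have h1 : ∀ᶠ u in 𝓝 (0 : ℂ), ‖u‖ < min r (ε / K) := by
    have := Metric.ball_mem_nhds (0 : ℂ) (show 0 < min r (ε / K) by positivity)
    filter_upwards [this] with u hu
    simpa using hu
  filter_upwards [h1] with u hu
  have h2 := h u 0 (hu.le.trans (min_le_left _ _)) (by simpa using hr.le)
  rw [GG_zero_R6, sub_zero, sub_zero] at h2
  rw [dist_zero_right]
  calc ‖GG u‖ ≤ K * ‖u‖ := h2
    _ < K * (ε / K) := by
        apply mul_lt_mul_of_pos_left (hu.trans_le (min_le_right _ _)) hK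
    _ = ε := by field_simp

/-- the relation between `GG` and the `(0,1)` entry of the longitude -/
theorem sinh_GG_R6 : ∀ᶠ u in 𝓝 (0 : ℂ), Complex.sinh (GG u) = -(aa u * (rho u el) 0 1) := by
  filter_upwards [exp_GG] with u hu
  have hp := pel_upper u 0 1
  have hpel : pel 0 1 = el := by simp [pel]
  rw [hpel] at hp
  have h1 : (rho u el) 0 0 = -Complex.exp (GG u) := by
    have : LL u = (rho u el) 0 0 := rfl
    rw [← this, hu, neg_neg]
  have h2 : (rho u el) 1 1 = -Complex.exp (-GG u) := by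
    have h3 := hp.2.1
    rw [h1] at h3
    have h4 : Complex.exp (GG u) * Complex.exp (-GG u) = 1 := by
      rw [← Complex.exp_add]
      simp
    have h5 : Complex.exp (GG u) ≠ 0 := Complex.exp_ne_zero _
    apply mul_left_cancel₀ h5
    linear_combination -h3 + h4
  have h3 := hp.2.2.1
  rw [h1, h2] at h3
  unfold Complex.sinh
  linear_combination -(1 / 2 : ℂ) * h3

theorem slope_sinh_R6 : Tendsto (fun w : ℂ => Complex.sinh w / w) (𝓝[≠] 0) (𝓝 1) := by
  have h := (Complex.hasDerivAt_sinh 0).tendsto_slope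
  rw [Complex.cosh_zero] at h
  refine h.congr fun w => ?_
  rw [slope_def_field, Complex.sinh_zero, sub_zero, sub_zero]

/-- [R6] PROOF: `GG 0 = 0` (`LL 0 = -1`), `GG` continuous at `0`. By `pel_upper` with `(i,j) = (0,1)`: `LL - LL⁻¹ = 2 aa b`, `b = (rho u el) 0 1 → -2 I √3`
(`rho0_el`, `rho_tendsto`); `LL = -exp GG`, so `sinh (GG u) = - aa u * b`. So `GG/u = (GG/sinh GG) (aa u/u) (-b) → 1 * (1/2) * 2 I √3`
(where `GG u ≠ 0`; note `sinh w / w → 1` as `w → 0`; if `GG u = 0` then `aa u * b = 0`, impossible for small `u ≠ 0`). -/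
theorem GG_div : Tendsto (fun u => GG u / u) (𝓝[≠] 0) (𝓝 (Complex.I * (Real.sqrt 3 : ℂ))) := by
  have hle : 𝓝[≠] (0 : ℂ) ≤ 𝓝 0 := nhdsWithin_le_nhds
  have hb : Tendsto (fun u => (rho u el) 0 1) (𝓝[≠] 0)
      (𝓝 (-(2 * (Complex.I * (Real.sqrt 3 : ℂ))))) := by
    have h1 : Continuous (fun g : SL2C => g 0 1) :=
      (continuous_apply 1).comp ((continuous_apply 0).comp continuous_subtype_val)
    have h2 := ((h1.tendsto (rho 0 el)).comp (rho_tendsto el)).mono_left hle
    have h3 : (rho 0 el) 0 1 = -(2 * (Complex.I * (Real.sqrt 3 : ℂ))) := by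
      have h := congrFun (congrFun rho0_el 0) 1
      simpa using h
    rw [h3] at h2
    exact h2
  have ha : Tendsto (fun u => aa u / u) (𝓝[≠] 0) (𝓝 (1 / 2)) := by
    have h1 : HasDerivAt (fun u : ℂ => u / 2) (1 / 2) 0 := (hasDerivAt_id 0).div_const 2
    have h2 : HasDerivAt aa (Complex.cosh (0 / 2) * (1 / 2)) 0 :=
      HasDerivAt.comp (0 : ℂ) (Complex.hasDerivAt_sinh (0 / 2)) h1
    have h3 := h2.tendsto_slope
    rw [zero_div, Complex.cosh_zero, one_mul] at h3
    refine h3.congr fun w => ?_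
    rw [slope_def_field]
    unfold aa
    rw [zero_div, Complex.sinh_zero, sub_zero, sub_zero]
  have hne : (2 * (Complex.I * (Real.sqrt 3 : ℂ))) ≠ 0 := by
    have h3 : (Real.sqrt 3 : ℂ) ≠ 0 := by
      have : Real.sqrt 3 ≠ 0 := by positivity
      exact_mod_cast this
    exact mul_ne_zero two_ne_zero (mul_ne_zero Complex.I_ne_zero h3)
  have hab : Tendsto (fun u => -(aa u / u * (rho u el) 0 1)) (𝓝[≠] 0)
      (𝓝 (Complex.I * (Real.sqrt 3 : ℂ))) := by
    have h := (ha.mul hb).neg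
    have e : -(1 / 2 * -(2 * (Complex.I * (Real.sqrt 3 : ℂ)))) =
        Complex.I * (Real.sqrt 3 : ℂ) := by ring
    rw [e] at h
    exact h
  have hs : ∀ᶠ u in 𝓝[≠] (0 : ℂ), Complex.sinh (GG u) = -(aa u * (rho u el) 0 1) :=
    sinh_GG_R6.filter_mono hle
  have hne' : Complex.I * (Real.sqrt 3 : ℂ) ≠ 0 := right_ne_zero_of_mul hne
  have hnz : ∀ᶠ u in 𝓝[≠] (0 : ℂ), GG u ≠ 0 := by
    filter_upwards [hs, hab.eventually_ne hne'] with u h1 h2 h3
    apply h2
    rw [h3, Complex.sinh_zero] at h1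
    have : aa u / u * (rho u el) 0 1 = aa u * (rho u el) 0 1 / u := by ring
    rw [this, neg_eq_zero]
    have h4 : aa u * (rho u el) 0 1 = 0 := by
      have := h1.symm
      exact neg_eq_zero.1 this
    rw [h4, zero_div]
  have hG : Tendsto GG (𝓝[≠] 0) (𝓝[≠] 0) := by
    rw [tendsto_nhdsWithin_iff]
    exact ⟨GG_tendsto_R6.mono_left hle, hnz⟩
  have hr := (slope_sinh_R6.comp hG).inv₀ one_ne_zero
  have hfin := hr.mul hab
  rw [inv_one, one_mul] at hfin
  refine hfin.congr' ?_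
  have hsn := (slope_sinh_R6.comp hG).eventually_ne one_ne_zero
  filter_upwards [hs, hnz, hsn, self_mem_nhdsWithin] with u h1 h2 h5 h3
  have h3' : u ≠ 0 := h3
  simp only [Function.comp_apply] at h5 ⊢
  have h4 : Complex.sinh (GG u) ≠ 0 := by
    intro h
    rw [h, zero_div] at h5
    exact h5 rfl
  have e : -(aa u / u * (rho u el) 0 1) = Complex.sinh (GG u) / u := by
    rw [h1]
    ring
  rw [e]
  field_simp

theorem neg_one_zpow_mul_self (j : ℤ) : (-1 : ℂ) ^ j * (-1 : ℂ) ^ j = 1 := by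
  rw [← mul_zpow]
  simp

/-- [R6] the explicit form of the peripheral matrices, `th = i u/2 + j GG u`. PROOF: from `pel_upper`, `exp_GG`: `d00 = (-1)^j e^th`,
`d11 = (-1)^j e^{-th}`. -/
theorem pel_form : ∀ᶠ u in 𝓝 (0 : ℂ), ∀ i j : ℤ,
    (rho u (pel i j)) 0 0 = (-1 : ℂ) ^ j * Complex.exp (i * (u / 2) + j * GG u) ∧
    (rho u (pel i j)) 1 1 = (-1 : ℂ) ^ j * Complex.exp (-(i * (u / 2) + j * GG u)) ∧
    aa u * (rho u (pel i j)) 0 1 = (-1 : ℂ) ^ j * Complex.sinh (i * (u / 2) + j * GG u) := by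
  filter_upwards [exp_GG] with u hu i j
  obtain ⟨-, h1, h2, h3⟩ := pel_upper u i j
  have hLL : LL u = -1 * Complex.exp (GG u) := by
    rw [hu]
    ring
  have h00 : (rho u (pel i j)) 0 0 = (-1 : ℂ) ^ j * Complex.exp (i * (u / 2) + j * GG u) := by
    rw [h3, hLL, mul_zpow, ← Complex.exp_int_mul, Complex.exp_add]
    ring
  have hsq := neg_one_zpow_mul_self j
  have hee : Complex.exp (i * (u / 2) + j * GG u) * Complex.exp (-(i * (u / 2) + j * GG u)) = 1 := by
    rw [← Complex.exp_add]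
    simp
  have h11 : (rho u (pel i j)) 1 1 = (-1 : ℂ) ^ j * Complex.exp (-(i * (u / 2) + j * GG u)) := by
    have hne : (rho u (pel i j)) 0 0 ≠ 0 := left_ne_zero_of_mul_eq_one h1
    apply mul_left_cancel₀ hne
    rw [h1, h00]
    have : (-1 : ℂ) ^ j * Complex.exp (i * (u / 2) + j * GG u) *
        ((-1 : ℂ) ^ j * Complex.exp (-(i * (u / 2) + j * GG u))) =
        ((-1 : ℂ) ^ j * (-1 : ℂ) ^ j) * (Complex.exp (i * (u / 2) + j * GG u) *
        Complex.exp (-(i * (u / 2) + j * GG u))) := by ring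
    rw [this, hsq, hee, one_mul]
  refine ⟨h00, h11, ?_⟩
  rw [h00, h11] at h2
  unfold Complex.sinh
  linear_combination -(1 / 2 : ℂ) * h2

end DHN
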