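import Pool.Agent.DHN.R5

/-!
# [DHN-R7] small solutions of the Dehn filling equation
-/

set_option autoImplicit false

open Topology Matrix ComplexConjugate Filter

namespace DHN

theorem r7_GG_zero : GG 0 = 0 := by
  have h : LL 0 = -1 := by
    have h1 := congrFun (congrFun rho0_el 0) 0
    simpa [LL] using h1
  unfold GG
  rw [h, neg_neg, Complex.log_one]

/-- the fixed point of the contraction -/
theorem r7_fixed (K r : ℝ) (hK : 0 < K)
    (hL : ∀ u v : ℂ, ‖u‖ ≤ r → ‖v‖ ≤ r → ‖GG u - GG v‖ ≤ K * ‖u - v‖) (δ : ℝ) (hδ : 0 < δ)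
    (hδr : δ ≤ r) (n : ℝ) (hn : 0 < n) (h1 : 2 * Real.pi + 14 * K * δ ≤ n * δ) (h2 : 28 * K ≤ n) :
    ∃ u : ℂ, ‖u‖ ≤ δ ∧ (n : ℂ) * u = 2 * Real.pi * Complex.I - 14 * GG u := by
  have hnc : (n : ℂ) ≠ 0 := by exact_mod_cast hn.ne'
  let T : ℂ → ℂ := fun u => (2 * Real.pi * Complex.I - 14 * GG u) / (n : ℂ)
  have hT : ∀ u, ‖u‖ ≤ δ → ‖T u‖ ≤ δ := by
    intro u hu
    have hg : ‖GG u‖ ≤ K * δ := by
      have h3 := hL u 0 (hu.trans hδr) (by rw [norm_zero]; linarith)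
      rw [r7_GG_zero, sub_zero, sub_zero] at h3
      exact h3.trans (mul_le_mul_of_nonneg_left hu hK.le)
    have h4 : ‖(2 * Real.pi * Complex.I - 14 * GG u : ℂ)‖ ≤ 2 * Real.pi + 14 * (K * δ) := by
      refine (norm_sub_le _ _).trans ?_
      have h5 : ‖(2 * Real.pi * Complex.I : ℂ)‖ = 2 * Real.pi := by
        rw [norm_mul, norm_mul, Complex.norm_I, Complex.norm_real, Real.norm_of_nonneg Real.pi_pos.le]
        simp
      have h6 : ‖(14 * GG u : ℂ)‖ = 14 * ‖GG u‖ := by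
        rw [norm_mul]
        simp
      rw [h5, h6]
      linarith
    simp only [T]
    rw [norm_div, Complex.norm_real, Real.norm_of_nonneg hn.le, div_le_iff₀ hn]
    linarith
  have hTL : ∀ u v, ‖u‖ ≤ δ → ‖v‖ ≤ δ → ‖T u - T v‖ ≤ (1 / 2) * ‖u - v‖ := by
    intro u v hu hv
    have h3 := hL u v (hu.trans hδr) (hv.trans hδr)
    have h4 : T u - T v = (14 * (GG v - GG u)) / (n : ℂ) := by
      simp only [T]
      ring
    have h5 : ‖GG v - GG u‖ = ‖GG u - GG v‖ := norm_sub_rev _ _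
    rw [h4, norm_div, Complex.norm_real, Real.norm_of_nonneg hn.le, norm_mul, h5, div_le_iff₀ hn]
    have h6 : ‖(14 : ℂ)‖ = 14 := by simp
    rw [h6]
    have h7 : 0 ≤ ‖u - v‖ := norm_nonneg _
    nlinarith [mul_le_mul_of_nonneg_right h2 h7]
  let S : Type := Metric.closedBall (0 : ℂ) δ
  have hmem : ∀ u : ℂ, u ∈ Metric.closedBall (0 : ℂ) δ ↔ ‖u‖ ≤ δ := fun u => by
    rw [mem_closedBall_zero_iff]
  have : Nonempty (Metric.closedBall (0 : ℂ) δ) := ⟨⟨0, by rw [hmem, norm_zero]; exact hδ.le⟩⟩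
  have : CompleteSpace (Metric.closedBall (0 : ℂ) δ) :=
    (Metric.isClosed_closedBall : IsClosed (Metric.closedBall (0 : ℂ) δ)).completeSpace_coe
  let f : Metric.closedBall (0 : ℂ) δ → Metric.closedBall (0 : ℂ) δ :=
    fun u => ⟨T u.1, (hmem _).2 (hT u.1 ((hmem _).1 u.2))⟩
  have hf : ContractingWith (1 / 2 : NNReal) f := by
    constructor
    · rw [div_lt_one (by norm_num)]
      norm_num
    · apply LipschitzWith.of_dist_le_mul
      intro u v
      rw [Subtype.dist_eq, Subtype.dist_eq, dist_eq_norm, dist_eq_norm]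
      have := hTL u.1 v.1 ((hmem _).1 u.2) ((hmem _).1 v.2)
      simpa [f] using this
  let x := ContractingWith.fixedPoint f hf
  have hx : f x = x := ContractingWith.fixedPoint_isFixedPt hf
  refine ⟨x.1, (hmem _).1 x.2, ?_⟩
  have hx1 : T x.1 = x.1 := congrArg Subtype.val hx
  have hx2 : (2 * Real.pi * Complex.I - 14 * GG x.1) / (n : ℂ) = x.1 := hx1
  rw [div_eq_iff hnc] at hx2
  rw [hx2]
  ring

/-- [R7] The Dehn filling equation has small solutions. PROOF: let `K, r` be as in `GG_lipschitz`, `GG 0 = 0`. Given `ε` (WLOG `ε ≤ r`), for `n = 49 j` large the map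
`T u = (2 π I - 14 GG u)/n` maps the closed ball of radius `ε` to itself and is a `14 K/n ≤ 1/2`-contraction (complete space): Banach fixed point
(`ContractingWith.exists_fixedPoint'` or `efixedPoint'`). The fixed point is nonzero: `T 0 = 2 π I/n ≠ 0`. -/
theorem exists_param (ε : ℝ) (hε : 0 < ε) : ∃ j0 : ℕ, ∀ j : ℕ, j0 ≤ j → ∃ u : ℂ, u ≠ 0 ∧ ‖u‖ < ε ∧
    (49 * j : ℂ) * (u / 2) + 7 * GG u = Real.pi * Complex.I := by
  obtain ⟨K, r, hr, hK, hL⟩ := GG_lipschitz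
  set δ : ℝ := min (ε / 2) r with hδdef
  have hδ : 0 < δ := lt_min (by linarith) hr
  have hδr : δ ≤ r := min_le_right _ _
  have hδε : δ ≤ ε / 2 := min_le_left _ _
  obtain ⟨m, hm⟩ := exists_nat_gt (max ((2 * Real.pi + 14 * K * δ) / δ) (28 * K))
  refine ⟨m + 1, fun j hj => ?_⟩
  have hjm : (m : ℝ) + 1 ≤ j := by exact_mod_cast hj
  have hm0 : (0 : ℝ) ≤ m := Nat.cast_nonneg m
  have hA : (2 * Real.pi + 14 * K * δ) / δ < m := (le_max_left _ _).trans_lt hm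
  have hB : 28 * K < m := (le_max_right _ _).trans_lt hm
  rw [div_lt_iff₀ hδ] at hA
  have hn : (0 : ℝ) < 49 * j := by linarith
  have hmn : (m : ℝ) ≤ 49 * j := by linarith
  obtain ⟨u, hu, he⟩ := r7_fixed K r hK hL δ hδ hδr (49 * j) hn
    (by nlinarith [mul_le_mul_of_nonneg_right hmn hδ.le]) (by linarith)
  push_cast at he
  refine ⟨u, ?_, ?_, ?_⟩
  · rintro rfl
    rw [r7_GG_zero] at he
    have hpi : (Real.pi : ℂ) ≠ 0 := by exact_mod_cast Real.pi_ne_zero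
    have h0 : (2 * Real.pi * Complex.I : ℂ) ≠ 0 :=
      mul_ne_zero (mul_ne_zero two_ne_zero hpi) Complex.I_ne_zero
    apply h0
    linear_combination -he
  · linarith
  · linear_combination he / 2

/-- [R7] a sequence of parameters. PROOF: for each `j` choose (classical) a solution `u_j ≠ 0` of least... : apply `exists_param` with `ε = 1/(k+1)` and glue: let
`k(j)` be the largest `k ≤ j` with `j0(1/(k+1)) ≤ j`; or use `Filter` choice: `∀ ε, ∀ᶠ j, ∃ u, ...` implies a sequence tending to `0`. -/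
theorem exists_param_seq : ∃ u : ℕ → ℂ, Tendsto u atTop (𝓝 0) ∧ ∀ᶠ j in atTop, u j ≠ 0 ∧
    (49 * j : ℂ) * (u j / 2) + 7 * GG (u j) = Real.pi * Complex.I := by
  let P : ℕ → ℂ → Prop := fun j u => u ≠ 0 ∧ (49 * j : ℂ) * (u / 2) + 7 * GG u = Real.pi * Complex.I
  have hchoice : ∀ j : ℕ, ∃ u : ℂ, (∃ v, P j v) → P j u ∧ ∀ v, P j v → ‖u‖ ≤ ‖v‖ + 1 / ((j : ℝ) + 1) := by
    intro j
    by_cases h : ∃ v, P j v
    · obtain ⟨v0, hv0⟩ := h
      have hne : (norm '' {v : ℂ | P j v}).Nonempty := ⟨‖v0‖, v0, hv0, rfl⟩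
      have hb : BddBelow (norm '' {v : ℂ | P j v}) := ⟨0, by rintro _ ⟨v, _, rfl⟩; exact norm_nonneg v⟩
      obtain ⟨a, ⟨u, hu, rfl⟩, ha⟩ := Real.lt_sInf_add_pos hne (ε := 1 / ((j : ℝ) + 1)) (by positivity)
      refine ⟨u, fun _ => ⟨hu, fun v hv => ?_⟩⟩
      have := csInf_le hb ⟨v, hv, rfl⟩
      linarith
    · exact ⟨0, fun h' => absurd h' h⟩
  choose u hu using hchoice
  have hev : ∀ ε : ℝ, 0 < ε → ∃ j0 : ℕ, ∀ j : ℕ, j0 ≤ j → P j (u j) ∧ ‖u j‖ < ε := by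
    intro ε hε
    obtain ⟨j0, h0⟩ := exists_param (ε / 2) (by linarith)
    obtain ⟨m, hm⟩ := exists_nat_gt (2 / ε)
    refine ⟨max j0 m, fun j hj => ?_⟩
    obtain ⟨v, hv0, hv1, hv2⟩ := h0 j ((le_max_left _ _).trans hj)
    obtain ⟨h1, h2⟩ := hu j ⟨v, hv0, hv2⟩
    refine ⟨h1, ?_⟩
    have h3 := h2 v ⟨hv0, hv2⟩
    have h4 : (m : ℝ) ≤ j := by exact_mod_cast (le_max_right _ _).trans hj
    have h5 : 1 / ((j : ℝ) + 1) ≤ ε / 2 := by
      rw [div_lt_iff₀ hε] at hm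
      rw [div_le_iff₀ (by positivity)]
      nlinarith [mul_le_mul_of_nonneg_right h4 hε.le]
    linarith
  refine ⟨u, ?_, ?_⟩
  · rw [Metric.tendsto_atTop]
    intro ε hε
    obtain ⟨j0, h0⟩ := hev ε hε
    refine ⟨j0, fun j hj => ?_⟩
    rw [dist_zero_right]
    exact (h0 j hj).2
  · obtain ⟨j0, h0⟩ := hev 1 one_pos
    filter_upwards [eventually_ge_atTop j0] with j hj
    exact (h0 j hj).1

end DHN
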