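import Pool.Agent.DHN.Perm

/-!
# [DHN] the representations: definitions
-/

set_option autoImplicit false

open Topology Matrix ComplexConjugate Filter

namespace DHN

/-- `tau u = 3 - 2 cosh u` -/
noncomputable def tau (u : ℂ) : ℂ := 3 - 2 * Complex.cosh u

/-- the root near the cube root of unity `om` of `k^2 + tau k + tau = 0` -/
noncomputable def kk (u : ℂ) : ℂ :=
  (-(tau u) + Complex.I * (Real.sqrt 3 : ℂ) * ((4 * tau u - tau u ^ 2) / 3) ^ (1 / 2 : ℂ)) / 2

/-- the primitive cube root of unity -/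
noncomputable def om : ℂ := (-1 + Complex.I * (Real.sqrt 3 : ℂ)) / 2

theorem kk_eq (u : ℂ) : kk u ^ 2 + tau u * kk u + tau u = 0 := by
  have h : (((4 * tau u - tau u ^ 2) / 3) ^ (1 / 2 : ℂ)) ^ 2 = (4 * tau u - tau u ^ 2) / 3 := by
    rw [one_div]
    exact Complex.cpow_nat_inv_pow _ (by norm_num)
  have h3 : ((Real.sqrt 3 : ℝ) : ℂ) ^ 2 = 3 := by
    rw [← Complex.ofReal_pow, Real.sq_sqrt (by norm_num)]
    norm_num
  unfold kk
  have hI : Complex.I ^ 2 = -1 := Complex.I_sq
  linear_combination ((Complex.I * (Real.sqrt 3 : ℂ)) ^ 2 / 4) * h +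
    ((4 * tau u - tau u ^ 2) / 3 / 4 * Complex.I ^ 2) * h3 + ((4 * tau u - tau u ^ 2) / 4) * hI

theorem kk_zero : kk 0 = om := by
  unfold kk om tau
  simp
  norm_num

/-- the image of the meridian -/
noncomputable def MX (u : ℂ) : SL2C :=
  ⟨!![Complex.exp (u / 2), 1; 0, Complex.exp (-(u / 2))], by
    rw [Matrix.det_fin_two_of, mul_zero, sub_zero, ← Complex.exp_add]
    simp⟩

/-- the image of the second generator -/
noncomputable def MY (u : ℂ) : SL2C :=
  ⟨!![Complex.exp (u / 2), 0; -(kk u), Complex.exp (-(u / 2))], by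
    rw [Matrix.det_fin_two_of, zero_mul, sub_zero, ← Complex.exp_add]
    simp⟩

theorem rel_MXY (u : ℂ) : Rel8 (MX u) (MY u) := by
  have hk := kk_eq u
  have hmm : Complex.exp (u / 2) * Complex.exp (-(u / 2)) = 1 := by
    rw [← Complex.exp_add]; simp
  have ht : tau u = 3 - (Complex.exp (u / 2) ^ 2 + Complex.exp (-(u / 2)) ^ 2) := by
    unfold tau Complex.cosh
    rw [← Complex.exp_nat_mul, ← Complex.exp_nat_mul]
    push_cast
    ring_nf
  unfold Rel8
  apply Subtype.ext
  simp only [Matrix.SpecialLinearGroup.coe_mul, Matrix.SpecialLinearGroup.coe_inv, MX, MY,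
    Matrix.adjugate_fin_two_of]
  generalize hm : Complex.exp (u / 2) = m at *
  generalize hm' : Complex.exp (-(u / 2)) = m' at *
  generalize kk u = k at *
  generalize tau u = τ at *
  subst ht
  have hm0 : m ≠ 0 := left_ne_zero_of_mul_eq_one hmm
  have hm1 : m' = m⁻¹ := eq_inv_of_mul_eq_one_right hmm
  subst hm1
  have hk2 : m ^ 2 * k ^ 2 + (3 * m ^ 2 - m ^ 4 - 1) * k + (3 * m ^ 2 - m ^ 4 - 1) = 0 := by
    field_simp at hk
    linear_combination hk
  ext i j
  fin_cases i <;> fin_cases j
  · simp [Matrix.mul_apply, Fin.sum_univ_two]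
    field_simp
  · simp [Matrix.mul_apply, Fin.sum_univ_two]
    field_simp
    linear_combination hk2
  · simp [Matrix.mul_apply, Fin.sum_univ_two]
    field_simp
    linear_combination k * hk2
  · simp [Matrix.mul_apply, Fin.sum_univ_two]
    field_simp
    ring

/-- the representation with parameter `u` -/
noncomputable def rho (u : ℂ) : E →* SL2C := homE (MX u) (MY u) (rel_MXY u)

theorem rho_ex (u : ℂ) : rho u ex = MX u := homE_ex _ _ _

theorem rho_ey (u : ℂ) : rho u ey = MY u := homE_ey _ _ _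

/-- the geometric parameter `a = sinh (u/2)` -/
noncomputable def aa (u : ℂ) : ℂ := Complex.sinh (u / 2)

/-- the first common eigenvector of the peripheral group -/
def e1 : Fin 2 → ℂ := ![1, 0]

/-- the second common eigenvector of the peripheral group -/
noncomputable def ep (u : ℂ) : Fin 2 → ℂ := ![1, -2 * aa u]

/-- the `(0,0)` entry of the image of the longitude -/
noncomputable def LL (u : ℂ) : ℂ := (rho u el) 0 0

/-- Eisenstein integers -/
def InO (z : ℂ) : Prop := ∃ m n : ℤ, z = m + n * om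

/-- the logarithm of the eigenvalue of the longitude -/
noncomputable def GG (u : ℂ) : ℂ := Complex.log (-(LL u))

end DHN
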