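import Pool.Agent.DHN.Group

/-!
# [DHN-T8] algebra of the adjacency relation
-/

set_option autoImplicit false

namespace DHN

/-- PROOF (free group identities, `group`): `g_0⁻¹ = x g_2 x`, `g_1⁻¹ = x⁻¹ g_3 x`, `g_2⁻¹ = x g_0 x`, `g_3⁻¹ = x g_1 x⁻¹`. -/
theorem ga_inv (a : Fin 4) : ∃ (b : Fin 4) (i j i' j' : ℤ), (ga a)⁻¹ = pel i j * ga b * pel i' j' := by
  have h0 : (ga 0)⁻¹ = ex * ga 2 * ex := by
    unfold ga gW
    simp only [Matrix.cons_val]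
    group
  have h1 : (ga 1)⁻¹ = ex⁻¹ * ga 3 * ex := by
    unfold ga gW
    simp only [Matrix.cons_val]
    group
  have h2 : (ga 2)⁻¹ = ex * ga 0 * ex := by
    unfold ga gW
    simp only [Matrix.cons_val]
    group
  have h3 : (ga 3)⁻¹ = ex * ga 1 * ex⁻¹ := by
    unfold ga gW
    simp only [Matrix.cons_val]
    group
  have hx : ex = pel 1 0 := by simp [pel]
  have hx' : ex⁻¹ = pel (-1) 0 := by simp [pel]
  fin_cases a
  · refine ⟨2, 1, 0, 1, 0, ?_⟩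
    rw [← hx]; exact h0
  · refine ⟨3, -1, 0, 1, 0, ?_⟩
    rw [← hx, ← hx']; exact h1
  · refine ⟨0, 1, 0, 1, 0, ?_⟩
    rw [← hx]; exact h2
  · refine ⟨1, 1, 0, -1, 0, ?_⟩
    rw [← hx, ← hx']; exact h3

theorem Adj_one (N : Subgroup E) : Adj N 1 := by
  exact ⟨1, N.one_mem, Or.inl ⟨0, 0, by rw [pel_zero, mul_one]⟩⟩

theorem Adj_mono (g : E) (N N' : Subgroup E) (h : N ≤ N') (hg : Adj N g) : Adj N' g := by
  obtain ⟨k, hk, h2⟩ := hg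
  exact ⟨k, h hk, h2⟩

/-- PROOF: `g k = p` gives `g⁻¹ (g k⁻¹ g⁻¹) = ... `: from `g k = p`: `g⁻¹ = k p⁻¹ = p⁻¹ (p k p⁻¹)`, so `g⁻¹ (p k⁻¹ p⁻¹) = p⁻¹`. Similarly with `ga_inv`. -/
theorem Adj_inv (N : Subgroup E) (hN : N.Normal) (g : E) (hg : Adj N g) : Adj N g⁻¹ := by
  obtain ⟨k, hk, ⟨i, j, h⟩ | ⟨a, i, j, i', j', h⟩⟩ := hg
  · refine ⟨g * k⁻¹ * g⁻¹, hN.conj_mem _ (N.inv_mem hk) g, Or.inl ⟨-i, -j, ?_⟩⟩
    rw [← pel_inv, ← h]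
    group
  · obtain ⟨b, s, t, s', t', hb⟩ := ga_inv a
    refine ⟨g * k⁻¹ * g⁻¹, hN.conj_mem _ (N.inv_mem hk) g,
      Or.inr ⟨b, -i' + s, -j' + t, s' + -i, t' + -j, ?_⟩⟩
    rw [← pel_mul, ← pel_mul, ← pel_inv, ← pel_inv]
    have h1 : g⁻¹ * (g * k⁻¹ * g⁻¹) = (g * k)⁻¹ := by group
    rw [h1, h]
    have h2 : (pel i j * ga a * pel i' j')⁻¹ = (pel i' j')⁻¹ * (ga a)⁻¹ * (pel i j)⁻¹ := by group
    rw [h2, hb]
    group

theorem Adj_pel_mul (N : Subgroup E) (g : E) (i j : ℤ) (hg : Adj N g) : Adj N (pel i j * g) := by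
  obtain ⟨k, hk, ⟨s, t, h⟩ | ⟨a, s, t, s', t', h⟩⟩ := hg
  · refine ⟨k, hk, Or.inl ⟨i + s, j + t, ?_⟩⟩
    rw [← pel_mul, mul_assoc, h]
  · refine ⟨k, hk, Or.inr ⟨a, i + s, j + t, s', t', ?_⟩⟩
    rw [← pel_mul, mul_assoc, h]
    group

theorem Adj_mul_pel (N : Subgroup E) (hN : N.Normal) (g : E) (i j : ℤ) (hg : Adj N g) :
    Adj N (g * pel i j) := by
  obtain ⟨k, hk, ⟨s, t, h⟩ | ⟨a, s, t, s', t', h⟩⟩ := hg
  · refine ⟨(pel i j)⁻¹ * k * pel i j, ?_, Or.inl ⟨s + i, t + j, ?_⟩⟩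
    · have := hN.conj_mem k hk (pel i j)⁻¹
      rwa [inv_inv] at this
    · rw [← pel_mul, ← h]
      group
  · refine ⟨(pel i j)⁻¹ * k * pel i j, ?_, Or.inr ⟨a, s, t, s' + i, t' + j, ?_⟩⟩
    · have := hN.conj_mem k hk (pel i j)⁻¹
      rwa [inv_inv] at this
    · have h2 : g * pel i j * ((pel i j)⁻¹ * k * pel i j) = g * k * pel i j := by group
      rw [h2, h, ← pel_mul]
      group

theorem Adj_mul_mem (N : Subgroup E) (g k : E) (hk : k ∈ N) (hg : Adj N g) : Adj N (g * k) := by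
  obtain ⟨k', hk', h⟩ := hg
  refine ⟨k⁻¹ * k', N.mul_mem (N.inv_mem hk) hk', ?_⟩
  have h1 : g * k * (k⁻¹ * k') = g * k' := by group
  rw [h1]
  exact h

/-- PROOF: `k g = g (g⁻¹ k g)`. -/
theorem Adj_mem_mul (N : Subgroup E) (hN : N.Normal) (g k : E) (hk : k ∈ N) (hg : Adj N g) :
    Adj N (k * g) := by
  have h1 : k * g = g * (g⁻¹ * k * g) := by group
  rw [h1]
  apply Adj_mul_mem N g _ _ hg
  have := hN.conj_mem k hk g⁻¹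
  rwa [inv_inv] at this

end DHN
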