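import Pool.Agent.DHN.T6b
import Pool.Agent.DHN.T8

/-!
# [DHN-T10] the completeness condition (b) and the connectedness condition (c)
-/

set_option autoImplicit false

open Topology Matrix ComplexConjugate Filter

namespace DHN

/-- PROOF. If `FF y < 1.6` take `g = 1` (`Adj_one`). Otherwise `h6` gives `i, j` with `y0 = rho (pel i j) • y ∈ KK R 0.7 0.8`, and `shell_cover R` at `u n` gives `i', j', a` with
`FF ((rho (pel i' j' * ga a))⁻¹ • y0) < 1.6`. Take `g = (pel i j)⁻¹ * pel i' j' * ga a`. -/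
theorem complete_b {ι : Type} (l : Filter ι) (u : ι → ℂ) (N : ι → Subgroup E) (H : Hyp l u N) :
    ∀ᶠ n in l, ∀ y : H3, FF (u n) y < 2 → ∃ g : E, Adj (N n) g ∧ FF (u n) ((rho (u n) g)⁻¹ • y) < 1.6 := by
  obtain ⟨R, hR⟩ := H.h6
  filter_upwards [hR, H.tend.eventually (shell_cover R)] with n h6n hs
  intro y hy
  by_cases h16 : FF (u n) y < 1.6
  · refine ⟨1, Adj_one _, ?_⟩
    rw [map_one, inv_one, one_smul]
    exact h16
  · obtain ⟨i, j, hij⟩ := h6n y (not_lt.mp h16) hy
    obtain ⟨i', j', a, ha⟩ := hs _ hij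
    refine ⟨(pel i j)⁻¹ * (pel i' j' * ga a), ?_, ?_⟩
    · refine ⟨1, (N n).one_mem, Or.inr ⟨a, -i + i', -j + j', 0, 0, ?_⟩⟩
      rw [pel_zero, mul_one, mul_one, pel_inv, ← mul_assoc, pel_mul]
    · rw [map_mul, _root_.mul_inv_rev, map_inv, inv_inv, mul_smul]
      exact ha

/-- PROOF. `ey = ex * ga 1`. The point `y = (om, 1)` has `FF 0 y = 1`, `FF 0 ((rho 0 (ga 1))⁻¹ • y) = (q y (rho 0 (ga 1) e1))^2 = 1` (`rho0_ga1`: `(1 + om, -om) = -om (om, 1)`, as `om^2 = -1-om`), so by `FF_uniform` (for `g = 1` and `g = ga 1`, `K = {y}`) both are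
`< 2` eventually. -/
theorem edge_ga1 : ∀ᶠ u in 𝓝 (0 : ℂ), ∃ y : H3, FF u y < 2 ∧ FF u ((rho u (ga 1))⁻¹ • y) < 2 := by
  have hs3 : (Real.sqrt 3) ^ 2 = 3 := Real.sq_sqrt (by norm_num)
  have hsc : ((Real.sqrt 3 : ℝ) : ℂ) ^ 2 = 3 := by
    rw [← Complex.ofReal_pow, hs3]
    norm_num
  have hom : Complex.normSq om = 1 := by
    unfold om
    rw [Complex.normSq_apply]
    simp
    nlinarith
  have hom2 : 1 + om + om * om = 0 := by
    unfold om
    linear_combination (Complex.I ^ 2 / 4) * hsc + (3 / 4) * Complex.I_sq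
  have haa : aa 0 = 0 := by
    unfold aa
    rw [zero_div, Complex.sinh_zero]
  have hep0 : ep 0 = e1 := by
    unfold ep e1
    rw [haa, mul_zero]
  let y0 : H3 := ⟨(om, 1), by norm_num⟩
  have hF0 : FF 0 y0 = 1 := by
    rw [FF_formula, haa]
    simp [y0]
  have hF1 : FF 0 ((rho 0 (ga 1))⁻¹ • y0) = 1 := by
    unfold FF
    rw [hep0, q_inv_smul, rho0_ga1]
    have h1 : (!![1 + om, -1; -om, 1] : Matrix (Fin 2) (Fin 2) ℂ).mulVec e1 = ![1 + om, -om] := by
      ext i
      fin_cases i <;> simp [e1, Matrix.mulVec, dotProduct, Fin.sum_univ_two]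
    rw [h1]
    have h2 : q y0 ![1 + om, -om] = 1 := by
      unfold q
      simp only [Matrix.cons_val_zero, Matrix.cons_val_one, y0]
      have h3 : 1 + om - om * -om = 0 := by
        linear_combination hom2
      rw [h3, Complex.normSq_neg, hom]
      simp
    rw [h2]
    norm_num
  have hK : IsCompact ({y0} : Set H3) := isCompact_singleton
  filter_upwards [FF_uniform 1 {y0} hK (1 / 2) (by norm_num),
    FF_uniform (ga 1) {y0} hK (1 / 2) (by norm_num)] with u h1 h2
  have h3 := h1 y0 rfl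
  have h4 := h2 y0 rfl
  rw [map_one, map_one, inv_one, one_smul, hF0] at h3
  rw [hF1] at h4
  refine ⟨y0, ?_, ?_⟩
  · have := (abs_lt.mp h3).2
    linarith
  · have := (abs_lt.mp h4).2
    linarith

/-- PROOF. Let `S g h` be the relation. It is invariant under left multiplication (`y ↦ rho g • y`) and symmetric (`Adj_inv`). `S 1 (pel i j)`, `S 1 (ex * ga 1) = S 1 ey` up to `U_{pel}` : the tubes of `g` and `g * pel i j` coincide (`FF_pel`).
So `ReflTransGen S 1 s` for `s ∈ {ex, ey}` and inverses (for `ey = ex * ga 1`: `S 1 ex`, `S ex (ex * ga 1)`), hence the set of `g` with `ReflTransGen S 1 g` is everything (`closure_E`, `Subgroup.closure_induction`, left invariance). -/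
theorem connected_c : ∀ᶠ u in 𝓝 (0 : ℂ), ∀ N : Subgroup E, N.Normal → ∀ g h : E,
    Relation.ReflTransGen (fun g h : E => Adj N (g⁻¹ * h) ∧
      ∃ y : H3, FF u ((rho u g)⁻¹ • y) < 2 ∧ FF u ((rho u h)⁻¹ • y) < 2) g h := by
  filter_upwards [edge_ga1] with u hu
  intro N hN
  obtain ⟨y0, hy0, hy1⟩ := hu
  set r : E → E → Prop := fun g h : E => Adj N (g⁻¹ * h) ∧
      ∃ y : H3, FF u ((rho u g)⁻¹ • y) < 2 ∧ FF u ((rho u h)⁻¹ • y) < 2 with hr
  have hleft : ∀ k g h : E, r g h → r (k * g) (k * h) := by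
    rintro k g h ⟨h1, y, h2, h3⟩
    refine ⟨?_, rho u k • y, ?_, ?_⟩
    · have h4 : (k * g)⁻¹ * (k * h) = g⁻¹ * h := by group
      rw [h4]
      exact h1
    · rw [map_mul, _root_.mul_inv_rev, mul_smul, inv_smul_smul]
      exact h2
    · rw [map_mul, _root_.mul_inv_rev, mul_smul, inv_smul_smul]
      exact h3
  have hsymm : ∀ g h : E, r g h → r h g := by
    rintro g h ⟨h1, y, h2, h3⟩
    refine ⟨?_, y, h3, h2⟩
    have h4 : h⁻¹ * g = (g⁻¹ * h)⁻¹ := by group
    rw [h4]
    exact Adj_inv N hN _ h1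
  have hT : ∀ k g h : E, Relation.ReflTransGen r g h → Relation.ReflTransGen r (k * g) (k * h) :=
    fun k g h hgh => hgh.lift (fun x => k * x) (fun a b hab => hleft k a b hab)
  have hTsymm : ∀ g h : E, Relation.ReflTransGen r g h → Relation.ReflTransGen r h g := by
    intro g h hgh
    induction hgh with
    | refl => exact Relation.ReflTransGen.refl
    | tail _ hbc ih => exact (Relation.ReflTransGen.single (hsymm _ _ hbc)).trans ih
  have hex : r 1 ex := by
    refine ⟨⟨1, N.one_mem, Or.inl ⟨1, 0, ?_⟩⟩, y0, ?_, ?_⟩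
    · rw [inv_one, one_mul, mul_one]
      unfold pel
      rw [zpow_one, zpow_zero, mul_one]
    · rw [map_one, inv_one, one_smul]
      exact hy0
    · have h0 : pel (-1) 0 = ex⁻¹ := by
        unfold pel
        rw [_root_.zpow_neg_one, zpow_zero, mul_one]
      have h1 : (rho u ex)⁻¹ = rho u (pel (-1) 0) := by
        rw [h0, map_inv]
      rw [h1, FF_pel]
      exact hy0
  have hga : r 1 (ga 1) := by
    refine ⟨⟨1, N.one_mem, Or.inr ⟨1, 0, 0, 0, 0, ?_⟩⟩, y0, ?_, hy1⟩
    · rw [inv_one, one_mul, mul_one, pel_zero, one_mul, mul_one]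
    · rw [map_one, inv_one, one_smul]
      exact hy0
  have hey : ey = ex * ga 1 := by
    change ey = ex * (ex⁻¹ * ey)
    rw [mul_inv_cancel_left]
  have hall : ∀ g : E, Relation.ReflTransGen r 1 g := by
    intro g
    have hg : g ∈ Subgroup.closure ({ex, ey} : Set E) := by
      rw [closure_E]
      exact Subgroup.mem_top g
    induction hg using Subgroup.closure_induction with
    | mem x hx =>
      rcases hx with rfl | hx
      · exact Relation.ReflTransGen.single hex
      · rw [Set.mem_singleton_iff] at hx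
        rw [hx, hey]
        refine (Relation.ReflTransGen.single hex).trans ?_
        have h1 := hleft ex 1 (ga 1) hga
        rw [mul_one] at h1
        exact Relation.ReflTransGen.single h1
    | one => exact Relation.ReflTransGen.refl
    | mul x y _ _ hx hy =>
      have h1 := hT x 1 y hy
      rw [mul_one] at h1
      exact hx.trans h1
    | inv x _ hx =>
      have h1 := hT x⁻¹ 1 x hx
      rw [mul_one, inv_mul_cancel] at h1
      exact hTsymm _ _ h1
  intro g h
  exact (hTsymm _ _ (hall g)).trans (hall h)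

end DHN
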