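import Pool.Agent.DHN.T9
import Pool.Agent.DHN.T10
import Pool.Agent.DHN.F2
import Pool.Agent.DHN.LG

/-!
# [DHN-T11] application of the local-to-global theorem
-/

set_option autoImplicit false

open Topology Matrix ComplexConjugate Filter

namespace DHN

/-- PROOF. Apply `local_to_global` with `Y = H3`, `I = E`, `U g = {y | FF (u n) ((rho (u n) g)⁻¹ • y) < 2}`, `R g h = Adj (N n) (g⁻¹ * h)`, for `n` such that `triple`, `complete_b`, `connected_c`, `pathConnected_tube` hold at `n`.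
`hopen`: `isOpen_tube`. `hrefl`: `Adj_one`. `hsymm`: `Adj_inv`. `ha`: `i, j, k`, `y` in the three: with `y' = (rho j)⁻¹ • y`, `g = j⁻¹ i`, `h = j⁻¹ k`: `triple` gives `Adj (g⁻¹ h) = Adj (i⁻¹ k)`. `hb`: `V = TV c y` with `c = 1.25^(1/4) > 1` (`TV_mem_nhds`; use the real power
or any `c > 1` with `c^4 ≤ 1.25`, e.g. `c = 1.05`, `1.05^4 = 1.2155`): for `y' ∈ V`, `y' ∈ U i`: `complete_b` at `y1 = (rho i)⁻¹ • y'` gives `g`; `j = i * g`. For `y'' ∈ V`: `q y'' w ≤ c q y w ≤ c^2 q y' w`, so `y'' ∈ TV (c^2) y'` and `FF ((rho j)⁻¹ y'') ≤ c^4 FF ((rho j)⁻¹ y') < 1.6 c^4 < 2`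
(`TV_smul`, `FF_TV`). `hc`: `connected_c`. Conclusion 1 gives `cover` (replace `g` by `g⁻¹`), conclusion 2 (for `1` and `g⁻¹`) gives `adj`. -/
theorem cover_adj {ι : Type} (l : Filter ι) (u : ι → ℂ) (N : ι → Subgroup E) (H : Hyp l u N) :
    ∀ᶠ n in l, (∀ y : H3, ∃ g : E, FF (u n) (rho (u n) g • y) < 2) ∧
      (∀ (g : E) (y : H3), FF (u n) y < 2 → FF (u n) (rho (u n) g • y) < 2 → Adj (N n) g) := by
  filter_upwards [triple l u N H, complete_b l u N H, H.tend.eventually connected_c,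
    H.tend.eventually pathConnected_tube] with n htr hb hcon hpc
  have hN := H.normal n
  have hLG := local_to_global (Y := H3) (I := E)
    (fun g => {y | FF (u n) ((rho (u n) g)⁻¹ • y) < 2}) (fun g h => Adj (N n) (g⁻¹ * h))
    (fun g => isOpen_tube (u n) (rho (u n) g))
    (fun g => hpc (rho (u n) g))
    (fun g => by
      rw [inv_mul_cancel]
      exact Adj_one _)
    (fun g h hgh => by
      have h1 := Adj_inv (N n) hN _ hgh
      rwa [_root_.mul_inv_rev, inv_inv] at h1)
    (fun i j k y hi hj hk hij hjk => by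
      have h1 := htr (j⁻¹ * i) (j⁻¹ * k) ((rho (u n) j)⁻¹ • y) (by
        have h2 := Adj_inv (N n) hN _ hij
        rwa [_root_.mul_inv_rev, inv_inv] at h2) hjk hj (by
        have e : (rho (u n) (j⁻¹ * i))⁻¹ • (rho (u n) j)⁻¹ • y = (rho (u n) i)⁻¹ • y := by
          rw [← mul_smul]
          congr 1
          rw [map_mul, map_inv]
          group
        rw [e]
        exact hi) (by
        have e : (rho (u n) (j⁻¹ * k))⁻¹ • (rho (u n) j)⁻¹ • y = (rho (u n) k)⁻¹ • y := by
          rw [← mul_smul]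
          congr 1
          rw [map_mul, map_inv]
          group
        rw [e]
        exact hk)
      have e : (j⁻¹ * i)⁻¹ * (j⁻¹ * k) = i⁻¹ * k := by group
      rwa [e] at h1)
    (fun y => by
      refine ⟨TV 1.05 y, TV_mem_nhds 1.05 (by norm_num) y, ?_⟩
      intro i y' hy' hi
      obtain ⟨g, hg, hFg⟩ := hb ((rho (u n) i)⁻¹ • y') hi
      refine ⟨i * g, ?_, ?_⟩
      · have e : i⁻¹ * (i * g) = g := by group
        rw [e]
        exact hg
      · intro y'' hy''
        have h1 : y'' ∈ TV (1.05 ^ 2) y' := by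
          intro w
          have a1 := hy' w
          have a2 := hy'' w
          constructor
          · calc q y'' w ≤ 1.05 * q y w := a2.1
              _ ≤ 1.05 * (1.05 * q y' w) := mul_le_mul_of_nonneg_left a1.2 (by norm_num)
              _ = 1.05 ^ 2 * q y' w := by ring
          · calc q y' w ≤ 1.05 * q y w := a1.1
              _ ≤ 1.05 * (1.05 * q y'' w) := mul_le_mul_of_nonneg_left a2.2 (by norm_num)
              _ = 1.05 ^ 2 * q y'' w := by ring
        have h2 := TV_smul _ ((rho (u n) (i * g))⁻¹) _ _ h1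
        have h3 := FF_TV (u n) (1.05 ^ 2) (by norm_num) _ _ h2
        have e : (rho (u n) (i * g))⁻¹ • y' = (rho (u n) g)⁻¹ • (rho (u n) i)⁻¹ • y' := by
          rw [map_mul, _root_.mul_inv_rev, mul_smul]
        rw [e] at h3
        show FF (u n) ((rho (u n) (i * g))⁻¹ • y'') < 2
        calc FF (u n) ((rho (u n) (i * g))⁻¹ • y'')
            ≤ (1.05 ^ 2) ^ 2 * FF (u n) ((rho (u n) g)⁻¹ • (rho (u n) i)⁻¹ • y') := h3
          _ ≤ (1.05 ^ 2) ^ 2 * 1.6 := mul_le_mul_of_nonneg_left hFg.le (by norm_num)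
          _ < 2 := by norm_num)
    (fun g h => by
      exact hcon (N n) hN g h)
  constructor
  · intro y
    obtain ⟨g, hg⟩ := hLG.1 y
    refine ⟨g⁻¹, ?_⟩
    rw [map_inv]
    exact hg
  · intro g y hy hgy
    have h1 := hLG.2 1 g⁻¹ ⟨y, by
      show FF (u n) ((rho (u n) 1)⁻¹ • y) < 2
      rw [map_one, inv_one, one_smul]
      exact hy, by
      show FF (u n) ((rho (u n) g⁻¹)⁻¹ • y) < 2
      rw [map_inv, inv_inv]
      exact hgy⟩
    rw [inv_one, one_mul] at h1
    have h2 := Adj_inv (N n) hN _ h1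
    rwa [inv_inv] at h2

end DHN
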