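import Pool.Agent.DHN.R4
import Pool.Agent.DHN.R3
import Pool.Agent.DHN.F5
import Pool.Agent.DHN.F4
import Pool.Agent.DHN.R1

/-!
# [DHN-T12] the elements `ga a * pel i j` have no fixed point (at `u = 0`, and near `u = 0` in compact sets)
-/

set_option autoImplicit false

open Topology Matrix ComplexConjugate Filter

namespace DHN

theorem t12_om_im : om.im = Real.sqrt 3 / 2 := by
  unfold om
  rw [Complex.div_im]
  simp [Complex.normSq]
  ring

theorem t12_om_sq : om ^ 2 = -1 - om := by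
  have h := kk_eq 0
  rw [kk_zero] at h
  have ht : tau 0 = 1 := by
    unfold tau
    rw [Complex.cosh_zero]
    norm_num
  rw [ht] at h
  linear_combination h

theorem t12_real {m n : ℤ} {r : ℝ} (h : (m : ℂ) + n * om = (r : ℂ)) : n = 0 ∧ r = m := by
  have him := congrArg Complex.im h
  have hre := congrArg Complex.re h
  have h3 : (0 : ℝ) < Real.sqrt 3 := Real.sqrt_pos.2 (by norm_num)
  simp only [Complex.add_im, Complex.mul_im, Complex.intCast_im, Complex.intCast_re, zero_add,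
    zero_mul, add_zero, Complex.ofReal_im, t12_om_im] at him
  have hn : (n : ℝ) = 0 := by
    rcases mul_eq_zero.1 him with h1 | h1
    · exact h1
    · linarith
  have hn' : n = 0 := by exact_mod_cast hn
  refine ⟨hn', ?_⟩
  rw [hn'] at hre
  simp at hre
  linarith

theorem t12_sqrt : Complex.I * (Real.sqrt 3 : ℂ) = 1 + 2 * om := by
  unfold om
  ring

theorem t12_om_ne : om ≠ 0 := by
  intro h
  have h1 := t12_om_im
  rw [h, Complex.zero_im] at h1
  have h3 : (0 : ℝ) < Real.sqrt 3 := Real.sqrt_pos.2 (by norm_num)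
  linarith

theorem t12_one_om_ne : 1 + om ≠ 0 := by
  intro h
  have h1 := congrArg Complex.im h
  rw [Complex.add_im, t12_om_im] at h1
  have h3 : (0 : ℝ) < Real.sqrt 3 := Real.sqrt_pos.2 (by norm_num)
  simp at h1

/-- the data of the four matrices -/
theorem t12_mat (a : Fin 4) (i j : ℤ) : ∃ (c : ℂ) (m n k : ℤ), c ≠ 0 ∧
    Matrix.trace (rho 0 (ga a * pel i j)).1 = (-1 : ℂ) ^ j * ((m : ℂ) + n * om) ∧
    (rho 0 (ga a * pel i j)).1 1 0 = (-1 : ℂ) ^ j * c ∧ (n = 0 → m = 4 * k + 2) := by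
  have hom := t12_om_sq
  have hT : (i : ℂ) + 2 * j * (Complex.I * (Real.sqrt 3 : ℂ)) = ((i + 2 * j : ℤ) : ℂ) + ((4 * j : ℤ) : ℂ) * om := by
    rw [t12_sqrt]
    push_cast
    ring
  have hmul : (rho 0 (ga a * pel i j)).1 = (rho 0 (ga a)).1 * (rho 0 (pel i j)).1 := by
    rw [map_mul, Matrix.SpecialLinearGroup.coe_mul]
  rw [hmul, rho0_pel, hT]
  fin_cases a
  · refine ⟨1 + om, i + 2 * j - 4 * j + 1, i + 2 * j - 1, -j, t12_one_om_ne, ?_, ?_, ?_⟩
    · change Matrix.trace ((rho 0 (ga 0)).1 * _) = _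
      rw [rho0_ga0, Matrix.trace_fin_two]
      simp [Matrix.mul_apply, Fin.sum_univ_two]
      linear_combination (-1 : ℂ) ^ j * (4 * j) * hom
    · change ((rho 0 (ga 0)).1 * _ : Matrix (Fin 2) (Fin 2) ℂ) 1 0 = _
      rw [rho0_ga0]
      simp [Matrix.mul_apply, Fin.sum_univ_two]
      ring
    · intro h
      omega
  · refine ⟨-om, 2 + 4 * j, 1 - (i + 2 * j) + 4 * j, j, neg_ne_zero.2 t12_om_ne, ?_, ?_, ?_⟩
    · change Matrix.trace ((rho 0 (ga 1)).1 * _) = _
      rw [rho0_ga1, Matrix.trace_fin_two]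
      simp [Matrix.mul_apply, Fin.sum_univ_two]
      linear_combination -(-1 : ℂ) ^ j * (4 * j) * hom
    · change ((rho 0 (ga 1)).1 * _ : Matrix (Fin 2) (Fin 2) ℂ) 1 0 = _
      rw [rho0_ga1]
      simp [Matrix.mul_apply, Fin.sum_univ_two]
      ring
    · intro h
      omega
  · refine ⟨-1 - om, 3 - (i + 2 * j) + 4 * j, 1 - (i + 2 * j), j, ?_, ?_, ?_, ?_⟩
    · intro h
      apply t12_one_om_ne
      linear_combination -h
    · change Matrix.trace ((rho 0 (ga 2)).1 * _) = _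
      rw [rho0_ga2, Matrix.trace_fin_two]
      simp [Matrix.mul_apply, Fin.sum_univ_two]
      linear_combination -(-1 : ℂ) ^ j * (4 * j) * hom
    · change ((rho 0 (ga 2)).1 * _ : Matrix (Fin 2) (Fin 2) ℂ) 1 0 = _
      rw [rho0_ga2]
      simp [Matrix.mul_apply, Fin.sum_univ_two]
      ring
    · intro h
      omega
  · refine ⟨om, 2 - 4 * j, 1 + (i + 2 * j) - 4 * j, -j, t12_om_ne, ?_, ?_, ?_⟩
    · change Matrix.trace ((rho 0 (ga 3)).1 * _) = _
      rw [rho0_ga3, Matrix.trace_fin_two]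
      simp [Matrix.mul_apply, Fin.sum_univ_two]
      linear_combination (-1 : ℂ) ^ j * (4 * j) * hom
    · change ((rho 0 (ga 3)).1 * _ : Matrix (Fin 2) (Fin 2) ℂ) 1 0 = _
      rw [rho0_ga3]
      simp [Matrix.mul_apply, Fin.sum_univ_two]
      ring
    · intro h
      omega

/-- PROOF. By `fixed_trace` a fixed point gives a real trace `r`, `|r| ≤ 2`. With `rho0_ga*`, `rho0_pel`, `T = (i + 2j) + 4 j om` (`2 √3 I = 2 + 4 om`), the trace of
`rho 0 (ga a * pel i j)` is, up to the sign `(-1)^j`: `a = 0`: `(1+om) (T - 1 - 2 om)`; `a = 1`: `-om (T + 1 + 2 om)`; `a = 2`: `-(1+om) (T - 1 + 2 om)`; `a = 3`: `om (T - 1 - 2 om)`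
(use `om^2 = -1 - om`). So it is a unit times `m + n om` with `n ≡ 2 mod 4`, `normSq (trace) = m^2 - m n + n^2 ≥ 3/4 n^2 ≥ 3` (`normSq_InO`). The trace is an Eisenstein integer, real, so an integer `r`
(imaginary part: coordinate of `om` is `0`), `r^2 ≥ 3`, `|r| ≤ 2`: `|r| = 2` and the matrix is `± 1` by `fixed_trace`, but its `(1,0)` entry is `± c_a ≠ 0`. -/
theorem no_fixed_zero (a : Fin 4) (i j : ℤ) (y : H3) : rho 0 (ga a * pel i j) • y ≠ y := by
  intro hy
  obtain ⟨r, hr, hr2, hr3⟩ := fixed_trace _ _ hy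
  obtain ⟨c, m, n, k, hc, htr, hent, hmn⟩ := t12_mat a i j
  have hs : (-1 : ℂ) ^ j = 1 ∨ (-1 : ℂ) ^ j = -1 := by
    rcases Int.even_or_odd j with h | h
    · left; exact h.neg_one_zpow
    · right; exact h.neg_one_zpow
  have hs0 : (-1 : ℂ) ^ j ≠ 0 := by
    rcases hs with h | h <;> rw [h] <;> norm_num
  have hent0 : (rho 0 (ga a * pel i j)).1 1 0 ≠ 0 := by
    rw [hent]
    exact mul_ne_zero hs0 hc
  -- the absolute value of the trace
  have key : ∃ r' : ℝ, |r'| = |r| ∧ (m : ℂ) + n * om = (r' : ℂ) := by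
    rcases hs with h | h
    · refine ⟨r, rfl, ?_⟩
      rw [← hr, htr, h, one_mul]
    · refine ⟨-r, abs_neg _, ?_⟩
      push_cast
      rw [← hr, htr, h]
      ring
  obtain ⟨r', hr', hmr⟩ := key
  obtain ⟨hn, hrm⟩ := t12_real hmr
  have hm := hmn hn
  have habs : |r| = 2 := by
    rw [← hr', hrm] at hr2 ⊢
    have h1 : |m| ≤ 2 := by exact_mod_cast hr2
    have h2 : |m| = 2 := by
      rw [abs_le] at h1
      rcases abs_cases m with ⟨h3, _⟩ | ⟨h3, _⟩ <;> rw [h3] <;> omega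
    exact_mod_cast h2
  rcases hr3 habs with h | h
  · apply hent0
    rw [h]
    simp
  · apply hent0
    rw [h]
    simp

/-- PROOF. The set `{g | ∃ y ∈ K, g • y = y}` is closed (`isClosed_fix`) and does not contain `rho 0 (ga a * pel i j)` (`no_fixed_zero`); `rho_tendsto`. -/
theorem no_fixed_near (a : Fin 4) (i j : ℤ) (K : Set H3) (hK : IsCompact K) :
    ∀ᶠ u in 𝓝 (0 : ℂ), ∀ y ∈ K, rho u (ga a * pel i j) • y ≠ y := by
  have hcl := isClosed_fix K hK
  have hnot : rho 0 (ga a * pel i j) ∈ {g : SL2C | ∃ y ∈ K, g • y = y}ᶜ := by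
    rintro ⟨y, _, hy⟩
    exact no_fixed_zero a i j y hy
  have hnhds : {g : SL2C | ∃ y ∈ K, g • y = y}ᶜ ∈ 𝓝 (rho 0 (ga a * pel i j)) :=
    hcl.isOpen_compl.mem_nhds hnot
  filter_upwards [(rho_tendsto (ga a * pel i j)).eventually hnhds] with u hu y hy h
  exact hu ⟨y, hy, h⟩

end DHN
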