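import Pool.Agent.DHN.T11
import Pool.Agent.DHN.T12

/-!
# [DHN-T13] elements with a fixed point; Theorem T
-/

set_option autoImplicit false

open Topology Matrix ComplexConjugate Filter

namespace DHN

theorem t13_inv : Continuous fun g : SL2C => g⁻¹ := continuous_inv

theorem t13_smul : Continuous fun z : SL2C × H3 => z.1⁻¹ • z.2 := by
  have h1 : Continuous fun z : SL2C × H3 => z.1⁻¹ := t13_inv.comp continuous_fst
  have h2 : Continuous fun z : SL2C × H3 => ((z.1⁻¹, z.2) : SL2C × H3) :=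
    h1.prodMk continuous_snd
  have h3 := continuous_smul_H3.comp h2
  exact h3

/-- PROOF. The set `S = {(rho u (ga a))⁻¹ • y | y ∈ KK 6 0.6 1.7, a, u near 0}` lies in a fixed box `KK R s t`: the map `(g, y) ↦ g⁻¹ • y` is continuous, `rho u (ga a) → rho 0 (ga a)`; a compact neighbourhood argument (closed ball around `rho 0 (ga a)` in the
proper space of matrices) or sequences. -/
theorem image_box : ∃ R s t : ℝ, 0 < s ∧ KK 6 0.6 1.7 ⊆ KK R s t ∧ ∀ᶠ u in 𝓝 (0 : ℂ), ∀ (a : Fin 4),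
    ∀ y ∈ KK 6 0.6 1.7, (rho u (ga a))⁻¹ • y ∈ KK R s t := by
  have hK : IsCompact (KK 6 0.6 1.7) := isCompact_KK _ _ _ (by norm_num)
  -- for each `a` the image at `u = 0` is compact
  have hI : IsCompact ((⋃ a : Fin 4, (fun y => (rho 0 (ga a))⁻¹ • y) '' (KK 6 0.6 1.7)) ∪
      KK 6 0.6 1.7) := by
    refine IsCompact.union (isCompact_iUnion fun a => ?_) hK
    refine hK.image ?_
    have h1 := t13_smul.comp ((continuous_const (y := rho 0 (ga a))).prodMk continuous_id)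
    exact h1
  obtain ⟨R0, s0, t0, hs0, hsub⟩ := exists_KK _ hI
  refine ⟨R0 + 1, s0 / 2, t0 + 1, by linarith, ?_, ?_⟩
  · intro y hy
    have h1 := hsub (Or.inr hy)
    exact ⟨by linarith [h1.1], by linarith [h1.2.1], by linarith [h1.2.2]⟩
  · rw [eventually_all]
    intro a
    -- the set of pairs mapped in the open box
    let O : Set H3 := {y | ‖y.1.1‖ < R0 + 1 ∧ s0 / 2 < y.1.2 ∧ y.1.2 < t0 + 1}
    have hO : IsOpen O := by
      have c1 : Continuous fun y : H3 => ‖y.1.1‖ := (continuous_fst.comp continuous_subtype_val).norm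
      have c2 : Continuous fun y : H3 => y.1.2 := continuous_snd.comp continuous_subtype_val
      exact (isOpen_lt c1 continuous_const).inter
        ((isOpen_lt continuous_const c2).inter (isOpen_lt c2 continuous_const))
    have hev : ∀ᶠ g in 𝓝 (rho 0 (ga a)), ∀ y ∈ KK 6 0.6 1.7, g⁻¹ • y ∈ O := by
      refine hK.eventually_forall_of_forall_eventually fun y hy => ?_
      have h1 : (rho 0 (ga a))⁻¹ • y ∈ O := by
        have h2 := hsub (Or.inl (Set.mem_iUnion.mpr ⟨a, y, hy, rfl⟩))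
        exact ⟨by linarith [h2.1], by linarith [h2.2.1], by linarith [h2.2.2]⟩
      have h3 : Tendsto (fun z : SL2C × H3 => z.1⁻¹ • z.2) (𝓝 (rho 0 (ga a), y))
          (𝓝 ((rho 0 (ga a))⁻¹ • y)) := t13_smul.tendsto (rho 0 (ga a), y)
      exact h3.eventually (hO.mem_nhds h1)
    filter_upwards [(rho_tendsto (ga a)).eventually hev] with u hu
    intro y hy
    have h1 := hu y hy
    exact ⟨h1.1.le, h1.2.1.le, h1.2.2.le⟩

/-- PROOF. Take `R s t` of `image_box`, `C = (1 + R^2 + t^2)/s`, `Q` of `h5` for `C`. For `n` such that `cover_adj`, `stepA`, `image_box`, `h5`, `triv` hold and, for the finitely many `a`, `p ∈ Q`, `no_fixed_near a p.1 p.2 (KK 6 0.6 1.7)` holds at `u n`: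
let `rho g • y = y`. By `cover` choose `h` with `FF (rho h • y) < 2`; `g' = h g h⁻¹`, `y' = rho h • y` fixed by `rho g'`, `FF y' < 2`, so `Adj (N n) g'`. Case `g' k = pel i j`: `rho (pel i j) y' = y'` (as `rho k = 1`), `g = h⁻¹ (pel i j) k⁻¹ h = h⁻¹ (pel i j) h (h⁻¹ k⁻¹ h)`.
Case `g' k = p1 (ga a) p2`: `y'' = (rho p1)⁻¹ • y'` is fixed by `rho (ga a * (p2 p1))`, `p2 p1 = pel i j`, `FF y'' < 2`. `(rho (ga a))⁻¹ • y'' = rho (pel i j) • y''`, so `FF ((rho (ga a))⁻¹ • y'') = FF y'' < 2`, `y'' ∈ KK 6 0.6 1.7` (`stepA`), `rho (pel i j) • y'' ∈ KK R s t` (`image_box`), `entry_bound`: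
entries of `rho (pel i j)` `≤ C`, `h5`: `pel i j = pel p * k'`; so `rho (ga a * pel p) y'' = y''`: contradiction. -/
theorem fixed_T {ι : Type} (l : Filter ι) (u : ι → ℂ) (N : ι → Subgroup E) (H : Hyp l u N) :
    ∀ᶠ n in l, ∀ (g : E) (y : H3), rho (u n) g • y = y → ∃ (h k : E) (i j : ℤ), k ∈ N n ∧
      g = h * pel i j * h⁻¹ * k ∧ ∃ y' : H3, rho (u n) (pel i j) • y' = y' := by
  obtain ⟨R, s, t, hs, hsub, himg⟩ := image_box
  obtain ⟨Q, hQ⟩ := H.h5 ((1 + R ^ 2 + t ^ 2) / s)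
  have hK : IsCompact (KK 6 0.6 1.7) := isCompact_KK _ _ _ (by norm_num)
  have hnf : ∀ᶠ n in l, ∀ a : Fin 4, ∀ p ∈ Q, ∀ y ∈ KK 6 0.6 1.7,
      rho (u n) (ga a * pel p.1 p.2) • y ≠ y := by
    rw [eventually_all]
    intro a
    rw [Filter.eventually_all_finset]
    intro p _
    exact H.tend.eventually (no_fixed_near a p.1 p.2 _ hK)
  filter_upwards [cover_adj l u N H, H.tend.eventually stepA, H.tend.eventually himg, hQ, H.triv,
    hnf] with n hcov hA hI h5 htriv hno
  intro g y hgy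
  have hN := H.normal n
  obtain ⟨h, hh⟩ := hcov.1 y
  -- the conjugated element
  have hfix : rho (u n) (h * g * h⁻¹) • (rho (u n) h • y) = rho (u n) h • y := by
    rw [map_mul, map_mul, map_inv, mul_smul, mul_smul, inv_smul_smul, hgy]
  have hadj : Adj (N n) (h * g * h⁻¹) := hcov.2 _ _ hh (by rw [hfix]; exact hh)
  obtain ⟨k, hk, hcase⟩ := hadj
  rcases hcase with ⟨i, j, hij⟩ | ⟨a, i1, j1, i2, j2, heq⟩
  · refine ⟨h⁻¹, h⁻¹ * k⁻¹ * h, i, j, ?_, ?_, rho (u n) h • y, ?_⟩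
    · have h1 := hN.conj_mem k⁻¹ ((N n).inv_mem hk) h⁻¹
      rw [inv_inv] at h1
      exact h1
    · rw [← hij]
      group
    · rw [← hij, map_mul, htriv k hk, mul_one]
      exact hfix
  · exfalso
    set p1 := pel i1 j1 with hp1
    set y1 := rho (u n) h • y with hy1
    have hrk : rho (u n) k = 1 := htriv k hk
    have hfix2 : rho (u n) (p1 * ga a * pel i2 j2) • y1 = y1 := by
      rw [← heq, map_mul, hrk, mul_one]
      exact hfix
    set y2 := (rho (u n) p1)⁻¹ • y1 with hy2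
    have hy12 : rho (u n) p1 • y2 = y1 := by rw [hy2, smul_inv_smul]
    have hF2 : FF (u n) y2 < 2 := by
      have h1 : FF (u n) (rho (u n) p1 • y2) = FF (u n) y2 := FF_pel _ _ _ _
      rw [← h1, hy12]
      exact hh
    have hfix3 : rho (u n) (ga a) • (rho (u n) (pel (i2 + i1) (j2 + j1)) • y2) = y2 := by
      have h1 : rho (u n) (pel (i2 + i1) (j2 + j1)) • y2 = rho (u n) (pel i2 j2) • y1 := by
        rw [← pel_mul, map_mul, mul_smul, ← hp1, hy12]
      have h2 : rho (u n) p1 • (rho (u n) (ga a) • (rho (u n) (pel i2 j2) • y1)) = y1 := by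
        rw [← mul_smul, ← mul_smul, ← map_mul, ← map_mul]
        exact hfix2
      rw [h1, hy2, eq_inv_smul_iff]
      exact h2
    have hinv : (rho (u n) (ga a))⁻¹ • y2 = rho (u n) (pel (i2 + i1) (j2 + j1)) • y2 := by
      rw [inv_smul_eq_iff]
      exact hfix3.symm
    have hF3 : FF (u n) ((rho (u n) (ga a))⁻¹ • y2) < 2 := by
      rw [hinv, FF_pel]
      exact hF2
    have hbox : y2 ∈ KK 6 0.6 1.7 := hA a y2 hF2 hF3
    have hbox1 : y2 ∈ KK R s t := hsub hbox
    have hbox2 : rho (u n) (pel (i2 + i1) (j2 + j1)) • y2 ∈ KK R s t := by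
      rw [← hinv]
      exact hI a y2 hbox
    obtain ⟨p, hp, k', hk', hpk⟩ := h5 (i2 + i1) (j2 + j1)
      fun s' t' => entry_bound R s t hs _ y2 hbox1 hbox2 s' t'
    refine hno a p hp y2 hbox ?_
    have h1 : rho (u n) (pel (i2 + i1) (j2 + j1)) = rho (u n) (pel p.1 p.2) := by
      rw [hpk, map_mul, htriv k' hk', mul_one]
    rw [map_mul, mul_smul, ← h1]
    exact hfix3

theorem theoremT {ι : Type} (l : Filter ι) (u : ι → ℂ) (N : ι → Subgroup E) (H : Hyp l u N) :
    ∀ᶠ n in l, Good (u n) (N n) := by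
  filter_upwards [cover_adj l u N H, fixed_T l u N H, H.tend.eventually det_ga] with n h1 h2 h3
  exact ⟨h1.1, h1.2, h2, h3⟩

end DHN
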