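import Pool.Agent.DHN.T1
import Pool.Agent.DHN.F4
import Pool.Agent.DHN.F6
import Pool.Agent.DHN.R1

/-!
# [DHN-T2] the tubes are open and path connected; continuity of the tube function in all variables
-/

set_option autoImplicit false

open Topology Matrix ComplexConjugate Filter

namespace DHN

theorem t2_q_left (w : Fin 2 → ℂ) : Continuous fun y : H3 => q y w :=
  continuous_q.comp (continuous_id.prodMk continuous_const)

theorem t2_FF (u : ℂ) : Continuous fun y : H3 => FF u y := by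
  unfold FF
  exact (t2_q_left e1).mul (t2_q_left (ep u))

theorem isOpen_tube (u : ℂ) (g : SL2C) : IsOpen {y : H3 | FF u (g⁻¹ • y) < 2} :=
  isOpen_lt ((t2_FF u).comp (continuous_const_smul g⁻¹)) continuous_const

/-- PROOF: eventually `4 |a|^2 < 2`. Then by `FF_formula`, `{FF u < 2} = {(z,t) : |1 + 2 a z| < κ t}`, `κ = √(2 - 4|a|^2) > 0`: convex in `(z,t)` and nonempty
(`(0, t)` with `t` large): `isPathConnected_of_convex`. For general `g` it is the image under the homeomorphism `y ↦ g • y`. -/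
theorem pathConnected_tube : ∀ᶠ u in 𝓝 (0 : ℂ), ∀ g : SL2C,
    IsPathConnected {y : H3 | FF u (g⁻¹ • y) < 2} := by
  have hlim : Tendsto (fun u => 4 * Complex.normSq (aa u)) (𝓝 0) (𝓝 0) := by
    have h1 := (Complex.continuous_normSq.tendsto 0).comp aa_tendsto
    rw [Complex.normSq_zero] at h1
    have h2 := h1.const_mul 4
    rw [mul_zero] at h2
    exact h2
  filter_upwards [hlim.eventually (gt_mem_nhds (show (0 : ℝ) < 1 by norm_num))] with u hu
  have hκ : 0 < 2 - 4 * Complex.normSq (aa u) := by linarith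
  have hκ1 : 1 < 2 - 4 * Complex.normSq (aa u) := by linarith
  have hiff : ∀ y : H3, FF u y < 2 ↔
      ‖1 + 2 * aa u * y.1.1‖ < Real.sqrt (2 - 4 * Complex.normSq (aa u)) * y.1.2 := by
    intro y
    have hy := y.2
    rw [FF_formula]
    have h1 : Complex.normSq (1 + 2 * aa u * y.1.1) / y.1.2 ^ 2 + 4 * Complex.normSq (aa u) < 2 ↔
        Complex.normSq (1 + 2 * aa u * y.1.1) < (2 - 4 * Complex.normSq (aa u)) * y.1.2 ^ 2 := by
      rw [← lt_sub_iff_add_lt, div_lt_iff₀ (by positivity)]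
    have h2 : (2 - 4 * Complex.normSq (aa u)) * y.1.2 ^ 2 =
        (Real.sqrt (2 - 4 * Complex.normSq (aa u)) * y.1.2) ^ 2 := by
      rw [mul_pow, Real.sq_sqrt hκ.le]
    rw [h1, h2, Complex.normSq_eq_norm_sq]
    have h3 : 0 ≤ Real.sqrt (2 - 4 * Complex.normSq (aa u)) * y.1.2 := by positivity
    exact pow_lt_pow_iff_left₀ (norm_nonneg _) h3 (by norm_num)
  have hpc : IsPathConnected {y : H3 | FF u y < 2} := by
    refine isPathConnected_of_convex _ ?_ ?_
    · refine ⟨⟨(0, 2), by norm_num⟩, ?_⟩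
      change FF u _ < 2
      rw [hiff]
      simp only [mul_zero, add_zero, norm_one]
      have h4 : 1 ≤ Real.sqrt (2 - 4 * Complex.normSq (aa u)) := by
        rw [Real.one_le_sqrt]
        exact hκ1.le
      linarith
    · intro x hx y hy a b ha hb hab
      obtain ⟨x', hx', rfl⟩ := hx
      obtain ⟨y', hy', rfl⟩ := hy
      have h1 := (hiff x').mp hx'
      have h2 := (hiff y').mp hy'
      have hxp := x'.2
      have hyp := y'.2
      have hpos : 0 < (a • (x' : ℂ × ℝ) + b • (y' : ℂ × ℝ)).2 := by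
        change 0 < a * x'.1.2 + b * y'.1.2
        rcases ha.eq_or_lt with h0 | h0
        · rw [← h0] at hab ⊢
          rw [zero_add] at hab
          rw [hab]
          linarith
        · have h5 := mul_pos h0 hxp
          have h6 := mul_nonneg hb hyp.le
          linarith
      refine ⟨⟨a • (x' : ℂ × ℝ) + b • (y' : ℂ × ℝ), hpos⟩, ?_, rfl⟩
      change FF u _ < 2
      rw [hiff]
      change ‖1 + 2 * aa u * ((a : ℝ) • x'.1.1 + (b : ℝ) • y'.1.1)‖ <
        Real.sqrt (2 - 4 * Complex.normSq (aa u)) * (a * x'.1.2 + b * y'.1.2)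
      have h7 : 1 + 2 * aa u * ((a : ℝ) • x'.1.1 + (b : ℝ) • y'.1.1) =
          (a : ℝ) • (1 + 2 * aa u * x'.1.1) + (b : ℝ) • (1 + 2 * aa u * y'.1.1) := by
        have h8 : (1 : ℂ) = (a : ℂ) + (b : ℂ) := by
          rw [← Complex.ofReal_add, hab, Complex.ofReal_one]
        simp only [Complex.real_smul]
        linear_combination h8
      rw [h7]
      have h9 : ‖(a : ℝ) • (1 + 2 * aa u * x'.1.1) + (b : ℝ) • (1 + 2 * aa u * y'.1.1)‖ ≤
          a * ‖1 + 2 * aa u * x'.1.1‖ + b * ‖1 + 2 * aa u * y'.1.1‖ := by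
        refine (norm_add_le _ _).trans ?_
        rw [norm_smul, norm_smul, Real.norm_of_nonneg ha, Real.norm_of_nonneg hb]
      refine h9.trans_lt ?_
      rcases ha.eq_or_lt with h0 | h0
      · rw [← h0] at hab ⊢
        rw [zero_add] at hab
        rw [hab]
        linarith
      · have h5 := mul_lt_mul_of_pos_left h1 h0
        have h6 := mul_le_mul_of_nonneg_left h2.le hb
        linarith
  intro g
  have himg : {y : H3 | FF u (g⁻¹ • y) < 2} = (fun y => g • y) '' {y : H3 | FF u y < 2} := by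
    ext y
    constructor
    · intro hy
      exact ⟨g⁻¹ • y, hy, smul_inv_smul g y⟩
    · rintro ⟨z, hz, rfl⟩
      change FF u (g⁻¹ • g • z) < 2
      rw [inv_smul_smul]
      exact hz
  rw [himg]
  exact hpc.image (continuous_const_smul g)

theorem t2_unif {α β : Type*} [TopologicalSpace α] [TopologicalSpace β] (f : α × β → ℝ)
    (hf : Continuous f) (x0 : α) (K : Set β) (hK : IsCompact K) (ε : ℝ) (hε : 0 < ε) :
    ∀ᶠ x in 𝓝 x0, ∀ y ∈ K, |f (x, y) - f (x0, y)| < ε := by
  refine hK.eventually_forall_of_forall_eventually fun y _ => ?_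
  have h1 : Continuous fun z : α × β => |f z - f (x0, z.2)| :=
    (hf.sub (hf.comp (continuous_const.prodMk continuous_snd))).abs
  have h2 := h1.tendsto (x0, y)
  have h3 : |f (x0, y) - f (x0, y)| = 0 := by rw [sub_self, abs_zero]
  rw [h3] at h2
  exact h2.eventually (gt_mem_nhds hε)

theorem t2_inv : Continuous fun g : SL2C => g⁻¹ := continuous_inv

theorem t2_smul : Continuous fun z : (SL2C × (Fin 2 → ℂ)) × H3 => z.1.1⁻¹ • z.2 := by
  have h1 : Continuous fun z : (SL2C × (Fin 2 → ℂ)) × H3 => z.1.1⁻¹ :=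
    t2_inv.comp (continuous_fst.comp continuous_fst)
  have h2 : Continuous fun z : (SL2C × (Fin 2 → ℂ)) × H3 => ((z.1.1⁻¹, z.2) : SL2C × H3) :=
    h1.prodMk continuous_snd
  have h3 := continuous_smul_H3.comp h2
  exact h3

theorem t2_cont : Continuous fun z : (SL2C × (Fin 2 → ℂ)) × H3 =>
    q (z.1.1⁻¹ • z.2) e1 * q (z.1.1⁻¹ • z.2) z.1.2 := by
  have h2 : Continuous fun z : (SL2C × (Fin 2 → ℂ)) × H3 => q (z.1.1⁻¹ • z.2) e1 := by
    have h5 := (t2_q_left e1).comp t2_smul
    exact h5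
  have h3 : Continuous fun z : (SL2C × (Fin 2 → ℂ)) × H3 => q (z.1.1⁻¹ • z.2) z.1.2 := by
    have h4 : Continuous fun z : (SL2C × (Fin 2 → ℂ)) × H3 => z.1.2 :=
      continuous_snd.comp continuous_fst
    have h5 := continuous_q.comp (t2_smul.prodMk h4)
    exact h5
  exact h2.mul h3

theorem t2_ep : Tendsto ep (𝓝 0) (𝓝 (ep 0)) := by
  have h1 : Continuous ep := by
    unfold ep aa
    refine continuous_pi fun i => ?_
    fin_cases i
    · exact continuous_const
    · exact continuous_const.mul (Complex.continuous_sinh.comp (continuous_id.div_const 2))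
  exact h1.tendsto 0

/-- Uniform convergence on compact sets. PROOF: the function `(g, v, v', y) ↦ q (g⁻¹ • y) v * q (g⁻¹ • y) v'` is continuous on
`SL2C × (Fin 2 → ℂ)^2 × H3`, `rho u g → rho 0 g` (`rho_tendsto`), `ep u → ep 0`; compactness of `K` (tube lemma / sequences /
`IsCompact.eventually_forall_of_forall_eventually`). -/
theorem FF_uniform (g : E) (K : Set H3) (hK : IsCompact K) (ε : ℝ) (hε : 0 < ε) :
    ∀ᶠ u in 𝓝 (0 : ℂ), ∀ y ∈ K, |FF u ((rho u g)⁻¹ • y) - FF 0 ((rho 0 g)⁻¹ • y)| < ε := by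
  have hev := t2_unif _ t2_cont (rho 0 g, ep 0) K hK ε hε
  have ht : Tendsto (fun u => (rho u g, ep u)) (𝓝 0) (𝓝 (rho 0 g, ep 0)) :=
    (rho_tendsto g).prodMk_nhds t2_ep
  exact ht.eventually hev

end DHN
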