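import Pool.Agent.DHN.T1
import Pool.Agent.DHN.R1
import Pool.Agent.DHN.R3

/-!
# [DHN-T3] Step A: the intersection of two adjacent tubes is bounded
-/

set_option autoImplicit false

open Topology Matrix ComplexConjugate Filter

namespace DHN

theorem t3_ineq (y : H3) (v v' : Fin 2 → ℂ) (a : ℂ) (h1 : 0.99 ≤ ‖v 1‖) (h1' : 0.99 ≤ ‖v' 1‖)
    (h0 : ‖v 0‖ ≤ 2.01) (h0' : ‖v' 0‖ ≤ 2.01) (ha : ‖a‖ ≤ 0.0005)
    (hq : q y v * q y v' < 2)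
    (hF : Complex.normSq (1 + 2 * a * y.1.1) / y.1.2 ^ 2 + 4 * Complex.normSq a < 2) :
    y ∈ KK 6 0.6 1.7 := by
  have hy := y.2
  generalize hz : y.1.1 = z at *
  generalize ht : y.1.2 = t at *
  have hqv : ∀ w : Fin 2 → ℂ, q y w = ‖w 0 - z * w 1‖ ^ 2 / t + t * ‖w 1‖ ^ 2 := by
    intro w
    unfold q
    rw [hz, ht, Complex.normSq_eq_norm_sq, Complex.normSq_eq_norm_sq]
    field_simp
  rw [hqv, hqv] at hq
  have hA : ∀ x : ℂ, 0.99 ≤ ‖x‖ → 0.98 ≤ ‖x‖ ^ 2 := by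
    intro x hx
    nlinarith
  have hv1 := hA _ h1
  have hv1' := hA _ h1'
  have hp1 : 0 ≤ ‖v 0 - z * v 1‖ ^ 2 / t := by positivity
  have hp2 : 0 ≤ ‖v' 0 - z * v' 1‖ ^ 2 / t := by positivity
  have hq1 : 0.98 * t ≤ t * ‖v 1‖ ^ 2 := by nlinarith
  have hq2 : 0.98 * t ≤ t * ‖v' 1‖ ^ 2 := by nlinarith
  have ht2 : t ^ 2 < 2.1 := by
    have h3 : (0.98 * t) * (0.98 * t) ≤
        (‖v 0 - z * v 1‖ ^ 2 / t + t * ‖v 1‖ ^ 2) * (‖v' 0 - z * v' 1‖ ^ 2 / t + t * ‖v' 1‖ ^ 2) :=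
      mul_le_mul (by linarith) (by linarith) (by positivity) (by positivity)
    nlinarith
  have hmin : ‖v 0 - z * v 1‖ < 1.5 ∨ ‖v' 0 - z * v' 1‖ < 1.5 := by
    by_contra hcon
    rw [not_or, not_lt, not_lt] at hcon
    obtain ⟨c1, c2⟩ := hcon
    have d1 : 2.25 ≤ ‖v 0 - z * v 1‖ ^ 2 := by nlinarith
    have d2 : 2.25 ≤ ‖v' 0 - z * v' 1‖ ^ 2 := by nlinarith
    have e1 : 2.25 / t ≤ ‖v 0 - z * v 1‖ ^ 2 / t + t * ‖v 1‖ ^ 2 := by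
      have := div_le_div_of_nonneg_right d1 hy.le
      have h5 : 0 ≤ t * ‖v 1‖ ^ 2 := by positivity
      linarith
    have e2 : 2.25 / t ≤ ‖v' 0 - z * v' 1‖ ^ 2 / t + t * ‖v' 1‖ ^ 2 := by
      have := div_le_div_of_nonneg_right d2 hy.le
      have h5 : 0 ≤ t * ‖v' 1‖ ^ 2 := by positivity
      linarith
    have e3 : (2.25 / t) * (2.25 / t) < 2 :=
      (mul_le_mul e1 e2 (by positivity) (by positivity)).trans_lt hq
    have e4 : (2.25 / t) * (2.25 / t) = 5.0625 / t ^ 2 := by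
      field_simp
      norm_num
    rw [e4, div_lt_iff₀ (by positivity)] at e3
    linarith
  have hzb : ‖z‖ ≤ 3.6 := by
    have key : ∀ w0 w1 : ℂ, 0.99 ≤ ‖w1‖ → ‖w0‖ ≤ 2.01 → ‖w0 - z * w1‖ < 1.5 → ‖z‖ ≤ 3.6 := by
      intro w0 w1 k1 k2 k3
      have k4 : ‖z * w1‖ ≤ ‖w0‖ + ‖w0 - z * w1‖ := by
        have k5 : z * w1 = w0 - (w0 - z * w1) := by ring
        calc ‖z * w1‖ = ‖w0 - (w0 - z * w1)‖ := by rw [← k5]
          _ ≤ ‖w0‖ + ‖w0 - z * w1‖ := norm_sub_le _ _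
      rw [norm_mul] at k4
      have k6 : ‖z‖ * 0.99 ≤ ‖z‖ * ‖w1‖ := mul_le_mul_of_nonneg_left k1 (norm_nonneg _)
      linarith
    rcases hmin with h | h
    · exact key _ _ h1 h0 h
    · exact key _ _ h1' h0' h
  have hnorm : 0.99 ≤ ‖1 + 2 * a * z‖ := by
    have k1 : ‖2 * a * z‖ ≤ 0.0036 := by
      rw [norm_mul, norm_mul]
      have k2 : ‖(2 : ℂ)‖ = 2 := by norm_num
      rw [k2]
      have k3 : ‖a‖ * ‖z‖ ≤ 0.0005 * 3.6 := mul_le_mul ha hzb (norm_nonneg _) (by norm_num)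
      linarith
    have k4 : ‖(1 : ℂ)‖ ≤ ‖1 + 2 * a * z‖ + ‖2 * a * z‖ := by
      have k5 : (1 : ℂ) = (1 + 2 * a * z) - 2 * a * z := by ring
      calc ‖(1 : ℂ)‖ = ‖(1 + 2 * a * z) - 2 * a * z‖ := by rw [← k5]
        _ ≤ _ := norm_sub_le _ _
    rw [norm_one] at k4
    linarith
  have hn2 := hA _ hnorm
  rw [Complex.normSq_eq_norm_sq] at hF
  have hF2 : ‖1 + 2 * a * z‖ ^ 2 / t ^ 2 < 2 := by
    have := Complex.normSq_nonneg a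
    linarith
  rw [div_lt_iff₀ (by positivity)] at hF2
  refine ⟨?_, ?_, ?_⟩
  · rw [hz]
    linarith
  · rw [ht]
    nlinarith
  · rw [ht]
    nlinarith

theorem t3_vec (M : SL2C) (w : Fin 2 → ℂ) : (M.1.mulVec w) 0 = M 0 0 * w 0 + M 0 1 * w 1 ∧
    (M.1.mulVec w) 1 = M 1 0 * w 0 + M 1 1 * w 1 := by
  constructor
  · simp [Matrix.mulVec, dotProduct, Fin.sum_univ_two]
  · simp [Matrix.mulVec, dotProduct, Fin.sum_univ_two]

theorem t3_entry (g : E) (i j : Fin 2) :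
    Tendsto (fun u => (rho u g) i j) (𝓝 0) (𝓝 ((rho 0 g) i j)) := by
  have h1 := rho_tendsto g
  have h2 : Continuous fun m : SL2C => m i j := by
    have h3 : Continuous fun m : SL2C => (m : Matrix (Fin 2) (Fin 2) ℂ) := continuous_subtype_val
    exact h3.matrix_elem i j
  exact (h2.tendsto _).comp h1

theorem t3_om : ‖om‖ = 1 ∧ ‖1 + om‖ = 1 := by
  have hs3 : (Real.sqrt 3) ^ 2 = 3 := Real.sq_sqrt (by norm_num)
  have hom : Complex.normSq om = 1 := by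
    unfold om
    rw [Complex.normSq_apply]
    simp
    nlinarith
  have hom1 : Complex.normSq (1 + om) = 1 := by
    unfold om
    rw [Complex.normSq_apply]
    simp
    nlinarith
  rw [Complex.normSq_eq_norm_sq] at hom hom1
  constructor
  · nlinarith [norm_nonneg om]
  · nlinarith [norm_nonneg (1 + om)]

theorem t3_limits (a : Fin 4) : ‖(rho 0 (ga a)) 1 0‖ = 1 ∧ ‖(rho 0 (ga a)) 0 0‖ ≤ 2 := by
  obtain ⟨h1, h2⟩ := t3_om
  fin_cases a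
  · change ‖(rho 0 (ga 0)).1 1 0‖ = 1 ∧ ‖(rho 0 (ga 0)).1 0 0‖ ≤ 2
    rw [rho0_ga0]
    simp [h2]
  · change ‖(rho 0 (ga 1)).1 1 0‖ = 1 ∧ ‖(rho 0 (ga 1)).1 0 0‖ ≤ 2
    rw [rho0_ga1]
    simp [h1, h2]
  · change ‖(rho 0 (ga 2)).1 1 0‖ = 1 ∧ ‖(rho 0 (ga 2)).1 0 0‖ ≤ 2
    rw [rho0_ga2]
    have h3 : (-1 : ℂ) - om = -(1 + om) := by ring
    simp only [Matrix.of_apply, Matrix.cons_val', Matrix.cons_val_zero, Matrix.cons_val_one]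
    rw [h3, norm_neg]
    refine ⟨h2, ?_⟩
    simp
  · change ‖(rho 0 (ga 3)).1 1 0‖ = 1 ∧ ‖(rho 0 (ga 3)).1 0 0‖ ≤ 2
    rw [rho0_ga3]
    simp [h1, h2]

/-- PROOF. Fix `a`; `g = rho u (ga a)`, `v = g e1`, `v' = g (ep u)`. As `u → 0`, `v, v' → rho 0 (ga a) e1 = (α, c)` with `|c| = 1`, `|α| ≤ 2`
(`rho0_ga0 .. rho0_ga3`, `|1+om| = 1`; `rho_tendsto`, `ep u → e1`). So eventually `0.99 ≤ |v1|, |v1'|`, `|v0|, |v0'| ≤ 2.01`, `|a| ≤ 0.0005`.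
Let `y = (z,t)`. (i) `q y v * q y v' < 2` (`q_inv_smul`), `q y v ≥ t |v1|^2`: `t^2 * 0.99^4 < 2`, `t < 1.45`. (ii) `q y v ≥ |v0 - z v1|^2/t`: the smaller of
`|v0 - z v1|, |v0' - z v1'|` has fourth power `< 2 t^2 < 4.21`, so it is `< 1.44`; so `|z| * 0.99 ≤ 1.44 + 2.01`, `|z| ≤ 3.5`.
(iii) `FF_formula`: `|1 + 2 a z|^2/t^2 < 2`, `|1 + 2 a z| ≥ 0.99`: `t > 0.69`. -/
theorem stepA : ∀ᶠ u in 𝓝 (0 : ℂ), ∀ (a : Fin 4) (y : H3), FF u y < 2 →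
    FF u ((rho u (ga a))⁻¹ • y) < 2 → y ∈ KK 6 0.6 1.7 := by
  rw [eventually_all]
  intro a
  obtain ⟨hl1, hl0⟩ := t3_limits a
  have hep : Tendsto (fun u => ep u 1) (𝓝 0) (𝓝 0) := by
    have h1 : (fun u => ep u 1) = fun u => -2 * aa u := by
      funext u
      simp [ep]
    rw [h1]
    have h2 := aa_tendsto.const_mul (-2 : ℂ)
    rw [mul_zero] at h2
    exact h2
  have l00 := t3_entry (ga a) 0 0
  have l01 := t3_entry (ga a) 0 1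
  have l10 := t3_entry (ga a) 1 0
  have l11 := t3_entry (ga a) 1 1
  have n0 : Tendsto (fun u => ‖(rho u (ga a)) 0 0‖) (𝓝 0) (𝓝 ‖(rho 0 (ga a)) 0 0‖) := l00.norm
  have n1 : Tendsto (fun u => ‖(rho u (ga a)) 1 0‖) (𝓝 0) (𝓝 ‖(rho 0 (ga a)) 1 0‖) := l10.norm
  have n0' : Tendsto (fun u => ‖(rho u (ga a)) 0 0 + (rho u (ga a)) 0 1 * ep u 1‖) (𝓝 0)
      (𝓝 ‖(rho 0 (ga a)) 0 0‖) := by
    have h1 := (l00.add (l01.mul hep)).norm
    rw [mul_zero, add_zero] at h1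
    exact h1
  have n1' : Tendsto (fun u => ‖(rho u (ga a)) 1 0 + (rho u (ga a)) 1 1 * ep u 1‖) (𝓝 0)
      (𝓝 ‖(rho 0 (ga a)) 1 0‖) := by
    have h1 := (l10.add (l11.mul hep)).norm
    rw [mul_zero, add_zero] at h1
    exact h1
  have na : Tendsto (fun u => ‖aa u‖) (𝓝 0) (𝓝 0) := by
    have h1 := aa_tendsto.norm
    rw [norm_zero] at h1
    exact h1
  have hb0 : ‖(rho 0 (ga a)) 0 0‖ < 2.01 := by linarith
  have hb1 : 0.99 < ‖(rho 0 (ga a)) 1 0‖ := by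
    rw [hl1]
    norm_num
  filter_upwards [n0.eventually (gt_mem_nhds hb0), n1.eventually (lt_mem_nhds hb1),
    n0'.eventually (gt_mem_nhds hb0), n1'.eventually (lt_mem_nhds hb1),
    na.eventually (gt_mem_nhds (show (0 : ℝ) < 0.0005 by norm_num))] with u e0 e1' e0' e1'' ea
  intro y hy1 hy2
  have hq : q y ((rho u (ga a)).1.mulVec e1) * q y ((rho u (ga a)).1.mulVec (ep u)) < 2 := by
    rw [← q_inv_smul, ← q_inv_smul]
    exact hy2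
  rw [FF_formula] at hy1
  have v0 : ((rho u (ga a)).1.mulVec e1) 0 = (rho u (ga a)) 0 0 := by
    rw [(t3_vec _ _).1]
    simp [e1]
  have v1 : ((rho u (ga a)).1.mulVec e1) 1 = (rho u (ga a)) 1 0 := by
    rw [(t3_vec _ _).2]
    simp [e1]
  have hep0 : ep u 0 = 1 := rfl
  have v0' : ((rho u (ga a)).1.mulVec (ep u)) 0 = (rho u (ga a)) 0 0 + (rho u (ga a)) 0 1 * ep u 1 := by
    rw [(t3_vec _ _).1, hep0, mul_one]
  have v1' : ((rho u (ga a)).1.mulVec (ep u)) 1 = (rho u (ga a)) 1 0 + (rho u (ga a)) 1 1 * ep u 1 := by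
    rw [(t3_vec _ _).2, hep0, mul_one]
  refine t3_ineq y _ _ (aa u) ?_ ?_ ?_ ?_ ea.le hq hy1
  · rw [v1]; exact e1'.le
  · rw [v1']; exact e1''.le
  · rw [v0]; exact e0.le
  · rw [v0']; exact e0'.le

end DHN
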