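import Pool.Agent.DHN.T1
import Pool.Agent.DHN.R1
import Pool.Agent.DHN.R3

/-!
# [DHN-T4] Step D: intersecting tubes have small determinant; the lower bound for the `ga`
-/

set_option autoImplicit false

open Topology Matrix ComplexConjugate Filter

namespace DHN

theorem t4_ep : Tendsto ep (𝓝 0) (𝓝 e1) := by
  have h1 : Continuous ep := by
    unfold ep aa
    refine continuous_pi fun i => ?_
    fin_cases i
    · exact continuous_const
    · exact continuous_const.mul (Complex.continuous_sinh.comp (continuous_id.div_const 2))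
  have h2 : ep 0 = e1 := by
    unfold ep e1 aa
    rw [zero_div, Complex.sinh_zero, mul_zero]
  have h3 := h1.tendsto 0
  rw [h2] at h3
  exact h3

theorem t4_entry (g : E) (i j : Fin 2) :
    Tendsto (fun u => (rho u g) i j) (𝓝 0) (𝓝 ((rho 0 g) i j)) := by
  have h1 := rho_tendsto g
  have h2 : Continuous fun m : SL2C => m i j := by
    have h3 : Continuous fun m : SL2C => (m : Matrix (Fin 2) (Fin 2) ℂ) := continuous_subtype_val
    exact h3.matrix_elem i j
  exact (h2.tendsto _).comp h1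

theorem t4_det (M : SL2C) (w : Fin 2 → ℂ) :
    det2 w (M.1.mulVec w) = w 0 * (M 1 0 * w 0 + M 1 1 * w 1) - w 1 * (M 0 0 * w 0 + M 0 1 * w 1) := by
  have h0 : (M.1.mulVec w) 0 = M 0 0 * w 0 + M 0 1 * w 1 := by
    simp [Matrix.mulVec, dotProduct, Fin.sum_univ_two]
  have h1 : (M.1.mulVec w) 1 = M 1 0 * w 0 + M 1 1 * w 1 := by
    simp [Matrix.mulVec, dotProduct, Fin.sum_univ_two]
  unfold det2
  rw [h0, h1]

theorem t4_lim (g : E) : Tendsto (fun u =>
    Complex.normSq (det2 e1 ((rho u g).1.mulVec e1)) *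
      Complex.normSq (det2 (ep u) ((rho u g).1.mulVec (ep u)))) (𝓝 0)
    (𝓝 (Complex.normSq ((rho 0 g) 1 0) ^ 2)) := by
  have he0 : Tendsto (fun u => ep u 0) (𝓝 0) (𝓝 1) := by
    have h1 := (tendsto_pi_nhds.mp t4_ep) 0
    exact h1
  have he1 : Tendsto (fun u => ep u 1) (𝓝 0) (𝓝 0) := by
    have h1 := (tendsto_pi_nhds.mp t4_ep) 1
    exact h1
  have ha : Tendsto (fun u => det2 e1 ((rho u g).1.mulVec e1)) (𝓝 0) (𝓝 ((rho 0 g) 1 0)) := by
    have h1 : (fun u => det2 e1 ((rho u g).1.mulVec e1)) = fun u => (rho u g) 1 0 := by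
      funext u
      rw [t4_det]
      simp [e1]
    rw [h1]
    exact t4_entry g 1 0
  have hb : Tendsto (fun u => det2 (ep u) ((rho u g).1.mulVec (ep u))) (𝓝 0)
      (𝓝 ((rho 0 g) 1 0)) := by
    have h1 : (fun u => det2 (ep u) ((rho u g).1.mulVec (ep u))) = fun u =>
        ep u 0 * ((rho u g) 1 0 * ep u 0 + (rho u g) 1 1 * ep u 1) -
          ep u 1 * ((rho u g) 0 0 * ep u 0 + (rho u g) 0 1 * ep u 1) := by
      funext u
      rw [t4_det]
    rw [h1]
    have h2 := (he0.mul (((t4_entry g 1 0).mul he0).add ((t4_entry g 1 1).mul he1))).sub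
      (he1.mul (((t4_entry g 0 0).mul he0).add ((t4_entry g 0 1).mul he1)))
    have h3 : (1 : ℂ) * ((rho 0 g) 1 0 * 1 + (rho 0 g) 1 1 * 0) -
        0 * ((rho 0 g) 0 0 * 1 + (rho 0 g) 0 1 * 0) = (rho 0 g) 1 0 := by ring
    rw [h3] at h2
    exact h2
  have h5 := ((Complex.continuous_normSq.tendsto _).comp ha).mul
    ((Complex.continuous_normSq.tendsto _).comp hb)
  rw [← sq] at h5
  exact h5

/-- PROOF. `det2 e1 (g e1) = g 1 0`. Let `D u = normSq (det2 e1 (rho u g e1)) * normSq (det2 (ep u) (rho u g (ep u)))`; `D u → (normSq ((rho 0 g) 1 0))^2`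
(`rho_tendsto`, `ep u → e1`). If `normSq ((rho 0 g) 1 0) ≥ 2.1` then eventually `D u > 4` (`2.1^2 = 4.41`), but `FF_mul_ge` gives `D u ≤ FF u y * FF u (g⁻¹ y) < 4`. -/
theorem stepD (g : E) : ∀ᶠ u in 𝓝 (0 : ℂ),
    (∃ y : H3, FF u y < 2 ∧ FF u ((rho u g)⁻¹ • y) < 2) → Complex.normSq ((rho 0 g) 1 0) < 2.1 := by
  by_cases hlt : Complex.normSq ((rho 0 g) 1 0) < 2.1
  · exact Eventually.of_forall fun u _ => hlt
  · have hge : 2.1 ≤ Complex.normSq ((rho 0 g) 1 0) := not_lt.mp hlt
    have h4 : (4 : ℝ) < Complex.normSq ((rho 0 g) 1 0) ^ 2 := by nlinarith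
    filter_upwards [(t4_lim g).eventually (lt_mem_nhds h4)] with u hu
    rintro ⟨y, hy1, hy2⟩
    exfalso
    have h5 := FF_mul_ge u (rho u g) y
    have h6 := FF_pos u y
    have h7 := FF_pos u ((rho u g)⁻¹ • y)
    nlinarith

/-- PROOF. The limit as `u → 0` is `(normSq ((rho 0 (ga a)) 1 0))^2 = 1` (`rho0_ga0 .. rho0_ga3`, `normSq om = normSq (1 + om) = 1`). -/
theorem det_ga : ∀ᶠ u in 𝓝 (0 : ℂ), ∀ a : Fin 4,
    0.9 < Complex.normSq (det2 e1 ((rho u (ga a)).1.mulVec e1)) *
    Complex.normSq (det2 (ep u) ((rho u (ga a)).1.mulVec (ep u))) := by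
  have hs3 : (Real.sqrt 3) ^ 2 = 3 := Real.sq_sqrt (by norm_num)
  have hom : Complex.normSq om = 1 := by
    unfold om
    rw [Complex.normSq_apply]
    simp
    nlinarith
  have hom1 : Complex.normSq (1 + om) = 1 := by
    unfold om
    rw [Complex.normSq_apply]
    simp
    nlinarith
  have hval : ∀ a : Fin 4, Complex.normSq ((rho 0 (ga a)) 1 0) = 1 := by
    intro a
    fin_cases a
    · change Complex.normSq ((rho 0 (ga 0)).1 1 0) = 1
      rw [rho0_ga0]
      simpa using hom1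
    · change Complex.normSq ((rho 0 (ga 1)).1 1 0) = 1
      rw [rho0_ga1]
      simpa using hom
    · change Complex.normSq ((rho 0 (ga 2)).1 1 0) = 1
      rw [rho0_ga2]
      have h1 : (-1 : ℂ) - om = -(1 + om) := by ring
      simp only [Matrix.of_apply, Matrix.cons_val', Matrix.cons_val_zero, Matrix.cons_val_one]
      rw [h1, Complex.normSq_neg]
      exact hom1
    · change Complex.normSq ((rho 0 (ga 3)).1 1 0) = 1
      rw [rho0_ga3]
      simpa using hom
  rw [eventually_all]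
  intro a
  have h1 := t4_lim (ga a)
  rw [hval a, one_pow] at h1
  exact h1.eventually (lt_mem_nhds (by norm_num))

end DHN
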