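import Pool.Agent.DHN.R4
import Pool.Agent.DHN.R3

/-!
# [DHN-T5] the table: pairs of neighbours of infinity at distance at most one
-/

set_option autoImplicit false

open Topology Matrix ComplexConjugate Filter

namespace DHN

/-- the `om`-coordinate of `b_a`: `0, 1, 2, -1` -/
def bcoord : Fin 4 → ℤ := ![0, 1, 2, -1]

/-- the unit `c_a` -/
noncomputable def cunit : Fin 4 → ℂ := ![1 + om, -om, -1 - om, om]

theorem om_sq : om ^ 2 = -1 - om := by
  unfold om
  have h3 : ((Real.sqrt 3 : ℝ) : ℂ) ^ 2 = 3 := by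
    rw [← Complex.ofReal_pow, Real.sq_sqrt (by norm_num)]
    norm_num
  have hI : Complex.I ^ 2 = -1 := Complex.I_sq
  linear_combination (Complex.I ^ 2 / 4) * h3 + (3 / 4 : ℂ) * hI

theorem col_ga (a : Fin 4) : (rho 0 (ga a)) 0 0 = (bcoord a : ℂ) * om * cunit a ∧
    (rho 0 (ga a)) 1 0 = cunit a := by
  have ho := om_sq
  fin_cases a
  · have h : (rho 0 (ga 0)).1 = _ := rho0_ga0
    constructor
    · show (rho 0 (ga 0)).1 0 0 = _
      rw [h]; simp [bcoord, cunit]
    · show (rho 0 (ga 0)).1 1 0 = _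
      rw [h]; simp [cunit]
  · have h : (rho 0 (ga 1)).1 = _ := rho0_ga1
    constructor
    · show (rho 0 (ga 1)).1 0 0 = _
      rw [h]; simp [bcoord, cunit]
      linear_combination ho
    · show (rho 0 (ga 1)).1 1 0 = _
      rw [h]; simp [cunit]
  · have h : (rho 0 (ga 2)).1 = _ := rho0_ga2
    constructor
    · show (rho 0 (ga 2)).1 0 0 = _
      rw [h]; simp [bcoord, cunit]
      linear_combination 2 * ho
    · show (rho 0 (ga 2)).1 1 0 = _
      rw [h]; simp [cunit]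
  · have h : (rho 0 (ga 3)).1 = _ := rho0_ga3
    constructor
    · show (rho 0 (ga 3)).1 0 0 = _
      rw [h]; simp [bcoord, cunit]
      linear_combination ho
    · show (rho 0 (ga 3)).1 1 0 = _
      rw [h]; simp [cunit]

theorem normSq_cunit (a : Fin 4) : Complex.normSq (cunit a) = 1 := by
  have h1 := normSq_InO 1 1
  have h2 := normSq_InO 0 (-1)
  have h3 := normSq_InO (-1) (-1)
  have h4 := normSq_InO 0 1
  fin_cases a
  · simp only [cunit, Matrix.cons_val_zero, Fin.zero_eta, Fin.isValue]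
    have e : (1 : ℂ) + om = ((1 : ℤ) : ℂ) + ((1 : ℤ) : ℂ) * om := by push_cast; ring
    rw [e, h1]; norm_num
  · show Complex.normSq (-om) = 1
    have e : -om = ((0 : ℤ) : ℂ) + ((-1 : ℤ) : ℂ) * om := by push_cast; ring
    rw [e, h2]; norm_num
  · show Complex.normSq (-1 - om) = 1
    have e : -1 - om = ((-1 : ℤ) : ℂ) + ((-1 : ℤ) : ℂ) * om := by push_cast; ring
    rw [e, h3]; norm_num
  · show Complex.normSq om = 1
    have e : om = ((0 : ℤ) : ℂ) + ((1 : ℤ) : ℂ) * om := by push_cast; ring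
    rw [e, h4]; norm_num

theorem entry_formula (a b : Fin 4) (i j : ℤ) :
    (rho 0 ((ga a)⁻¹ * pel i j * ga b)) 1 0 =
      (-1 : ℂ) ^ j * (cunit a * cunit b * ((((-(i + 2 * j) : ℤ)) : ℂ) +
        ((bcoord a - bcoord b - 4 * j : ℤ) : ℂ) * om)) := by
  obtain ⟨ha0, ha1⟩ := col_ga a
  obtain ⟨hb0, hb1⟩ := col_ga b
  have hp := rho0_pel i j
  have h3 : Complex.I * (Real.sqrt 3 : ℂ) = 1 + 2 * om := by
    unfold om; ring
  rw [map_mul, map_mul, map_inv]
  show ((rho 0 (ga a))⁻¹ * rho 0 (pel i j) * rho 0 (ga b)).1 1 0 = _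
  rw [Matrix.SpecialLinearGroup.coe_mul, Matrix.SpecialLinearGroup.coe_mul,
    Matrix.SpecialLinearGroup.coe_inv, hp, Matrix.adjugate_fin_two]
  have e1 : (rho 0 (ga a)).1 0 0 = (bcoord a : ℂ) * om * cunit a := ha0
  have e2 : (rho 0 (ga a)).1 1 0 = cunit a := ha1
  have e3 : (rho 0 (ga b)).1 0 0 = (bcoord b : ℂ) * om * cunit b := hb0
  have e4 : (rho 0 (ga b)).1 1 0 = cunit b := hb1
  simp only [Matrix.mul_apply, Fin.sum_univ_two, Matrix.smul_apply, Matrix.of_apply,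
    Matrix.cons_val', Matrix.cons_val_zero, Matrix.cons_val_one, Matrix.cons_val_fin_one,
    smul_eq_mul, e1, e2, e3, e4, h3]
  push_cast
  ring

/-- PROOF: multiply out with `rho0_ga0 .. rho0_ga3`, `rho0_pel` (16 pairs `(a, b)`): with `g_a = (α_a, β_a; c_a, δ_a)`, `α_a = b_a c_a`, `b_a = bcoord a * om`,
`|c_a| = 1`, `P = ± (1, T; 0, 1)`, `T = i + 2 j √3 I = (i + 2 j) + 4 j om`: the `(1,0)` entry of `g_a⁻¹ P g_b` is `± c_a c_b (b_a - b_b - T)`. -/
theorem normSq_entry (a b : Fin 4) (i j : ℤ) :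
    Complex.normSq ((rho 0 ((ga a)⁻¹ * pel i j * ga b)) 1 0) =
      (((i + 2 * j) ^ 2 + (i + 2 * j) * (bcoord a - bcoord b - 4 * j) + (bcoord a - bcoord b - 4 * j) ^ 2 : ℤ) : ℝ) := by
  rw [entry_formula, Complex.normSq_mul, Complex.normSq_mul, Complex.normSq_mul, normSq_cunit,
    normSq_cunit, normSq_InO]
  have h1 : Complex.normSq ((-1 : ℂ) ^ j) = 1 := by
    rw [map_zpow₀]
    simp
  rw [h1]
  push_cast
  ring

/-- PROOF: by `normSq_entry` the integer `m^2 - m n + n^2` with `m = -(i+2j)`, `n = bcoord a - bcoord b - 4 j` is `≤ 2`, so `|m|, |n| ≤ 1` (it is `≥ 3/4 n^2`, `≥ 3/4 m^2`);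
for each pair `(a, b)` only few `j` (`|bcoord a - bcoord b - 4 j| ≤ 1`) and then few `i` remain: `a = b`, `i = j = 0` (the element is `1 = pel 0 0`), or one of the
24 cases `tri_a_e` of `Words.lean` (applied with `rel_E`; `pel i j = ex ^ i * el ^ j`, `ga = gW ex ey`, `el = lamW ex ey` by `rfl`/`unfold`). -/
theorem table (a b : Fin 4) (i j : ℤ)
    (h : Complex.normSq ((rho 0 ((ga a)⁻¹ * pel i j * ga b)) 1 0) < 2.1) :
    Adj ⊥ ((ga a)⁻¹ * pel i j * ga b) := by
  rw [normSq_entry] at h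
  have hN : ((i + 2 * j) ^ 2 + (i + 2 * j) * (bcoord a - bcoord b - 4 * j) +
      (bcoord a - bcoord b - 4 * j) ^ 2 : ℤ) ≤ 2 := by
    by_contra hcon
    have h3 : (3 : ℤ) ≤ ((i + 2 * j) ^ 2 + (i + 2 * j) * (bcoord a - bcoord b - 4 * j) +
      (bcoord a - bcoord b - 4 * j) ^ 2 : ℤ) := by omega
    have h4 : (3 : ℝ) ≤ (((i + 2 * j) ^ 2 + (i + 2 * j) * (bcoord a - bcoord b - 4 * j) +
      (bcoord a - bcoord b - 4 * j) ^ 2 : ℤ) : ℝ) := by exact_mod_cast h3
    linarith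
  clear h
  obtain ⟨M, hM⟩ : ∃ M : ℤ, M = i + 2 * j := ⟨_, rfl⟩
  obtain ⟨n, hn⟩ : ∃ n : ℤ, n = bcoord a - bcoord b - 4 * j := ⟨_, rfl⟩
  rw [← hM, ← hn] at hN
  have hn1 : n ≤ 1 := by nlinarith [sq_nonneg (2 * M + n)]
  have hn2 : -1 ≤ n := by nlinarith [sq_nonneg (2 * M + n)]
  have hM1 : M ≤ 1 := by nlinarith [sq_nonneg (2 * n + M)]
  have hM2 : -1 ≤ M := by nlinarith [sq_nonneg (2 * n + M)]
  have hi : i = M - 2 * j := by omega
  subst hi
  clear hM
  fin_cases a <;> fin_cases b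
  · have hb : bcoord 0 - bcoord 0 = 0 := by decide
    have hn' : n = 0 - 4 * j := hn
    have hj : j = 0 := by omega
    subst hj
    have hnv : n = 0 := by omega
    subst hnv
    interval_cases M
    · refine ⟨1, Subgroup.one_mem _, Or.inr ⟨1, 0, 0, -1, -1, ?_⟩⟩
      rw [mul_one]
      exact tri_0_3 rel_E
    · refine ⟨1, Subgroup.one_mem _, Or.inl ⟨0, 0, ?_⟩⟩
      show (ga 0)⁻¹ * pel 0 0 * ga 0 * 1 = pel 0 0
      rw [pel_zero]
      group
    · refine ⟨1, Subgroup.one_mem _, Or.inr ⟨3, 0, 1, 1, 0, ?_⟩⟩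
      rw [mul_one]
      exact tri_0_0 rel_E
  · have hb : bcoord 0 - bcoord 1 = -1 := by decide
    have hn' : n = -1 - 4 * j := hn
    have hj : j = 0 := by omega
    subst hj
    have hnv : n = -1 := by omega
    subst hnv
    interval_cases M
    · omega
    · refine ⟨1, Subgroup.one_mem _, Or.inr ⟨1, 1, 0, -1, 0, ?_⟩⟩
      rw [mul_one]
      exact tri_0_1 rel_E
    · refine ⟨1, Subgroup.one_mem _, Or.inr ⟨2, 2, 0, 1, 0, ?_⟩⟩
      rw [mul_one]
      exact tri_0_5 rel_E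
  · have hb : bcoord 0 - bcoord 2 = -2 := by decide
    have hn' : n = -2 - 4 * j := hn
    omega
  · have hb : bcoord 0 - bcoord 3 = 1 := by decide
    have hn' : n = 1 - 4 * j := hn
    have hj : j = 0 := by omega
    subst hj
    have hnv : n = 1 := by omega
    subst hnv
    interval_cases M
    · refine ⟨1, Subgroup.one_mem _, Or.inr ⟨2, 0, 0, 1, 0, ?_⟩⟩
      rw [mul_one]
      exact tri_0_2 rel_E
    · refine ⟨1, Subgroup.one_mem _, Or.inr ⟨3, -1, 1, 1, 0, ?_⟩⟩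
      rw [mul_one]
      exact tri_0_4 rel_E
    · omega
  · have hb : bcoord 1 - bcoord 0 = 1 := by decide
    have hn' : n = 1 - 4 * j := hn
    have hj : j = 0 := by omega
    subst hj
    have hnv : n = 1 := by omega
    subst hnv
    interval_cases M
    · refine ⟨1, Subgroup.one_mem _, Or.inr ⟨0, 0, 0, -1, 0, ?_⟩⟩
      rw [mul_one]
      exact tri_1_2 rel_E
    · refine ⟨1, Subgroup.one_mem _, Or.inr ⟨3, 0, 0, 0, 0, ?_⟩⟩
      rw [mul_one]
      exact tri_1_4 rel_E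
    · omega
  · have hb : bcoord 1 - bcoord 1 = 0 := by decide
    have hn' : n = 0 - 4 * j := hn
    have hj : j = 0 := by omega
    subst hj
    have hnv : n = 0 := by omega
    subst hnv
    interval_cases M
    · refine ⟨1, Subgroup.one_mem _, Or.inr ⟨0, -1, 0, 0, 1, ?_⟩⟩
      rw [mul_one]
      exact tri_1_3 rel_E
    · refine ⟨1, Subgroup.one_mem _, Or.inl ⟨0, 0, ?_⟩⟩
      show (ga 1)⁻¹ * pel 0 0 * ga 1 * 1 = pel 0 0
      rw [pel_zero]
      group
    · refine ⟨1, Subgroup.one_mem _, Or.inr ⟨2, 1, -1, 2, 0, ?_⟩⟩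
      rw [mul_one]
      exact tri_1_0 rel_E
  · have hb : bcoord 1 - bcoord 2 = -1 := by decide
    have hn' : n = -1 - 4 * j := hn
    have hj : j = 0 := by omega
    subst hj
    have hnv : n = -1 := by omega
    subst hnv
    interval_cases M
    · omega
    · refine ⟨1, Subgroup.one_mem _, Or.inr ⟨3, -2, 0, 0, 0, ?_⟩⟩
      rw [mul_one]
      exact tri_1_1 rel_E
    · refine ⟨1, Subgroup.one_mem _, Or.inr ⟨2, 0, -1, 1, 0, ?_⟩⟩
      rw [mul_one]
      exact tri_1_5 rel_E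
  · have hb : bcoord 1 - bcoord 3 = 2 := by decide
    have hn' : n = 2 - 4 * j := hn
    omega
  · have hb : bcoord 2 - bcoord 0 = 2 := by decide
    have hn' : n = 2 - 4 * j := hn
    omega
  · have hb : bcoord 2 - bcoord 1 = 1 := by decide
    have hn' : n = 1 - 4 * j := hn
    have hj : j = 0 := by omega
    subst hj
    have hnv : n = 1 := by omega
    subst hnv
    interval_cases M
    · refine ⟨1, Subgroup.one_mem _, Or.inr ⟨0, 0, 0, 1, 1, ?_⟩⟩
      rw [mul_one]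
      exact tri_2_2 rel_E
    · refine ⟨1, Subgroup.one_mem _, Or.inr ⟨1, 1, 0, 1, 0, ?_⟩⟩
      rw [mul_one]
      exact tri_2_4 rel_E
    · omega
  · have hb : bcoord 2 - bcoord 2 = 0 := by decide
    have hn' : n = 0 - 4 * j := hn
    have hj : j = 0 := by omega
    subst hj
    have hnv : n = 0 := by omega
    subst hnv
    interval_cases M
    · refine ⟨1, Subgroup.one_mem _, Or.inr ⟨3, 0, 0, -1, 0, ?_⟩⟩
      rw [mul_one]
      exact tri_2_3 rel_E
    · refine ⟨1, Subgroup.one_mem _, Or.inl ⟨0, 0, ?_⟩⟩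
      show (ga 2)⁻¹ * pel 0 0 * ga 2 * 1 = pel 0 0
      rw [pel_zero]
      group
    · refine ⟨1, Subgroup.one_mem _, Or.inr ⟨1, 2, 0, -1, 0, ?_⟩⟩
      rw [mul_one]
      exact tri_2_0 rel_E
  · have hb : bcoord 2 - bcoord 3 = 3 := by decide
    have hn' : n = 3 - 4 * j := hn
    have hj : j = 1 := by omega
    subst hj
    have hnv : n = -1 := by omega
    subst hnv
    interval_cases M
    · omega
    · refine ⟨1, Subgroup.one_mem _, Or.inr ⟨3, 1, 0, -1, 0, ?_⟩⟩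
      rw [mul_one]
      exact tri_2_1 rel_E
    · refine ⟨1, Subgroup.one_mem _, Or.inr ⟨0, 2, 0, -1, 0, ?_⟩⟩
      rw [mul_one]
      exact tri_2_5 rel_E
  · have hb : bcoord 3 - bcoord 0 = -1 := by decide
    have hn' : n = -1 - 4 * j := hn
    have hj : j = 0 := by omega
    subst hj
    have hnv : n = -1 := by omega
    subst hnv
    interval_cases M
    · omega
    · refine ⟨1, Subgroup.one_mem _, Or.inr ⟨1, 0, 0, 0, -1, ?_⟩⟩
      rw [mul_one]
      exact tri_3_1 rel_E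
    · refine ⟨1, Subgroup.one_mem _, Or.inr ⟨0, 0, 0, 1, 0, ?_⟩⟩
      rw [mul_one]
      exact tri_3_5 rel_E
  · have hb : bcoord 3 - bcoord 1 = -2 := by decide
    have hn' : n = -2 - 4 * j := hn
    omega
  · have hb : bcoord 3 - bcoord 2 = -3 := by decide
    have hn' : n = -3 - 4 * j := hn
    have hj : j = -1 := by omega
    subst hj
    have hnv : n = 1 := by omega
    subst hnv
    interval_cases M
    · refine ⟨1, Subgroup.one_mem _, Or.inr ⟨2, 2, 0, -1, 0, ?_⟩⟩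
      rw [mul_one]
      exact tri_3_2 rel_E
    · refine ⟨1, Subgroup.one_mem _, Or.inr ⟨1, 2, 0, -2, 0, ?_⟩⟩
      rw [mul_one]
      exact tri_3_4 rel_E
    · omega
  · have hb : bcoord 3 - bcoord 3 = 0 := by decide
    have hn' : n = 0 - 4 * j := hn
    have hj : j = 0 := by omega
    subst hj
    have hnv : n = 0 := by omega
    subst hnv
    interval_cases M
    · refine ⟨1, Subgroup.one_mem _, Or.inr ⟨2, 1, 0, 0, 0, ?_⟩⟩
      rw [mul_one]
      exact tri_3_3 rel_E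
    · refine ⟨1, Subgroup.one_mem _, Or.inl ⟨0, 0, ?_⟩⟩
      show (ga 3)⁻¹ * pel 0 0 * ga 3 * 1 = pel 0 0
      rw [pel_zero]
      group
    · refine ⟨1, Subgroup.one_mem _, Or.inr ⟨0, 1, 0, 0, 0, ?_⟩⟩
      rw [mul_one]
      exact tri_3_0 rel_E

end DHN
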