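import Pool.Agent.DHN.R4
import Pool.Agent.DHN.R3

/-!
# [DHN-T6a] nearest Eisenstein integer; all Eisenstein integers are neighbours of infinity
-/

set_option autoImplicit false

open Topology Matrix ComplexConjugate Filter

namespace DHN

theorem t6a_tri (a b : ℝ) (hb : 0 ≤ b) (hab : b ≤ a) (ha : a ≤ 1) :
    a ^ 2 - a * b + b ^ 2 ≤ 1 / 3 ∨ (a - 1) ^ 2 - (a - 1) * b + b ^ 2 ≤ 1 / 3 ∨
      (a - 1) ^ 2 - (a - 1) * (b - 1) + (b - 1) ^ 2 ≤ 1 / 3 := by
  by_contra h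
  push Not at h
  obtain ⟨h1, h2, h3⟩ := h
  have hs : (1 - a) * (a ^ 2 - a * b + b ^ 2 - 1 / 3) + (a - b) * ((a - 1) ^ 2 - (a - 1) * b + b ^ 2 - 1 / 3) +
      b * ((a - 1) ^ 2 - (a - 1) * (b - 1) + (b - 1) ^ 2 - 1 / 3) =
      -((a - 2 / 3) ^ 2 - (a - 2 / 3) * (b - 1 / 3) + (b - 1 / 3) ^ 2) := by ring
  have hq : 0 ≤ (a - 2 / 3) ^ 2 - (a - 2 / 3) * (b - 1 / 3) + (b - 1 / 3) ^ 2 := by
    nlinarith [sq_nonneg ((a - 2 / 3) - (b - 1 / 3) / 2), sq_nonneg (b - 1 / 3)]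
  have e1 : 0 ≤ (1 - a) * (a ^ 2 - a * b + b ^ 2 - 1 / 3) := mul_nonneg (by linarith) (by linarith)
  have e2 : 0 ≤ (a - b) * ((a - 1) ^ 2 - (a - 1) * b + b ^ 2 - 1 / 3) := mul_nonneg (by linarith) (by linarith)
  have e3 : 0 ≤ b * ((a - 1) ^ 2 - (a - 1) * (b - 1) + (b - 1) ^ 2 - 1 / 3) := mul_nonneg hb (by linarith)
  -- one of the three weights is positive
  rcases lt_or_ge a 1 with ha1 | ha1
  · have e1' : 0 < (1 - a) * (a ^ 2 - a * b + b ^ 2 - 1 / 3) := mul_pos (by linarith) (by linarith)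
    linarith
  · rcases lt_or_ge b a with hb1 | hb1
    · have e2' : 0 < (a - b) * ((a - 1) ^ 2 - (a - 1) * b + b ^ 2 - 1 / 3) := mul_pos (by linarith) (by linarith)
      linarith
    · have e3' : 0 < b * ((a - 1) ^ 2 - (a - 1) * (b - 1) + (b - 1) ^ 2 - 1 / 3) := mul_pos (by linarith) (by linarith)
      linarith

theorem t6a_sq (a b : ℝ) : ∃ m n : ℤ, (a - m) ^ 2 - (a - m) * (b - n) + (b - n) ^ 2 ≤ 1 / 3 := by
  have ha0 := Int.fract_nonneg a
  have hb0 := Int.fract_nonneg b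
  have ha1 := (Int.fract_lt_one a).le
  have hb1 := (Int.fract_lt_one b).le
  have ea : a = ⌊a⌋ + Int.fract a := (Int.floor_add_fract a).symm
  have eb : b = ⌊b⌋ + Int.fract b := (Int.floor_add_fract b).symm
  generalize hx : Int.fract a = x at *
  generalize hy : Int.fract b = y at *
  rcases le_total y x with h | h
  · rcases t6a_tri x y hb0 h ha1 with h1 | h1 | h1
    · refine ⟨⌊a⌋, ⌊b⌋, ?_⟩
      have e1 : a - ⌊a⌋ = x := by linarith
      have e2 : b - ⌊b⌋ = y := by linarith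
      rw [e1, e2]
      exact h1
    · refine ⟨⌊a⌋ + 1, ⌊b⌋, ?_⟩
      have e1 : a - ((⌊a⌋ + 1 : ℤ) : ℝ) = x - 1 := by push_cast; linarith
      have e2 : b - ⌊b⌋ = y := by linarith
      rw [e1, e2]
      exact h1
    · refine ⟨⌊a⌋ + 1, ⌊b⌋ + 1, ?_⟩
      have e1 : a - ((⌊a⌋ + 1 : ℤ) : ℝ) = x - 1 := by push_cast; linarith
      have e2 : b - ((⌊b⌋ + 1 : ℤ) : ℝ) = y - 1 := by push_cast; linarith
      rw [e1, e2]
      exact h1
  · rcases t6a_tri y x ha0 h hb1 with h1 | h1 | h1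
    · refine ⟨⌊a⌋, ⌊b⌋, ?_⟩
      have e1 : a - ⌊a⌋ = x := by linarith
      have e2 : b - ⌊b⌋ = y := by linarith
      rw [e1, e2]
      linarith
    · refine ⟨⌊a⌋, ⌊b⌋ + 1, ?_⟩
      have e1 : a - ⌊a⌋ = x := by linarith
      have e2 : b - ((⌊b⌋ + 1 : ℤ) : ℝ) = y - 1 := by push_cast; linarith
      rw [e1, e2]
      linarith
    · refine ⟨⌊a⌋ + 1, ⌊b⌋ + 1, ?_⟩
      have e1 : a - ((⌊a⌋ + 1 : ℤ) : ℝ) = x - 1 := by push_cast; linarith
      have e2 : b - ((⌊b⌋ + 1 : ℤ) : ℝ) = y - 1 := by push_cast; linarith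
      rw [e1, e2]
      linarith

theorem t6a_om_sq : om ^ 2 = -om - 1 := by
  have h3 : ((Real.sqrt 3 : ℝ) : ℂ) ^ 2 = 3 := by
    rw [← Complex.ofReal_pow, Real.sq_sqrt (by norm_num)]
    norm_num
  unfold om
  linear_combination (Complex.I ^ 2 / 4) * h3 + (3 / 4 : ℂ) * Complex.I_sq

theorem t6a_normSq (a b : ℝ) : Complex.normSq ((a : ℂ) + b * om) = a ^ 2 - a * b + b ^ 2 := by
  have h3 : Real.sqrt 3 ^ 2 = 3 := Real.sq_sqrt (by norm_num)
  have hre : om.re = -1 / 2 := by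
    unfold om
    simp
  have him : om.im = Real.sqrt 3 / 2 := by
    unfold om
    simp
  rw [Complex.normSq_apply]
  simp only [Complex.add_re, Complex.add_im, Complex.mul_re, Complex.mul_im, Complex.ofReal_re, Complex.ofReal_im,
    hre, him, zero_mul, sub_zero, zero_add, add_zero]
  linear_combination (b ^ 2 / 4) * h3

/-- PROOF: `n = round (Im z / (√3/2))`, `m = round (Re z + n/2)`; or: choose `n` with `|Im z - n √3/2| ≤ √3/4`; there is a lattice point within `1/√3`.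
(Careful argument: the fundamental rhombus with vertices `0, 1, 1 + om, om` splits in two equilateral triangles of side 1, each point of such a triangle is within `1/√3`
of one of its vertices. Algebraically: write `z = m + n om + (α + β om)`, `0 ≤ α, β < 1`, and compare with the four corners.) -/
theorem nearest_om (z : ℂ) : ∃ m n : ℤ, Complex.normSq (z - ((m : ℂ) + n * om)) ≤ 1 / 3 := by
  have h30 : (0 : ℝ) < Real.sqrt 3 := Real.sqrt_pos.2 (by norm_num)
  have hz : z = ((z.re + z.im / Real.sqrt 3 : ℝ) : ℂ) + ((2 * z.im / Real.sqrt 3 : ℝ) : ℂ) * om := by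
    apply Complex.ext
    · unfold om
      simp
      field_simp
      ring
    · unfold om
      simp
      field_simp
  obtain ⟨m, n, h⟩ := t6a_sq (z.re + z.im / Real.sqrt 3) (2 * z.im / Real.sqrt 3)
  refine ⟨m, n, ?_⟩
  generalize z.re + z.im / Real.sqrt 3 = a at hz h
  generalize 2 * z.im / Real.sqrt 3 = b at hz h
  have e1 : z - ((m : ℂ) + n * om) = ((a - m : ℝ) : ℂ) + ((b - n : ℝ) : ℂ) * om := by
    rw [hz]
    push_cast
    ring
  rw [e1, t6a_normSq]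
  exact h

/-- Every Eisenstein integer is a neighbour of infinity. PROOF: `a` with `bcoord`-value `0, 1, 2, -1` congruent to `n` modulo 4 (`a = 0, 1, 2, 3`), `n = b + 4 j`,
`i = m - 2 j`; `rho0_ga*`, `rho0_pel` (`T = i + 2 j √3 I = (i+2j) + 4 j om`), `ε = ± c_a`, `|c_a| = 1`. -/
theorem all_neighbours (m n : ℤ) : ∃ (i j : ℤ) (a : Fin 4) (ε : ℂ), Complex.normSq ε = 1 ∧
    (rho 0 (pel i j * ga a)).1.mulVec e1 = ε • ![(m : ℂ) + n * om, 1] := by
  have hT : ∀ i j : ℤ, (i : ℂ) + 2 * j * (Complex.I * (Real.sqrt 3 : ℂ)) = (i : ℂ) + 2 * j + 4 * j * om := by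
    intro i j
    unfold om
    ring
  have hN : ∀ j : ℤ, Complex.normSq ((-1 : ℂ) ^ j) = 1 := by
    intro j
    rw [map_zpow₀, Complex.normSq_neg, Complex.normSq_one, _root_.one_zpow]
  have hom := t6a_om_sq
  have key : ∀ (i j : ℤ) (a : Fin 4) (x y : ℂ), (rho 0 (ga a)).1.mulVec e1 = ![x, y] →
      (rho 0 (pel i j * ga a)).1.mulVec e1 =
        (-1 : ℂ) ^ j • ![x + ((i : ℂ) + 2 * j + 4 * j * om) * y, y] := by
    intro i j a x y h
    rw [map_mul, Matrix.SpecialLinearGroup.coe_mul, ← Matrix.mulVec_mulVec, h, rho0_pel, hT]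
    ext s
    fin_cases s
    · simp [Matrix.mulVec, dotProduct, Fin.sum_univ_two]
      ring
    · simp [Matrix.mulVec, dotProduct, Fin.sum_univ_two]
  have k0 : (rho 0 (ga 0)).1.mulVec e1 = ![0, 1 + om] := by
    rw [rho0_ga0]
    unfold e1
    ext s
    fin_cases s <;> simp [Matrix.mulVec, dotProduct, Fin.sum_univ_two]
  have k1 : (rho 0 (ga 1)).1.mulVec e1 = ![1 + om, -om] := by
    rw [rho0_ga1]
    unfold e1
    ext s
    fin_cases s <;> simp [Matrix.mulVec, dotProduct, Fin.sum_univ_two]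
  have k2 : (rho 0 (ga 2)).1.mulVec e1 = ![2, -1 - om] := by
    rw [rho0_ga2]
    unfold e1
    ext s
    fin_cases s <;> simp [Matrix.mulVec, dotProduct, Fin.sum_univ_two]
  have k3 : (rho 0 (ga 3)).1.mulVec e1 = ![1 + om, om] := by
    rw [rho0_ga3]
    unfold e1
    ext s
    fin_cases s <;> simp [Matrix.mulVec, dotProduct, Fin.sum_univ_two]
  have n1 : Complex.normSq om = 1 := by
    have := t6a_normSq 0 1
    simpa using this
  have n2 : Complex.normSq (1 + om) = 1 := by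
    have := t6a_normSq 1 1
    simpa using this
  have hn : n % 4 = 0 ∨ n % 4 = 1 ∨ n % 4 = 2 ∨ n % 4 = 3 := by omega
  rcases hn with h | h | h | h
  · obtain ⟨j, rfl⟩ : ∃ j : ℤ, n = 4 * j := ⟨n / 4, by omega⟩
    refine ⟨m - 2 * j, j, 0, (-1 : ℂ) ^ j * (1 + om), ?_, ?_⟩
    · rw [map_mul, hN, n2, one_mul]
    · rw [key _ _ _ _ _ k0]
      ext s
      fin_cases s
      · simp
        push_cast
        ring
      · simp
  · obtain ⟨j, rfl⟩ : ∃ j : ℤ, n = 1 + 4 * j := ⟨n / 4, by omega⟩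
    refine ⟨m - 2 * j, j, 1, (-1 : ℂ) ^ j * (-om), ?_, ?_⟩
    · rw [map_mul, hN, Complex.normSq_neg, n1, one_mul]
    · rw [key _ _ _ _ _ k1]
      ext s
      fin_cases s
      · simp
        push_cast
        linear_combination ((-1 : ℂ) ^ j) * hom
      · simp
  · obtain ⟨j, rfl⟩ : ∃ j : ℤ, n = 2 + 4 * j := ⟨n / 4, by omega⟩
    refine ⟨m - 2 * j, j, 2, (-1 : ℂ) ^ j * (-1 - om), ?_, ?_⟩
    · have e1 : (-1 - om : ℂ) = -(1 + om) := by ring
      rw [map_mul, hN, e1, Complex.normSq_neg, n2, one_mul]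
    · rw [key _ _ _ _ _ k2]
      ext s
      fin_cases s
      · simp
        push_cast
        linear_combination (2 * (-1 : ℂ) ^ j) * hom
      · simp
  · obtain ⟨j, rfl⟩ : ∃ j : ℤ, n = -1 + 4 * j := ⟨n / 4 + 1, by omega⟩
    refine ⟨m - 2 * j, j, 3, (-1 : ℂ) ^ j * om, ?_, ?_⟩
    · rw [map_mul, hN, n1, one_mul]
    · rw [key _ _ _ _ _ k3]
      ext s
      fin_cases s
      · simp
        push_cast
        linear_combination ((-1 : ℂ) ^ j) * hom
      · simp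

end DHN
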