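import Pool.Agent.DHN.T6a
import Pool.Agent.DHN.T2
import Pool.Agent.DHN.F3

/-!
# [DHN-T6b] the shell is covered by the neighbouring tubes
-/

set_option autoImplicit false

open Topology Matrix ComplexConjugate Filter

namespace DHN

theorem t6b_q (y : H3) (b : ℂ) (h1 : 0.7 ≤ y.1.2) (h2 : y.1.2 ≤ 0.8) (hb : Complex.normSq (y.1.1 - b) ≤ 1 / 3) :
    q y ![b, 1] ≤ 1.217 := by
  have hy := y.2
  unfold q
  simp only [Matrix.cons_val_zero, Matrix.cons_val_one, mul_one, Complex.normSq_one]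
  rw [div_le_iff₀ hy]
  have e1 : Complex.normSq (b - y.1.1) = Complex.normSq (y.1.1 - b) := by
    rw [← Complex.normSq_neg, neg_sub]
  rw [e1]
  nlinarith [mul_nonneg (sub_nonneg.2 h1) (sub_nonneg.2 h2)]

theorem t6b_FF (y : H3) (g : SL2C) (ε : ℂ) (b : ℂ) (h1 : 0.7 ≤ y.1.2) (h2 : y.1.2 ≤ 0.8)
    (hb : Complex.normSq (y.1.1 - b) ≤ 1 / 3) (hε : Complex.normSq ε = 1) (hg : g.1.mulVec e1 = ε • ![b, 1]) :
    FF 0 (g⁻¹ • y) < 1.5 := by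
  have hep : ep 0 = e1 := by
    unfold ep e1 aa
    simp
  have hq := t6b_q y b h1 h2 hb
  have hq0 := q_nonneg y ![b, 1]
  unfold FF
  rw [hep, q_inv_smul, hg, q_smul_vec, hε, one_mul]
  nlinarith

theorem t6b_bd (R : ℝ) (z : ℂ) (hz : ‖z‖ ≤ R) (m n : ℤ) (h : Complex.normSq (z - ((m : ℂ) + n * om)) ≤ 1 / 3) :
    (m : ℝ) ^ 2 ≤ (2 * (R + 1)) ^ 2 ∧ (n : ℝ) ^ 2 ≤ (2 * (R + 1)) ^ 2 := by
  have h1 : ‖z - ((m : ℂ) + n * om)‖ ≤ 1 := by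
    have e1 : ‖z - ((m : ℂ) + n * om)‖ ^ 2 ≤ 1 ^ 2 := by
      rw [← Complex.normSq_eq_norm_sq]
      linarith
    exact (sq_le_sq₀ (norm_nonneg _) zero_le_one).1 e1
  have h2 : ‖(m : ℂ) + n * om‖ ≤ R + 1 := by
    have e1 : (m : ℂ) + n * om = z - (z - ((m : ℂ) + n * om)) := by ring
    rw [e1]
    exact (norm_sub_le _ _).trans (add_le_add hz h1)
  have h3 : ‖(m : ℂ) + n * om‖ ^ 2 ≤ (R + 1) ^ 2 := by
    have := norm_nonneg ((m : ℂ) + n * om)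
    nlinarith
  rw [← Complex.normSq_eq_norm_sq, normSq_InO] at h3
  push_cast at h3
  constructor
  · nlinarith [sq_nonneg ((m : ℝ) / 2 - n), sq_nonneg (R + 1)]
  · nlinarith [sq_nonneg ((n : ℝ) / 2 - m), sq_nonneg (R + 1)]

/-- PROOF. By `nearest_om` each `y ∈ KK R 0.7 0.8` has `(m, n)` with `normSq (z - b) ≤ 1/3`, `b = m + n om`; then `|b| ≤ R + 1`, so `(m, n)` is in a finite set. For each `(m, n)` take
`(i, j, a)` of `all_neighbours`: `FF 0 ((rho 0 (pel i j * ga a))⁻¹ • y) = (q y ![b, 1])^2` (`q_inv_smul`, `ep 0 = e1`, `q_smul_vec`) and `q y ![b,1] = (|b - z|^2 + t^2)/t ≤ 1/(3t) + t ≤ 1.217`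
for `t ∈ [0.7, 0.8]` (`(1/3 + t^2) ≤ 1.217 t`: convex quadratic, check endpoints), square `≤ 1.4811 < 1.5`. Then `FF_uniform` for the finitely many `g = pel i j * ga a`, `K = KK R 0.7 0.8`, `ε = 0.05`. -/
theorem shell_cover (R : ℝ) : ∀ᶠ u in 𝓝 (0 : ℂ), ∀ y ∈ KK R 0.7 0.8,
    ∃ (i j : ℤ) (a : Fin 4), FF u ((rho u (pel i j * ga a))⁻¹ • y) < 1.6 := by
  choose I J A ε hε hA using all_neighbours
  obtain ⟨M, hM⟩ := exists_nat_gt (2 * (R + 1))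
  have hev : ∀ᶠ u in 𝓝 (0 : ℂ), ∀ p ∈ Finset.Icc (-(M : ℤ)) M ×ˢ Finset.Icc (-(M : ℤ)) M, ∀ y ∈ KK R 0.7 0.8,
      |FF u ((rho u (pel (I p.1 p.2) (J p.1 p.2) * ga (A p.1 p.2)))⁻¹ • y) -
        FF 0 ((rho 0 (pel (I p.1 p.2) (J p.1 p.2) * ga (A p.1 p.2)))⁻¹ • y)| < 0.05 := by
    rw [Filter.eventually_all_finset]
    intro p _
    exact FF_uniform _ _ (isCompact_KK R 0.7 0.8 (by norm_num)) 0.05 (by norm_num)
  filter_upwards [hev] with u hu y hy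
  obtain ⟨m, n, hmn⟩ := nearest_om y.1.1
  obtain ⟨hyR, hy1, hy2⟩ := hy
  have hR : 0 ≤ R := (norm_nonneg _).trans hyR
  obtain ⟨hm, hn⟩ := t6b_bd R y.1.1 hyR m n hmn
  have hM' : ∀ k : ℤ, (k : ℝ) ^ 2 ≤ (2 * (R + 1)) ^ 2 → k ∈ Finset.Icc (-(M : ℤ)) M := by
    intro k hk
    have h1 := abs_le_of_sq_le_sq' hk (by linarith)
    rw [Finset.mem_Icc]
    constructor
    · have h2 : (-(M : ℤ) : ℝ) ≤ (k : ℝ) := by
        push_cast
        linarith [h1.1]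
      exact_mod_cast h2
    · have h2 : (k : ℝ) ≤ (M : ℝ) := by linarith [h1.2]
      exact_mod_cast h2
  have h3 := hu (m, n) (Finset.mem_product.2 ⟨hM' m hm, hM' n hn⟩) y ⟨hyR, hy1, hy2⟩
  have h4 := t6b_FF y _ _ _ hy1 hy2 hmn (hε m n) (hA m n)
  refine ⟨I m n, J m n, A m n, ?_⟩
  have h5 := (abs_lt.1 h3).2
  simp only at h5
  linarith

end DHN
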