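import Pool.Agent.DHN.T3
import Pool.Agent.DHN.T4
import Pool.Agent.DHN.T5
import Pool.Agent.DHN.T8
import Pool.Agent.DHN.F3

/-!
# [DHN-T9] the triple condition (a)
-/

set_option autoImplicit false

open Topology Matrix ComplexConjugate Filter

namespace DHN

/-- Triple condition for two neighbours `ga a`, `pel i j * ga b` of the base tube. PROOF. Eventually `stepA` holds at `u = u n`, `rho (u n) k = 1` on `N n`, and with
`C = (1 + 6^2 + 1.7^2)/0.6` and `Q` of `h5`: `h5` and, for the finitely many `(a, b, p ∈ Q)`, `stepD ((ga a)⁻¹ * pel p.1 p.2 * ga b)` at `u n` (`Hyp.tend`).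
Let `y` be in the three tubes; `y ∈ KK 6 0.6 1.7` by `stepA`. `y' = (rho (pel i j))⁻¹ • y`: `FF y' = FF y < 2` (`FF_pel`), `FF ((rho (ga b))⁻¹ • y') < 2`, so `y' ∈ KK 6 0.6 1.7` by `stepA`. As
`rho (pel i j) • y' = y`, `entry_bound` bounds the entries of `rho (pel i j)` by `C`; `h5`: `pel i j = pel p * k`, `rho (pel i j) = rho (pel p)`. Put `g = (ga a)⁻¹ * pel p * ga b`,
`y'' = (rho (ga a))⁻¹ • y`: `FF y'' < 2`, `FF ((rho g)⁻¹ • y'') = FF ((rho (pel p * ga b))⁻¹ • y) < 2`: `stepD` and `table` give `Adj ⊥ g`. Finally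
`(ga a)⁻¹ * pel i j * ga b = (ga a)⁻¹ * pel p * k * ga b = g * ((ga b)⁻¹ k ga b)`: `Adj_mono`, `Adj_mul_mem`. -/
theorem triple_ga {ι : Type} (l : Filter ι) (u : ι → ℂ) (N : ι → Subgroup E) (H : Hyp l u N) :
    ∀ᶠ n in l, ∀ (a b : Fin 4) (i j : ℤ) (y : H3), FF (u n) y < 2 →
      FF (u n) ((rho (u n) (ga a))⁻¹ • y) < 2 → FF (u n) ((rho (u n) (pel i j * ga b))⁻¹ • y) < 2 →
      Adj (N n) ((ga a)⁻¹ * pel i j * ga b) := by
  classical
  obtain ⟨Q, hQ⟩ := H.h5 ((1 + 6 ^ 2 + 1.7 ^ 2) / 0.6)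
  have hD : ∀ᶠ n in l, ∀ a b : Fin 4, ∀ p ∈ Q,
      (∃ y : H3, FF (u n) y < 2 ∧ FF (u n) ((rho (u n) ((ga a)⁻¹ * pel p.1 p.2 * ga b))⁻¹ • y) < 2) →
        Complex.normSq ((rho 0 ((ga a)⁻¹ * pel p.1 p.2 * ga b)) 1 0) < 2.1 := by
    rw [Filter.eventually_all]
    intro a
    rw [Filter.eventually_all]
    intro b
    rw [Filter.eventually_all_finset]
    intro p _
    exact H.tend.eventually (stepD ((ga a)⁻¹ * pel p.1 p.2 * ga b))
  filter_upwards [hQ, hD, H.triv, H.tend.eventually stepA] with n hQn hDn htriv hA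
  intro a b i j y hy ha hb
  have hN := H.normal n
  have hyK : y ∈ KK 6 0.6 1.7 := hA a y hy ha
  -- the second point
  obtain ⟨y', hy'⟩ : ∃ y' : H3, y' = (rho (u n) (pel i j))⁻¹ • y := ⟨_, rfl⟩
  have hyy' : rho (u n) (pel i j) • y' = y := by rw [hy', smul_inv_smul]
  have hFy' : FF (u n) y' < 2 := by
    have h1 := FF_pel (u n) i j y'
    rw [hyy'] at h1
    rw [← h1]
    exact hy
  have hFb : FF (u n) ((rho (u n) (ga b))⁻¹ • y') < 2 := by
    have h1 : (rho (u n) (ga b))⁻¹ • y' = (rho (u n) (pel i j * ga b))⁻¹ • y := by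
      rw [hy', map_mul, _root_.mul_inv_rev, mul_smul]
    rw [h1]
    exact hb
  have hy'K : y' ∈ KK 6 0.6 1.7 := hA b y' hFy' hFb
  have hent := fun s t => entry_bound 6 0.6 1.7 (by norm_num) (rho (u n) (pel i j)) y' hy'K
    (by rw [hyy']; exact hyK) s t
  obtain ⟨p, hpQ, k, hk, hpk⟩ := hQn i j hent
  have hrp : rho (u n) (pel i j) = rho (u n) (pel p.1 p.2) := by
    rw [hpk, map_mul, htriv k hk, mul_one]
  have hadj0 : Adj ⊥ ((ga a)⁻¹ * pel p.1 p.2 * ga b) := by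
    apply table
    apply hDn a b p hpQ
    refine ⟨(rho (u n) (ga a))⁻¹ • y, ha, ?_⟩
    have h1 : (rho (u n) ((ga a)⁻¹ * pel p.1 p.2 * ga b))⁻¹ • (rho (u n) (ga a))⁻¹ • y =
        (rho (u n) (pel i j * ga b))⁻¹ • y := by
      rw [← mul_smul]
      congr 1
      rw [map_mul, map_mul, map_mul, map_inv, hrp]
      group
    rw [h1]
    exact hb
  have hadj1 : Adj (N n) ((ga a)⁻¹ * pel p.1 p.2 * ga b) := Adj_mono _ ⊥ (N n) bot_le hadj0
  have e : (ga a)⁻¹ * pel i j * ga b = (ga a)⁻¹ * pel p.1 p.2 * ga b * ((ga b)⁻¹ * k * ga b) := by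
    rw [hpk]
    group
  rw [e]
  apply Adj_mul_mem
  · have := hN.conj_mem k hk (ga b)⁻¹
    rwa [inv_inv] at this
  · exact hadj1

/-- The triple condition. PROOF. Unfold `Adj (N n) g`, `Adj (N n) h`. If `g k = pel`: `g⁻¹ h = k pel⁻¹ h`: `Adj_pel_mul`, `Adj_mem_mul`. If `h k' = pel`: `g⁻¹ h = g⁻¹ pel k'⁻¹`: `Adj_inv`, `Adj_mul_pel`,
`Adj_mul_mem`. Otherwise `g k = p1 (ga a) p1'`, `h k' = p2 (ga b) p2'` with `p*` of the form `pel`. Let `y1 = (rho p1)⁻¹ • y`; `FF y1 = FF y < 2`; `(rho g)⁻¹ • y = (rho (p1 ga p1'))⁻¹ y = (rho p1')⁻¹ (rho (ga a))⁻¹ y1`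
(`rho k = 1`), so `FF ((rho (ga a))⁻¹ y1) < 2` (`FF_pel`); likewise `FF ((rho (p1⁻¹ p2 ga b))⁻¹ y1) < 2`. By `triple_ga`: `Adj ((ga a)⁻¹ p1⁻¹ p2 (ga b))`; multiply by `p1'⁻¹` on the left, `p2'` on the right and by
elements of `N` (normal) on both sides. -/
theorem triple {ι : Type} (l : Filter ι) (u : ι → ℂ) (N : ι → Subgroup E) (H : Hyp l u N) :
    ∀ᶠ n in l, ∀ (g h : E) (y : H3), Adj (N n) g → Adj (N n) h → FF (u n) y < 2 →
      FF (u n) ((rho (u n) g)⁻¹ • y) < 2 → FF (u n) ((rho (u n) h)⁻¹ • y) < 2 →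
      Adj (N n) (g⁻¹ * h) := by
  filter_upwards [triple_ga l u N H, H.triv] with n htr htriv
  intro g h y hg hh hy hgy hhy
  have hN := H.normal n
  have hg0 := hg
  have hh0 := hh
  obtain ⟨k, hk, ⟨i, j, hgk⟩ | ⟨a, i, j, i', j', hgk⟩⟩ := hg
  · -- `g k = pel i j`
    have e : g⁻¹ * h = k * (pel (-i) (-j) * h) := by
      rw [← pel_inv, ← hgk]
      group
    rw [e]
    exact Adj_mem_mul _ hN _ _ hk (Adj_pel_mul _ _ _ _ hh0)
  · obtain ⟨k', hk', ⟨s, t, hhk⟩ | ⟨b, s, t, s', t', hhk⟩⟩ := hh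
    · -- `h k' = pel s t`
      have e : g⁻¹ * h = g⁻¹ * pel s t * k'⁻¹ := by
        rw [← hhk]
        group
      rw [e]
      exact Adj_mul_mem _ _ _ ((N n).inv_mem hk') (Adj_mul_pel _ hN _ _ _ (Adj_inv _ hN _ hg0))
    · -- the main case
      have hrg : rho (u n) g = rho (u n) (pel i j * ga a * pel i' j') := by
        rw [← hgk, map_mul, htriv k hk, mul_one]
      have hrh : rho (u n) h = rho (u n) (pel s t * ga b * pel s' t') := by
        rw [← hhk, map_mul, htriv k' hk', mul_one]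
      obtain ⟨y1, hy1⟩ : ∃ y1 : H3, y1 = (rho (u n) (pel i j))⁻¹ • y := ⟨_, rfl⟩
      have hyy1 : rho (u n) (pel i j) • y1 = y := by rw [hy1, smul_inv_smul]
      have hF1 : FF (u n) y1 < 2 := by
        have h1 := FF_pel (u n) i j y1
        rw [hyy1] at h1
        rw [← h1]
        exact hy
      have hFa : FF (u n) ((rho (u n) (ga a))⁻¹ • y1) < 2 := by
        have h1 : (rho (u n) (ga a))⁻¹ • y1 = rho (u n) (pel i' j') • (rho (u n) g)⁻¹ • y := by
          rw [hrg, hy1, map_mul, map_mul, ← mul_smul, ← mul_smul]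
          congr 1
          group
        rw [h1, FF_pel]
        exact hgy
      have hFb : FF (u n) ((rho (u n) (pel (-i + s) (-j + t) * ga b))⁻¹ • y1) < 2 := by
        have h1 : (rho (u n) (pel (-i + s) (-j + t) * ga b))⁻¹ • y1 =
            rho (u n) (pel s' t') • (rho (u n) h)⁻¹ • y := by
          rw [hrh, hy1, ← pel_mul, ← pel_inv, map_mul, map_mul, map_mul, map_mul, map_inv,
            ← mul_smul, ← mul_smul]
          congr 1
          group
        rw [h1, FF_pel]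
        exact hhy
      have hadj := htr a b (-i + s) (-j + t) y1 hF1 hFa hFb
      have e : g⁻¹ * h = k * (pel (-i') (-j') * ((ga a)⁻¹ * pel (-i + s) (-j + t) * ga b) *
          pel s' t') * k'⁻¹ := by
        have eg : g = pel i j * ga a * pel i' j' * k⁻¹ := by rw [← hgk]; group
        have eh : h = pel s t * ga b * pel s' t' * k'⁻¹ := by rw [← hhk]; group
        rw [eg, eh, ← pel_mul, ← pel_inv i j, ← pel_inv i' j']
        group
      rw [e]
      exact Adj_mul_mem _ _ _ ((N n).inv_mem hk') (Adj_mem_mul _ hN _ _ hk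
        (Adj_mul_pel _ hN _ _ _ (Adj_pel_mul _ _ _ _ hadj)))

end DHN
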