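import Pool.Agent.DHN.F1
import Pool.Agent.DHN.RD

/-!
# [DHN] Theorem T: definitions
-/

set_option autoImplicit false

open Topology Matrix ComplexConjugate Filter

namespace DHN

/-- The tube function: `cosh^2` of the distance to the axis of the peripheral group (suitably normalised); for `u = 0` it is `1/t^2`. -/
noncomputable def FF (u : ℂ) (y : H3) : ℝ := q y e1 * q y (ep u)

/-- The hypotheses of Theorem T: a family of parameters `u n → 0` and normal subgroups `N n` in the kernel of `rho (u n)` such that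
peripheral elements with bounded matrices are bounded modulo `N n` (h5), and the shell `1.6 ≤ FF < 2` can be moved by peripheral elements
to a fixed compact set (h6). -/
structure Hyp {ι : Type} (l : Filter ι) (u : ι → ℂ) (N : ι → Subgroup E) : Prop where
  tend : Tendsto u l (𝓝 0)
  normal : ∀ n, (N n).Normal
  triv : ∀ᶠ n in l, ∀ k ∈ N n, rho (u n) k = 1
  h5 : ∀ C : ℝ, ∃ Q : Finset (ℤ × ℤ), ∀ᶠ n in l, ∀ i j : ℤ,
    (∀ s t, ‖(rho (u n) (pel i j)) s t‖ ≤ C) → ∃ p ∈ Q, ∃ k ∈ N n, pel i j = pel p.1 p.2 * k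
  h6 : ∃ R : ℝ, ∀ᶠ n in l, ∀ y : H3, 1.6 ≤ FF (u n) y → FF (u n) y < 2 →
    ∃ i j : ℤ, rho (u n) (pel i j) • y ∈ KK R 0.7 0.8

/-- The conclusions of Theorem T. -/
structure Good (u : ℂ) (N : Subgroup E) : Prop where
  cover : ∀ y : H3, ∃ g : E, FF u (rho u g • y) < 2
  adj : ∀ (g : E) (y : H3), FF u y < 2 → FF u (rho u g • y) < 2 → Adj N g
  fixed : ∀ (g : E) (y : H3), rho u g • y = y → ∃ (h k : E) (i j : ℤ), k ∈ N ∧
    g = h * pel i j * h⁻¹ * k ∧ ∃ y' : H3, rho u (pel i j) • y' = y'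
  det : ∀ a : Fin 4, 0.9 < Complex.normSq (det2 e1 ((rho u (ga a)).1.mulVec e1)) *
    Complex.normSq (det2 (ep u) ((rho u (ga a)).1.mulVec (ep u)))

end DHN
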