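import Pool.Agent.DHN.F3
import Pool.Agent.DHN.F4

/-!
# [DHN-V0] discreteness and finiteness
-/

set_option autoImplicit false

open Topology Matrix ComplexConjugate Filter MeasureTheory

namespace DHN

theorem v0_isCompact (C : ℝ) : IsCompact {g : SL2C | ∀ i j, ‖g i j‖ ≤ C} := by
  have hemb : Topology.IsClosedEmbedding (fun g : SL2C => (g : Matrix (Fin 2) (Fin 2) ℂ)) := by
    have hc : IsClosed {A : Matrix (Fin 2) (Fin 2) ℂ | A.det = 1} :=
      isClosed_eq (by fun_prop) continuous_const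
    exact hc.isClosedEmbedding_subtypeVal
  have hK : IsCompact {A : Matrix (Fin 2) (Fin 2) ℂ | ∀ i j, ‖A i j‖ ≤ C} := by
    have h1 : IsCompact (Set.pi Set.univ (fun _ : Fin 2 => Set.pi Set.univ
        (fun _ : Fin 2 => Metric.closedBall (0 : ℂ) C))) :=
      isCompact_univ_pi (fun i => isCompact_univ_pi (fun j => isCompact_closedBall 0 C))
    have h2 : {A : Matrix (Fin 2) (Fin 2) ℂ | ∀ i j, ‖A i j‖ ≤ C} =
        (Set.pi Set.univ (fun _ : Fin 2 => Set.pi Set.univ
        (fun _ : Fin 2 => Metric.closedBall (0 : ℂ) C))) := by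
      ext A
      constructor
      · intro h i _ j _
        rw [mem_closedBall_zero_iff]
        exact h i j
      · intro h i j
        have := h i (Set.mem_univ _) j (Set.mem_univ _)
        rwa [mem_closedBall_zero_iff] at this
    rw [h2]
    exact h1
  exact hemb.isCompact_preimage hK

/-- PROOF. `{g : SL2C | ∀ i j, ‖g i j‖ ≤ C}` is compact (closed embedding in matrices); a discrete subgroup of a Hausdorff group is closed (`Subgroup.isClosed_of_discrete`), and the intersection of a compact set with a closed discrete set is finite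
(`IsCompact.finite`). -/
theorem finite_bounded (Γ : Subgroup SL2C) (hd : DiscreteTopology Γ) (C : ℝ) :
    {g : SL2C | g ∈ Γ ∧ ∀ i j, ‖g i j‖ ≤ C}.Finite := by
  have hd' : IsDiscrete (Γ : Set SL2C) := isDiscrete_iff_discreteTopology.mpr hd
  have h1 := Γ.tendsto_coe_cofinite_of_discrete hd'
  have h2 : ({g : SL2C | ∀ i j, ‖g i j‖ ≤ C})ᶜ ∈ cocompact SL2C :=
    (v0_isCompact C).compl_mem_cocompact
  have h3 := h1 h2
  rw [Filter.mem_map, Filter.mem_cofinite] at h3
  have h4 := h3.image (Subtype.val : Γ → SL2C)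
  refine h4.subset ?_
  rintro g ⟨hg, hg2⟩
  refine ⟨⟨g, hg⟩, ?_, rfl⟩
  intro h
  exact h hg2

/-- PROOF. By `q_lower` for the box `{y}`: `‖g⁻¹ w‖^2 ≤ C_y q y (g⁻¹ w) = C_y q (g • y) w`, so the entries of `g⁻¹`, hence of `g` (adjugate), are bounded; `finite_bounded`. -/
theorem finite_orbit (Γ : Subgroup SL2C) (hd : DiscreteTopology Γ) (y : H3) (r : ℝ) :
    {g : Γ | q (g • y) ![1, 0] + q (g • y) ![0, 1] ≤ r}.Finite := by
  have hy := y.2
  set c : ℝ := (1 + ‖y.1.1‖ ^ 2 + y.1.2 ^ 2) / y.1.2 with hc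
  have hcpos : 0 < c := by positivity
  have hmem : y ∈ KK ‖y.1.1‖ y.1.2 y.1.2 := ⟨le_rfl, le_rfl, le_rfl⟩
  have hfin := finite_bounded Γ hd (Real.sqrt (c * r))
  refine (hfin.preimage (f := (Subtype.val : Γ → SL2C)) Subtype.val_injective.injOn).subset ?_
  intro g hg
  refine ⟨g.2, ?_⟩
  have e1 := q_smul_inv g.1 y ![1, 0]
  have e2 := q_smul_inv g.1 y ![0, 1]
  have hg' : q (g.1 • y) ![1, 0] + q (g.1 • y) ![0, 1] ≤ r := hg
  have n1 := q_nonneg (g.1 • y) ![1, 0]
  have n2 := q_nonneg (g.1 • y) ![0, 1]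
  have l1 := q_lower ‖y.1.1‖ y.1.2 y.1.2 hy y hmem (g.1⁻¹.1.mulVec ![1, 0])
  have l2 := q_lower ‖y.1.1‖ y.1.2 y.1.2 hy y hmem (g.1⁻¹.1.mulVec ![0, 1])
  rw [← e1, ← hc] at l1
  rw [← e2, ← hc] at l2
  have a1 : Complex.normSq ((g.1⁻¹.1.mulVec ![1, 0]) 0) = Complex.normSq (g.1 1 1) := by
    simp [Matrix.SpecialLinearGroup.coe_inv, Matrix.adjugate_fin_two, Matrix.mulVec, dotProduct]
  have a2 : Complex.normSq ((g.1⁻¹.1.mulVec ![1, 0]) 1) = Complex.normSq (g.1 1 0) := by
    simp [Matrix.SpecialLinearGroup.coe_inv, Matrix.adjugate_fin_two, Matrix.mulVec, dotProduct]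
  have a3 : Complex.normSq ((g.1⁻¹.1.mulVec ![0, 1]) 0) = Complex.normSq (g.1 0 1) := by
    simp [Matrix.SpecialLinearGroup.coe_inv, Matrix.adjugate_fin_two, Matrix.mulVec, dotProduct]
  have a4 : Complex.normSq ((g.1⁻¹.1.mulVec ![0, 1]) 1) = Complex.normSq (g.1 0 0) := by
    simp [Matrix.SpecialLinearGroup.coe_inv, Matrix.adjugate_fin_two, Matrix.mulVec, dotProduct]
  rw [a1, a2] at l1
  rw [a3, a4] at l2
  have s11 := Complex.normSq_nonneg (g.1 1 1)
  have s10 := Complex.normSq_nonneg (g.1 1 0)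
  have s01 := Complex.normSq_nonneg (g.1 0 1)
  have s00 := Complex.normSq_nonneg (g.1 0 0)
  have u1 : c * q (g.1 • y) ![1, 0] ≤ c * r := by gcongr; linarith
  have u2 : c * q (g.1 • y) ![0, 1] ≤ c * r := by gcongr; linarith
  have fin : ∀ z : ℂ, Complex.normSq z ≤ c * r → ‖z‖ ≤ Real.sqrt (c * r) := by
    intro z hz
    apply Real.le_sqrt_of_sq_le
    rwa [← Complex.normSq_eq_norm_sq]
  have b00 : Complex.normSq (g.1 0 0) ≤ c * r := by linarith
  have b01 : Complex.normSq (g.1 0 1) ≤ c * r := by linarith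
  have b10 : Complex.normSq (g.1 1 0) ≤ c * r := by linarith
  have b11 : Complex.normSq (g.1 1 1) ≤ c * r := by linarith
  intro i j
  fin_cases i <;> fin_cases j
  · exact fin _ b00
  · exact fin _ b01
  · exact fin _ b10
  · exact fin _ b11

/-- PROOF. If the entries of every `g ∈ Γ` with `‖g - 1‖ < ε` force `g = 1`, then `{1}` is open in `Γ`: `discreteTopology_of_isOpen_singleton_one`. The entry maps are continuous. -/
theorem discrete_of_isolated (Γ : Subgroup SL2C) (ε : ℝ) (hε : 0 < ε)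
    (h : ∀ g ∈ Γ, (∀ i j, ‖g i j - (1 : SL2C) i j‖ < ε) → g = 1) : DiscreteTopology Γ := by
  apply discreteTopology_of_isOpen_singleton_one
  have h1 : ({1} : Set Γ) = ⋂ i : Fin 2, ⋂ j : Fin 2,
      {g : Γ | ‖(g : SL2C) i j - (1 : SL2C) i j‖ < ε} := by
    ext g
    rw [Set.mem_iInter]
    constructor
    · intro hg i
      rw [Set.mem_iInter]
      intro j
      rw [Set.mem_singleton_iff] at hg
      rw [hg]
      show ‖((1 : Γ) : SL2C) i j - (1 : SL2C) i j‖ < ε
      rw [OneMemClass.coe_one, sub_self, norm_zero]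
      exact hε
    · intro hg
      rw [Set.mem_singleton_iff]
      apply Subtype.ext
      refine h g.1 g.2 ?_
      intro i j
      have := hg i
      rw [Set.mem_iInter] at this
      exact this j
  rw [h1]
  refine isOpen_iInter_of_finite (fun i => isOpen_iInter_of_finite (fun j => ?_))
  have hcont : Continuous (fun g : Γ => (g : SL2C) i j) := by
    have hc1 : Continuous (fun g : SL2C => (g : Matrix (Fin 2) (Fin 2) ℂ)) :=
      continuous_subtype_val
    have hc2 : Continuous (fun g : Γ => ((g : SL2C) : Matrix (Fin 2) (Fin 2) ℂ)) :=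
      hc1.comp continuous_subtype_val
    exact hc2.matrix_elem i j
  exact isOpen_lt (hcont.sub continuous_const).norm continuous_const

end DHN
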