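import Pool.Agent.DHN.V0

/-!
# [DHN-V1] existence of an exact measurable fundamental domain
-/

set_option autoImplicit false

open Topology Matrix ComplexConjugate Filter MeasureTheory

namespace DHN

theorem v1_countable (Γ : Subgroup SL2C) (hd : DiscreteTopology Γ) : Countable Γ := by
  have h1 : (Γ : Set SL2C) ⊆ ⋃ C : ℕ, {g : SL2C | g ∈ Γ ∧ ∀ i j, ‖g i j‖ ≤ (C : ℝ)} := by
    intro g hg
    rw [Set.mem_iUnion]
    obtain ⟨C, hC⟩ := exists_nat_ge (‖g 0 0‖ + ‖g 0 1‖ + ‖g 1 0‖ + ‖g 1 1‖)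
    have n00 := norm_nonneg (g 0 0)
    have n01 := norm_nonneg (g 0 1)
    have n10 := norm_nonneg (g 1 0)
    have n11 := norm_nonneg (g 1 1)
    have b00 : ‖g 0 0‖ ≤ (C : ℝ) := by linarith
    have b01 : ‖g 0 1‖ ≤ (C : ℝ) := by linarith
    have b10 : ‖g 1 0‖ ≤ (C : ℝ) := by linarith
    have b11 : ‖g 1 1‖ ≤ (C : ℝ) := by linarith
    refine ⟨C, hg, ?_⟩
    intro i j
    fin_cases i <;> fin_cases j
    · exact b00
    · exact b01
    · exact b10
    · exact b11
  have h2 : (⋃ C : ℕ, {g : SL2C | g ∈ Γ ∧ ∀ i j, ‖g i j‖ ≤ (C : ℝ)}).Countable :=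
    Set.countable_iUnion (fun C => (finite_bounded Γ hd C).countable)
  exact (h2.mono h1).to_subtype

/-- the main height function -/
noncomputable def v1h (y : H3) : ℝ := q y ![1, 0] + q y ![0, 1]

/-- the injective lexicographic key -/
noncomputable def v1k (y : H3) : ℝ ×ₗ (ℝ ×ₗ (ℝ ×ₗ ℝ)) :=
  toLex (v1h y, toLex (y.1.1.re, toLex (y.1.1.im, y.1.2)))

theorem v1k_inj {y y' : H3} (h : v1k y = v1k y') : y = y' := by
  unfold v1k at h
  have h1 := toLex.injective h
  have h2 := toLex.injective (Prod.ext_iff.1 h1).2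
  have h3 := toLex.injective (Prod.ext_iff.1 h2).2
  have hre : y.1.1.re = y'.1.1.re := (Prod.ext_iff.1 h2).1
  have him : y.1.1.im = y'.1.1.im := (Prod.ext_iff.1 h3).1
  have ht : y.1.2 = y'.1.2 := (Prod.ext_iff.1 h3).2
  exact Subtype.ext (Prod.ext (Complex.ext hre him) ht)

theorem v1k_le (y y' : H3) : v1k y ≤ v1k y' ↔ v1h y < v1h y' ∨ v1h y = v1h y' ∧
    (y.1.1.re < y'.1.1.re ∨ y.1.1.re = y'.1.1.re ∧
      (y.1.1.im < y'.1.1.im ∨ y.1.1.im = y'.1.1.im ∧ y.1.2 ≤ y'.1.2)) := by
  unfold v1k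
  rw [Prod.Lex.toLex_le_toLex, Prod.Lex.toLex_le_toLex, Prod.Lex.toLex_le_toLex]

theorem v1h_meas : Measurable v1h := by
  have h1 : Continuous v1h := by
    have e1 : Continuous (fun y : H3 => q y ![1, 0]) :=
      continuous_q.comp (Continuous.prodMk_left (X := H3) (Y := Fin 2 → ℂ) ![1, 0])
    have e2 : Continuous (fun y : H3 => q y ![0, 1]) :=
      continuous_q.comp (Continuous.prodMk_left (X := H3) (Y := Fin 2 → ℂ) ![0, 1])
    exact e1.add e2
  exact h1.measurable

theorem v1k_meas (g : SL2C) : MeasurableSet {y : H3 | v1k y ≤ v1k (g • y)} := by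
  have hg : Measurable (fun y : H3 => g • y) := (continuous_const_smul g).measurable
  have hh := v1h_meas
  have hhg : Measurable (fun y : H3 => v1h (g • y)) := hh.comp hg
  have hre : Measurable (fun y : H3 => y.1.1.re) := by fun_prop
  have him : Measurable (fun y : H3 => y.1.1.im) := by fun_prop
  have ht : Measurable (fun y : H3 => y.1.2) := by fun_prop
  have hreg : Measurable (fun y : H3 => (g • y).1.1.re) := hre.comp hg
  have himg : Measurable (fun y : H3 => (g • y).1.1.im) := him.comp hg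
  have htg : Measurable (fun y : H3 => (g • y).1.2) := ht.comp hg
  simp only [v1k_le]
  exact (measurableSet_lt hh hhg).union ((measurableSet_eq_fun hh hhg).inter
    ((measurableSet_lt hre hreg).union ((measurableSet_eq_fun hre hreg).inter
      ((measurableSet_lt him himg).union ((measurableSet_eq_fun him himg).inter
        (measurableSet_le ht htg))))))

/-- PROOF. Put `κ y = toLex (h y, toLex (re z, toLex (im z, t)))` with `h y = q y e1 + q y e2`, values in a lexicographic product of reals (linear order), injective in `y`. `F = {y | ∀ g : Γ, κ y ≤ κ (g • y)}`. Measurable: countable intersection (`Γ` is countable: discrete and second countable, or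
`finite_bounded`: union over `C ∈ ℕ` of finite sets) of sets defined by lexicographic inequalities between measurable functions (unfold: `a < a' ∨ (a = a' ∧ (b < b' ∨ ...))`). For each `y` the set `{g : Γ | h (g • y) ≤ h y}` is finite (`finite_orbit`) and contains `1`: let `g0` minimise `κ (g • y)` on it
(`Set.Finite.exists_minimal..` / `Finset.exists_min_image`); for the other `g`, `h (g • y) > h y ≥ h (g0 • y)`. So `g0 • y ∈ F`. Uniqueness: `g • y, g' • y ∈ F` implies `κ` equal, so `g • y = g' • y`, `g⁻¹ g' = 1` by freeness. -/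
theorem exists_fundDom (Γ : Subgroup SL2C) (hΓ : IsHypManifoldGroup Γ) :
    ∃ F : Set H3, MeasurableSet F ∧ ∀ y : H3, ∃! g : Γ, g • y ∈ F := by
  have := v1_countable Γ hΓ.discrete
  refine ⟨⋂ g : Γ, {y | v1k y ≤ v1k ((g : SL2C) • y)},
    MeasurableSet.iInter (fun g => v1k_meas g), ?_⟩
  intro y
  have hfin := finite_orbit Γ hΓ.discrete y (v1h y)
  have hne : ({g : Γ | q (g • y) ![1, 0] + q (g • y) ![0, 1] ≤ v1h y}).Nonempty := by
    refine ⟨1, ?_⟩
    show q ((1 : Γ) • y) ![1, 0] + q ((1 : Γ) • y) ![0, 1] ≤ v1h y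
    rw [one_smul]
    exact le_rfl
  obtain ⟨g0, hg0, hmin⟩ := Set.exists_min_image _ (fun g : Γ => v1k (g • y)) hfin hne
  have hg0' : v1h (g0 • y) ≤ v1h y := hg0
  have hall : ∀ g : Γ, v1k (g0 • y) ≤ v1k (g • y) := by
    intro g
    by_cases hg : v1h (g • y) ≤ v1h y
    · exact hmin g hg
    · rw [v1k_le]
      left
      push Not at hg
      exact hg0'.trans_lt hg
  have hmem : ∀ g : Γ, (g • y ∈ ⋂ k : Γ, {y : H3 | v1k y ≤ v1k ((k : SL2C) • y)}) ↔
      ∀ k : Γ, v1k (g • y) ≤ v1k (k • y) := by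
    intro g
    rw [Set.mem_iInter]
    constructor
    · intro h k
      have h1 := h (k * g⁻¹)
      have h2 : v1k (g • y) ≤ v1k ((k * g⁻¹) • (g • y)) := h1
      rwa [smul_smul, inv_mul_cancel_right] at h2
    · intro h k
      have h1 := h (k * g)
      rw [mul_smul] at h1
      exact h1
  refine ⟨g0, (hmem g0).2 hall, ?_⟩
  intro g hg
  have h1 := (hmem g).1 hg g0
  have h2 := v1k_inj (le_antisymm h1 (hall g))
  have h3 : (g0⁻¹ * g) • y = y := by
    rw [mul_smul, h2, smul_smul, inv_mul_cancel, one_smul]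
  have h4 : ((g0⁻¹ * g : Γ) : SL2C) = 1 := hΓ.free _ (g0⁻¹ * g).2 y h3
  have h5 : g0⁻¹ * g = 1 := Subtype.ext h4
  exact (inv_mul_eq_one.1 h5).symm

theorem countable_of_discrete (Γ : Subgroup SL2C) (hd : DiscreteTopology Γ) : Countable Γ :=
  v1_countable Γ hd

end DHN
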