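import Pool.Agent.DHN.F4
import Pool.Agent.DHN.F5

/-!
# [DHN-V2] invariance of hyperbolic volume
-/

set_option autoImplicit false

open Topology Matrix ComplexConjugate Filter MeasureTheory

namespace DHN

/-- the volume of a measurable set as an integral in coordinates -/
theorem v2_hypVol (s : Set H3) (hs : MeasurableSet s) :
    hypVol s = ∫⁻ p in Subtype.val '' s, ENNReal.ofReal (1 / p.2 ^ 3) ∂(volume : Measure (ℂ × ℝ)) := by
  unfold hypVol
  rw [withDensity_apply _ hs]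
  have ho : MeasurableSet {p : ℂ × ℝ | 0 < p.2} := measurableSet_lt measurable_const measurable_snd
  exact setLIntegral_subtype ho s (fun p : ℂ × ℝ => ENNReal.ofReal (1 / p.2 ^ 3))

/-- a criterion for preservation of the hyperbolic volume -/
theorem v2_preserve (T : H3 → H3) (hT : Measurable T) (hbij : Function.Bijective T)
    (Φ : ℂ × ℝ → ℂ × ℝ) (A : ℂ × ℝ → (ℂ × ℝ) →L[ℝ] (ℂ × ℝ))
    (hΦ : ∀ y : H3, Φ y.1 = (T y).1) (hd : ∀ y : H3, HasFDerivAt Φ (A y.1) y.1)
    (hdet : ∀ y : H3, |(A y.1).det| * (1 / (T y).1.2 ^ 3) = 1 / y.1.2 ^ 3) :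
    MeasurePreserving T hypVol hypVol := by
  refine ⟨hT, ?_⟩
  ext s hs
  rw [Measure.map_apply hT hs]
  have ho : MeasurableSet {p : ℂ × ℝ | 0 < p.2} := measurableSet_lt measurable_const measurable_snd
  have hm : MeasurableSet ((Subtype.val : H3 → ℂ × ℝ) '' (T ⁻¹' s)) :=
    (MeasurableEmbedding.subtype_coe ho).measurableSet_image.2 (hT hs)
  have h2 : (Subtype.val : H3 → ℂ × ℝ) '' s = Φ '' ((Subtype.val : H3 → ℂ × ℝ) '' (T ⁻¹' s)) := by
    ext p
    constructor
    · rintro ⟨y, hy, rfl⟩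
      obtain ⟨x, rfl⟩ := hbij.surjective y
      exact ⟨x.1, ⟨x, hy, rfl⟩, hΦ x⟩
    · rintro ⟨_, ⟨x, hx, rfl⟩, rfl⟩
      exact ⟨T x, hx, (hΦ x).symm⟩
  have hinj : Set.InjOn Φ ((Subtype.val : H3 → ℂ × ℝ) '' (T ⁻¹' s)) := by
    rintro _ ⟨x, hx, rfl⟩ _ ⟨x', hx', rfl⟩ h
    rw [hΦ, hΦ] at h
    rw [hbij.injective (Subtype.ext h)]
  have hHaar : (volume : Measure (ℂ × ℝ)).IsAddHaarMeasure :=
    Measure.prod.instIsAddHaarMeasure (volume : Measure ℂ) (volume : Measure ℝ)
  rw [v2_hypVol s hs, v2_hypVol _ (hT hs), h2,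
    lintegral_image_eq_lintegral_abs_det_fderiv_mul volume hm (f' := A) ?_ hinj]
  · refine (setLIntegral_congr_fun hm ?_).symm
    rintro _ ⟨x, hx, rfl⟩
    simp only
    rw [← ENNReal.ofReal_mul (abs_nonneg _), hΦ x, hdet x]
  · rintro _ ⟨x, hx, rfl⟩
    exact (hd x).hasFDerivWithinAt

theorem v2_det (a : ℂ) (b : ℝ) :
    ((ContinuousLinearMap.mul ℝ ℂ a).prodMap (b • ContinuousLinearMap.id ℝ ℝ)).det =
      Complex.normSq a * b := by
  have h1 : (((ContinuousLinearMap.mul ℝ ℂ a).prodMap (b • ContinuousLinearMap.id ℝ ℝ) :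
      (ℂ × ℝ) →L[ℝ] (ℂ × ℝ)) : (ℂ × ℝ) →ₗ[ℝ] (ℂ × ℝ)) =
      LinearMap.prodMap (Algebra.lmul ℝ ℂ a) (b • LinearMap.id) := by
    rfl
  rw [ContinuousLinearMap.det, h1, LinearMap.det_prodMap, ← Algebra.norm_apply,
    Algebra.norm_complex_apply, LinearMap.det_ring]
  simp

/-- Upper triangular elements preserve the volume. PROOF. `smul_upper`: `(z, t) ↦ (α^2 z + αβ, |α|^2 t)`, `α ≠ 0`. It is the restriction to `{t > 0}` of an affine bijection of `ℂ × ℝ` whose linear part has determinant `|α^2|^2 |α|^2 = |α|^6`; the density `1/t^3` is multiplied by `|α|^{-6}`.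
(`MeasureTheory.Measure.comap` of `volume` by `Subtype.val`, `withDensity`; compute `hypVol` of a measurable set as `∫⁻` over the image in `ℂ × ℝ` and use `lintegral_image_eq_lintegral_abs_det_fderiv_mul`, or Fubini and the one-dimensional scaling lemmas.) -/
theorem measurePreserving_upper (g : SL2C) (h : g 1 0 = 0) :
    MeasurePreserving (fun y : H3 => g • y) hypVol hypVol := by
  have hdet : g 0 0 * g 1 1 = 1 := by
    have := g.det_coe
    rw [Matrix.det_fin_two] at this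
    rw [h, mul_zero, sub_zero] at this
    exact this
  have h00 : g 0 0 ≠ 0 := left_ne_zero_of_mul_eq_one hdet
  have hn : 0 < Complex.normSq (g 0 0) := Complex.normSq_pos.2 h00
  refine v2_preserve _ (continuous_const_smul g).measurable (MulAction.bijective g)
    (fun p => ((g 0 0) ^ 2 * p.1 + g 0 0 * g 0 1, Complex.normSq (g 0 0) * p.2))
    (fun _ => (ContinuousLinearMap.mul ℝ ℂ ((g 0 0) ^ 2)).prodMap
      (Complex.normSq (g 0 0) • ContinuousLinearMap.id ℝ ℝ)) ?_ ?_ ?_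
  · intro y
    obtain ⟨e1, e2⟩ := smul_upper g y h
    exact (Prod.ext e1 e2).symm
  · intro y
    have h1 : HasFDerivAt (fun p : ℂ × ℝ =>
        ((ContinuousLinearMap.mul ℝ ℂ ((g 0 0) ^ 2)).prodMap
          (Complex.normSq (g 0 0) • ContinuousLinearMap.id ℝ ℝ)) p + (g 0 0 * g 0 1, 0))
        ((ContinuousLinearMap.mul ℝ ℂ ((g 0 0) ^ 2)).prodMap
          (Complex.normSq (g 0 0) • ContinuousLinearMap.id ℝ ℝ)) y.1 :=
      (ContinuousLinearMap.hasFDerivAt _).add_const _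
    refine h1.congr_of_eventuallyEq ?_
    refine Filter.Eventually.of_forall ?_
    rintro ⟨z, t⟩
    simp
  · intro y
    obtain ⟨e1, e2⟩ := smul_upper g y h
    rw [v2_det, e2, map_pow, abs_of_pos (by positivity)]
    have hy := y.2
    field_simp

end DHN
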