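import Pool.Agent.DHN.F4
import Pool.Agent.DHN.F5
import Pool.Agent.DHN.V2

/-!
# [DHN-V3] invariance of hyperbolic volume under the inversion
-/

set_option autoImplicit false

open Topology Matrix ComplexConjugate Filter MeasureTheory

namespace DHN

/-- the element `(0, -1; 1, 0)` -/
def Jel : SL2C := ⟨!![0, -1; 1, 0], by simp [Matrix.det_fin_two_of]⟩

/-- real coordinates -/
noncomputable def v3e : (ℂ × ℝ) ≃L[ℝ] (Fin 3 → ℝ) :=
  LinearEquiv.toContinuousLinearEquiv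
    { toFun := fun p => ![p.1.re, p.1.im, p.2]
      invFun := fun x => (⟨x 0, x 1⟩, x 2)
      left_inv := fun p => rfl
      right_inv := fun x => by
        funext i
        fin_cases i <;> rfl
      map_add' := fun p p' => by
        funext i
        fin_cases i <;> rfl
      map_smul' := fun c p => by
        funext i
        fin_cases i
        · exact Complex.smul_re c p.1
        · exact Complex.smul_im c p.1
        · rfl }

/-- squared norm -/
def v3N (x : Fin 3 → ℝ) : ℝ := x 0 ^ 2 + x 1 ^ 2 + x 2 ^ 2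

/-- signs -/
def v3c : Fin 3 → ℝ := ![-1, 1, 1]

/-- differential of the squared norm -/
noncomputable def v3D (x : Fin 3 → ℝ) : (Fin 3 → ℝ) →L[ℝ] ℝ :=
  (2 * x 0) • ContinuousLinearMap.proj 0 + (2 * x 1) • ContinuousLinearMap.proj 1 +
    (2 * x 2) • ContinuousLinearMap.proj 2

/-- the inversion in real coordinates -/
noncomputable def v3P (x : Fin 3 → ℝ) : Fin 3 → ℝ := fun i => v3c i * (x i * (v3N x)⁻¹)

/-- its differential -/
noncomputable def v3B (x : Fin 3 → ℝ) : (Fin 3 → ℝ) →L[ℝ] (Fin 3 → ℝ) :=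
  ContinuousLinearMap.pi (fun i => v3c i • (x i • ((-(v3N x ^ 2)⁻¹) • v3D x) +
    (v3N x)⁻¹ • ContinuousLinearMap.proj i))

theorem v3_hasFDerivAt (x : Fin 3 → ℝ) (hx : v3N x ≠ 0) : HasFDerivAt v3P (v3B x) x := by
  have hN : HasFDerivAt v3N (v3D x) x := by
    have h0 : ∀ i : Fin 3, HasFDerivAt (fun x : Fin 3 → ℝ => x i)
        (ContinuousLinearMap.proj (R := ℝ) (φ := fun _ : Fin 3 => ℝ) i) x := fun i =>
      (ContinuousLinearMap.proj (R := ℝ) (φ := fun _ : Fin 3 => ℝ) i).hasFDerivAt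
    have h1 : ∀ i : Fin 3, HasFDerivAt (fun x : Fin 3 → ℝ => x i ^ 2)
        ((2 * x i) • (ContinuousLinearMap.proj (R := ℝ) (φ := fun _ : Fin 3 => ℝ) i)) x := by
      intro i
      have := (h0 i).pow 2
      simpa using this
    exact ((h1 0).add (h1 1)).add (h1 2)
  have hinv : HasFDerivAt (fun x => (v3N x)⁻¹) ((-(v3N x ^ 2)⁻¹) • v3D x) x :=
    (hasDerivAt_inv hx).comp_hasFDerivAt x hN
  rw [hasFDerivAt_pi']
  intro i
  have h2 : HasFDerivAt (fun x : Fin 3 → ℝ => x i)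
      (ContinuousLinearMap.proj (R := ℝ) (φ := fun _ : Fin 3 => ℝ) i) x :=
    (ContinuousLinearMap.proj (R := ℝ) (φ := fun _ : Fin 3 => ℝ) i).hasFDerivAt
  have h3 := (h2.mul hinv).const_mul (v3c i)
  exact h3

theorem v3_det (x : Fin 3 → ℝ) (hx : v3N x ≠ 0) : (v3B x).det = (v3N x ^ 3)⁻¹ := by
  have hN : v3N x = x 0 ^ 2 + x 1 ^ 2 + x 2 ^ 2 := rfl
  rw [ContinuousLinearMap.det, ← LinearMap.det_toMatrix', Matrix.det_fin_three]
  simp only [LinearMap.toMatrix'_apply]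
  have hB : ∀ (v : Fin 3 → ℝ) (i : Fin 3), (v3B x : (Fin 3 → ℝ) →ₗ[ℝ] (Fin 3 → ℝ)) v i =
      v3c i * (x i * (-(v3N x ^ 2)⁻¹ * (2 * x 0 * v 0 + 2 * x 1 * v 1 + 2 * x 2 * v 2)) +
        (v3N x)⁻¹ * v i) := by
    intro v i
    rfl
  simp only [hB]
  have c0 : v3c 0 = -1 := rfl
  have c1 : v3c 1 = 1 := rfl
  have c2 : v3c 2 = 1 := rfl
  rw [c0, c1, c2]
  simp
  have h4 : x 0 ^ 2 = v3N x - x 1 ^ 2 - x 2 ^ 2 := by rw [hN]; ring
  generalize v3N x = N at *
  field_simp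
  rw [h4]
  ring

/-- PROOF. `Jel • (z, t) = (-conj z, t)/(|z|^2 + t^2)`. It is an involution up to nothing else (`Jel^2 = -1` acts trivially), the composition of the linear isometry `(z,t) ↦ (-conj z, t)` and the inversion `ι p = p/|p|^2` of `ℝ^3 = ℂ × ℝ`. The derivative of `ι` at `p` is `|p|^{-2}` times a reflection (linear isometry), so
`|det| = |p|^{-6}`; the `t` coordinate is multiplied by `|p|^{-2}`, so the density `1/t^3` is multiplied by `|p|^6`. Use `EuclideanGeometry.hasFDerivAt_inversion` on `EuclideanSpace ℝ (Fin 3)` (or `WithLp 2 (ℂ × ℝ)`) with a measure preserving linear equivalence to `ℂ × ℝ`, or compute the Jacobian determinant by hand in coordinates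
`(x, y, t) ↦ (-x, y, t)/(x^2+y^2+t^2)`: `det = (x^2+y^2+t^2)^{-3}`; then `lintegral_image_eq_lintegral_abs_det_fderiv_mul`. -/
theorem measurePreserving_J : MeasurePreserving (fun y : H3 => Jel • y) hypVol hypVol := by
  have j00 : Jel 0 0 = 0 := rfl
  have j01 : Jel 0 1 = -1 := rfl
  have j10 : Jel 1 0 = 1 := rfl
  have j11 : Jel 1 1 = 0 := rfl
  have hden : ∀ y : H3, den Jel y = v3N (v3e y.1) := by
    intro y
    unfold den
    rw [j10, j11, one_mul, add_zero, map_one, one_mul, Complex.normSq_apply]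
    show _ = y.1.1.re ^ 2 + y.1.1.im ^ 2 + y.1.2 ^ 2
    ring
  have hpos : ∀ y : H3, 0 < v3N (v3e y.1) := fun y => by
    rw [← hden]
    exact den_pos Jel y
  refine v2_preserve _ (continuous_const_smul Jel).measurable (MulAction.bijective Jel)
    (fun p => v3e.symm (v3P (v3e p)))
    (fun p => (v3e.symm : (Fin 3 → ℝ) →L[ℝ] (ℂ × ℝ)).comp
      ((v3B (v3e p)).comp (v3e : (ℂ × ℝ) →L[ℝ] (Fin 3 → ℝ)))) ?_ ?_ ?_
  · intro y
    rw [ContinuousLinearEquiv.symm_apply_eq]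
    have hd := hden y
    have hz := smul_z Jel y
    have ht := smul_t Jel y
    rw [j00, j01, j10, j11] at hz
    rw [hd] at hz ht
    have hne := (hpos y).ne'
    have hz' : (Jel • y).1.1 = (((v3N (v3e y.1))⁻¹ : ℝ) : ℂ) * (-conj y.1.1) := by
      rw [hz]
      simp only [zero_mul, zero_add, one_mul, add_zero, map_one]
      push_cast
      ring
    funext i
    fin_cases i
    · show v3c 0 * (y.1.1.re * (v3N (v3e y.1))⁻¹) = (Jel • y).1.1.re
      rw [hz', Complex.re_ofReal_mul, Complex.neg_re, Complex.conj_re]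
      show -1 * (y.1.1.re * (v3N (v3e y.1))⁻¹) = _
      ring
    · show v3c 1 * (y.1.1.im * (v3N (v3e y.1))⁻¹) = (Jel • y).1.1.im
      rw [hz', Complex.im_ofReal_mul, Complex.neg_im, Complex.conj_im]
      show 1 * (y.1.1.im * (v3N (v3e y.1))⁻¹) = _
      ring
    · show v3c 2 * (y.1.2 * (v3N (v3e y.1))⁻¹) = (Jel • y).1.2
      rw [ht]
      show 1 * (y.1.2 * (v3N (v3e y.1))⁻¹) = _
      ring
  · intro y
    have h1 := v3_hasFDerivAt (v3e y.1) (hpos y).ne'
    have h2 : HasFDerivAt (fun p => v3e p) (v3e : (ℂ × ℝ) →L[ℝ] (Fin 3 → ℝ)) y.1 :=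
      v3e.hasFDerivAt
    have h3 := h1.comp y.1 h2
    have h4 : HasFDerivAt (fun x => v3e.symm x) (v3e.symm : (Fin 3 → ℝ) →L[ℝ] (ℂ × ℝ))
        (v3P (v3e y.1)) := v3e.symm.hasFDerivAt
    exact h4.comp y.1 h3
  · intro y
    have ht := smul_t Jel y
    rw [hden] at ht
    have hp := hpos y
    have hy := y.2
    have hdet : ((v3e.symm : (Fin 3 → ℝ) →L[ℝ] (ℂ × ℝ)).comp
      ((v3B (v3e y.1)).comp (v3e : (ℂ × ℝ) →L[ℝ] (Fin 3 → ℝ)))).det = (v3B (v3e y.1)).det := by
      have h5 := LinearMap.det_conj ((v3B (v3e y.1)) : (Fin 3 → ℝ) →ₗ[ℝ] (Fin 3 → ℝ))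
        v3e.symm.toLinearEquiv
      exact h5
    rw [hdet, v3_det _ hp.ne', ht, abs_of_pos (by positivity)]
    field_simp

end DHN
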