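import Pool.Agent.DHN.V1
import Pool.Agent.DHN.V2
import Pool.Agent.DHN.V3

/-!
# [DHN-V4] the hyperbolic volume is invariant; volumes of compact sets and of cusp regions
-/

set_option autoImplicit false

open Topology Matrix ComplexConjugate Filter MeasureTheory

namespace DHN

/-- PROOF. If `c = g 1 0 = 0`: `measurePreserving_upper`. Otherwise `g = U1 * Jel * U2` with `U1, U2` upper triangular: `U1 = (1, a/c; 0, 1)`, `U2 = (c, d; 0, 1/c)`: `Jel * U2 = (0, -1/c; c, d)`, `U1 * that = (a, ad/c - 1/c; c, d) = g`. Compose. -/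
theorem measurePreserving_smul_H3 (g : SL2C) : MeasurePreserving (fun y : H3 => g • y) hypVol hypVol := by
  by_cases h : g 1 0 = 0
  · exact measurePreserving_upper g h
  · have hdet : g 0 0 * g 1 1 - g 0 1 * g 1 0 = 1 := by
      have := g.det_coe
      rwa [Matrix.det_fin_two] at this
    obtain ⟨U1, hU1⟩ : ∃ U : SL2C, (U : Matrix (Fin 2) (Fin 2) ℂ) = !![1, g 0 0 / g 1 0; 0, 1] :=
      ⟨⟨!![1, g 0 0 / g 1 0; 0, 1], by simp [Matrix.det_fin_two_of]⟩, rfl⟩
    obtain ⟨U2, hU2⟩ : ∃ U : SL2C, (U : Matrix (Fin 2) (Fin 2) ℂ) =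
        !![g 1 0, g 1 1; 0, (g 1 0)⁻¹] :=
      ⟨⟨!![g 1 0, g 1 1; 0, (g 1 0)⁻¹], by simp [Matrix.det_fin_two_of, h]⟩, rfl⟩
    have hJ : (Jel : Matrix (Fin 2) (Fin 2) ℂ) = !![0, -1; 1, 0] := rfl
    have hg : g = U1 * (Jel * U2) := by
      apply Subtype.ext
      rw [Matrix.SpecialLinearGroup.coe_mul, Matrix.SpecialLinearGroup.coe_mul, hU1, hU2, hJ]
      ext i j
      fin_cases i <;> fin_cases j
      · simp [h]
      · simp
        field_simp
        linear_combination (-1 : ℂ) * hdet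
      · simp
      · simp
    have h1 := measurePreserving_upper U1 (by rw [hU1]; simp)
    have h2 := measurePreserving_upper U2 (by rw [hU2]; simp)
    have h3 := h1.comp (measurePreserving_J.comp h2)
    have h4 : (fun y : H3 => g • y) =
        (fun y : H3 => U1 • y) ∘ ((fun y : H3 => Jel • y) ∘ (fun y : H3 => U2 • y)) := by
      funext y
      show g • y = U1 • (Jel • (U2 • y))
      rw [smul_smul, smul_smul, hg, mul_assoc]
    rw [h4]
    exact h3

theorem v4_cusp (R s : ℝ) (hs : 0 < s) : hypVol {y : H3 | ‖y.1.1‖ ≤ R ∧ s ≤ y.1.2} < ⊤ := by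
  have hc1 : Continuous (fun y : H3 => ‖y.1.1‖) := by fun_prop
  have hc2 : Continuous (fun y : H3 => y.1.2) := by fun_prop
  have hm : MeasurableSet {y : H3 | ‖y.1.1‖ ≤ R ∧ s ≤ y.1.2} :=
    (measurableSet_le hc1.measurable measurable_const).inter
      (measurableSet_le measurable_const hc2.measurable)
  have him : (Subtype.val : H3 → ℂ × ℝ) '' {y : H3 | ‖y.1.1‖ ≤ R ∧ s ≤ y.1.2} =
      Metric.closedBall (0 : ℂ) R ×ˢ Set.Ici s := by
    ext p
    constructor
    · rintro ⟨y, ⟨h1, h2⟩, rfl⟩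
      refine ⟨?_, h2⟩
      rw [mem_closedBall_zero_iff]
      exact h1
    · rintro ⟨h1, h2⟩
      rw [mem_closedBall_zero_iff] at h1
      exact ⟨⟨p, lt_of_lt_of_le hs h2⟩, ⟨h1, h2⟩, rfl⟩
  rw [v2_hypVol _ hm, him]
  have hvol : (volume : Measure (ℂ × ℝ)) = (volume : Measure ℂ).prod (volume : Measure ℝ) := rfl
  rw [hvol, ← Measure.prod_restrict]
  have hmul := lintegral_prod_mul (μ := (volume : Measure ℂ).restrict (Metric.closedBall (0 : ℂ) R))
    (ν := (volume : Measure ℝ).restrict (Set.Ici s)) (f := fun _ => (1 : ENNReal))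
    (g := fun t : ℝ => ENNReal.ofReal (1 / t ^ 3)) aemeasurable_const
    (by fun_prop)
  simp only [one_mul] at hmul
  rw [hmul]
  refine ENNReal.mul_lt_top ?_ ?_
  · rw [lintegral_const, one_mul, Measure.restrict_apply_univ]
    exact (isCompact_closedBall (0 : ℂ) R).measure_lt_top
  · have hint : IntegrableOn (fun t : ℝ => 1 / t ^ 3) (Set.Ici s) := by
      rw [integrableOn_Ici_iff_integrableOn_Ioi]
      refine (integrableOn_Ioi_rpow_of_lt (by norm_num : (-3 : ℝ) < -1) hs).congr_fun ?_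
        measurableSet_Ioi
      intro t ht
      have ht0 : 0 < t := hs.trans ht
      show t ^ (-3 : ℝ) = 1 / t ^ 3
      rw [Real.rpow_neg ht0.le, one_div]
      congr 1
      exact_mod_cast Real.rpow_natCast t 3
    exact hint.lintegral_lt_top

instance smulInvariant (Γ : Subgroup SL2C) : SMulInvariantMeasure Γ H3 hypVol where
  measure_preimage_smul g s hs := by
    have h := (measurePreserving_smul_H3 (g : SL2C)).measure_preimage hs.nullMeasurableSet
    exact h

/-- PROOF. `K ⊆ KK R s t` (`exists_KK`), the density is `≤ 1/s^3`, and the coordinate volume of the box is finite. -/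
theorem hypVol_compact (K : Set H3) (hK : IsCompact K) : hypVol K < ⊤ := by
  obtain ⟨R, s, t, hs, hKK⟩ := exists_KK K hK
  refine lt_of_le_of_lt (measure_mono ?_) (v4_cusp R s hs)
  intro y hy
  have := hKK hy
  exact ⟨this.1, this.2.1⟩

/-- PROOF. `∫⁻ over {|z| ≤ R} × {t ≥ s}` of `t^{-3}` `= π R^2 * s^{-2}/2` (Fubini, `integral_Ioi_rpow`). -/
theorem hypVol_cusp (R s : ℝ) (hs : 0 < s) : hypVol {y : H3 | ‖y.1.1‖ ≤ R ∧ s ≤ y.1.2} < ⊤ :=
  v4_cusp R s hs

end DHN
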