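import Pool.Agent.DHN.V4

/-!
# [DHN-V5a] existence of the volume
-/

set_option autoImplicit false

open Topology Matrix ComplexConjugate Filter MeasureTheory
open scoped Pointwise

namespace DHN

theorem v5a_ne_zero : hypVol ≠ 0 := by
  intro h0
  have hc1 : Continuous (fun y : H3 => ‖y.1.1‖) := by fun_prop
  have hc2 : Continuous (fun y : H3 => y.1.2) := by fun_prop
  have hm : MeasurableSet {y : H3 | ‖y.1.1‖ ≤ 1 ∧ 1 ≤ y.1.2 ∧ y.1.2 ≤ 2} :=
    (measurableSet_le hc1.measurable measurable_const).inter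
      ((measurableSet_le measurable_const hc2.measurable).inter
        (measurableSet_le hc2.measurable measurable_const))
  have him : (Subtype.val : H3 → ℂ × ℝ) '' {y : H3 | ‖y.1.1‖ ≤ 1 ∧ 1 ≤ y.1.2 ∧ y.1.2 ≤ 2} =
      Metric.closedBall (0 : ℂ) 1 ×ˢ Set.Icc 1 2 := by
    ext p
    constructor
    · rintro ⟨y, ⟨h1, h2⟩, rfl⟩
      refine ⟨?_, h2⟩
      rw [mem_closedBall_zero_iff]
      exact h1
    · rintro ⟨h1, h2⟩
      rw [mem_closedBall_zero_iff] at h1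
      exact ⟨⟨p, lt_of_lt_of_le one_pos h2.1⟩, ⟨h1, h2⟩, rfl⟩
  have h1 : hypVol {y : H3 | ‖y.1.1‖ ≤ 1 ∧ 1 ≤ y.1.2 ∧ y.1.2 ≤ 2} = 0 := by
    rw [h0]
    rfl
  rw [v2_hypVol _ hm, him] at h1
  have hms : MeasurableSet (Metric.closedBall (0 : ℂ) 1 ×ˢ Set.Icc (1 : ℝ) 2) :=
    measurableSet_closedBall.prod measurableSet_Icc
  have h2 : ENNReal.ofReal (1 / 8) * volume (Metric.closedBall (0 : ℂ) 1 ×ˢ Set.Icc (1 : ℝ) 2) ≤
      ∫⁻ p in Metric.closedBall (0 : ℂ) 1 ×ˢ Set.Icc (1 : ℝ) 2, ENNReal.ofReal (1 / p.2 ^ 3) := by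
    rw [← setLIntegral_const]
    refine setLIntegral_mono' hms ?_
    rintro p ⟨_, hp1, hp2⟩
    apply ENNReal.ofReal_le_ofReal
    have h3 : p.2 ^ 3 ≤ 8 := by
      calc p.2 ^ 3 ≤ 2 ^ 3 := by gcongr
        _ = 8 := by norm_num
    have h4 : 0 < p.2 ^ 3 := by positivity
    exact one_div_le_one_div_of_le h4 h3
  rw [h1] at h2
  have hvol : volume (Metric.closedBall (0 : ℂ) 1 ×ˢ Set.Icc (1 : ℝ) 2) =
      volume (Metric.closedBall (0 : ℂ) 1) * volume (Set.Icc (1 : ℝ) 2) := by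
    exact Measure.prod_prod _ _
  rw [hvol, Real.volume_Icc] at h2
  have h5 : 0 < volume (Metric.closedBall (0 : ℂ) 1) := Metric.measure_closedBall_pos _ _ one_pos
  have h6 : 0 < ENNReal.ofReal (1 / 8) * (volume (Metric.closedBall (0 : ℂ) 1) *
      ENNReal.ofReal (2 - 1)) := by
    refine ENNReal.mul_pos ?_ ?_
    · exact (ENNReal.ofReal_pos.2 (by norm_num)).ne'
    · refine (ENNReal.mul_pos h5.ne' ?_).ne'
      exact (ENNReal.ofReal_pos.2 (by norm_num)).ne'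
  exact absurd h2 (not_le.2 h6)

theorem v5a_meas (Γ : Subgroup SL2C) : MeasurableConstSMul Γ H3 :=
  ⟨fun g => (continuous_const_smul (g : SL2C)).measurable⟩

/-- PROOF. `exists_fundDom` gives an exact fundamental domain `F` (`IsFundamentalDomain.mk'`, `countable_of_discrete`). Finite measure: `H3 = ⋃ g⁻¹ K`, `hypVol F ≤ Σ_g hypVol (F ∩ g⁻¹ • K) = Σ_g hypVol (g • F ∩ K) ≤ hypVol K` (`IsFundamentalDomain.measure_eq_tsum`, disjointness). `v = (hypVol F).toReal`;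
`0 < v`: `hypVol F ≠ 0` since `hypVol univ ≠ 0` (`IsFundamentalDomain.measure_ne_zero`; `hypVol ≠ 0`: an open nonempty set has positive measure). -/
theorem exists_volume (Γ : Subgroup SL2C) (hΓ : IsHypManifoldGroup Γ) (K : Set H3) (hK : MeasurableSet K)
    (hfin : hypVol K < ⊤) (hcov : ∀ y : H3, ∃ g ∈ Γ, g • y ∈ K) : ∃ v : ℝ, 0 < v ∧ HasVolume Γ v := by
  have hcount : Countable Γ := countable_of_discrete Γ hΓ.discrete
  have hms := v5a_meas Γ
  obtain ⟨F, hF, hFex⟩ := exists_fundDom Γ hΓ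
  have hdom : IsFundamentalDomain Γ F hypVol :=
    IsFundamentalDomain.mk' hF.nullMeasurableSet hFex
  have hle : hypVol F ≤ hypVol K := by
    have h1 := hdom.measure_eq_tsum K
    rw [h1]
    refine le_trans (measure_mono ?_) (measure_iUnion_le (fun g : Γ => g • K ∩ F))
    intro y hy
    obtain ⟨g, hg, hgy⟩ := hcov y
    rw [Set.mem_iUnion]
    refine ⟨(⟨g, hg⟩ : Γ)⁻¹, ?_, hy⟩
    rw [Set.mem_smul_set_iff_inv_smul_mem, inv_inv]
    exact hgy
  have hlt : hypVol F < ⊤ := hle.trans_lt hfin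
  have hne : hypVol F ≠ 0 := hdom.measure_ne_zero v5a_ne_zero
  refine ⟨(hypVol F).toReal, ENNReal.toReal_pos hne hlt.ne, F, hdom, ?_⟩
  rw [ENNReal.ofReal_toReal hlt.ne]

end DHN
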