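import Pool.Agent.DHN.V4

/-!
# [DHN-V5b] fundamental domains of finite index subgroups
-/

set_option autoImplicit false

open Topology Matrix ComplexConjugate Filter MeasureTheory
open scoped Pointwise

namespace DHN

/-- The covolume of a finite index subgroup. PROOF. `F` exact for `G`. Let `T` be a finite set of representatives of the right cosets: every `g ∈ G` is uniquely `h * c`, `h ∈ H`, `c ∈ T` (`Subgroup.exists_right_transversal` or choose representatives of the quotient; `T.card = H.relIndex G`). `F_H = ⋃ c ∈ T, c • F`; for each `y` there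
is a unique `g ∈ G` with `g • y ∈ F`, `g⁻¹ = h⁻¹... `: `y = g⁻¹ f`; `h y ∈ c F` iff `h g⁻¹ = c` (uniqueness), i.e. `g⁻¹ = h⁻¹ c`: exactly one `(h, c)`. So `F_H` is an exact fundamental domain of `H`; the `c • F` are disjoint, of measure `hypVol F` (`measure_smul`/`smulInvariant`). -/
theorem fundDom_index (G H : Subgroup SL2C) (hHG : H ≤ G) (hind : H.relIndex G ≠ 0)
    (F : Set H3) (hF : MeasurableSet F) (hFG : ∀ y : H3, ∃! g : G, g • y ∈ F) :
    ∃ F' : Set H3, MeasurableSet F' ∧ (∀ y : H3, ∃! g : H, g • y ∈ F') ∧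
      hypVol F' = (H.relIndex G : ENNReal) * hypVol F := by
  obtain ⟨T, hT, _⟩ := (H.subgroupOf G).exists_isComplement_right 1
  have hcard : Nat.card T = H.relIndex G := hT.card_right
  have hfinT : Finite T := Nat.finite_of_card_ne_zero (by rw [hcard]; exact hind)
  have hmeas : ∀ c : G, MeasurableSet ((c : SL2C) • F) := by
    intro c
    have h1 : ((c : SL2C) • F) = (fun y : H3 => ((c : SL2C))⁻¹ • y) ⁻¹' F := by
      ext y
      rw [Set.mem_smul_set_iff_inv_smul_mem]
      rfl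
    rw [h1]
    exact (continuous_const_smul _).measurable hF
  refine ⟨⋃ c : T, ((c : G) : SL2C) • F, MeasurableSet.iUnion (fun c => hmeas c), ?_, ?_⟩
  · intro y
    obtain ⟨g, hg, huniq⟩ := hFG y
    obtain ⟨⟨⟨h0, hh0⟩, ⟨c0, hc0⟩⟩, hhc⟩ := hT.2 g⁻¹
    have hhc' : h0 * c0 = g⁻¹ := hhc
    have hh0' : (h0 : SL2C) ∈ H := hh0
    refine ⟨⟨(h0 : SL2C), hh0'⟩⁻¹, ?_, ?_⟩
    · simp only
      rw [Set.mem_iUnion]
      refine ⟨⟨c0, hc0⟩, ?_⟩
      rw [Set.mem_smul_set_iff_inv_smul_mem]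
      have e1 : ((c0 : SL2C))⁻¹ • (((h0 : SL2C))⁻¹ • y) = (g : SL2C) • y := by
        rw [smul_smul, ← _root_.mul_inv_rev]
        congr 1
        have e2 := congrArg (Subtype.val) hhc'
        rw [Subgroup.coe_mul, Subgroup.coe_inv] at e2
        rw [e2, inv_inv]
      show ((c0 : SL2C))⁻¹ • (((h0 : SL2C))⁻¹ • y) ∈ F
      rw [e1]
      exact hg
    · rintro ⟨h, hh⟩ hy
      rw [Set.mem_iUnion] at hy
      obtain ⟨⟨c, hc⟩, hcy⟩ := hy
      rw [Set.mem_smul_set_iff_inv_smul_mem] at hcy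
      have hcy' : ((c : SL2C))⁻¹ • (h • y) ∈ F := hcy
      rw [smul_smul] at hcy'
      have hhG : h ∈ G := hHG hh
      obtain ⟨k, hk⟩ : ∃ k : G, (k : SL2C) = h := ⟨⟨h, hhG⟩, rfl⟩
      have e7 : ((c⁻¹ * k : G) : SL2C) = (c : SL2C)⁻¹ * h := by
        rw [Subgroup.coe_mul, Subgroup.coe_inv, hk]
      have e8 : (c⁻¹ * k : G) • y ∈ F := by
        rw [Subgroup.smul_def, e7]
        exact hcy'
      have e3 : c⁻¹ * k = g := huniq (c⁻¹ * k) e8
      have e4 : k⁻¹ * c = g⁻¹ := by
        rw [← e3, _root_.mul_inv_rev, inv_inv]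
      have hmem : k⁻¹ ∈ H.subgroupOf G := by
        rw [inv_mem_iff, Subgroup.mem_subgroupOf, hk]
        exact hh
      have e5 := hT.1 (a₁ := (⟨k⁻¹, hmem⟩, ⟨c, hc⟩)) (a₂ := (⟨h0, hh0⟩, ⟨c0, hc0⟩))
        (by
          show k⁻¹ * c = h0 * c0
          rw [e4, hhc'])
      have e6 : k⁻¹ = h0 := congrArg (fun p => (p.1 : G)) e5
      apply Subtype.ext
      show h = ((h0 : SL2C))⁻¹
      rw [← e6, Subgroup.coe_inv, inv_inv, hk]
  · have hdisj : Pairwise (Function.onFun Disjoint (fun c : T => ((c : G) : SL2C) • F)) := by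
      intro c c' hcc
      rw [Function.onFun, Set.disjoint_left]
      intro y h1 h2
      rw [Set.mem_smul_set_iff_inv_smul_mem] at h1 h2
      apply hcc
      have h3 := (hFG y).unique (y₁ := (c : G)⁻¹) (y₂ := (c' : G)⁻¹) h1 h2
      exact Subtype.ext (inv_injective h3)
    rw [measure_iUnion hdisj (fun c => hmeas c)]
    have h4 : ∀ c : T, hypVol (((c : G) : SL2C) • F) = hypVol F := by
      intro c
      have h5 : (((c : G) : SL2C) • F) = (fun y : H3 => (((c : G) : SL2C))⁻¹ • y) ⁻¹' F := by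
        ext y
        rw [Set.mem_smul_set_iff_inv_smul_mem]
        rfl
      rw [h5]
      exact (measurePreserving_smul_H3 _).measure_preimage hF.nullMeasurableSet
    simp only [h4]
    rw [ENNReal.tsum_const, ENat.card_eq_coe_natCard, hcard]
    simp

end DHN
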