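import Pool.Agent.DHN.V5a
import Pool.Agent.DHN.V5b

/-!
# [DHN-V5c] equal index implies equal volume
-/

set_option autoImplicit false

open Topology Matrix ComplexConjugate Filter MeasureTheory

namespace DHN

/-- PROOF. Exact fundamental domains `F, F'` of `Δ, Δ'` (`exists_fundDom`), `v = hypVol` of any fundamental domain (`IsFundamentalDomain.measure_eq`). `N = Δ ⊓ Δ'`; `N.relIndex Δ * Δ.relIndex Λ = N.relIndex Λ = N.relIndex Δ' * Δ'.relIndex Λ` (`Subgroup.relIndex_mul_relIndex`), so `n = N.relIndex Δ = N.relIndex Δ'`,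
`n ≠ 0` (`n ≤ 7`: `relIndex_inf_ne_zero`...). `fundDom_index` twice: `n * hypVol F = n * hypVol F'` (both are the measure of a fundamental domain of `N`, `measure_eq`), so `hypVol F = hypVol F'` (`0 < n < ∞`). -/
theorem equal_volume (Λ Δ Δ' : Subgroup SL2C) (h1 : Δ ≤ Λ) (h2 : Δ' ≤ Λ) (i1 : Δ.relIndex Λ = 7)
    (i2 : Δ'.relIndex Λ = 7) (hΔ : IsHypManifoldGroup Δ) (hΔ' : IsHypManifoldGroup Δ') (v : ℝ)
    (hv : HasVolume Δ v) : HasVolume Δ' v := by
  have c1 : Countable Δ := countable_of_discrete Δ hΔ.discrete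
  have c2 : Countable Δ' := countable_of_discrete Δ' hΔ'.discrete
  have m1 := v5a_meas Δ
  have m2 := v5a_meas Δ'
  have m3 := v5a_meas (Δ ⊓ Δ')
  have c3 : Countable (Δ ⊓ Δ' : Subgroup SL2C) :=
    (Subgroup.inclusion_injective (inf_le_left : Δ ⊓ Δ' ≤ Δ)).countable
  obtain ⟨F, hF, hFex⟩ := exists_fundDom Δ hΔ
  obtain ⟨F', hF', hFex'⟩ := exists_fundDom Δ' hΔ'
  have hdom : IsFundamentalDomain Δ F hypVol := IsFundamentalDomain.mk' hF.nullMeasurableSet hFex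
  have hdom' : IsFundamentalDomain Δ' F' hypVol :=
    IsFundamentalDomain.mk' hF'.nullMeasurableSet hFex'
  obtain ⟨F0, hF0, hF0v⟩ := hv
  have e0 : hypVol F = ENNReal.ofReal v := by
    rw [← hF0v]
    exact hdom.measure_eq hF0
  have r1 := Subgroup.relIndex_mul_relIndex (Δ ⊓ Δ') Δ Λ inf_le_left h1
  have r2 := Subgroup.relIndex_mul_relIndex (Δ ⊓ Δ') Δ' Λ inf_le_right h2
  have r3 : (Δ ⊓ Δ').relIndex Δ = (Δ ⊓ Δ').relIndex Δ' := by
    rw [i1] at r1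
    rw [i2] at r2
    omega
  have r4 : (Δ ⊓ Δ').relIndex Δ ≠ 0 := by
    rw [Subgroup.inf_relIndex_left]
    intro h0
    have h7 : Δ'.relIndex Λ ≠ 0 := by rw [i2]; norm_num
    exact h7 (Subgroup.relIndex_eq_zero_of_le_right h1 h0)
  obtain ⟨G1, hG1, hG1ex, hG1v⟩ := fundDom_index Δ (Δ ⊓ Δ') inf_le_left r4 F hF hFex
  obtain ⟨G2, hG2, hG2ex, hG2v⟩ := fundDom_index Δ' (Δ ⊓ Δ') inf_le_right (r3 ▸ r4) F' hF' hFex'
  have d1 : IsFundamentalDomain (Δ ⊓ Δ' : Subgroup SL2C) G1 hypVol :=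
    IsFundamentalDomain.mk' hG1.nullMeasurableSet hG1ex
  have d2 : IsFundamentalDomain (Δ ⊓ Δ' : Subgroup SL2C) G2 hypVol :=
    IsFundamentalDomain.mk' hG2.nullMeasurableSet hG2ex
  have e1 := d1.measure_eq d2
  rw [hG1v, hG2v, ← r3] at e1
  have e2 : hypVol F = hypVol F' :=
    (ENNReal.mul_right_inj (by exact_mod_cast r4) (ENNReal.natCast_ne_top _)).1 e1
  exact ⟨F', hdom', by rw [← e2, e0]⟩

end DHN
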