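import Pool.Agent.DHN.R6
import Pool.Agent.DHN.T1

/-!
# [DHN-W0a] quantitative facts near u = 0
-/

set_option autoImplicit false

open Topology Matrix ComplexConjugate Filter

namespace DHN

/-- PROOF. `aa u / u = sinh (u/2)/u → 1/2`. -/
theorem aa_bounds : ∀ᶠ u in 𝓝[≠] (0 : ℂ), ‖u‖ / 4 ≤ ‖aa u‖ ∧ ‖aa u‖ ≤ ‖u‖ := by
  have h1 : HasDerivAt aa (1 / 2) 0 := by
    have h2 : HasDerivAt (fun u : ℂ => u / 2) (1 / 2) 0 := (hasDerivAt_id (0 : ℂ)).div_const 2
    have h3 := h2.csinh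
    simp only [zero_div, Complex.cosh_zero, one_mul] at h3
    exact h3
  have h4 : aa 0 = 0 := by simp [aa]
  have h5 := h1.isLittleO
  have h6 := (h5.def (c := 1 / 4) (by norm_num))
  refine (h6.filter_mono nhdsWithin_le_nhds).mono fun u hu => ?_
  rw [h4, sub_zero, sub_zero, smul_eq_mul] at hu
  have h7 : ‖u * (1 / 2)‖ = ‖u‖ / 2 := by
    rw [norm_mul]
    norm_num
    ring
  have h8 := norm_sub_norm_le (u * (1 / 2)) (aa u)
  have h9 := norm_sub_norm_le (aa u) (u * (1 / 2))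
  rw [norm_sub_rev] at h8
  have h10 := norm_nonneg u
  constructor
  · linarith
  · linarith

theorem w0_normSq_sinh (x y : ℝ) : Complex.normSq (Complex.sinh (x + y * Complex.I)) =
    Real.sinh x ^ 2 + Real.sin y ^ 2 := by
  rw [Complex.sinh_add, Complex.cosh_mul_I, Complex.sinh_mul_I, ← mul_assoc]
  rw [← Complex.ofReal_sinh, ← Complex.ofReal_cosh, ← Complex.ofReal_sin, ← Complex.ofReal_cos,
    ← Complex.ofReal_mul, ← Complex.ofReal_mul, Complex.normSq_add_mul_I]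
  have h1 := Real.cosh_sq x
  have h2 := Real.cos_sq' y
  rw [mul_pow, mul_pow, h1, h2]
  ring

/-- PROOF. `w = x + I y`: `|sinh w|^2 = sinh^2 x + sin^2 y`. `k = round (y/π)`: `|y - kπ| ≤ π/2` and `|sin y| = |sin (y - kπ)| ≥ (2/π)|y - kπ|` (Jordan, `Real.mul_abs_le_abs_sin`); `|x| ≤ |sinh x|`. So `‖w - kπI‖^2 = x^2 + (y - kπ)^2 ≤ sinh^2 x + (π^2/4) sin^2 y ≤ 4 ‖sinh w‖^2`. No smallness needed. -/
theorem sinh_small (w : ℂ) : ∃ k : ℤ, ‖w - k * (Real.pi * Complex.I)‖ ≤ 2 * ‖Complex.sinh w‖ := by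
  have hpi := Real.pi_pos
  refine ⟨round (w.im / Real.pi), ?_⟩
  set k := round (w.im / Real.pi) with hk
  have h1 : |w.im / Real.pi - k| ≤ 1 / 2 := abs_sub_round _
  have h2 : |w.im - k * Real.pi| ≤ Real.pi / 2 := by
    have h3 : w.im - k * Real.pi = (w.im / Real.pi - k) * Real.pi := by
      field_simp
    rw [h3, abs_mul, abs_of_pos hpi]
    nlinarith
  have h4 : 2 / Real.pi * |w.im - k * Real.pi| ≤ |Real.sin (w.im - k * Real.pi)| :=
    Real.mul_abs_le_abs_sin h2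
  have h5 : |Real.sin (w.im - k * Real.pi)| = |Real.sin w.im| := by
    rw [Real.sin_sub_int_mul_pi, abs_mul, abs_zpow, abs_neg, abs_one, _root_.one_zpow, one_mul]
  rw [h5] at h4
  have h6 : |w.re| ≤ |Real.sinh w.re| := by
    rcases le_total 0 w.re with h | h
    · rw [abs_of_nonneg h, abs_of_nonneg (Real.sinh_nonneg_iff.2 h)]
      exact Real.self_le_sinh_iff.2 h
    · rw [abs_of_nonpos h, abs_of_nonpos (Real.sinh_nonpos_iff.2 h)]
      have := Real.sinh_le_self_iff.2 h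
      linarith
  have h7 : Complex.normSq (Complex.sinh w) = Real.sinh w.re ^ 2 + Real.sin w.im ^ 2 := by
    rw [← w0_normSq_sinh, Complex.re_add_im]
  have h8 : Complex.normSq (w - k * (Real.pi * Complex.I)) = w.re ^ 2 + (w.im - k * Real.pi) ^ 2 := by
    rw [Complex.normSq_apply]
    simp
    ring
  have h9 : ‖w - k * (Real.pi * Complex.I)‖ ^ 2 ≤ (2 * ‖Complex.sinh w‖) ^ 2 := by
    rw [mul_pow, ← Complex.normSq_eq_norm_sq, ← Complex.normSq_eq_norm_sq, h7, h8]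
    have h10 : w.re ^ 2 ≤ Real.sinh w.re ^ 2 := by
      rw [← sq_abs w.re, ← sq_abs (Real.sinh w.re)]
      exact pow_le_pow_left₀ (abs_nonneg _) h6 2
    have h11 : |w.im - k * Real.pi| ≤ 2 * |Real.sin w.im| := by
      have h12 : |w.im - k * Real.pi| = Real.pi / 2 * (2 / Real.pi * |w.im - k * Real.pi|) := by
        field_simp
      rw [h12]
      have h13 : Real.pi / 2 ≤ 2 := by linarith [Real.pi_le_four]
      calc Real.pi / 2 * (2 / Real.pi * |w.im - k * Real.pi|) ≤ Real.pi / 2 * |Real.sin w.im| :=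
            mul_le_mul_of_nonneg_left h4 (by positivity)
        _ ≤ 2 * |Real.sin w.im| := mul_le_mul_of_nonneg_right h13 (abs_nonneg _)
    have h14 : (w.im - k * Real.pi) ^ 2 ≤ 4 * Real.sin w.im ^ 2 := by
      rw [← sq_abs (w.im - k * Real.pi), ← sq_abs (Real.sin w.im)]
      calc |w.im - k * Real.pi| ^ 2 ≤ (2 * |Real.sin w.im|) ^ 2 := pow_le_pow_left₀ (abs_nonneg _) h11 2
        _ = 4 * |Real.sin w.im| ^ 2 := by ring
    nlinarith [sq_nonneg (Real.sinh w.re)]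
  exact (pow_le_pow_iff_left₀ (norm_nonneg _) (by positivity) (by norm_num)).1 h9

/-- PROOF. `GG_div`: `Im (GG u/u) > 1` eventually. If `Re u = 0` and `Re (GG u) = 0` then `u = I s`, `GG u = I r`, `GG u/u = r/s` is real. -/
theorem not_both_imag : ∀ᶠ u in 𝓝[≠] (0 : ℂ), ¬ (u.re = 0 ∧ (GG u).re = 0) := by
  have h1 : Tendsto (fun u => (GG u / u).im) (𝓝[≠] 0) (𝓝 (Complex.I * (Real.sqrt 3 : ℂ)).im) :=
    (Complex.continuous_im.tendsto _).comp GG_div
  have h2 : (Complex.I * (Real.sqrt 3 : ℂ)).im = Real.sqrt 3 := by simp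
  rw [h2] at h1
  have h3 : (0 : ℝ) < Real.sqrt 3 := by positivity
  filter_upwards [h1.eventually (eventually_gt_nhds h3)] with u hu
  rintro ⟨h4, h5⟩
  rw [Complex.div_im, h4, h5] at hu
  simp at hu

end DHN
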