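import Pool.Agent.DHN.W0a

/-!
# [DHN-W0b] the peripheral lattice near u = 0
-/

set_option autoImplicit false

open Topology Matrix ComplexConjugate Filter

namespace DHN

theorem w0_gamma : ∀ᶠ u in 𝓝[≠] (0 : ℂ), u ≠ 0 ∧ ‖GG u / u - Complex.I * (Real.sqrt 3 : ℂ)‖ ≤ 0.01 := by
  have h1 := GG_div.eventually (Metric.closedBall_mem_nhds (Complex.I * (Real.sqrt 3 : ℂ)) (ε := 0.01) (by norm_num))
  filter_upwards [h1, self_mem_nhdsWithin] with u h2 h3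
  refine ⟨h3, ?_⟩
  have h4 := mem_closedBall_iff_norm.1 h2
  exact h4

/-- PROOF. `GG_div`: eventually `γ = GG u / u` satisfies `‖γ - I √3‖ ≤ 0.01`; `‖i/2 + j γ‖ ≥ ‖i/2 + j I √3‖ - 0.01 |j|`. If `|i| ≤ 8 |j|` it is `≥ 1.72 |j| ≥ (|i| + |j|)/8`; otherwise `≥ |i|/2 - 0.01 |j| ≥ (|i|+|j|)/8`. -/
theorem lattice_lower : ∀ᶠ u in 𝓝[≠] (0 : ℂ), ∀ i j : ℤ,
    ‖u‖ / 8 * (|(i : ℝ)| + |(j : ℝ)|) ≤ ‖(i : ℂ) * (u / 2) + j * GG u‖ := by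
  filter_upwards [w0_gamma] with u hu i j
  obtain ⟨h0, h1⟩ := hu
  have e1 : (i : ℂ) * (u / 2) + j * GG u = u * ((i : ℂ) / 2 + j * (GG u / u)) := by
    field_simp
  rw [e1, norm_mul]
  have h2 : (|(i : ℝ)| + |(j : ℝ)|) / 8 ≤ ‖(i : ℂ) / 2 + j * (GG u / u)‖ := by
    have h3 : (i : ℂ) / 2 + j * (GG u / u) = ((i : ℂ) / 2 + j * (Complex.I * (Real.sqrt 3 : ℂ))) +
        j * (GG u / u - Complex.I * (Real.sqrt 3 : ℂ)) := by ring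
    have h4 : ‖(j : ℂ) * (GG u / u - Complex.I * (Real.sqrt 3 : ℂ))‖ ≤ |(j : ℝ)| * 0.01 := by
      rw [norm_mul, Complex.norm_intCast]
      exact mul_le_mul_of_nonneg_left h1 (abs_nonneg _)
    have h5 : ‖(i : ℂ) / 2 + j * (Complex.I * (Real.sqrt 3 : ℂ))‖ ^ 2 = (i : ℝ) ^ 2 / 4 + 3 * (j : ℝ) ^ 2 := by
      have h6 : (i : ℂ) / 2 + j * (Complex.I * (Real.sqrt 3 : ℂ)) =
          (((i : ℝ) / 2 : ℝ) : ℂ) + (((j : ℝ) * Real.sqrt 3 : ℝ) : ℂ) * Complex.I := by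
        push_cast
        ring
      rw [← Complex.normSq_eq_norm_sq, h6, Complex.normSq_add_mul_I, mul_pow, Real.sq_sqrt (by norm_num)]
      ring
    have h6 : (|(i : ℝ)| + |(j : ℝ)|) / 8 + |(j : ℝ)| * 0.01 ≤
        ‖(i : ℂ) / 2 + j * (Complex.I * (Real.sqrt 3 : ℂ))‖ := by
      have ha := abs_nonneg (i : ℝ)
      have hb := abs_nonneg (j : ℝ)
      refine (pow_le_pow_iff_left₀ (by positivity) (norm_nonneg _) (n := 2) (by norm_num)).1 ?_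
      rw [h5, ← sq_abs (i : ℝ), ← sq_abs (j : ℝ)]
      nlinarith [sq_nonneg (|(i : ℝ)| - |(j : ℝ)|), mul_nonneg ha hb]
    have h7 := norm_sub_norm_le ((i : ℂ) / 2 + j * (Complex.I * (Real.sqrt 3 : ℂ)))
      (-((j : ℂ) * (GG u / u - Complex.I * (Real.sqrt 3 : ℂ))))
    rw [norm_neg, sub_neg_eq_add, ← h3] at h7
    linarith
  calc ‖u‖ / 8 * (|(i : ℝ)| + |(j : ℝ)|) = ‖u‖ * ((|(i : ℝ)| + |(j : ℝ)|) / 8) := by ring
    _ ≤ ‖u‖ * ‖(i : ℂ) / 2 + j * (GG u / u)‖ := mul_le_mul_of_nonneg_left h2 (norm_nonneg _)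

/-- PROOF. `ξ = θ/u`, `γ = GG u/u` near `I √3`; `j = round (Im ξ / Im γ)`, `i = round (2 Re (ξ - j γ))`: the imaginary part of `ξ - j γ - i/2` is at most `Im γ/2 ≤ 0.9`, the real part at most `1/4`. -/
theorem lattice_cover : ∀ᶠ u in 𝓝[≠] (0 : ℂ), ∀ θ : ℂ, ∃ i j : ℤ,
    ‖(i : ℂ) * (u / 2) + j * GG u - θ‖ ≤ 2 * ‖u‖ := by
  filter_upwards [w0_gamma] with u hu θ
  obtain ⟨h0, h1⟩ := hu
  set γ : ℂ := GG u / u with hγ
  set ξ : ℂ := θ / u with hξ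
  have h2 : |γ.im - Real.sqrt 3| ≤ 0.01 := by
    have h3 := (Complex.abs_im_le_norm (γ - Complex.I * (Real.sqrt 3 : ℂ))).trans h1
    have h4 : (γ - Complex.I * (Real.sqrt 3 : ℂ)).im = γ.im - Real.sqrt 3 := by simp
    rwa [h4] at h3
  have h3 : Real.sqrt 3 ≤ 1.74 := by
    rw [Real.sqrt_le_left (by norm_num)]
    norm_num
  have h3' : 1.7 ≤ Real.sqrt 3 := Real.le_sqrt_of_sq_le (by norm_num)
  obtain ⟨h4, h5⟩ := abs_le.1 h2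
  have h6 : 0 < γ.im := by linarith
  refine ⟨round (2 * (ξ - (round (ξ.im / γ.im) : ℤ) * γ).re), round (ξ.im / γ.im), ?_⟩
  set j : ℤ := round (ξ.im / γ.im) with hj
  set i : ℤ := round (2 * (ξ - (j : ℂ) * γ).re) with hi
  have e1 : (i : ℂ) * (u / 2) + j * GG u - θ = -(u * (ξ - (j : ℂ) * γ - (i : ℂ) / 2)) := by
    rw [hγ, hξ]
    field_simp
    ring
  rw [e1, norm_neg, norm_mul, mul_comm]
  refine mul_le_mul_of_nonneg_right ?_ (norm_nonneg _)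
  have h7 : |(ξ - (j : ℂ) * γ - (i : ℂ) / 2).im| ≤ 0.9 := by
    have h8 : (ξ - (j : ℂ) * γ - (i : ℂ) / 2).im = (ξ.im / γ.im - j) * γ.im := by
      simp
      field_simp
    have h9 : |ξ.im / γ.im - j| ≤ 1 / 2 := abs_sub_round _
    rw [h8, abs_mul, abs_of_pos h6]
    nlinarith [abs_nonneg (ξ.im / γ.im - j)]
  have h10 : |(ξ - (j : ℂ) * γ - (i : ℂ) / 2).re| ≤ 1 / 4 := by
    have h8 : (ξ - (j : ℂ) * γ - (i : ℂ) / 2).re = (2 * (ξ - (j : ℂ) * γ).re - i) / 2 := by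
      have h11 : ((i : ℂ) / 2).re = (i : ℝ) / 2 := by simp
      rw [Complex.sub_re, h11]
      ring
    have h9 : |2 * (ξ - (j : ℂ) * γ).re - i| ≤ 1 / 2 := abs_sub_round _
    rw [h8, abs_div, abs_of_pos (by norm_num : (0 : ℝ) < 2)]
    linarith
  have h11 := Complex.norm_le_abs_re_add_abs_im (ξ - (j : ℂ) * γ - (i : ℂ) / 2)
  linarith

end DHN
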