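import Pool.Agent.DHN.W0a
import Pool.Agent.DHN.W0b
import Pool.Agent.DHN.R7

/-!
# [DHN-W1a] the filled case: triviality on NN n and hypothesis (h5)
-/

set_option autoImplicit false

open Topology Matrix ComplexConjugate Filter

namespace DHN

/-- the normal closure of the filling slope `x^(49 n) l^7` -/
def NN (n : ℕ) : Subgroup E := Subgroup.normalClosure {pel (49 * n) 7}

/-- a sequence of solutions of the Dehn filling equations -/
def Sol (u : ℕ → ℂ) : Prop := Tendsto u atTop (𝓝 0) ∧ ∀ᶠ j in atTop, u j ≠ 0 ∧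
    (49 * j : ℂ) * (u j / 2) + 7 * GG (u j) = Real.pi * Complex.I

/-- PROOF. `pel_form` at `u n`, `(i, j) = (49 n, 7)`: `th = π I`, `(-1)^7 e^{π I} = 1`: diagonal entries `1`, `aa * b = - sinh (π I) = 0`, `aa ≠ 0` (`aa_bounds`), so `rho (u n) (pel (49 n) 7) = 1`; the kernel is normal (`Subgroup.normalClosure_le_normal`). -/
theorem filled_triv (u : ℕ → ℂ) (hu : Sol u) : ∀ᶠ n in atTop, ∀ k ∈ NN n, rho (u n) k = 1 := by
  obtain ⟨h0, h1⟩ := hu
  have hne : ∀ᶠ n in atTop, u n ≠ 0 := h1.mono fun n hn => hn.1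
  have h2 : Tendsto u atTop (𝓝[≠] 0) := tendsto_nhdsWithin_iff.2 ⟨h0, hne⟩
  filter_upwards [h1, h0.eventually pel_form, h2.eventually aa_bounds] with n hn hp ha
  obtain ⟨p1, p2, p3⟩ := hp (49 * n) 7
  have hth : ((49 * n : ℤ) : ℂ) * (u n / 2) + ((7 : ℤ) : ℂ) * GG (u n) = Real.pi * Complex.I := by
    rw [← hn.2]
    push_cast
    ring
  rw [hth] at p1 p2 p3
  have haa : aa (u n) ≠ 0 := by
    intro h
    have h3 := ha.1
    rw [h, norm_zero] at h3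
    have h4 := norm_pos_iff.2 hn.1
    linarith
  have hone : rho (u n) (pel (49 * n) 7) = 1 := by
    obtain ⟨q1, -, -, -⟩ := pel_upper (u n) (49 * n) 7
    have e1 : Complex.exp (Real.pi * Complex.I) = -1 := Complex.exp_pi_mul_I
    have e2 : Complex.exp (-(Real.pi * Complex.I)) = -1 := by
      rw [Complex.exp_neg, e1]
      norm_num
    have e3 : Complex.sinh (Real.pi * Complex.I) = 0 := by
      rw [Complex.sinh_mul_I, Complex.sin_pi, zero_mul]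
    have e7 : ((-1 : ℂ) ^ (7 : ℤ)) = -1 := by norm_num
    rw [e1, e7] at p1
    rw [e2, e7] at p2
    rw [e3, mul_zero] at p3
    have p4 := (mul_eq_zero.1 p3).resolve_left haa
    apply Subtype.ext
    ext s t
    fin_cases s <;> fin_cases t
    · simpa using p1
    · simpa using p4
    · simpa using q1
    · simpa using p2
  have hle : NN n ≤ (rho (u n)).ker := by
    apply Subgroup.normalClosure_le_normal
    rintro g hg
    rw [Set.mem_singleton_iff] at hg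
    rw [hg]
    exact hone
  intro k hk
  exact hle hk

/-- PROOF. `pel_form`: if the `(0,1)` entry `b` of `rho (pel i j)` has `‖b‖ ≤ δ`, `δ ≥ 0`, then `‖sinh θ‖ ≤ δ ‖aa‖ ≤ δ ‖u‖` with `θ = i u/2 + j GG`; `sinh_small`: `‖θ - kπI‖ ≤ 2 δ ‖u‖`; `πI = 49 n u/2 + 7 GG` (`Sol`), so with `i' = i - 49 n k`, `j' = j - 7 k`: `‖i' u/2 + j' GG‖ ≤ 2δ‖u‖` and `lattice_lower`: `|i'| + |j'| ≤ 16 δ`.
`pel i j = pel i' j' * (pel (49 n) 7)^k`. -/
theorem filled_reduce (u : ℕ → ℂ) (hu : Sol u) : ∀ᶠ n in atTop, ∀ (δ : ℝ) (i j : ℤ),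
    ‖(rho (u n) (pel i j)) 0 1‖ ≤ δ → ∃ i' j' k : ℤ, |(i' : ℝ)| + |(j' : ℝ)| ≤ 16 * δ ∧
      i = i' + 49 * n * k ∧ j = j' + 7 * k := by
  obtain ⟨h0, h1⟩ := hu
  have hne : ∀ᶠ n in atTop, u n ≠ 0 := h1.mono fun n hn => hn.1
  have h2 : Tendsto u atTop (𝓝[≠] 0) := tendsto_nhdsWithin_iff.2 ⟨h0, hne⟩
  filter_upwards [h1, h0.eventually pel_form, h2.eventually aa_bounds, h2.eventually lattice_lower] with n hn hp ha hl
  intro δ i j hb
  obtain ⟨-, -, p3⟩ := hp i j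
  set θ : ℂ := (i : ℂ) * (u n / 2) + j * GG (u n) with hθ
  have hu0 : 0 < ‖u n‖ := norm_pos_iff.2 hn.1
  have hs : ‖Complex.sinh θ‖ ≤ ‖u n‖ * δ := by
    have e1 : ‖(-1 : ℂ) ^ j * Complex.sinh θ‖ = ‖Complex.sinh θ‖ := by
      rw [norm_mul, norm_zpow, norm_neg, norm_one, _root_.one_zpow, one_mul]
    rw [← e1, ← p3, norm_mul]
    exact mul_le_mul ha.2 hb (norm_nonneg _) (norm_nonneg _)
  obtain ⟨k, hk⟩ := sinh_small θ
  refine ⟨i - 49 * n * k, j - 7 * k, k, ?_, by ring, by ring⟩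
  have h3 := hl (i - 49 * n * k) (j - 7 * k)
  have e2 : ((i - 49 * n * k : ℤ) : ℂ) * (u n / 2) + ((j - 7 * k : ℤ) : ℂ) * GG (u n) = θ - k * (Real.pi * Complex.I) := by
    rw [← hn.2, hθ]
    push_cast
    ring
  rw [e2] at h3
  have h4 : ‖u n‖ / 8 * (|((i - 49 * n * k : ℤ) : ℝ)| + |((j - 7 * k : ℤ) : ℝ)|) ≤ 2 * (‖u n‖ * δ) :=
    h3.trans (hk.trans (mul_le_mul_of_nonneg_left hs (by norm_num)))
  have h5 : ‖u n‖ * (|((i - 49 * n * k : ℤ) : ℝ)| + |((j - 7 * k : ℤ) : ℝ)|) ≤ ‖u n‖ * (16 * δ) := by linarith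
  exact le_of_mul_le_mul_left h5 hu0

/-- PROOF. `filled_reduce` with `δ = C`; `Q` = all `(i', j')` with `|i'|, |j'| ≤ 16 C`; `k = (pel (49 n) 7)^k ∈ NN n` (`pel_mul`, `pel_zpow`, `Subgroup.subset_normalClosure`). -/
theorem filled_h5 (u : ℕ → ℂ) (hu : Sol u) : ∀ C : ℝ, ∃ Q : Finset (ℤ × ℤ), ∀ᶠ n in atTop, ∀ i j : ℤ,
    (∀ s t, ‖(rho (u n) (pel i j)) s t‖ ≤ C) → ∃ p ∈ Q, ∃ k ∈ NN n, pel i j = pel p.1 p.2 * k := by
  intro C
  refine ⟨Finset.Icc (-⌊16 * C⌋) ⌊16 * C⌋ ×ˢ Finset.Icc (-⌊16 * C⌋) ⌊16 * C⌋, ?_⟩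
  filter_upwards [filled_reduce u hu] with n hn
  intro i j hij
  obtain ⟨i', j', k, h1, h2, h3⟩ := hn C i j (hij 0 1)
  refine ⟨(i', j'), ?_, pel (49 * n) 7 ^ k, ?_, ?_⟩
  · have a1 := abs_nonneg (i' : ℝ)
    have a2 := abs_nonneg (j' : ℝ)
    have b1 : |(i' : ℝ)| ≤ 16 * C := by linarith
    have b2 : |(j' : ℝ)| ≤ 16 * C := by linarith
    rw [abs_le] at b1 b2
    rw [Finset.mem_product, Finset.mem_Icc, Finset.mem_Icc]
    refine ⟨⟨?_, Int.le_floor.2 b1.2⟩, ⟨?_, Int.le_floor.2 b2.2⟩⟩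
    · rw [neg_le]
      apply Int.le_floor.2
      push_cast
      linarith
    · rw [neg_le]
      apply Int.le_floor.2
      push_cast
      linarith
  · exact Subgroup.zpow_mem _ (Subgroup.subset_normalClosure (Set.mem_singleton _)) k
  · rw [pel_zpow, pel_mul, h2, h3]
    congr 1 <;> ring

/-- PROOF. `filled_reduce` with `δ = 1/32`: `|i'| + |j'| ≤ 1/2`, so `i' = j' = 0`. -/
theorem filled_isolated (u : ℕ → ℂ) (hu : Sol u) : ∀ᶠ n in atTop, ∀ i j : ℤ,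
    ‖(rho (u n) (pel i j)) 0 1‖ ≤ 1 / 32 → pel i j ∈ NN n := by
  filter_upwards [filled_reduce u hu] with n hn
  intro i j hij
  obtain ⟨i', j', k, h1, h2, h3⟩ := hn (1 / 32) i j hij
  have a1 := abs_nonneg (i' : ℝ)
  have a2 := abs_nonneg (j' : ℝ)
  have hz : ∀ m : ℤ, |(m : ℝ)| ≤ 1 / 2 → m = 0 := by
    intro m hm
    by_contra h0
    have h4 : (1 : ℤ) ≤ |m| := Int.one_le_abs h0
    have h5 : (1 : ℝ) ≤ |(m : ℝ)| := by exact_mod_cast h4
    linarith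
  have hi : i' = 0 := hz i' (by linarith)
  have hj : j' = 0 := hz j' (by linarith)
  have e : pel i j = pel (49 * n) 7 ^ k := by
    rw [pel_zpow, h2, h3, hi, hj]
    congr 1 <;> ring
  rw [e]
  exact Subgroup.zpow_mem _ (Subgroup.subset_normalClosure (Set.mem_singleton _)) k

end DHN
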