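import Pool.Agent.DHN.W1a
import Pool.Agent.DHN.F5

/-!
# [DHN-W1b] the filled case: elliptic peripheral elements
-/

set_option autoImplicit false

open Topology Matrix ComplexConjugate Filter

namespace DHN

theorem w1b_re (u : ℕ → ℂ) (hu : Sol u) : ∀ᶠ n in atTop, (u n).re ≠ 0 := by
  have hne : ∀ᶠ n in atTop, u n ≠ 0 := hu.2.mono (fun n h => h.1)
  have ht : Tendsto u atTop (𝓝[≠] 0) :=
    tendsto_nhdsWithin_iff.2 ⟨hu.1, hne⟩
  filter_upwards [hu.2, ht.eventually not_both_imag] with n h1 h2 h3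
  apply h2
  refine ⟨h3, ?_⟩
  have h4 := congrArg Complex.re h1.2
  have h5 : (49 * (n : ℂ) * (u n / 2)).re = 49 * n * ((u n).re / 2) := by
    have : (49 * (n : ℂ) * (u n / 2)) = ((49 * n / 2 : ℝ) : ℂ) * u n := by
      push_cast
      ring
    rw [this, Complex.re_ofReal_mul]
    ring
  have h6 : (7 * GG (u n)).re = 7 * (GG (u n)).re := by
    have : (7 * GG (u n)) = ((7 : ℝ) : ℂ) * GG (u n) := by push_cast; ring
    rw [this, Complex.re_ofReal_mul]
  have h7 : (((Real.pi : ℝ) : ℂ) * Complex.I).re = 0 := by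
    rw [Complex.re_ofReal_mul, Complex.I_re, mul_zero]
  rw [Complex.add_re, h5, h6, h7, h3] at h4
  linarith

/-- PROOF. `pel_form` and `smul_upper` (`F5.lean`): a fixed point gives `normSq d00 = 1`, so `Re θ = 0`, `θ = i u/2 + j GG`. `7 θ - j π I = (7 i - 49 n j) u/2`, so `(7 i - 49 n j) Re u = 0`. If `Re u = 0` then `Re GG = 0` by the equation: excluded (`not_both_imag`). So `7 i = 49 n j`. -/
theorem filled_elliptic (u : ℕ → ℂ) (hu : Sol u) : ∀ᶠ n in atTop, ∀ i j : ℤ,
    (∃ y : H3, rho (u n) (pel i j) • y = y) → i = 7 * n * j := by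
  filter_upwards [hu.2, w1b_re u hu, hu.1.eventually pel_form] with n h1 h2 h3 i j hy
  obtain ⟨y, hy⟩ := hy
  have hup := (pel_upper (u n) i j).1
  have hs := (smul_upper _ y hup).2
  rw [hy] at hs
  have hypos := y.2
  have hn1 : Complex.normSq ((rho (u n) (pel i j)) 0 0) = 1 := by
    have : Complex.normSq ((rho (u n) (pel i j)) 0 0) * y.1.2 = 1 * y.1.2 := by linarith
    exact mul_right_cancel₀ hypos.ne' this
  rw [(h3 i j).1, map_mul, Complex.normSq_eq_norm_sq, Complex.normSq_eq_norm_sq, norm_zpow,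
    norm_neg, norm_one, _root_.one_zpow, one_pow, one_mul, Complex.norm_exp] at hn1
  have hre : ((i : ℂ) * (u n / 2) + j * GG (u n)).re = 0 := by
    have h4 : Real.exp ((i : ℂ) * (u n / 2) + j * GG (u n)).re = 1 := by
      have hp := Real.exp_pos ((i : ℂ) * (u n / 2) + j * GG (u n)).re
      nlinarith
    exact (Real.exp_eq_one_iff _).1 h4
  have h5 : (7 : ℂ) * ((i : ℂ) * (u n / 2) + j * GG (u n)) - j * (Real.pi * Complex.I) =
      (((7 * i - 49 * n * j : ℤ) : ℝ) : ℂ) * (u n / 2) := by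
    rw [← h1.2]
    push_cast
    ring
  have h6 := congrArg Complex.re h5
  have h7 : ((7 : ℂ) * ((i : ℂ) * (u n / 2) + j * GG (u n))).re = 0 := by
    have : ((7 : ℂ) * ((i : ℂ) * (u n / 2) + j * GG (u n))) =
        ((7 : ℝ) : ℂ) * ((i : ℂ) * (u n / 2) + j * GG (u n)) := by push_cast; ring
    rw [this, Complex.re_ofReal_mul, hre, mul_zero]
  have h8 : ((j : ℂ) * (Real.pi * Complex.I)).re = 0 := by
    have : ((j : ℂ) * (Real.pi * Complex.I)) = ((j * Real.pi : ℝ) : ℂ) * Complex.I := by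
      push_cast; ring
    rw [this, Complex.re_ofReal_mul, Complex.I_re, mul_zero]
  have h9 : (u n / 2).re = (u n).re / 2 := by
    have : u n / 2 = ((1 / 2 : ℝ) : ℂ) * u n := by push_cast; ring
    rw [this, Complex.re_ofReal_mul]
    ring
  rw [Complex.sub_re, h7, h8, Complex.re_ofReal_mul, h9] at h6
  have h10 : ((7 * i - 49 * n * j : ℤ) : ℝ) = 0 := by
    have h11 : ((7 * i - 49 * n * j : ℤ) : ℝ) * ((u n).re / 2) = 0 := by linarith
    rcases mul_eq_zero.1 h11 with h | h
    · exact h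
    · exact absurd (by linarith : (u n).re = 0) h2
  have h12 : (7 * i - 49 * n * j : ℤ) = 0 := by exact_mod_cast h10
  linarith

/-- PROOF. `Re u = 0` would give `Re GG = 0` (the equation), excluded (`not_both_imag`); `MX` has `(0,0)` entry `exp (u/2)`, of modulus `exp (Re u/2)`. -/
theorem filled_re_ne (u : ℕ → ℂ) (hu : Sol u) : ∀ᶠ n in atTop, (u n).re ≠ 0 :=
  w1b_re u hu

end DHN
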