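import Pool.Agent.DHN.W1a
import Pool.Agent.DHN.F5

/-!
# [DHN-W2] the filled case: hypothesis (h6)
-/

set_option autoImplicit false

open Topology Matrix ComplexConjugate Filter

namespace DHN

/-- PROOF. `FF u y = |1+2az|^2/t^2 + 4|a|^2` (`FF_formula`), `1.6 ≤ FF < 2` and `4|a|^2 ≤ 0.001`: `w = 1 + 2az ≠ 0` and `t0 = t/|w| ∈ [0.7071, 0.7907]`. `θ0 = -Log(w)/2`: `e^{2θ0} w = 1`. `lattice_cover`: `θ = i u/2 + j GG = θ0 + η`, `‖η‖ ≤ 2‖u‖`. By `pel_form`, `smul_upper`: with `d = (-1)^j e^θ`, `b = (-1)^j sinh θ/a`: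
`z' = d^2 z + d b = (e^{2θ}(1 + 2az) - 1)/(2a) = (e^{2η} - 1)/(2a)`, `‖z'‖ ≤ 2‖2η‖/(2‖a‖) ≤ 8‖u‖/(2 ‖u‖/4) = 16` (for `‖u‖` small, `‖e^w - 1‖ ≤ 2‖w‖`), `t' = |e^{2θ}| t = |e^{2η}| t0 ∈ [0.7, 0.8]` for `‖u‖` small. `R = 16`. -/
theorem filled_h6 (u : ℕ → ℂ) (hu : Sol u) : ∃ R : ℝ, ∀ᶠ n in atTop, ∀ y : H3, 1.6 ≤ FF (u n) y →
    FF (u n) y < 2 → ∃ i j : ℤ, rho (u n) (pel i j) • y ∈ KK R 0.7 0.8 := by
  have hne : Tendsto u atTop (𝓝[≠] 0) :=
    tendsto_nhdsWithin_iff.2 ⟨hu.1, hu.2.mono (fun _ h => h.1)⟩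
  have hsm : ∀ᶠ n in atTop, ‖u n‖ ≤ 1 / 2000 := by
    have h1 : Tendsto (fun n => ‖u n‖) atTop (𝓝 0) := by
      have := hu.1.norm
      simpa using this
    exact h1.eventually (ge_mem_nhds (by norm_num))
  refine ⟨16, ?_⟩
  filter_upwards [hsm, hne.eventually aa_bounds, hu.1.eventually pel_form,
    hne.eventually lattice_cover, hu.2] with n hs hab hpf hlc hn0
  intro y hy1 hy2
  obtain ⟨hv0, -⟩ := hn0
  generalize u n = v at *
  obtain ⟨ha1, ha2⟩ := hab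
  have hvpos : 0 < ‖v‖ := norm_pos_iff.2 hv0
  have hapos : 0 < ‖aa v‖ := by linarith
  have ha0 : aa v ≠ 0 := norm_pos_iff.1 hapos
  rw [FF_formula] at hy1 hy2
  have hyt := y.2
  set t := y.1.2 with ht
  set z := y.1.1 with hz
  set w := 1 + 2 * aa v * z with hw
  have hna : 4 * Complex.normSq (aa v) ≤ 0.00001 := by
    rw [Complex.normSq_eq_norm_sq]
    have h1 : ‖aa v‖ ≤ 1 / 2000 := le_trans ha2 hs
    nlinarith [norm_nonneg (aa v)]
  have hna0 : 0 ≤ 4 * Complex.normSq (aa v) := by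
    have := Complex.normSq_nonneg (aa v)
    linarith
  have hq1 : 1.5999 ≤ Complex.normSq w / t ^ 2 := by
    norm_num at hy1 hna ⊢
    linarith
  have hq2 : Complex.normSq w / t ^ 2 ≤ 2 := by linarith
  have ht2 : 0 < t ^ 2 := by positivity
  rw [le_div_iff₀ ht2] at hq1
  rw [div_le_iff₀ ht2] at hq2
  rw [Complex.normSq_eq_norm_sq] at hq1 hq2
  have hwpos : 0 < ‖w‖ := by
    by_contra hcon
    have h0 : ‖w‖ = 0 := le_antisymm (not_lt.1 hcon) (norm_nonneg _)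
    rw [h0] at hq1
    norm_num at hq1
    nlinarith
  have hw0 : w ≠ 0 := norm_pos_iff.1 hwpos
  -- bounds for `t / ‖w‖`
  have hup : t ≤ 0.7907 * ‖w‖ := by
    by_contra hcon
    push Not at hcon
    have h1 : (0.7907 * ‖w‖) ^ 2 < t ^ 2 := by
      have h0 : 0 ≤ 0.7907 * ‖w‖ := by positivity
      nlinarith
    norm_num at h1 hq1 hcon
    nlinarith
  have hlo : 0.7071 * ‖w‖ ≤ t := by
    by_contra hcon
    push Not at hcon
    have h1 : t ^ 2 < (0.7071 * ‖w‖) ^ 2 := by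
      nlinarith
    norm_num at h1 hq2 hcon
    nlinarith
  obtain ⟨i, j, hij⟩ := hlc (-(Complex.log w / 2))
  refine ⟨i, j, ?_⟩
  obtain ⟨hd0, -, hb⟩ := hpf i j
  obtain ⟨h10, -, -, -⟩ := pel_upper v i j
  obtain ⟨hz', ht'⟩ := smul_upper (rho v (pel i j)) y h10
  set θ := (i : ℂ) * (v / 2) + j * GG v with hθ
  set η := θ - -(Complex.log w / 2) with hη
  have hηn : ‖2 * η‖ ≤ 4 * ‖v‖ := by
    rw [norm_mul]
    norm_num
    linarith
  have hηn1 : ‖2 * η‖ ≤ 1 := by linarith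
  have hexp := Complex.norm_exp_sub_one_le hηn1
  have hexp2 : ‖Complex.exp (2 * η) - 1‖ ≤ 8 * ‖v‖ := by linarith
  have h2θ : Complex.exp (2 * θ) * w = Complex.exp (2 * η) := by
    have h1 : 2 * η = 2 * θ + Complex.log w := by
      rw [hη]
      ring
    rw [h1, Complex.exp_add, Complex.exp_log hw0]
  have hsign : ((-1 : ℂ) ^ j) * ((-1 : ℂ) ^ j) = 1 := by
    rw [← zpow_add₀ (by norm_num : (-1 : ℂ) ≠ 0)]
    have : j + j = 2 * j := by ring
    rw [this, _root_.zpow_mul]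
    norm_num
  have hdd : ((rho v (pel i j)) 0 0) ^ 2 = Complex.exp (2 * θ) := by
    rw [hd0, mul_pow, sq, hsign, one_mul, ← Complex.exp_nat_mul]
    norm_num
  have hdb : 2 * aa v * ((rho v (pel i j)) 0 0 * (rho v (pel i j)) 0 1) = Complex.exp (2 * θ) - 1 := by
    have h1 : 2 * aa v * ((rho v (pel i j)) 0 0 * (rho v (pel i j)) 0 1) =
        2 * ((rho v (pel i j)) 0 0 * (aa v * (rho v (pel i j)) 0 1)) := by ring
    rw [h1, hd0, hb]
    have h2 : 2 * ((-1 : ℂ) ^ j * Complex.exp θ * ((-1 : ℂ) ^ j * Complex.sinh θ)) =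
        ((-1 : ℂ) ^ j * (-1 : ℂ) ^ j) * (Complex.exp θ * (2 * Complex.sinh θ)) := by ring
    rw [h2, hsign, one_mul, Complex.two_sinh, mul_sub, ← Complex.exp_add, ← Complex.exp_add]
    congr 1
    · congr 1
      ring
    · rw [add_neg_cancel, Complex.exp_zero]
  have hzz : 2 * aa v * (rho v (pel i j) • y).1.1 = Complex.exp (2 * η) - 1 := by
    rw [hz', hdd, mul_add, hdb, ← h2θ, hw]
    ring
  refine ⟨?_, ?_, ?_⟩
  · have h1 : ‖2 * aa v‖ * ‖(rho v (pel i j) • y).1.1‖ ≤ 8 * ‖v‖ := by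
      rw [← norm_mul, hzz]
      exact hexp2
    have h2 : ‖2 * aa v‖ = 2 * ‖aa v‖ := by
      rw [norm_mul]
      norm_num
    rw [h2] at h1
    by_contra hcon
    push Not at hcon
    nlinarith
  all_goals
    have hnd : Complex.normSq ((rho v (pel i j)) 0 0) * ‖w‖ = ‖Complex.exp (2 * η)‖ := by
      rw [← h2θ, norm_mul, ← hdd, norm_pow, Complex.normSq_eq_norm_sq]
    have hE1 : ‖Complex.exp (2 * η)‖ ≤ 1 + 8 * ‖v‖ := by
      have h1 : Complex.exp (2 * η) = 1 + (Complex.exp (2 * η) - 1) := by ring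
      calc ‖Complex.exp (2 * η)‖ = ‖1 + (Complex.exp (2 * η) - 1)‖ := by rw [← h1]
        _ ≤ ‖(1 : ℂ)‖ + ‖Complex.exp (2 * η) - 1‖ := norm_add_le _ _
        _ ≤ 1 + 8 * ‖v‖ := by
            rw [norm_one]
            linarith
    have hE2 : 1 - 8 * ‖v‖ ≤ ‖Complex.exp (2 * η)‖ := by
      have h1 : (1 : ℂ) = Complex.exp (2 * η) - (Complex.exp (2 * η) - 1) := by ring
      have h2 : ‖(1 : ℂ)‖ ≤ ‖Complex.exp (2 * η)‖ + ‖Complex.exp (2 * η) - 1‖ := by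
        conv_lhs => rw [h1]
        exact norm_sub_le _ _
      rw [norm_one] at h2
      linarith
    have hN0 : 0 ≤ Complex.normSq ((rho v (pel i j)) 0 0) := Complex.normSq_nonneg _
    rw [ht', ← ht]
    rw [← hnd] at hE1 hE2
    have hmul1 := mul_le_mul_of_nonneg_left hup hN0
    have hmul2 := mul_le_mul_of_nonneg_left hlo hN0
    norm_num at hmul1 hmul2 hs ⊢
    nlinarith

theorem hyp_filled (u : ℕ → ℂ) (hu : Sol u) : Hyp atTop u NN where
  tend := hu.1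
  normal _ := Subgroup.normalClosure_normal
  triv := filled_triv u hu
  h5 := filled_h5 u hu
  h6 := filled_h6 u hu

end DHN
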