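import Pool.Agent.DHN.W2
import Pool.Agent.DHN.T13
import Pool.Agent.DHN.V0

/-!
# [DHN-W3a] the filled case: kernel, discreteness
-/

set_option autoImplicit false

open Topology Matrix ComplexConjugate Filter

namespace DHN

/-- the point above `0` of height `t` -/
def w3a_yh (t : ℝ) (ht : 0 < t) : H3 := ⟨(0, t), ht⟩

theorem w3a_three_pos : (0 : ℝ) < 3 := by norm_num

theorem w3a_FF_yh (u : ℂ) (t : ℝ) (ht : 0 < t) : FF u (w3a_yh t ht) = 1 / t ^ 2 + 4 * Complex.normSq (aa u) := by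
  rw [FF_formula]
  unfold w3a_yh
  simp

theorem w3a_four_normSq (u : ℂ) (h : ‖aa u‖ ≤ 1 / 100) : 4 * Complex.normSq (aa u) ≤ 0.001 := by
  rw [Complex.normSq_eq_norm_sq]
  have h0 := norm_nonneg (aa u)
  nlinarith

theorem w3a_aa_small (u : ℕ → ℂ) (hu : Sol u) : ∀ᶠ n in atTop, ‖aa (u n)‖ ≤ 1 / 100 := by
  have h1 : Tendsto (fun n => ‖aa (u n)‖) atTop (𝓝 0) := by
    have := (aa_tendsto.comp hu.1).norm
    simpa using this
  exact h1.eventually (ge_mem_nhds (by norm_num))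

theorem w3a_det_e1_eq (M : SL2C) : det2 e1 (M.1.mulVec e1) = M 1 0 := by
  unfold det2 e1
  simp [Matrix.mulVec, dotProduct, Fin.sum_univ_two]

theorem w3a_FF_near (u : ℂ) (h : ‖aa u‖ ≤ 1 / 100) (M : SL2C)
    (hM : ∀ i j, ‖M i j - (1 : SL2C) i j‖ < 1 / 32) : FF u (M • w3a_yh 3 w3a_three_pos) < 0.9 := by
  have h00 := hM 0 0
  have h01 := hM 0 1
  have h10 := hM 1 0
  have h11 := hM 1 1
  simp only [Matrix.SpecialLinearGroup.coe_one, Matrix.one_apply, Fin.reduceEq, if_false,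
    if_true, sub_zero] at h00 h01 h10 h11
  have n00 : ‖M 0 0‖ ≤ 33 / 32 := by
    have h1 : M 0 0 = 1 + (M 0 0 - 1) := by ring
    calc ‖M 0 0‖ = ‖1 + (M 0 0 - 1)‖ := by rw [← h1]
      _ ≤ ‖(1 : ℂ)‖ + ‖M 0 0 - 1‖ := norm_add_le _ _
      _ ≤ 33 / 32 := by
        rw [norm_one]
        linarith
  have n11 : ‖M 1 1‖ ≤ 33 / 32 := by
    have h1 : M 1 1 = 1 + (M 1 1 - 1) := by ring
    calc ‖M 1 1‖ = ‖1 + (M 1 1 - 1)‖ := by rw [← h1]
      _ ≤ ‖(1 : ℂ)‖ + ‖M 1 1 - 1‖ := norm_add_le _ _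
      _ ≤ 33 / 32 := by
        rw [norm_one]
        linarith
  have k1 : q (M • w3a_yh 3 w3a_three_pos) e1 = (‖M 1 1‖ ^ 2 + 9 * ‖M 1 0‖ ^ 2) / 3 := by
    rw [q_smul_inv]
    unfold q w3a_yh e1
    simp only [Matrix.SpecialLinearGroup.coe_inv, Matrix.adjugate_fin_two, Matrix.mulVec,
      dotProduct, Fin.sum_univ_two, Matrix.of_apply, Matrix.cons_val_zero, Matrix.cons_val_one,
      Complex.normSq_eq_norm_sq]
    norm_num
  have k2 : q (M • w3a_yh 3 w3a_three_pos) (ep u) =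
      (‖M 1 1 + 2 * (M 0 1 * aa u)‖ ^ 2 + 9 * ‖M 1 0 + 2 * (M 0 0 * aa u)‖ ^ 2) / 3 := by
    rw [q_smul_inv]
    unfold q w3a_yh ep
    simp only [Matrix.SpecialLinearGroup.coe_inv, Matrix.adjugate_fin_two, Matrix.mulVec,
      dotProduct, Fin.sum_univ_two, Matrix.of_apply, Matrix.cons_val_zero, Matrix.cons_val_one,
      Complex.normSq_eq_norm_sq]
    have e1 : M 1 1 * 1 + -M 0 1 * (-2 * aa u) - 0 * (-M 1 0 * 1 + M 0 0 * (-2 * aa u)) =
      M 1 1 + 2 * (M 0 1 * aa u) := by ring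
    have e2 : -M 1 0 * 1 + M 0 0 * (-2 * aa u) = -(M 1 0 + 2 * (M 0 0 * aa u)) := by ring
    rw [e1, e2, norm_neg]
    norm_num
  have m1 : ‖M 1 1 + 2 * (M 0 1 * aa u)‖ ≤ 33 / 32 + 1 / 100 := by
    refine le_trans (norm_add_le _ _) ?_
    rw [norm_mul, norm_mul, Complex.norm_ofNat]
    nlinarith [norm_nonneg (M 0 1), norm_nonneg (aa u)]
  have m2 : ‖M 1 0 + 2 * (M 0 0 * aa u)‖ ≤ 1 / 16 := by
    refine le_trans (norm_add_le _ _) ?_
    rw [norm_mul, norm_mul, Complex.norm_ofNat]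
    nlinarith [norm_nonneg (M 0 0), norm_nonneg (aa u)]
  have b1 : q (M • w3a_yh 3 w3a_three_pos) e1 ≤ 1 / 2 := by
    rw [k1]
    nlinarith [norm_nonneg (M 1 1), norm_nonneg (M 1 0)]
  have b2 : q (M • w3a_yh 3 w3a_three_pos) (ep u) ≤ 1 := by
    rw [k2]
    nlinarith [norm_nonneg (M 1 1 + 2 * (M 0 1 * aa u)), norm_nonneg (M 1 0 + 2 * (M 0 0 * aa u))]
  have c1 := q_nonneg (M • w3a_yh 3 w3a_three_pos) e1
  have c2 := q_nonneg (M • w3a_yh 3 w3a_three_pos) (ep u)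
  unfold FF
  norm_num
  nlinarith

/-- PROOF. `y0 = (0,1)`: `FF = 1 + 4|a|^2 < 2`; `rho g • y0 = y0`, so `Adj (NN n) g` (`Good.adj`). `g k = pel i j`: `rho (pel i j) = 1` (`k ∈ NN n`, `filled_triv`), `filled_isolated`: `pel i j ∈ NN n`, `g ∈ NN n`. `g k = p1 (ga a) p2`: `rho (ga a)` is a product of upper triangular matrices, so its `(1,0)` entry `= det2 e1 (rho (ga a) e1)` is `0`,
contradiction to `Good.det`. -/
theorem filled_kernel (u : ℕ → ℂ) (hu : Sol u) : ∀ᶠ n in atTop, ∀ g : E, rho (u n) g = 1 → g ∈ NN n := by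
  filter_upwards [theoremT atTop u NN (hyp_filled u hu), filled_triv u hu, filled_isolated u hu,
    w3a_aa_small u hu] with n hgood htriv hiso hsm
  intro g hg
  have hf0 : FF (u n) (w3a_yh 1 one_pos) < 2 := by
    rw [w3a_FF_yh]
    have := w3a_four_normSq _ hsm
    norm_num at this ⊢
    linarith
  have hf1 : FF (u n) (rho (u n) g • w3a_yh 1 one_pos) < 2 := by
    rw [hg, one_smul]
    exact hf0
  obtain ⟨k, hk, h⟩ := hgood.adj g _ hf0 hf1
  rcases h with ⟨i, j, hij⟩ | ⟨a, i, j, i', j', hij⟩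
  · have h1 : rho (u n) (pel i j) = 1 := by
      rw [← hij, map_mul, hg, htriv k hk, one_mul]
    have h2 : pel i j ∈ NN n := by
      apply hiso
      rw [h1]
      simp
    have h3 : g = pel i j * k⁻¹ := by
      rw [← hij]
      group
    rw [h3]
    exact (NN n).mul_mem h2 ((NN n).inv_mem hk)
  · exfalso
    have h1 : rho (u n) (pel i j * ga a * pel i' j') = 1 := by
      rw [← hij, map_mul, hg, htriv k hk, one_mul]
    have h2 : ga a = (pel i j)⁻¹ * (pel i j * ga a * pel i' j') * (pel i' j')⁻¹ := by group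
    have h3 : rho (u n) (ga a) = rho (u n) (pel (-i + -i') (-j + -j')) := by
      rw [h2, map_mul, map_mul, h1, mul_one, ← map_mul, pel_inv, pel_inv, pel_mul]
    have h4 := (pel_upper (u n) (-i + -i') (-j + -j')).1
    rw [← h3] at h4
    have h5 := hgood.det a
    rw [w3a_det_e1_eq, h4] at h5
    norm_num at h5

/-- PROOF. Fix `n` with `Good (u n) (NN n)`, `4|a|^2 < 0.1`, `filled_isolated`, `filled_triv`. `y0 = (0,3)`: `FF y0 = 1/9 + 4|a|^2 < 0.9`. `M ↦ FF (M • y0)` is continuous at `1` (continuity of the action and of `q`), so there is `ε ≤ 1/32` such that `M` within `ε` of `1` (entrywise) has `FF (M • y0) < 0.9`. If `rho g` is such an `M`: `Adj (NN n) g`. Case `g k = p1 (ga a) p2`: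
`FF (rho g • y0) = FF (rho (ga a) • y2)`, `y2 = rho p2 • y0`, `FF y2 = FF y0` (`FF_pel`). `FF_mul_ge` at the point `rho (ga a) • y2` with `g = rho (ga a)`: `0.9 < det-product ≤ FF (rho (ga a) • y2) * FF y2 < 0.81`: contradiction (`Good.det`). Case `g k = pel i j`: `rho (pel i j) = rho g` has `(0,1)` entry of norm `≤ 1/32`: `pel i j ∈ NN n`, so
`rho g = 1`. -/
theorem filled_discrete (u : ℕ → ℂ) (hu : Sol u) : ∀ᶠ n in atTop, ∃ ε : ℝ, 0 < ε ∧ ∀ g : E,
    (∀ i j, ‖(rho (u n) g) i j - (1 : SL2C) i j‖ < ε) → rho (u n) g = 1 := by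
  filter_upwards [theoremT atTop u NN (hyp_filled u hu), filled_triv u hu, filled_isolated u hu,
    w3a_aa_small u hu] with n hgood htriv hiso hsm
  refine ⟨1 / 32, by norm_num, ?_⟩
  intro g hg
  have hf0 : FF (u n) (w3a_yh 3 w3a_three_pos) < 0.9 := by
    rw [w3a_FF_yh]
    have := w3a_four_normSq _ hsm
    norm_num at this ⊢
    linarith
  have hf1 : FF (u n) (rho (u n) g • w3a_yh 3 w3a_three_pos) < 0.9 := w3a_FF_near (u n) hsm _ hg
  obtain ⟨k, hk, h⟩ := hgood.adj g _ (lt_trans hf0 (by norm_num)) (lt_trans hf1 (by norm_num))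
  rcases h with ⟨i, j, hij⟩ | ⟨a, i, j, i', j', hij⟩
  · have h1 : rho (u n) (pel i j) = rho (u n) g := by
      rw [← hij, map_mul, htriv k hk, mul_one]
    have h2 : pel i j ∈ NN n := by
      apply hiso
      rw [h1]
      have h3 := hg 0 1
      simp only [Matrix.SpecialLinearGroup.coe_one, Matrix.one_apply, Fin.reduceEq, if_false,
        sub_zero] at h3
      exact h3.le
    rw [← h1]
    exact htriv _ h2
  · exfalso
    have h1 : rho (u n) g = rho (u n) (pel i j) * rho (u n) (ga a) * rho (u n) (pel i' j') := by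
      rw [← map_mul, ← map_mul, ← hij, map_mul, htriv k hk, mul_one]
    rw [h1, mul_smul, mul_smul, FF_pel] at hf1
    set y2 := rho (u n) (pel i' j') • w3a_yh 3 w3a_three_pos with hy2
    have h2 : FF (u n) y2 < 0.9 := by
      rw [hy2, FF_pel]
      exact hf0
    have h3 := FF_mul_ge (u n) (rho (u n) (ga a)) (rho (u n) (ga a) • y2)
    rw [inv_smul_smul] at h3
    have h4 := hgood.det a
    have h5 := FF_pos (u n) y2
    have h6 := FF_pos (u n) (rho (u n) (ga a) • y2)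
    have h7 := lt_of_lt_of_le h4 h3
    have h8 : FF (u n) (rho (u n) (ga a) • y2) * FF (u n) y2 < 0.9 * 0.9 :=
      mul_lt_mul'' hf1 h2 h6.le h5.le
    have h9 := lt_trans h7 h8
    norm_num at h9

end DHN
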