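import Pool.Agent.DHN.W2
import Pool.Agent.DHN.W1b
import Pool.Agent.DHN.T13

/-!
# [DHN-W3b] the filled case: cocompactness
-/

set_option autoImplicit false

open Topology Matrix ComplexConjugate Filter

namespace DHN

theorem w3b_reduce (L r : ℝ) (hr : r ≠ 0) : ∃ k : ℤ, 0 ≤ L - k * r ∧ L - k * r < |r| := by
  rcases lt_or_gt_of_ne hr with h | h
  · refine ⟨-⌊L / (-r)⌋, ?_⟩
    have hr' : 0 < -r := by linarith
    have h1 := Int.floor_le (L / (-r))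
    have h2 := Int.lt_floor_add_one (L / (-r))
    rw [le_div_iff₀ hr'] at h1
    rw [div_lt_iff₀ hr'] at h2
    rw [abs_of_neg h]
    push_cast
    constructor <;> linarith
  · refine ⟨⌊L / r⌋, ?_⟩
    have h1 := Int.floor_le (L / r)
    have h2 := Int.lt_floor_add_one (L / r)
    rw [le_div_iff₀ h] at h1
    rw [div_lt_iff₀ h] at h2
    rw [abs_of_pos h]
    constructor <;> linarith

/-- PROOF. By `Good.cover` every `y` has `g` with `FF (rho g • y) < 2`. Put `λ = |exp(u/2)| ≠ 1` (`filled_re_ne`). `q (rho ex^k • y) e1 = λ^{-2k} q y e1`, `q (rho ex^k • y) (ep) = λ^{2k} q y (ep)`: choose `k` with `q (..) e1 ∈ [1, M]`, `M = max (λ^2) (λ^-2)`; then `q (..) (ep) ≤ 2`. The set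
`{y | q y e1 ≤ M, q y (ep u) ≤ 2}` is contained in a box: `t ≥ 1/M`, `4|a|^2 t ≤ 2`, `|1 + 2az|^2 ≤ 2t`, `a ≠ 0`. -/
theorem filled_cocompact (u : ℕ → ℂ) (hu : Sol u) : ∀ᶠ n in atTop, ∃ K : Set H3, IsCompact K ∧
    ∀ y : H3, ∃ g : E, rho (u n) g • y ∈ K := by
  have hne : Tendsto u atTop (𝓝[≠] 0) :=
    tendsto_nhdsWithin_iff.2 ⟨hu.1, hu.2.mono (fun _ h => h.1)⟩
  filter_upwards [theoremT atTop u NN (hyp_filled u hu), filled_re_ne u hu,
    hne.eventually aa_bounds, hu.2] with n hgood hre hab hn0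
  obtain ⟨hv0, -⟩ := hn0
  generalize u n = v at *
  have hvpos : 0 < ‖v‖ := norm_pos_iff.2 hv0
  have hapos : 0 < ‖aa v‖ := by linarith [hab.1]
  refine ⟨KK ((1 + 1 / ‖aa v‖) / (2 * ‖aa v‖)) (1 / Real.exp |v.re|) (1 / (2 * ‖aa v‖ ^ 2)),
    isCompact_KK _ _ _ (by positivity), ?_⟩
  intro y
  obtain ⟨g, hg⟩ := hgood.cover y
  set y1 := rho v g • y with hy1
  have hA : 0 < q y1 e1 := by
    apply q_pos
    intro h
    have := congrFun h 0
    simp [e1] at this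
  obtain ⟨k, hk1, hk2⟩ := w3b_reduce (Real.log (q y1 e1)) v.re hre
  refine ⟨pel k 0 * g, ?_⟩
  rw [map_mul, mul_smul, ← hy1]
  have hF : FF v (rho v (pel k 0) • y1) < 2 := by
    rw [FF_pel]
    exact hg
  have hq : q (rho v (pel k 0) • y1) e1 = Real.exp (Real.log (q y1 e1) - k * v.re) := by
    have h1 := q_smul (rho v (pel k 0)) y1 e1
    rw [pel_e1, q_smul_vec, (pel_upper v k 0).2.2.2, zpow_zero, mul_one,
      Complex.normSq_eq_norm_sq, Complex.norm_exp] at h1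
    have h2 : ((k : ℂ) * (v / 2)).re = k * v.re / 2 := by
      have : (k : ℂ) * (v / 2) = ((k / 2 : ℝ) : ℂ) * v := by
        push_cast
        ring
      rw [this, Complex.re_ofReal_mul]
      ring
    rw [h2, ← Real.exp_nat_mul] at h1
    have h3 : ((2 : ℕ) : ℝ) * (k * v.re / 2) = k * v.re := by
      push_cast
      ring
    rw [h3] at h1
    rw [Real.exp_sub, Real.exp_log hA, eq_div_iff (Real.exp_pos _).ne', ← h1]
    ring
  set y2 := rho v (pel k 0) • y1 with hy2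
  have hq1 : 1 ≤ q y2 e1 := by
    rw [hq]
    exact Real.one_le_exp hk1
  have hq2 : q y2 e1 ≤ Real.exp |v.re| := by
    rw [hq]
    exact Real.exp_le_exp.2 hk2.le
  have hq3 : q y2 (ep v) ≤ 2 := by
    have h1 : q y2 e1 * q y2 (ep v) < 2 := hF
    have h2 := q_nonneg y2 (ep v)
    nlinarith
  have ht := y2.2
  have he1 : q y2 e1 = 1 / y2.1.2 := q_e1 y2
  rw [he1] at hq2
  have hep : q y2 (ep v) = (‖1 + 2 * aa v * y2.1.1‖ ^ 2 + 4 * ‖aa v‖ ^ 2 * y2.1.2 ^ 2) / y2.1.2 := by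
    unfold q ep
    simp only [Matrix.cons_val_zero, Matrix.cons_val_one, Complex.normSq_eq_norm_sq]
    have e3 : 1 - y2.1.1 * (-2 * aa v) = 1 + 2 * aa v * y2.1.1 := by ring
    rw [e3, norm_mul, norm_neg, Complex.norm_ofNat]
    ring
  rw [hep, div_le_iff₀ ht] at hq3
  change ‖y2.1.1‖ ≤ _ ∧ _ ≤ y2.1.2 ∧ y2.1.2 ≤ _
  generalize y2.1.2 = t at *
  generalize y2.1.1 = z at *
  have ht1 : t ≤ 1 / (2 * ‖aa v‖ ^ 2) := by
    rw [le_div_iff₀ (by positivity)]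
    have h1 : 4 * ‖aa v‖ ^ 2 * t ^ 2 ≤ 2 * t := by nlinarith [sq_nonneg ‖1 + 2 * aa v * z‖]
    have h2 : t * (4 * ‖aa v‖ ^ 2 * t) ≤ t * 2 := by nlinarith
    have h3 := le_of_mul_le_mul_left h2 ht
    linarith
  refine ⟨?_, ?_, ht1⟩
  · rw [le_div_iff₀ (by positivity)]
    have h1 : ‖1 + 2 * aa v * z‖ ^ 2 ≤ 1 / ‖aa v‖ ^ 2 := by
      have h2 : 2 * t ≤ 1 / ‖aa v‖ ^ 2 := by
        have h3 : 1 / ‖aa v‖ ^ 2 = 2 * (1 / (2 * ‖aa v‖ ^ 2)) := by
          field_simp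
        rw [h3]
        linarith
      have h4 : 0 ≤ 4 * ‖aa v‖ ^ 2 * t ^ 2 := by positivity
      linarith
    have h2 : ‖1 + 2 * aa v * z‖ ≤ 1 / ‖aa v‖ := by
      apply abs_le_of_sq_le_sq' _ (by positivity) |>.2
      rw [div_pow, one_pow]
      exact h1
    have h3 : ‖2 * aa v * z‖ ≤ 1 + 1 / ‖aa v‖ := by
      have h4 : 2 * aa v * z = (1 + 2 * aa v * z) - 1 := by ring
      calc ‖2 * aa v * z‖ = ‖(1 + 2 * aa v * z) - 1‖ := by rw [← h4]
        _ ≤ ‖1 + 2 * aa v * z‖ + ‖(1 : ℂ)‖ := norm_sub_le _ _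
        _ ≤ 1 + 1 / ‖aa v‖ := by
          rw [norm_one]
          linarith
    rw [norm_mul, norm_mul, Complex.norm_ofNat] at h3
    linarith
  · rw [div_le_iff₀ (Real.exp_pos _)]
    rw [div_le_iff₀ ht] at hq2
    linarith

end DHN
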