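import Pool.Agent.DHN.W3a

/-!
# [DHN-W4a] the index 7 subgroups
-/

set_option autoImplicit false

open Topology Matrix ComplexConjugate Filter

namespace DHN

/-- the properties of `GM` and `GM'` needed below (`n` is the parameter of the slope) -/
structure Suit (n : ℕ) (H : Subgroup E) : Prop where
  trans : ∀ g : E, ∃ γ ∈ H, ∃ i : ℤ, g = γ * pel i 0
  slope : pel (49 * n) 7 ∈ H
  prim : ∀ l : ℤ, pel (7 * n * l) l ∈ H → (7 : ℤ) ∣ l
  idx : H.index = 7

/-- PROOF. `GM_trans`, `pel_mem_GM` (`7 ∣ 49 n + 21`; `7 ∣ 7 n l + 3 l` gives `7 ∣ l`), `index_GM`. -/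
theorem suit_GM (n : ℕ) : Suit n GM where
  trans := GM_trans
  slope := by
    rw [pel_mem_GM]
    exact ⟨7 * n + 3, by ring⟩
  prim := by
    intro l hl
    rw [pel_mem_GM] at hl
    obtain ⟨c, hc⟩ := hl
    exact ⟨l - 2 * (c - n * l), by linarith⟩
  idx := index_GM

/-- PROOF. `GM'_trans`, `pel_mem_GM'` (`7 ∣ -49 n + 21`; `7 ∣ -7 n l + 3 l` gives `7 ∣ l`), `index_GM'`. -/
theorem suit_GM' (n : ℕ) : Suit n GM' where
  trans := GM'_trans
  slope := by
    rw [pel_mem_GM']
    exact ⟨-(7 * n) + 3, by ring⟩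
  prim := by
    intro l hl
    rw [pel_mem_GM'] at hl
    obtain ⟨c, hc⟩ := hl
    exact ⟨l - 2 * (c + n * l), by linarith⟩
  idx := index_GM'

/-- PROOF. `normalClosure_le` of `Perm.lean`. -/
theorem NN_le (n : ℕ) (H : Subgroup E) (hH : Suit n H) : NN n ≤ H :=
  normalClosure_le H hH.trans (49 * n) 7 hH.slope

/-- PROOF. `filled_kernel`: `ker ≤ NN n ≤ H`. `relIndex` of the images = index of `H` (`Subgroup.index_map` / `relIndex_map_map_of_...`). -/
theorem image_index (u : ℕ → ℂ) (hu : Sol u) : ∀ᶠ n in atTop, ∀ H : Subgroup E, Suit n H →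
    (H.map (rho (u n))).relIndex (rho (u n)).range = 7 := by
  filter_upwards [filled_kernel u hu] with n hn H hH
  have hk : (rho (u n)).ker ≤ H := fun g hg => NN_le n H hH (hn g hg)
  rw [MonoidHom.range_eq_map, Subgroup.relIndex_map_map, top_sup_eq, sup_eq_left.2 hk,
    Subgroup.relIndex_top_right]
  exact hH.idx

end DHN
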