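import Pool.Agent.DHN.W4a
import Pool.Agent.DHN.W3b
import Pool.Agent.DHN.W1b
import Pool.Agent.DHN.V0

/-!
# [DHN-W4b] the closed hyperbolic groups
-/

set_option autoImplicit false

open Topology Matrix ComplexConjugate Filter

namespace DHN

/-- Conjugates of peripheral elements: only the `H`-part of the conjugating element matters. -/
theorem conj_pel_eq (n : ℕ) (H : Subgroup E) (hH : Suit n H) (h : E) (i j : ℤ) :
    ∃ γ ∈ H, h * pel i j * h⁻¹ = γ * pel i j * γ⁻¹ := by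
  obtain ⟨γ, hγ, i', rfl⟩ := hH.trans h
  refine ⟨γ, hγ, ?_⟩
  have h1 : pel i' 0 * pel i j * (pel i' 0)⁻¹ = pel i j := by
    rw [pel_inv, pel_mul, pel_mul]
    congr 1 <;> ring
  calc γ * pel i' 0 * pel i j * (γ * pel i' 0)⁻¹
      = γ * (pel i' 0 * pel i j * (pel i' 0)⁻¹) * γ⁻¹ := by group
    _ = γ * pel i j * γ⁻¹ := by rw [h1]

theorem free_aux (v : ℂ) (n : ℕ) (hG : Good v (NN n)) (htriv : ∀ k ∈ NN n, rho v k = 1)
    (hell : ∀ i j : ℤ, (∃ y : H3, rho v (pel i j) • y = y) → i = 7 * n * j)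
    (H : Subgroup E) (hH : Suit n H) (g : E) (hg : g ∈ H) (y : H3) (hy : rho v g • y = y) :
    rho v g = 1 := by
  obtain ⟨h, k, i, j, hk, hgk, y', hy'⟩ := hG.fixed g y hy
  have hij := hell i j ⟨y', hy'⟩
  obtain ⟨γ, hγ, hc⟩ := conj_pel_eq n H hH h i j
  have hkH : k ∈ H := NN_le n H hH hk
  have hp : pel i j ∈ H := by
    have h1 : pel i j = γ⁻¹ * (g * k⁻¹) * γ := by
      rw [hgk, hc]
      group
    rw [h1]
    exact H.mul_mem (H.mul_mem (H.inv_mem hγ) (H.mul_mem hg (H.inv_mem hkH))) hγ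
  rw [hij] at hp
  obtain ⟨l, hl⟩ := hH.prim j hp
  have hN : pel i j ∈ NN n := by
    have h2 : pel i j = pel (49 * n) 7 ^ l := by
      rw [pel_zpow, hij, hl]
      congr 1 <;> ring
    rw [h2]
    exact (NN n).zpow_mem (Subgroup.subset_normalClosure (Set.mem_singleton _)) l
  rw [hgk, map_mul, map_mul, map_mul, htriv _ hN, htriv _ hk, map_inv]
  group

theorem cocompact_aux (v : ℂ) (n : ℕ) (H : Subgroup E) (hH : Suit n H)
    (hK : ∃ K : Set H3, IsCompact K ∧ ∀ y : H3, ∃ g : E, rho v g • y ∈ K) :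
    ∃ K : Set H3, IsCompact K ∧ ∀ y : H3, ∃ g ∈ H.map (rho v), g • y ∈ K := by
  obtain ⟨K, hKc, hK⟩ := hK
  have : H.FiniteIndex := ⟨by rw [hH.idx]; norm_num⟩
  have : Finite (E ⧸ H) := Subgroup.finite_quotient_of_finiteIndex
  refine ⟨⋃ c : E ⧸ H, (fun y : H3 => (rho v c.out)⁻¹ • y) '' K, ?_, ?_⟩
  · exact isCompact_iUnion fun c => hKc.image (continuous_const_smul _)
  · intro y
    obtain ⟨g, hg⟩ := hK y
    let c : E ⧸ H := (g : E ⧸ H)
    have hc : (c.out)⁻¹ * g ∈ H := by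
      rw [← QuotientGroup.eq]
      exact Quotient.out_eq' c
    refine ⟨rho v ((c.out)⁻¹ * g), ⟨_, hc, rfl⟩, ?_⟩
    refine Set.mem_iUnion.2 ⟨c, ⟨rho v g • y, hg, ?_⟩⟩
    show (rho v c.out)⁻¹ • rho v g • y = rho v ((c.out)⁻¹ * g) • y
    rw [map_mul, map_inv, mul_smul]

/-- PROOF. `NN n ≤ H`. Free: `g ∈ H`, `rho g • y = y`; `Good.fixed`: `g = h * pel i j * h⁻¹ * k`, `pel i j` elliptic: `i = 7 n j` (`filled_elliptic`). `h = γ * pel i' 0` (`trans`): `h pel h⁻¹ = γ pel γ⁻¹` (peripheral elements commute), so `pel i j ∈ H` (`g, γ, k ∈ H`), `7 ∣ j` (`prim`), `j = 7 l`, `i = 49 n l`: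
`pel i j = (pel (49 n) 7)^l ∈ NN n`, so `rho g = 1` (`filled_triv`), i.e. the element of the image is `1`. Discrete: `filled_discrete`, `discrete_of_isolated`. Cocompact: `K' = ⋃_{i=0}^{6} ...`: let `K` be as in `filled_cocompact`; `y`: `rho g • y ∈ K`; write `g⁻¹ = γ * pel i 0`..., so `g = pel (-i) 0 * γ⁻¹`; as `H` has
finite index, finitely many classes: choose representatives `g1 .. gm` of `E = ⋃ gr H` (`H.index = 7 ≠ 0`), `g = gr γ`, `rho γ • y ∈ rho gr⁻¹ • K`; `K' = ⋃ rho gr⁻¹ • K` compact. -/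
theorem closed_group (u : ℕ → ℂ) (hu : Sol u) : ∀ᶠ n in atTop, ∀ H : Subgroup E, Suit n H →
    IsClosedHypGroup (H.map (rho (u n))) := by
  filter_upwards [theoremT atTop u NN (hyp_filled u hu), filled_triv u hu, filled_elliptic u hu,
    filled_discrete u hu, filled_cocompact u hu] with n hG htriv hell hdisc hcoc H hH
  refine { discrete := ?_, free := ?_, cocompact := cocompact_aux (u n) n H hH hcoc }
  · obtain ⟨ε, hε, hd⟩ := hdisc
    refine discrete_of_isolated _ ε hε ?_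
    rintro g ⟨h, hh, rfl⟩ hg
    exact hd h hg
  · rintro g ⟨h, hh, rfl⟩ y hy
    exact free_aux (u n) n hG htriv hell H hH h hh y hy

end DHN
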