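import Pool.Agent.DHN.Core

/-!
# The figure-eight knot group: 24 word identities
-/

set_option autoImplicit false
set_option linter.unusedSimpArgs false
set_option linter.unusedTactic false
set_option linter.unreachableTactic false

namespace DHN

section words

variable {G : Type} [Group G]

/-- the longitude -/
def lamW (x y : G) : G := y*x⁻¹*y⁻¹*x*x*y⁻¹*x⁻¹*y

/-- representatives of the four neighbours of the cusp at infinity -/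
def gW (x y : G) : Fin 4 → G := ![x⁻¹*y*x*y⁻¹, x⁻¹*y, x⁻¹*y*x⁻¹*y⁻¹, x*y⁻¹]

/-- the relator is trivial -/
def Rel8 (x y : G) : Prop := x⁻¹*y*x*y⁻¹*x = y*x⁻¹*y*x*y⁻¹

theorem rel8_one {x y : G} (h : Rel8 x y) : x⁻¹*y*x*y⁻¹*x*(y*x⁻¹*y*x*y⁻¹)⁻¹ = 1 := by
  rw [mul_inv_eq_one]; exact h

theorem comm_lamW {x y : G} (h : Rel8 x y) : x * lamW x y = lamW x y * x := by
  have h1 := rel8_one h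
  have key : x * lamW x y * (lamW x y * x)⁻¹ = ((x*y*x⁻¹*y⁻¹*x*y⁻¹*x*y⁻¹) * ((x⁻¹*y*x*y⁻¹*x*(y*x⁻¹*y*x*y⁻¹)⁻¹)⁻¹) * (x*y*x⁻¹*y⁻¹*x*y⁻¹*x*y⁻¹)⁻¹) * ((y*x⁻¹*y⁻¹*x) * (x⁻¹*y*x*y⁻¹*x*(y*x⁻¹*y*x*y⁻¹)⁻¹) * (y*x⁻¹*y⁻¹*x)⁻¹) := by
    unfold lamW; group
  rw [h1] at key
  rw [← mul_inv_eq_one, key]
  group

theorem tri_0_0 {x y : G} (h : Rel8 x y) :
    (gW x y 0)⁻¹ * (x ^ (1:ℤ) * lamW x y ^ (0:ℤ)) * gW x y 0 = (x ^ (0:ℤ) * lamW x y ^ (1:ℤ)) * gW x y 3 * (x ^ (1:ℤ) * lamW x y ^ (0:ℤ)) := by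
  have h1 := rel8_one h
  have key : (gW x y 0)⁻¹ * (x ^ (1:ℤ) * lamW x y ^ (0:ℤ)) * gW x y 0 * ((x ^ (0:ℤ) * lamW x y ^ (1:ℤ)) * gW x y 3 * (x ^ (1:ℤ) * lamW x y ^ (0:ℤ)))⁻¹ = ((y*x⁻¹*y⁻¹*x*x*y⁻¹) * ((x⁻¹*y*x*y⁻¹*x*(y*x⁻¹*y*x*y⁻¹)⁻¹)⁻¹) * (y*x⁻¹*y⁻¹*x*x*y⁻¹)⁻¹) := by
    simp only [gW, lamW, Matrix.cons_val_zero, Matrix.cons_val_one, Matrix.cons_val_two, Matrix.cons_val_three, Matrix.cons_val, Matrix.head_cons, Matrix.tail_cons]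
    group
    try simp only [zpow_two, mul_assoc]
  rw [h1] at key
  rw [← mul_inv_eq_one, key]
  group

theorem tri_0_1 {x y : G} (h : Rel8 x y) :
    (gW x y 0)⁻¹ * (x ^ (0:ℤ) * lamW x y ^ (0:ℤ)) * gW x y 1 = (x ^ (1:ℤ) * lamW x y ^ (0:ℤ)) * gW x y 1 * (x ^ (-1:ℤ) * lamW x y ^ (0:ℤ)) := by
  have h1 := rel8_one h
  have key : (gW x y 0)⁻¹ * (x ^ (0:ℤ) * lamW x y ^ (0:ℤ)) * gW x y 1 * ((x ^ (1:ℤ) * lamW x y ^ (0:ℤ)) * gW x y 1 * (x ^ (-1:ℤ) * lamW x y ^ (0:ℤ)))⁻¹ = 1 := by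
    simp only [gW, lamW, Matrix.cons_val_zero, Matrix.cons_val_one, Matrix.cons_val_two, Matrix.cons_val_three, Matrix.cons_val, Matrix.head_cons, Matrix.tail_cons]
    group
    try simp only [zpow_two, mul_assoc]
  rw [← mul_inv_eq_one, key]

theorem tri_0_2 {x y : G} (h : Rel8 x y) :
    (gW x y 0)⁻¹ * (x ^ (-1:ℤ) * lamW x y ^ (0:ℤ)) * gW x y 3 = (x ^ (0:ℤ) * lamW x y ^ (0:ℤ)) * gW x y 2 * (x ^ (1:ℤ) * lamW x y ^ (0:ℤ)) := by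
  have h1 := rel8_one h
  have key : (gW x y 0)⁻¹ * (x ^ (-1:ℤ) * lamW x y ^ (0:ℤ)) * gW x y 3 * ((x ^ (0:ℤ) * lamW x y ^ (0:ℤ)) * gW x y 2 * (x ^ (1:ℤ) * lamW x y ^ (0:ℤ)))⁻¹ = ((x⁻¹*y*x⁻¹*y⁻¹*x) * (x⁻¹*y*x*y⁻¹*x*(y*x⁻¹*y*x*y⁻¹)⁻¹) * (x⁻¹*y*x⁻¹*y⁻¹*x)⁻¹) := by
    simp only [gW, lamW, Matrix.cons_val_zero, Matrix.cons_val_one, Matrix.cons_val_two, Matrix.cons_val_three, Matrix.cons_val, Matrix.head_cons, Matrix.tail_cons]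
    group
    try simp only [zpow_two, mul_assoc]
  rw [h1] at key
  rw [← mul_inv_eq_one, key]
  group

theorem tri_0_3 {x y : G} (h : Rel8 x y) :
    (gW x y 0)⁻¹ * (x ^ (-1:ℤ) * lamW x y ^ (0:ℤ)) * gW x y 0 = (x ^ (0:ℤ) * lamW x y ^ (0:ℤ)) * gW x y 1 * (x ^ (-1:ℤ) * lamW x y ^ (-1:ℤ)) := by
  have h1 := rel8_one h
  have key : (gW x y 0)⁻¹ * (x ^ (-1:ℤ) * lamW x y ^ (0:ℤ)) * gW x y 0 * ((x ^ (0:ℤ) * lamW x y ^ (0:ℤ)) * gW x y 1 * (x ^ (-1:ℤ) * lamW x y ^ (-1:ℤ)))⁻¹ = ((x⁻¹*y*x⁻¹*y⁻¹*x) * (x⁻¹*y*x*y⁻¹*x*(y*x⁻¹*y*x*y⁻¹)⁻¹) * (x⁻¹*y*x⁻¹*y⁻¹*x)⁻¹) := by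
    simp only [gW, lamW, Matrix.cons_val_zero, Matrix.cons_val_one, Matrix.cons_val_two, Matrix.cons_val_three, Matrix.cons_val, Matrix.head_cons, Matrix.tail_cons]
    group
    try simp only [zpow_two, mul_assoc]
  rw [h1] at key
  rw [← mul_inv_eq_one, key]
  group

theorem tri_0_4 {x y : G} (h : Rel8 x y) :
    (gW x y 0)⁻¹ * (x ^ (0:ℤ) * lamW x y ^ (0:ℤ)) * gW x y 3 = (x ^ (-1:ℤ) * lamW x y ^ (1:ℤ)) * gW x y 3 * (x ^ (1:ℤ) * lamW x y ^ (0:ℤ)) := by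
  have h1 := rel8_one h
  have key : (gW x y 0)⁻¹ * (x ^ (0:ℤ) * lamW x y ^ (0:ℤ)) * gW x y 3 * ((x ^ (-1:ℤ) * lamW x y ^ (1:ℤ)) * gW x y 3 * (x ^ (1:ℤ) * lamW x y ^ (0:ℤ)))⁻¹ = ((y*x⁻¹*y⁻¹*x*y⁻¹*x*y⁻¹) * ((x⁻¹*y*x*y⁻¹*x*(y*x⁻¹*y*x*y⁻¹)⁻¹)⁻¹) * (y*x⁻¹*y⁻¹*x*y⁻¹*x*y⁻¹)⁻¹) * ((x⁻¹*y*x⁻¹*y⁻¹*x) * (x⁻¹*y*x*y⁻¹*x*(y*x⁻¹*y*x*y⁻¹)⁻¹) * (x⁻¹*y*x⁻¹*y⁻¹*x)⁻¹) := by
    simp only [gW, lamW, Matrix.cons_val_zero, Matrix.cons_val_one, Matrix.cons_val_two, Matrix.cons_val_three, Matrix.cons_val, Matrix.head_cons, Matrix.tail_cons]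
    group
    try simp only [zpow_two, mul_assoc]
  rw [h1] at key
  rw [← mul_inv_eq_one, key]
  group

theorem tri_0_5 {x y : G} (h : Rel8 x y) :
    (gW x y 0)⁻¹ * (x ^ (1:ℤ) * lamW x y ^ (0:ℤ)) * gW x y 1 = (x ^ (2:ℤ) * lamW x y ^ (0:ℤ)) * gW x y 2 * (x ^ (1:ℤ) * lamW x y ^ (0:ℤ)) := by
  have h1 := rel8_one h
  have key : (gW x y 0)⁻¹ * (x ^ (1:ℤ) * lamW x y ^ (0:ℤ)) * gW x y 1 * ((x ^ (2:ℤ) * lamW x y ^ (0:ℤ)) * gW x y 2 * (x ^ (1:ℤ) * lamW x y ^ (0:ℤ)))⁻¹ = ((x*y*x⁻¹*y⁻¹*x*y⁻¹) * ((x⁻¹*y*x*y⁻¹*x*(y*x⁻¹*y*x*y⁻¹)⁻¹)⁻¹) * (x*y*x⁻¹*y⁻¹*x*y⁻¹)⁻¹) := by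
    simp only [gW, lamW, Matrix.cons_val_zero, Matrix.cons_val_one, Matrix.cons_val_two, Matrix.cons_val_three, Matrix.cons_val, Matrix.head_cons, Matrix.tail_cons]
    group
    try simp only [zpow_two, mul_assoc]
  rw [h1] at key
  rw [← mul_inv_eq_one, key]
  group

theorem tri_1_0 {x y : G} (h : Rel8 x y) :
    (gW x y 1)⁻¹ * (x ^ (1:ℤ) * lamW x y ^ (0:ℤ)) * gW x y 1 = (x ^ (1:ℤ) * lamW x y ^ (-1:ℤ)) * gW x y 2 * (x ^ (2:ℤ) * lamW x y ^ (0:ℤ)) := by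
  have h1 := rel8_one h
  have key : (gW x y 1)⁻¹ * (x ^ (1:ℤ) * lamW x y ^ (0:ℤ)) * gW x y 1 * ((x ^ (1:ℤ) * lamW x y ^ (-1:ℤ)) * gW x y 2 * (x ^ (2:ℤ) * lamW x y ^ (0:ℤ)))⁻¹ = ((y⁻¹*x*y*x⁻¹) * (x⁻¹*y*x*y⁻¹*x*(y*x⁻¹*y*x*y⁻¹)⁻¹) * (y⁻¹*x*y*x⁻¹)⁻¹) * ((x*y⁻¹*x*y*x⁻¹*y⁻¹*x*y⁻¹) * ((x⁻¹*y*x*y⁻¹*x*(y*x⁻¹*y*x*y⁻¹)⁻¹)⁻¹) * (x*y⁻¹*x*y*x⁻¹*y⁻¹*x*y⁻¹)⁻¹) := by
    simp only [gW, lamW, Matrix.cons_val_zero, Matrix.cons_val_one, Matrix.cons_val_two, Matrix.cons_val_three, Matrix.cons_val, Matrix.head_cons, Matrix.tail_cons]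
    group
    try simp only [zpow_two, mul_assoc]
  rw [h1] at key
  rw [← mul_inv_eq_one, key]
  group

theorem tri_1_1 {x y : G} (h : Rel8 x y) :
    (gW x y 1)⁻¹ * (x ^ (0:ℤ) * lamW x y ^ (0:ℤ)) * gW x y 2 = (x ^ (-2:ℤ) * lamW x y ^ (0:ℤ)) * gW x y 3 * (x ^ (0:ℤ) * lamW x y ^ (0:ℤ)) := by
  have h1 := rel8_one h
  have key : (gW x y 1)⁻¹ * (x ^ (0:ℤ) * lamW x y ^ (0:ℤ)) * gW x y 2 * ((x ^ (-2:ℤ) * lamW x y ^ (0:ℤ)) * gW x y 3 * (x ^ (0:ℤ) * lamW x y ^ (0:ℤ)))⁻¹ = 1 := by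
    simp only [gW, lamW, Matrix.cons_val_zero, Matrix.cons_val_one, Matrix.cons_val_two, Matrix.cons_val_three, Matrix.cons_val, Matrix.head_cons, Matrix.tail_cons]
    group
    try simp only [zpow_two, mul_assoc]
  rw [← mul_inv_eq_one, key]

theorem tri_1_2 {x y : G} (h : Rel8 x y) :
    (gW x y 1)⁻¹ * (x ^ (-1:ℤ) * lamW x y ^ (0:ℤ)) * gW x y 0 = (x ^ (0:ℤ) * lamW x y ^ (0:ℤ)) * gW x y 0 * (x ^ (-1:ℤ) * lamW x y ^ (0:ℤ)) := by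
  have h1 := rel8_one h
  have key : (gW x y 1)⁻¹ * (x ^ (-1:ℤ) * lamW x y ^ (0:ℤ)) * gW x y 0 * ((x ^ (0:ℤ) * lamW x y ^ (0:ℤ)) * gW x y 0 * (x ^ (-1:ℤ) * lamW x y ^ (0:ℤ)))⁻¹ = ((x⁻¹*y*x*y⁻¹*x⁻¹*y*x⁻¹*y⁻¹*x) * (x⁻¹*y*x*y⁻¹*x*(y*x⁻¹*y*x*y⁻¹)⁻¹) * (x⁻¹*y*x*y⁻¹*x⁻¹*y*x⁻¹*y⁻¹*x)⁻¹) := by
    simp only [gW, lamW, Matrix.cons_val_zero, Matrix.cons_val_one, Matrix.cons_val_two, Matrix.cons_val_three, Matrix.cons_val, Matrix.head_cons, Matrix.tail_cons]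
    group
    try simp only [zpow_two, mul_assoc]
  rw [h1] at key
  rw [← mul_inv_eq_one, key]
  group

theorem tri_1_3 {x y : G} (h : Rel8 x y) :
    (gW x y 1)⁻¹ * (x ^ (-1:ℤ) * lamW x y ^ (0:ℤ)) * gW x y 1 = (x ^ (-1:ℤ) * lamW x y ^ (0:ℤ)) * gW x y 0 * (x ^ (0:ℤ) * lamW x y ^ (1:ℤ)) := by
  have h1 := rel8_one h
  have key : (gW x y 1)⁻¹ * (x ^ (-1:ℤ) * lamW x y ^ (0:ℤ)) * gW x y 1 * ((x ^ (-1:ℤ) * lamW x y ^ (0:ℤ)) * gW x y 0 * (x ^ (0:ℤ) * lamW x y ^ (1:ℤ)))⁻¹ = 1 := by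
    simp only [gW, lamW, Matrix.cons_val_zero, Matrix.cons_val_one, Matrix.cons_val_two, Matrix.cons_val_three, Matrix.cons_val, Matrix.head_cons, Matrix.tail_cons]
    group
    try simp only [zpow_two, mul_assoc]
  rw [← mul_inv_eq_one, key]

theorem tri_1_4 {x y : G} (h : Rel8 x y) :
    (gW x y 1)⁻¹ * (x ^ (0:ℤ) * lamW x y ^ (0:ℤ)) * gW x y 0 = (x ^ (0:ℤ) * lamW x y ^ (0:ℤ)) * gW x y 3 * (x ^ (0:ℤ) * lamW x y ^ (0:ℤ)) := by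
  have h1 := rel8_one h
  have key : (gW x y 1)⁻¹ * (x ^ (0:ℤ) * lamW x y ^ (0:ℤ)) * gW x y 0 * ((x ^ (0:ℤ) * lamW x y ^ (0:ℤ)) * gW x y 3 * (x ^ (0:ℤ) * lamW x y ^ (0:ℤ)))⁻¹ = 1 := by
    simp only [gW, lamW, Matrix.cons_val_zero, Matrix.cons_val_one, Matrix.cons_val_two, Matrix.cons_val_three, Matrix.cons_val, Matrix.head_cons, Matrix.tail_cons]
    group
    try simp only [zpow_two, mul_assoc]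
  rw [← mul_inv_eq_one, key]

theorem tri_1_5 {x y : G} (h : Rel8 x y) :
    (gW x y 1)⁻¹ * (x ^ (1:ℤ) * lamW x y ^ (0:ℤ)) * gW x y 2 = (x ^ (0:ℤ) * lamW x y ^ (-1:ℤ)) * gW x y 2 * (x ^ (1:ℤ) * lamW x y ^ (0:ℤ)) := by
  have h1 := rel8_one h
  have key : (gW x y 1)⁻¹ * (x ^ (1:ℤ) * lamW x y ^ (0:ℤ)) * gW x y 2 * ((x ^ (0:ℤ) * lamW x y ^ (-1:ℤ)) * gW x y 2 * (x ^ (1:ℤ) * lamW x y ^ (0:ℤ)))⁻¹ = ((y⁻¹*x*y*x⁻¹*x⁻¹*y*x*y⁻¹*x⁻¹*y*x⁻¹*y⁻¹*x) * (x⁻¹*y*x*y⁻¹*x*(y*x⁻¹*y*x*y⁻¹)⁻¹) * (y⁻¹*x*y*x⁻¹*x⁻¹*y*x*y⁻¹*x⁻¹*y*x⁻¹*y⁻¹*x)⁻¹) := by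
    simp only [gW, lamW, Matrix.cons_val_zero, Matrix.cons_val_one, Matrix.cons_val_two, Matrix.cons_val_three, Matrix.cons_val, Matrix.head_cons, Matrix.tail_cons]
    group
    try simp only [zpow_two, mul_assoc]
  rw [h1] at key
  rw [← mul_inv_eq_one, key]
  group

theorem tri_2_0 {x y : G} (h : Rel8 x y) :
    (gW x y 2)⁻¹ * (x ^ (1:ℤ) * lamW x y ^ (0:ℤ)) * gW x y 2 = (x ^ (2:ℤ) * lamW x y ^ (0:ℤ)) * gW x y 1 * (x ^ (-1:ℤ) * lamW x y ^ (0:ℤ)) := by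
  have h1 := rel8_one h
  have key : (gW x y 2)⁻¹ * (x ^ (1:ℤ) * lamW x y ^ (0:ℤ)) * gW x y 2 * ((x ^ (2:ℤ) * lamW x y ^ (0:ℤ)) * gW x y 1 * (x ^ (-1:ℤ) * lamW x y ^ (0:ℤ)))⁻¹ = ((x) * (x⁻¹*y*x*y⁻¹*x*(y*x⁻¹*y*x*y⁻¹)⁻¹) * (x)⁻¹) := by
    simp only [gW, lamW, Matrix.cons_val_zero, Matrix.cons_val_one, Matrix.cons_val_two, Matrix.cons_val_three, Matrix.cons_val, Matrix.head_cons, Matrix.tail_cons]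
    group
    try simp only [zpow_two, mul_assoc]
  rw [h1] at key
  rw [← mul_inv_eq_one, key]
  group

theorem tri_2_1 {x y : G} (h : Rel8 x y) :
    (gW x y 2)⁻¹ * (x ^ (-2:ℤ) * lamW x y ^ (1:ℤ)) * gW x y 3 = (x ^ (1:ℤ) * lamW x y ^ (0:ℤ)) * gW x y 3 * (x ^ (-1:ℤ) * lamW x y ^ (0:ℤ)) := by
  have h1 := rel8_one h
  have key : (gW x y 2)⁻¹ * (x ^ (-2:ℤ) * lamW x y ^ (1:ℤ)) * gW x y 3 * ((x ^ (1:ℤ) * lamW x y ^ (0:ℤ)) * gW x y 3 * (x ^ (-1:ℤ) * lamW x y ^ (0:ℤ)))⁻¹ = ((y*x*y⁻¹*x⁻¹*y*x⁻¹*y⁻¹*x*y*x*y⁻¹*x⁻¹*y*x⁻¹*y⁻¹*x) * (x⁻¹*y*x*y⁻¹*x*(y*x⁻¹*y*x*y⁻¹)⁻¹) * (y*x*y⁻¹*x⁻¹*y*x⁻¹*y⁻¹*x*y*x*y⁻¹*x⁻¹*y*x⁻¹*y⁻¹*x)⁻¹) * ((x*y⁻¹) * ((x⁻¹*y*x*y⁻¹*x*(y*x⁻¹*y*x*y⁻¹)⁻¹)⁻¹) * (x*y⁻¹)⁻¹) := by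
    simp only [gW, lamW, Matrix.cons_val_zero, Matrix.cons_val_one, Matrix.cons_val_two, Matrix.cons_val_three, Matrix.cons_val, Matrix.head_cons, Matrix.tail_cons]
    group
    try simp only [zpow_two, mul_assoc]
  rw [h1] at key
  rw [← mul_inv_eq_one, key]
  group

theorem tri_2_2 {x y : G} (h : Rel8 x y) :
    (gW x y 2)⁻¹ * (x ^ (-1:ℤ) * lamW x y ^ (0:ℤ)) * gW x y 1 = (x ^ (0:ℤ) * lamW x y ^ (0:ℤ)) * gW x y 0 * (x ^ (1:ℤ) * lamW x y ^ (1:ℤ)) := by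
  have h1 := rel8_one h
  have key : (gW x y 2)⁻¹ * (x ^ (-1:ℤ) * lamW x y ^ (0:ℤ)) * gW x y 1 * ((x ^ (0:ℤ) * lamW x y ^ (0:ℤ)) * gW x y 0 * (x ^ (1:ℤ) * lamW x y ^ (1:ℤ)))⁻¹ = ((1) * ((x⁻¹*y*x*y⁻¹*x*(y*x⁻¹*y*x*y⁻¹)⁻¹)⁻¹) * (1)⁻¹) := by
    simp only [gW, lamW, Matrix.cons_val_zero, Matrix.cons_val_one, Matrix.cons_val_two, Matrix.cons_val_three, Matrix.cons_val, Matrix.head_cons, Matrix.tail_cons]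
    group
    try simp only [zpow_two, mul_assoc]
  rw [h1] at key
  rw [← mul_inv_eq_one, key]
  group

theorem tri_2_3 {x y : G} (h : Rel8 x y) :
    (gW x y 2)⁻¹ * (x ^ (-1:ℤ) * lamW x y ^ (0:ℤ)) * gW x y 2 = (x ^ (0:ℤ) * lamW x y ^ (0:ℤ)) * gW x y 3 * (x ^ (-1:ℤ) * lamW x y ^ (0:ℤ)) := by
  have h1 := rel8_one h
  have key : (gW x y 2)⁻¹ * (x ^ (-1:ℤ) * lamW x y ^ (0:ℤ)) * gW x y 2 * ((x ^ (0:ℤ) * lamW x y ^ (0:ℤ)) * gW x y 3 * (x ^ (-1:ℤ) * lamW x y ^ (0:ℤ)))⁻¹ = ((x*y⁻¹) * ((x⁻¹*y*x*y⁻¹*x*(y*x⁻¹*y*x*y⁻¹)⁻¹)⁻¹) * (x*y⁻¹)⁻¹) := by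
    simp only [gW, lamW, Matrix.cons_val_zero, Matrix.cons_val_one, Matrix.cons_val_two, Matrix.cons_val_three, Matrix.cons_val, Matrix.head_cons, Matrix.tail_cons]
    group
    try simp only [zpow_two, mul_assoc]
  rw [h1] at key
  rw [← mul_inv_eq_one, key]
  group

theorem tri_2_4 {x y : G} (h : Rel8 x y) :
    (gW x y 2)⁻¹ * (x ^ (0:ℤ) * lamW x y ^ (0:ℤ)) * gW x y 1 = (x ^ (1:ℤ) * lamW x y ^ (0:ℤ)) * gW x y 1 * (x ^ (1:ℤ) * lamW x y ^ (0:ℤ)) := by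
  have h1 := rel8_one h
  have key : (gW x y 2)⁻¹ * (x ^ (0:ℤ) * lamW x y ^ (0:ℤ)) * gW x y 1 * ((x ^ (1:ℤ) * lamW x y ^ (0:ℤ)) * gW x y 1 * (x ^ (1:ℤ) * lamW x y ^ (0:ℤ)))⁻¹ = 1 := by
    simp only [gW, lamW, Matrix.cons_val_zero, Matrix.cons_val_one, Matrix.cons_val_two, Matrix.cons_val_three, Matrix.cons_val, Matrix.head_cons, Matrix.tail_cons]
    group
    try simp only [zpow_two, mul_assoc]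
  rw [← mul_inv_eq_one, key]

theorem tri_2_5 {x y : G} (h : Rel8 x y) :
    (gW x y 2)⁻¹ * (x ^ (-1:ℤ) * lamW x y ^ (1:ℤ)) * gW x y 3 = (x ^ (2:ℤ) * lamW x y ^ (0:ℤ)) * gW x y 0 * (x ^ (-1:ℤ) * lamW x y ^ (0:ℤ)) := by
  have h1 := rel8_one h
  have key : (gW x y 2)⁻¹ * (x ^ (-1:ℤ) * lamW x y ^ (1:ℤ)) * gW x y 3 * ((x ^ (2:ℤ) * lamW x y ^ (0:ℤ)) * gW x y 0 * (x ^ (-1:ℤ) * lamW x y ^ (0:ℤ)))⁻¹ = ((x*y*x*y⁻¹*x⁻¹*y*x⁻¹*y⁻¹*x) * (x⁻¹*y*x*y⁻¹*x*(y*x⁻¹*y*x*y⁻¹)⁻¹) * (x*y*x*y⁻¹*x⁻¹*y*x⁻¹*y⁻¹*x)⁻¹) := by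
    simp only [gW, lamW, Matrix.cons_val_zero, Matrix.cons_val_one, Matrix.cons_val_two, Matrix.cons_val_three, Matrix.cons_val, Matrix.head_cons, Matrix.tail_cons]
    group
    try simp only [zpow_two, mul_assoc]
  rw [h1] at key
  rw [← mul_inv_eq_one, key]
  group

theorem tri_3_0 {x y : G} (h : Rel8 x y) :
    (gW x y 3)⁻¹ * (x ^ (1:ℤ) * lamW x y ^ (0:ℤ)) * gW x y 3 = (x ^ (1:ℤ) * lamW x y ^ (0:ℤ)) * gW x y 0 * (x ^ (0:ℤ) * lamW x y ^ (0:ℤ)) := by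
  have h1 := rel8_one h
  have key : (gW x y 3)⁻¹ * (x ^ (1:ℤ) * lamW x y ^ (0:ℤ)) * gW x y 3 * ((x ^ (1:ℤ) * lamW x y ^ (0:ℤ)) * gW x y 0 * (x ^ (0:ℤ) * lamW x y ^ (0:ℤ)))⁻¹ = 1 := by
    simp only [gW, lamW, Matrix.cons_val_zero, Matrix.cons_val_one, Matrix.cons_val_two, Matrix.cons_val_three, Matrix.cons_val, Matrix.head_cons, Matrix.tail_cons]
    group
    try simp only [zpow_two, mul_assoc]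
  rw [← mul_inv_eq_one, key]

theorem tri_3_1 {x y : G} (h : Rel8 x y) :
    (gW x y 3)⁻¹ * (x ^ (0:ℤ) * lamW x y ^ (0:ℤ)) * gW x y 0 = (x ^ (0:ℤ) * lamW x y ^ (0:ℤ)) * gW x y 1 * (x ^ (0:ℤ) * lamW x y ^ (-1:ℤ)) := by
  have h1 := rel8_one h
  have key : (gW x y 3)⁻¹ * (x ^ (0:ℤ) * lamW x y ^ (0:ℤ)) * gW x y 0 * ((x ^ (0:ℤ) * lamW x y ^ (0:ℤ)) * gW x y 1 * (x ^ (0:ℤ) * lamW x y ^ (-1:ℤ)))⁻¹ = 1 := by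
    simp only [gW, lamW, Matrix.cons_val_zero, Matrix.cons_val_one, Matrix.cons_val_two, Matrix.cons_val_three, Matrix.cons_val, Matrix.head_cons, Matrix.tail_cons]
    group
    try simp only [zpow_two, mul_assoc]
  rw [← mul_inv_eq_one, key]

theorem tri_3_2 {x y : G} (h : Rel8 x y) :
    (gW x y 3)⁻¹ * (x ^ (1:ℤ) * lamW x y ^ (-1:ℤ)) * gW x y 2 = (x ^ (2:ℤ) * lamW x y ^ (0:ℤ)) * gW x y 2 * (x ^ (-1:ℤ) * lamW x y ^ (0:ℤ)) := by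
  have h1 := rel8_one h
  have key : (gW x y 3)⁻¹ * (x ^ (1:ℤ) * lamW x y ^ (-1:ℤ)) * gW x y 2 * ((x ^ (2:ℤ) * lamW x y ^ (0:ℤ)) * gW x y 2 * (x ^ (-1:ℤ) * lamW x y ^ (0:ℤ)))⁻¹ = ((x*y*x⁻¹*y⁻¹) * ((x⁻¹*y*x*y⁻¹*x*(y*x⁻¹*y*x*y⁻¹)⁻¹)⁻¹) * (x*y*x⁻¹*y⁻¹)⁻¹) := by
    simp only [gW, lamW, Matrix.cons_val_zero, Matrix.cons_val_one, Matrix.cons_val_two, Matrix.cons_val_three, Matrix.cons_val, Matrix.head_cons, Matrix.tail_cons]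
    group
    try simp only [zpow_two, mul_assoc]
  rw [h1] at key
  rw [← mul_inv_eq_one, key]
  group

theorem tri_3_3 {x y : G} (h : Rel8 x y) :
    (gW x y 3)⁻¹ * (x ^ (-1:ℤ) * lamW x y ^ (0:ℤ)) * gW x y 3 = (x ^ (1:ℤ) * lamW x y ^ (0:ℤ)) * gW x y 2 * (x ^ (0:ℤ) * lamW x y ^ (0:ℤ)) := by
  have h1 := rel8_one h
  have key : (gW x y 3)⁻¹ * (x ^ (-1:ℤ) * lamW x y ^ (0:ℤ)) * gW x y 3 * ((x ^ (1:ℤ) * lamW x y ^ (0:ℤ)) * gW x y 2 * (x ^ (0:ℤ) * lamW x y ^ (0:ℤ)))⁻¹ = 1 := by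
    simp only [gW, lamW, Matrix.cons_val_zero, Matrix.cons_val_one, Matrix.cons_val_two, Matrix.cons_val_three, Matrix.cons_val, Matrix.head_cons, Matrix.tail_cons]
    group
    try simp only [zpow_two, mul_assoc]
  rw [← mul_inv_eq_one, key]

theorem tri_3_4 {x y : G} (h : Rel8 x y) :
    (gW x y 3)⁻¹ * (x ^ (2:ℤ) * lamW x y ^ (-1:ℤ)) * gW x y 2 = (x ^ (2:ℤ) * lamW x y ^ (0:ℤ)) * gW x y 1 * (x ^ (-2:ℤ) * lamW x y ^ (0:ℤ)) := by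
  have h1 := rel8_one h
  have key : (gW x y 3)⁻¹ * (x ^ (2:ℤ) * lamW x y ^ (-1:ℤ)) * gW x y 2 * ((x ^ (2:ℤ) * lamW x y ^ (0:ℤ)) * gW x y 1 * (x ^ (-2:ℤ) * lamW x y ^ (0:ℤ)))⁻¹ = ((y*x*y⁻¹*x*y*x⁻¹*y⁻¹) * ((x⁻¹*y*x*y⁻¹*x*(y*x⁻¹*y*x*y⁻¹)⁻¹)⁻¹) * (y*x*y⁻¹*x*y*x⁻¹*y⁻¹)⁻¹) * ((x) * (x⁻¹*y*x*y⁻¹*x*(y*x⁻¹*y*x*y⁻¹)⁻¹) * (x)⁻¹) := by
    simp only [gW, lamW, Matrix.cons_val_zero, Matrix.cons_val_one, Matrix.cons_val_two, Matrix.cons_val_three, Matrix.cons_val, Matrix.head_cons, Matrix.tail_cons]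
    group
    try simp only [zpow_two, mul_assoc]
  rw [h1] at key
  rw [← mul_inv_eq_one, key]
  group

theorem tri_3_5 {x y : G} (h : Rel8 x y) :
    (gW x y 3)⁻¹ * (x ^ (1:ℤ) * lamW x y ^ (0:ℤ)) * gW x y 0 = (x ^ (0:ℤ) * lamW x y ^ (0:ℤ)) * gW x y 0 * (x ^ (1:ℤ) * lamW x y ^ (0:ℤ)) := by
  have h1 := rel8_one h
  have key : (gW x y 3)⁻¹ * (x ^ (1:ℤ) * lamW x y ^ (0:ℤ)) * gW x y 0 * ((x ^ (0:ℤ) * lamW x y ^ (0:ℤ)) * gW x y 0 * (x ^ (1:ℤ) * lamW x y ^ (0:ℤ)))⁻¹ = ((1) * ((x⁻¹*y*x*y⁻¹*x*(y*x⁻¹*y*x*y⁻¹)⁻¹)⁻¹) * (1)⁻¹) := by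
    simp only [gW, lamW, Matrix.cons_val_zero, Matrix.cons_val_one, Matrix.cons_val_two, Matrix.cons_val_three, Matrix.cons_val, Matrix.head_cons, Matrix.tail_cons]
    group
    try simp only [zpow_two, mul_assoc]
  rw [h1] at key
  rw [← mul_inv_eq_one, key]
  group

end words

end DHN
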