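import Pool.Agent.DHN.W4b
import Pool.Agent.DHN.C1
import Pool.Agent.DHN.C2b
import Pool.Agent.DHN.V5c

/-!
# [DHN-Z1a] the one-cusped manifold M
-/

set_option autoImplicit false

open Topology Matrix ComplexConjugate Filter MeasureTheory

namespace DHN

theorem good_zero : Good 0 ⊥ := by
  have h := theoremT _ _ _ hyp_zero
  rw [Filter.eventually_top] at h
  exact h ()

/-- the group of the 7-fold cover `M` of the figure-eight knot complement -/
noncomputable def GamM : Subgroup SL2C := GM.map (rho 0)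

/-- the meridian of `M` -/
noncomputable def muM : GamM := ⟨rho 0 (pel 7 0), Subgroup.mem_map_of_mem _ ((pel_mem_GM 7 0).2 (by norm_num))⟩

/-- the longitude of `M` -/
noncomputable def lamM : GamM := ⟨rho 0 (pel (-3) 1), Subgroup.mem_map_of_mem _ ((pel_mem_GM (-3) 1).2 (by norm_num))⟩

/-- PROOF. `μ^p λ^r = rho 0 (pel (7p - 3r) r)`. -/
theorem mu_lam_pow (p r : ℤ) : ((muM ^ p * lamM ^ r : GamM) : SL2C) = rho 0 (pel (7 * p - 3 * r) r) := by
  rw [Subgroup.coe_mul, Subgroup.coe_zpow, Subgroup.coe_zpow]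
  show rho 0 (pel 7 0) ^ p * rho 0 (pel (-3) 1) ^ r = rho 0 (pel (7 * p - 3 * r) r)
  rw [← map_zpow, ← map_zpow, ← map_mul, pel_zpow, pel_zpow, pel_mul]
  congr 2 <;> ring

theorem z1a_zero (z : ℂ) (hz : InO z) (h : ‖z‖ < 1 / 2) : z = 0 := by
  obtain ⟨m, n, hmn⟩ := hz
  have h1 : Complex.normSq z < 1 := by
    rw [Complex.normSq_eq_norm_sq]
    nlinarith [norm_nonneg z]
  have h0 := Complex.normSq_nonneg z
  have h2 := normSq_InO m n
  rw [← hmn] at h2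
  rw [h2] at h1 h0
  have h3 : m ^ 2 - m * n + n ^ 2 < 1 := by exact_mod_cast h1
  have h4 : 0 ≤ m ^ 2 - m * n + n ^ 2 := by exact_mod_cast h0
  have h5 : m ^ 2 - m * n + n ^ 2 = 0 := by omega
  rw [← Complex.normSq_eq_zero, h2, h5, Int.cast_zero]

theorem z1a_discrete : DiscreteTopology GamM := by
  apply discrete_of_isolated GamM (1 / 2) (by norm_num)
  intro g hg h
  obtain ⟨g0, -, rfl⟩ := Subgroup.mem_map.1 hg
  apply Subtype.ext
  ext i j
  have h1 : InO ((rho 0 g0) i j - (1 : SL2C) i j) := by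
    refine (InO_ops _ _ (rho0_InO g0 i j) ?_).2.1
    have h2 := rho0_InO 1 i j
    rw [map_one] at h2
    exact h2
  exact sub_eq_zero.1 (z1a_zero _ h1 (h i j))

theorem z1a_free : ∀ g ∈ GamM, ∀ y : H3, g • y = y → g = 1 := by
  intro g hg y hy
  obtain ⟨g0, -, rfl⟩ := Subgroup.mem_map.1 hg
  rw [rho0_free good_zero g0 y hy, map_one]

theorem z1a_pel_act (m : ℤ) (y : H3) : (rho 0 (pel m 0) • y).1.1 = y.1.1 + m ∧ (rho 0 (pel m 0) • y).1.2 = y.1.2 := by
  have h := rho0_pel m 0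
  rw [zpow_zero, one_smul] at h
  have e00 : (rho 0 (pel m 0)) 0 0 = 1 := by
    show (rho 0 (pel m 0)).1 0 0 = 1
    rw [h]
    simp
  have e01 : (rho 0 (pel m 0)) 0 1 = m := by
    show (rho 0 (pel m 0)).1 0 1 = m
    rw [h]
    simp
  have e10 : (rho 0 (pel m 0)) 1 0 = 0 := by
    show (rho 0 (pel m 0)).1 1 0 = 0
    rw [h]
    simp
  obtain ⟨h1, h2⟩ := smul_upper (rho 0 (pel m 0)) y e10
  rw [h1, h2, e00, e01]
  simp

theorem z1a_cover (y : H3) : ∃ g ∈ GamM, g • y ∈ {y : H3 | ‖y.1.1‖ ≤ 9 ∧ 0.7 ≤ y.1.2} := by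
  obtain ⟨g, hg1, hg2⟩ := rho0_cusp_cover good_zero y
  obtain ⟨γ, hγ, i, hi⟩ := GM_trans g⁻¹
  have h7 : pel (-(7 * (i / 7))) 0 ∈ GM := (pel_mem_GM _ _).2 ⟨-(i / 7), by ring⟩
  have hm0 := Int.emod_nonneg i (show (7 : ℤ) ≠ 0 by norm_num)
  have hm1 := Int.emod_lt_of_pos i (show (0 : ℤ) < 7 by norm_num)
  have hdm := Int.mul_ediv_add_emod i 7
  have hg : pel (-(7 * (i / 7))) 0 * γ⁻¹ = pel (i % 7) 0 * g := by
    have h1 : g = (pel i 0)⁻¹ * γ⁻¹ := by
      rw [← _root_.mul_inv_rev, ← hi, inv_inv]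
    rw [h1, ← mul_assoc, pel_inv, pel_mul]
    congr 2
    omega
  refine ⟨rho 0 (pel (-(7 * (i / 7))) 0 * γ⁻¹), Subgroup.mem_map_of_mem _ (GM.mul_mem h7 (GM.inv_mem hγ)), ?_⟩
  rw [hg, map_mul, mul_smul]
  obtain ⟨a1, a2⟩ := z1a_pel_act (i % 7) (rho 0 g • y)
  refine ⟨?_, ?_⟩
  · rw [a1]
    refine (norm_add_le _ _).trans ?_
    have h3 : ‖((i % 7 : ℤ) : ℂ)‖ ≤ 6 := by
      rw [Complex.norm_intCast, abs_of_nonneg (by exact_mod_cast hm0)]
      have : i % 7 ≤ 6 := by omega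
      exact_mod_cast this
    linarith
  · rw [a2]
    exact hg2

theorem z1a_meas : MeasurableSet {y : H3 | ‖y.1.1‖ ≤ 9 ∧ 0.7 ≤ y.1.2} := by
  have h1 : Measurable fun y : H3 => ‖y.1.1‖ := (measurable_fst.comp measurable_subtype_coe).norm
  have h2 : Measurable fun y : H3 => y.1.2 := measurable_snd.comp measurable_subtype_coe
  exact (measurableSet_le h1 measurable_const).inter (measurableSet_le measurable_const h2)

theorem z1a_sqrt3 (a j : ℤ) (h : (a : ℂ) + 2 * j * (Complex.I * (Real.sqrt 3 : ℂ)) = 0) : a = 0 ∧ j = 0 := by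
  have hre := congrArg Complex.re h
  have him := congrArg Complex.im h
  simp at hre him
  exact ⟨hre, him⟩

theorem z1a_trace (i j : ℤ) : (Matrix.trace (rho 0 (pel i j)).1) ^ 2 = 4 := by
  rw [rho0_pel, Matrix.trace_smul, Matrix.trace_fin_two_of, smul_eq_mul, mul_pow]
  have h : ((-1 : ℂ) ^ j) ^ 2 = 1 := by
    rw [sq, ← mul_zpow]
    norm_num
  rw [h]
  norm_num

/-- PROOF. `discrete`: entries in `O` (`rho0_InO`): if all entries are within `1/2` of those of `1` they are equal (`normSq_InO`), `discrete_of_isolated`. `free`: `rho0_free good_zero`. `volume`: `exists_volume` with `K = ⋃_{r} rho 0 gr⁻¹ • {|z| ≤ 3, t ≥ 0.7}` over representatives of `E = ⋃ gr GM`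
(`index_GM`, `rho0_cusp_cover`, `hypVol_cusp`, invariance; measurable since closed). `comm`, `basis`, `parabolic`: `mu_lam_pow`, `rho0_injective`, `rho0_pel`. `one_cusp`: `g = rho 0 g0`, `g0 ∈ GM`, `rho0_parabolic`: `k g0 k⁻¹ = pel i j`; `k⁻¹ = γ * pel i' 0` (`GM_trans`), so `γ⁻¹ g0 γ = pel i j` (peripheral elements commute), in `GM`:
`7 ∣ i + 3 j`, `i = 7 p - 3 j`; `h = γ⁻¹`. -/
theorem oneCusped_M : IsOneCusped GamM muM lamM := by
  refine { discrete := z1a_discrete, free := z1a_free, volume := ?_, comm := ?_, basis := ?_, parabolic := ?_, one_cusp := ?_ }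
  · obtain ⟨v, -, hv⟩ := exists_volume GamM ⟨z1a_discrete, z1a_free⟩ _ z1a_meas
      (hypVol_cusp 9 0.7 (by norm_num)) z1a_cover
    exact ⟨v, hv⟩
  · apply Subtype.ext
    rw [Subgroup.coe_mul, Subgroup.coe_mul]
    show rho 0 (pel 7 0) * rho 0 (pel (-3) 1) = rho 0 (pel (-3) 1) * rho 0 (pel 7 0)
    rw [← map_mul, ← map_mul, pel_mul, pel_mul]
    congr 2
  · intro i j h
    have h1 := congrArg (fun x : GamM => (x : SL2C)) h
    simp only [mu_lam_pow] at h1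
    have h2 : (rho 0 (pel (7 * i - 3 * j) j)).1 0 1 = 0 := by
      rw [h1]
      simp
    rw [rho0_pel] at h2
    have h3 : ((-1 : ℂ) ^ j) * (((7 * i - 3 * j : ℤ) : ℂ) + 2 * j * (Complex.I * (Real.sqrt 3 : ℂ))) = 0 := by
      simpa using h2
    have h4 : ((-1 : ℂ) ^ j) ≠ 0 := zpow_ne_zero _ (by norm_num)
    obtain ⟨h5, h6⟩ := z1a_sqrt3 _ _ ((mul_eq_zero.1 h3).resolve_left h4)
    constructor
    · omega
    · exact h6
  · intro i j
    rw [mu_lam_pow]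
    exact z1a_trace _ _
  · intro g hg
    obtain ⟨g0, hg0, hgg⟩ := Subgroup.mem_map.1 g.2
    obtain ⟨k, i, j, hk⟩ := rho0_parabolic good_zero g0 (by
      rw [hgg]
      exact hg)
    obtain ⟨γ, hγ, i', hi'⟩ := GM_trans k⁻¹
    have hconj : γ⁻¹ * g0 * γ = pel i j := by
      have h1 : γ⁻¹ = pel i' 0 * k := by
        rw [inv_eq_iff_eq_inv, _root_.mul_inv_rev, hi', mul_assoc, mul_inv_cancel, mul_one]
      have h2 : γ = k⁻¹ * (pel i' 0)⁻¹ := by
        rw [hi', mul_assoc, mul_inv_cancel, mul_one]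
      rw [h1]
      conv_lhs => rw [h2]
      have h3 : pel i' 0 * k * g0 * (k⁻¹ * (pel i' 0)⁻¹) = pel i' 0 * (k * g0 * k⁻¹) * (pel i' 0)⁻¹ := by group
      rw [h3, hk, pel_inv, pel_mul, pel_mul]
      congr 1 <;> ring
    have hmem : pel i j ∈ GM := by
      rw [← hconj]
      exact GM.mul_mem (GM.mul_mem (GM.inv_mem hγ) hg0) hγ
    obtain ⟨p, hp⟩ := (pel_mem_GM i j).1 hmem
    refine ⟨⟨rho 0 γ⁻¹, Subgroup.mem_map_of_mem _ (GM.inv_mem hγ)⟩, p, j, ?_⟩
    apply Subtype.ext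
    rw [mu_lam_pow, Subgroup.coe_mul, Subgroup.coe_mul, Subgroup.coe_inv, ← hgg]
    show rho 0 γ⁻¹ * rho 0 g0 * (rho 0 γ⁻¹)⁻¹ = rho 0 (pel (7 * p - 3 * j) j)
    rw [← map_inv, ← map_mul, ← map_mul, inv_inv, hconj]
    congr 2
    omega

end DHN
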