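import Pool.Agent.DHN.Z1a

/-!
# [DHN-Z1b] fundamental groups of fillings
-/

set_option autoImplicit false

open Topology Matrix ComplexConjugate Filter MeasureTheory

namespace DHN

theorem z1b_conj (g : E) (p r : ℤ) : ∃ γ ∈ GM, g * pel p r * g⁻¹ = γ * pel p r * γ⁻¹ := by
  obtain ⟨γ, hγ, i, hg⟩ := GM_trans g
  refine ⟨γ, hγ, ?_⟩
  have h1 : pel i 0 * pel p r * (pel i 0)⁻¹ = pel p r := by
    rw [pel_inv, pel_mul, pel_mul]
    congr 1 <;> ring
  rw [hg]
  calc γ * pel i 0 * pel p r * (γ * pel i 0)⁻¹ =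
        γ * (pel i 0 * pel p r * (pel i 0)⁻¹) * γ⁻¹ := by group
    _ = γ * pel p r * γ⁻¹ := by rw [h1]

theorem z1b_le (p r : ℤ) (c : GM) (hc : (c : E) = pel p r) :
    Subgroup.normalClosure {pel p r} ≤ (Subgroup.normalClosure {c}).map GM.subtype := by
  unfold Subgroup.normalClosure
  rw [Subgroup.closure_le]
  intro x hx
  rw [Group.mem_conjugatesOfSet_iff] at hx
  obtain ⟨a, ha, hax⟩ := hx
  rw [Set.mem_singleton_iff] at ha
  subst ha
  rw [isConj_iff] at hax
  obtain ⟨g, hg⟩ := hax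
  obtain ⟨γ, hγ, hγe⟩ := z1b_conj g p r
  have hn : (Subgroup.normalClosure {c}).Normal := Subgroup.normalClosure_normal
  have h1 : (⟨γ, hγ⟩ : GM) * c * (⟨γ, hγ⟩ : GM)⁻¹ ∈ Subgroup.normalClosure {c} :=
    hn.conj_mem c (Subgroup.subset_normalClosure (Set.mem_singleton c)) _
  refine ⟨_, h1, ?_⟩
  rw [← hg, hγe, ← hc]
  rfl

/-- Fundamental groups of fillings. PROOF. `f : E → SL2C` with kernel `N ≤ GM`, `N` = normal closure in `E` of `c = pel (7 p - 3 r) r ∈ GM`. Let `Θ : GamM → SL2C`, `rho 0 g ↦ f g` for `g ∈ GM` (well defined: `rho0_injective good_zero`; e.g. `(f.comp GM.subtype).comp (iso).symm`). Its range is `GM.map f`, its kernel is the image of `N` under `rho 0`, which is the normal closure in `GamM` of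
`rho 0 c = μ^p λ^r`: every conjugate `g c g⁻¹`, `g = γ * pel i 0`, equals `γ c γ⁻¹`. Then `QuotientGroup.quotientKerEquivRange`. -/
theorem filling_iso (p r : ℤ) (f : E →* SL2C) (hf : f.ker = Subgroup.normalClosure {pel (7 * p - 3 * r) r}) :
    Nonempty ((GamM ⧸ Subgroup.normalClosure {muM ^ p * lamM ^ r}) ≃* (GM.map f)) := by
  have hcm : pel (7 * p - 3 * r) r ∈ GM := (pel_mem_GM _ _).2 ⟨p, by ring⟩
  obtain ⟨c, hc⟩ : ∃ c : GM, (c : E) = pel (7 * p - 3 * r) r := ⟨⟨_, hcm⟩, rfl⟩
  obtain ⟨e, he⟩ : ∃ e : GM ≃* GamM, ∀ x : GM, ((e x : GamM) : SL2C) = rho 0 (x : E) :=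
    ⟨GM.equivMapOfInjective (rho 0) (rho0_injective good_zero), fun x => rfl⟩
  have hec : e c = muM ^ p * lamM ^ r := by
    apply Subtype.ext
    rw [he, hc, mu_lam_pow]
  have hker : (f.subgroupMap GM).ker = Subgroup.normalClosure {c} := by
    apply le_antisymm
    · intro x hx
      have h1 : (x : E) ∈ f.ker := by
        rw [MonoidHom.mem_ker] at hx ⊢
        exact congrArg Subtype.val hx
      rw [hf] at h1
      obtain ⟨y, hy, hyx⟩ := z1b_le _ _ c hc h1
      have h2 : y = x := Subtype.ext hyx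
      rw [← h2]
      exact hy
    · apply Subgroup.normalClosure_le_normal
      intro x hx
      rw [Set.mem_singleton_iff] at hx
      rw [hx]
      show c ∈ (f.subgroupMap GM).ker
      rw [MonoidHom.mem_ker]
      apply Subtype.ext
      show f (c : E) = 1
      rw [← MonoidHom.mem_ker, hf, hc]
      exact Subgroup.subset_normalClosure (Set.mem_singleton _)
  have hker2 : ((f.subgroupMap GM).comp e.symm.toMonoidHom).ker =
      Subgroup.normalClosure {muM ^ p * lamM ^ r} := by
    have h3 := Subgroup.map_normalClosure {c} e.toMonoidHom e.surjective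
    rw [Set.image_singleton] at h3
    have h4 : e.toMonoidHom c = muM ^ p * lamM ^ r := hec
    rw [h4] at h3
    rw [← h3, ← hker]
    ext x
    rw [MonoidHom.mem_ker, Subgroup.mem_map]
    constructor
    · intro hx
      exact ⟨e.symm x, hx, e.apply_symm_apply x⟩
    · rintro ⟨y, hy, rfl⟩
      show (f.subgroupMap GM) (e.symm (e y)) = 1
      rw [e.symm_apply_apply]
      exact hy
  have hsurj : Function.Surjective ((f.subgroupMap GM).comp e.symm.toMonoidHom) :=
    (f.subgroupMap_surjective GM).comp e.symm.surjective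
  exact ⟨(QuotientGroup.quotientMulEquivOfEq hker2.symm).trans
    (QuotientGroup.quotientKerEquivOfSurjective _ hsurj)⟩

end DHN
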