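import Pool.Agent.DHN.Z1b

/-!
# [DHN-Z2a] the two families of fillings
-/

set_option autoImplicit false

open Topology Matrix ComplexConjugate Filter MeasureTheory

namespace DHN

theorem z2a_ker (u : ℕ → ℂ) (hu : Sol u) : ∀ᶠ n : ℕ in atTop, (rho (u n)).ker = NN n := by
  filter_upwards [filled_kernel u hu, filled_triv u hu] with n h1 h2
  apply le_antisymm
  · intro g hg
    exact h1 g (MonoidHom.mem_ker.1 hg)
  · intro g hg
    exact MonoidHom.mem_ker.2 (h2 g hg)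

theorem z2a_map : GM.map psiHom = GM' := by
  ext g
  rw [Subgroup.mem_map, mem_GM']
  constructor
  · rintro ⟨x, hx, rfl⟩
    rw [phi_psi]
    exact hx
  · intro hg
    exact ⟨phiHom g, hg, psi_phi g⟩

/-- PROOF. `f = rho (u n)`, `f.ker = NN n` (`filled_kernel`, `filled_triv`), `7 (7 n + 3) - 21 = 49 n`; `filling_iso`. -/
theorem fill_iso_1 (u : ℕ → ℂ) (hu : Sol u) : ∀ᶠ n : ℕ in atTop,
    Nonempty ((GamM ⧸ Subgroup.normalClosure {muM ^ (7 * (n : ℤ) + 3) * lamM ^ (7 : ℤ)}) ≃*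
      (GM.map (rho (u n)))) := by
  filter_upwards [z2a_ker u hu] with n hn
  refine filling_iso (7 * (n : ℤ) + 3) 7 (rho (u n)) ?_
  rw [hn]
  unfold NN
  have h1 : (7 * (7 * (n : ℤ) + 3) - 3 * 7) = 49 * n := by ring
  rw [h1]

/-- PROOF. `f = (rho (u n)).comp psiHom`; `f.ker = {g | psi g ∈ NN n} =` normal closure of `phi (pel (49 n) 7) = pel (-49 n) 7` (`phi`, `psi` inverse automorphisms; `Subgroup.map_normalClosure` for the surjective `phiHom`), `7 (3 - 7 n) - 21 = -49 n`; `filling_iso`. `GM.map f = (GM.map psi).map (rho (u n))` and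
`GM.map psiHom = GM'` (`phi_psi`, `psi_phi`). -/
theorem fill_iso_2 (u : ℕ → ℂ) (hu : Sol u) : ∀ᶠ n : ℕ in atTop,
    Nonempty ((GamM ⧸ Subgroup.normalClosure {muM ^ (3 - 7 * (n : ℤ)) * lamM ^ (7 : ℤ)}) ≃*
      (GM'.map (rho (u n)))) := by
  filter_upwards [z2a_ker u hu] with n hn
  have h2 : GM'.map (rho (u n)) = GM.map ((rho (u n)).comp psiHom) := by
    rw [← z2a_map, Subgroup.map_map]
  rw [h2]
  refine filling_iso (3 - 7 * (n : ℤ)) 7 ((rho (u n)).comp psiHom) ?_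
  have h1 : (7 * (3 - 7 * (n : ℤ)) - 3 * 7) = -(49 * n) := by ring
  rw [h1]
  have hs : Function.Surjective phiHom := fun g => ⟨psiHom g, phi_psi g⟩
  have h3 := Subgroup.map_normalClosure {pel (49 * (n : ℤ)) 7} phiHom hs
  rw [Set.image_singleton, phi_pel] at h3
  rw [← h3]
  have h4 : Subgroup.normalClosure {pel (49 * (n : ℤ)) 7} = (rho (u n)).ker := by
    rw [hn]
    rfl
  rw [h4]
  ext g
  rw [MonoidHom.mem_ker, Subgroup.mem_map]
  constructor
  · intro hg
    exact ⟨psiHom g, hg, phi_psi g⟩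
  · rintro ⟨y, hy, rfl⟩
    show rho (u n) (psiHom (phiHom y)) = 1
    rw [psi_phi]
    exact hy

end DHN
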