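import Mathlib

/-!
# [DHN-Z2b] integer matrices
-/

set_option autoImplicit false

open Topology Matrix ComplexConjugate Filter MeasureTheory

namespace DHN

/-- An integer matrix takes `(3 - 7 j, 7)` to `± (7 j + 3, 7)` for at most one `j` (for each sign). PROOF. `A = (a b; c d)`: for `j ≠ j'`: second row: `c (3 - 7j) + 7 d = 7 e = c (3 - 7j') + 7d`: `c = 0`. First row: `a (3 - 7j) + 7b = e (7j + 3)`, subtract: `a = -e`; then `-3e + 7b = 3e`, `7 b = 6 e`, `e = ± 1`: impossible. -/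
theorem matrix_once (A : Matrix (Fin 2) (Fin 2) ℤ) (e j j' : ℤ) (he : e = 1 ∨ e = -1)
    (h : A.mulVec ![3 - 7 * j, 7] = e • ![7 * j + 3, 7])
    (h' : A.mulVec ![3 - 7 * j', 7] = e • ![7 * j' + 3, 7]) : j = j' := by
  by_contra hne
  have h0 := congrFun h 0
  have h1 := congrFun h 1
  have h0' := congrFun h' 0
  have h1' := congrFun h' 1
  simp [Matrix.mulVec, dotProduct, Fin.sum_univ_two] at h0 h1 h0' h1'
  have hj : j - j' ≠ 0 := sub_ne_zero.2 hne
  have ha : (A 0 0 + e) * (j - j') = 0 := by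
    have h7 : (7 : ℤ) * ((A 0 0 + e) * (j - j')) = 0 := by linear_combination h0' - h0
    omega
  have ha' : A 0 0 = -e := by
    rcases mul_eq_zero.1 ha with h | h
    · linarith
    · exact absurd h hj
  rw [ha'] at h0
  have h6 : 7 * A 0 1 = 6 * e := by linear_combination h0
  omega

/-- PROOF. For each of the finitely many `A ∈ S` and signs `e` at most one `j` is bad (`matrix_once`): take `j0` larger than all bad `j`. -/
theorem finite_set_misses (S : Set (Matrix (Fin 2) (Fin 2) ℤ)) (hS : S.Finite) : ∃ j0 : ℤ, ∀ j : ℤ, j0 ≤ j →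
    ∀ A ∈ S, A.mulVec ![3 - 7 * j, 7] ≠ ![7 * j + 3, 7] ∧ A.mulVec ![3 - 7 * j, 7] ≠ -![7 * j + 3, 7] := by
  have hfin : ∀ (A : Matrix (Fin 2) (Fin 2) ℤ) (e : ℤ), (e = 1 ∨ e = -1) →
      {j : ℤ | A.mulVec ![3 - 7 * j, 7] = e • ![7 * j + 3, 7]}.Finite := by
    intro A e he
    apply Set.Subsingleton.finite
    intro j hj j' hj'
    exact matrix_once A e j j' he hj hj'
  have hbad : (⋃ A ∈ S, ({j : ℤ | A.mulVec ![3 - 7 * j, 7] = (1 : ℤ) • ![7 * j + 3, 7]} ∪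
      {j : ℤ | A.mulVec ![3 - 7 * j, 7] = (-1 : ℤ) • ![7 * j + 3, 7]})).Finite :=
    hS.biUnion (fun A _ => (hfin A 1 (Or.inl rfl)).union (hfin A (-1) (Or.inr rfl)))
  obtain ⟨b, hb⟩ := hbad.bddAbove
  refine ⟨b + 1, ?_⟩
  intro j hj A hA
  have hnot : j ∉ (⋃ A ∈ S, ({j : ℤ | A.mulVec ![3 - 7 * j, 7] = (1 : ℤ) • ![7 * j + 3, 7]} ∪
      {j : ℤ | A.mulVec ![3 - 7 * j, 7] = (-1 : ℤ) • ![7 * j + 3, 7]})) := by
    intro h
    have := hb h
    omega
  constructor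
  · intro h
    apply hnot
    rw [Set.mem_iUnion₂]
    refine ⟨A, hA, Or.inl ?_⟩
    show A.mulVec ![3 - 7 * j, 7] = (1 : ℤ) • ![7 * j + 3, 7]
    rw [one_smul, h]
  · intro h
    apply hnot
    rw [Set.mem_iUnion₂]
    refine ⟨A, hA, Or.inr ?_⟩
    show A.mulVec ![3 - 7 * j, 7] = (-1 : ℤ) • ![7 * j + 3, 7]
    rw [neg_smul, one_smul, h]

end DHN
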