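import Pool.Agent.DHN.Z2a
import Pool.Agent.DHN.Z2b

/-!
# [DHN-Z2c] assembly
-/

set_option autoImplicit false

open Topology Matrix ComplexConjugate Filter MeasureTheory

namespace DHN

/-- PROOF. `closed_group`, `suit_GM`, `suit_GM'`, `exists_volume` (the compact set of cocompactness: `hypVol_compact`, measurable since closed), `equal_volume` with `Λ = (rho (u n)).range` and `image_index`, `fill_iso_1`, `fill_iso_2`. -/
theorem equal_fillings (u : ℕ → ℂ) (hu : Sol u) : ∀ᶠ n : ℕ in atTop, ∃ v : ℝ, 0 < v ∧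
    FillingHasVolume GamM muM lamM (7 * n + 3) 7 v ∧ FillingHasVolume GamM muM lamM (3 - 7 * n) 7 v := by
  filter_upwards [closed_group u hu, image_index u hu, fill_iso_1 u hu, fill_iso_2 u hu]
    with n h1 h2 h3 h4
  have c1 := h1 GM (suit_GM n)
  have c2 := h1 GM' (suit_GM' n)
  obtain ⟨K, hK, hcov⟩ := c1.cocompact
  obtain ⟨v, hv, hvol⟩ := exists_volume _ c1.toIsHypManifoldGroup K hK.isClosed.measurableSet
    (hypVol_compact K hK) hcov
  have hvol' := equal_volume (rho (u n)).range _ _ (Subgroup.map_le_range _ _)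
    (Subgroup.map_le_range _ _) (h2 GM (suit_GM n)) (h2 GM' (suit_GM' n))
    c1.toIsHypManifoldGroup c2.toIsHypManifoldGroup v hvol
  exact ⟨v, hv, ⟨_, c1, hvol, h3⟩, ⟨_, c2, hvol', h4⟩⟩

/-- The negation of Q1. -/
theorem main_theorem : ∃ (Γ : Subgroup SL2C) (μ lam : Γ), IsOneCusped Γ μ lam ∧
    ∀ S : Set (Matrix (Fin 2) (Fin 2) ℤ), S.Finite → ∃ j0 : ℤ, ∀ j : ℤ, j0 ≤ j →
      IsCoprime (7 * j + 3) 7 ∧ IsCoprime (3 - 7 * j) 7 ∧
      (∃ v : ℝ, 0 < v ∧ FillingHasVolume Γ μ lam (7 * j + 3) 7 v ∧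
        FillingHasVolume Γ μ lam (3 - 7 * j) 7 v) ∧
      ∀ A ∈ S, A.mulVec ![3 - 7 * j, 7] ≠ ![7 * j + 3, 7] ∧
        A.mulVec ![3 - 7 * j, 7] ≠ -![7 * j + 3, 7] := by
  obtain ⟨u, hu⟩ := exists_param_seq
  refine ⟨GamM, muM, lamM, oneCusped_M, ?_⟩
  intro S hS
  obtain ⟨j0, hj0⟩ := finite_set_misses S hS
  obtain ⟨n0, hn0⟩ := Filter.eventually_atTop.1 (equal_fillings u hu)
  refine ⟨max j0 (n0 : ℤ), ?_⟩
  intro j hj
  have hj1 : j0 ≤ j := le_trans (le_max_left _ _) hj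
  have hj2 : (n0 : ℤ) ≤ j := le_trans (le_max_right _ _) hj
  obtain ⟨n, rfl⟩ : ∃ n : ℕ, j = (n : ℤ) := ⟨j.toNat, by omega⟩
  refine ⟨⟨5, -5 * n - 2, by ring⟩, ⟨5, 5 * n - 2, by ring⟩, ?_, hj0 n hj1⟩
  exact hn0 n (by exact_mod_cast hj2)

end DHN
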